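import Pool.Agent.Lib.MP_848d44_nt_EM.Defs

/-!
# Project EM (MP_848d44_nt), module Idn: the arithmetic identity
-/

set_option autoImplicit false

namespace Pool.Agent.EM

open Finset Complex MeasureTheory
open scoped ArithmeticFunction ENNReal ContDiff ComplexConjugate

/-- `V(s) = ∑_{X < n ≤ 2Z} Λ(n) χ(n) n^{-s} S_w(Z/n, s)`. -/
noncomputable def VV {q : ℕ} (χ : DirichletCharacter ℂ q) (X Z : ℝ) (s : ℂ) : ℂ :=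
  ∑ n ∈ Ioc ⌊X⌋₊ ⌊2 * Z⌋₊, χ (n : ZMod q) * ((ArithmeticFunction.vonMangoldt n : ℝ) : ℂ) *
    (n : ℂ) ^ (-s) * SD w χ (Z / n) s

theorem Idn_swap (N : ℕ) (g : ℕ → ℕ → ℂ) :
    ∑ n ∈ Icc 1 N, ∑ m ∈ Icc 1 (N / n), g n (n * m) =
      ∑ k ∈ Icc 1 N, ∑ n ∈ k.divisors, g n k := by
  rw [Finset.sum_sigma', Finset.sum_sigma']
  refine Finset.sum_nbij' (fun x : (_ : ℕ) × ℕ => (⟨x.1 * x.2, x.1⟩ : (_ : ℕ) × ℕ))
    (fun y => ⟨y.2, y.1 / y.2⟩) ?_ ?_ ?_ ?_ ?_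
  · rintro ⟨n, m⟩ h
    simp only [mem_sigma, mem_Icc, Nat.mem_divisors] at h ⊢
    obtain ⟨⟨h1, h2⟩, h3, h4⟩ := h
    rw [Nat.le_div_iff_mul_le (by omega)] at h4
    have h5 : 0 < n * m := Nat.mul_pos h1 h3
    exact ⟨⟨h5, by rw [mul_comm]; exact h4⟩, Dvd.intro _ rfl, h5.ne'⟩
  · rintro ⟨k, n⟩ h
    simp only [mem_sigma, mem_Icc, Nat.mem_divisors] at h ⊢
    obtain ⟨⟨h1, h2⟩, h3, h4⟩ := h
    have h5 : n ≤ k := Nat.le_of_dvd (by omega) h3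
    have h6 : 0 < n := Nat.pos_of_dvd_of_pos h3 (by omega)
    exact ⟨⟨h6, h5.trans h2⟩, (Nat.div_pos h5 h6), Nat.div_le_div_right h2⟩
  · rintro ⟨n, m⟩ h
    simp only [mem_sigma, mem_Icc] at h
    obtain ⟨⟨h1, h2⟩, h3, h4⟩ := h
    simp only
    rw [Nat.mul_div_cancel_left _ (by omega)]
  · rintro ⟨k, n⟩ h
    simp only [mem_sigma, mem_Icc, Nat.mem_divisors] at h
    simp only
    rw [Nat.mul_div_cancel' h.2.1]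
  · rintro ⟨n, m⟩ h
    rfl

theorem Idn_term {q : ℕ} (χ : DirichletCharacter ℂ q) (Z : ℝ) (s : ℂ) {n : ℕ} (hn : 1 ≤ n) :
    χ (n : ZMod q) * ((ArithmeticFunction.vonMangoldt n : ℝ) : ℂ) * (n : ℂ) ^ (-s) *
      SD w χ (Z / n) s = ∑ m ∈ Icc 1 (⌊2 * Z⌋₊ / n),
        (χ ((n * m : ℕ) : ZMod q) * ((n * m : ℕ) : ℂ) ^ (-s) *
          ((w ((n * m : ℕ) / Z) : ℝ) : ℂ)) * ((ArithmeticFunction.vonMangoldt n : ℝ) : ℂ) := by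
  have hn0 : (n : ℝ) ≠ 0 := by
    have : (1:ℝ) ≤ n := by exact_mod_cast hn
    linarith
  unfold SD
  have hfl : ⌊2 * (Z / n)⌋₊ = ⌊2 * Z⌋₊ / n := by
    rw [← mul_div_assoc, Nat.floor_div_natCast]
  rw [hfl, Finset.mul_sum]
  refine Finset.sum_congr rfl fun m _ => ?_
  have h1 : ((n * m : ℕ) : ℂ) ^ (-s) = (n : ℂ) ^ (-s) * (m : ℂ) ^ (-s) := by
    push_cast
    rw [Complex.natCast_mul_natCast_cpow]
  have h2 : χ ((n * m : ℕ) : ZMod q) = χ (n : ZMod q) * χ (m : ZMod q) := by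
    push_cast
    rw [map_mul]
  have h3 : ((m : ℝ) / (Z / n)) = ((n * m : ℕ) : ℝ) / Z := by
    push_cast
    rw [div_div_eq_mul_div, mul_comm]
  rw [h1, h2, h3]
  ring

theorem Idn_deriv {q : ℕ} (χ : DirichletCharacter ℂ q) (Z : ℝ) (s : ℂ) :
    - deriv (SD w χ Z) s = ∑ k ∈ Icc 1 ⌊2 * Z⌋₊,
      (χ (k : ZMod q) * (k : ℂ) ^ (-s) * ((w (k / Z) : ℝ) : ℂ)) * ((Real.log k : ℝ) : ℂ) := by
  have h : HasDerivAt (SD w χ Z) (∑ k ∈ Icc 1 ⌊2 * Z⌋₊,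
      χ (k : ZMod q) * ((k : ℂ) ^ (-s) * Complex.log k * (-1)) * ((w (k / Z) : ℝ) : ℂ)) s := by
    unfold SD
    refine HasDerivAt.fun_sum fun k hk => ?_
    have hk0 : (k : ℂ) ≠ 0 := by
      have : 1 ≤ k := (mem_Icc.1 hk).1
      exact_mod_cast (by omega : k ≠ 0)
    exact (((hasDerivAt_id s).fun_neg.const_cpow (Or.inl hk0)).const_mul _).mul_const _
  rw [h.deriv, ← Finset.sum_neg_distrib]
  refine Finset.sum_congr rfl fun k _ => ?_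
  rw [Complex.natCast_log]
  ring

theorem Idn_total {q : ℕ} (χ : DirichletCharacter ℂ q) (Z : ℝ) (s : ℂ) :
    ∑ n ∈ Icc 1 ⌊2 * Z⌋₊, χ (n : ZMod q) * ((ArithmeticFunction.vonMangoldt n : ℝ) : ℂ) *
      (n : ℂ) ^ (-s) * SD w χ (Z / n) s = - deriv (SD w χ Z) s := by
  rw [Idn_deriv, Finset.sum_congr rfl fun n hn => Idn_term χ Z s (mem_Icc.1 hn).1]
  rw [Idn_swap ⌊2 * Z⌋₊ (fun n k => (χ (k : ZMod q) * (k : ℂ) ^ (-s) *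
    ((w ((k : ℝ) / Z) : ℝ) : ℂ)) * ((ArithmeticFunction.vonMangoldt n : ℝ) : ℂ))]
  refine Finset.sum_congr rfl fun k _ => ?_
  rw [← Finset.mul_sum, ← ArithmeticFunction.vonMangoldt_sum]
  push_cast
  rfl

/-- Text (4.1). -/
theorem ident {q : ℕ} [NeZero q] (χ : DirichletCharacter ℂ q) (X Z : ℝ) (hX : 1 ≤ X)
    (hXZ : X ≤ Z) (s : ℂ) : VV χ X Z s = - deriv (SD w χ Z) s -
      ∑ n ∈ Icc 1 ⌊X⌋₊, χ (n : ZMod q) * ((ArithmeticFunction.vonMangoldt n : ℝ) : ℂ) *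
        (n : ℂ) ^ (-s) * SD w χ (Z / n) s := by
  rw [← Idn_total χ Z s]
  unfold VV
  rw [eq_sub_iff_add_eq, add_comm]
  have h1 : ⌊X⌋₊ ≤ ⌊2 * Z⌋₊ := Nat.floor_le_floor (by linarith)
  have h2 : Icc 1 ⌊2 * Z⌋₊ = Icc 1 ⌊X⌋₊ ∪ Ioc ⌊X⌋₊ ⌊2 * Z⌋₊ := by
    ext n
    simp only [mem_union, mem_Icc, mem_Ioc]
    omega
  have h3 : Disjoint (Icc 1 ⌊X⌋₊) (Ioc ⌊X⌋₊ ⌊2 * Z⌋₊) := by
    rw [Finset.disjoint_left]
    intro n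
    simp only [mem_Icc, mem_Ioc]
    omega
  rw [h2, Finset.sum_union h3]

end Pool.Agent.EM
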