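import Pool.Agent.Lib.MP_848d44_nt_EM.Defs
import Pool.Agent.Lib.MP_848d44_nt_EM.Idn

/-!
# Project EM (MP_848d44_nt), module Abe: Abel summation
-/

set_option autoImplicit false

namespace Pool.Agent.EM

open Finset Complex MeasureTheory
open scoped ArithmeticFunction ENNReal ContDiff ComplexConjugate

/-- The sum with a fixed range. -/
private noncomputable def Abe_S {q : ℕ} (χ : DirichletCharacter ℂ q) (Z : ℝ) (K : ℕ) (s : ℂ)
    (u : ℝ → ℝ) (y : ℝ) : ℂ :=
  ∑ m ∈ Icc 1 K, χ (m : ZMod q) * (m : ℂ) ^ (-s) * ((u (m * y / Z) : ℝ) : ℂ)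

private theorem Abe_ext {q : ℕ} (χ : DirichletCharacter ℂ q) (X Z : ℝ) (hX : 1 ≤ X)
    (hXZ : X ≤ Z) (s : ℂ) (u : ℝ → ℝ) (hu : ∀ v, 2 ≤ v → u v = 0) (y : ℝ) (hy : X ≤ y) :
    SD u χ (Z / y) s = Abe_S χ Z ⌊2 * Z / X⌋₊ s u y := by
  have hy0 : 0 < y := by linarith
  have hZ0 : 0 < Z := by linarith
  have hX0 : 0 < X := by linarith
  rw [SD, Abe_S]
  have e1 : ∀ n : ℕ, (n : ℝ) / (Z / y) = n * y / Z := fun n => div_div_eq_mul_div _ _ _
  simp only [e1]
  apply Finset.sum_subset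
  · apply Finset.Icc_subset_Icc_right
    apply Nat.floor_le_floor
    rw [← mul_div_assoc]
    exact div_le_div_of_nonneg_left (by positivity) hX0 hy
  · intro n hn hn2
    rw [Finset.mem_Icc] at hn hn2
    have h3 : ⌊2 * (Z / y)⌋₊ < n := by
      by_contra h4
      exact hn2 ⟨hn.1, not_lt.mp h4⟩
    have h4 : 2 * (Z / y) < n := Nat.lt_of_floor_lt h3
    have h5 : 2 ≤ (n : ℝ) * y / Z := by
      rw [le_div_iff₀ hZ0]
      rw [← mul_div_assoc, div_lt_iff₀ hy0] at h4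
      exact h4.le
    rw [hu _ h5]
    simp

private theorem Abe_deriv_w (Z : ℝ) (m : ℕ) (y : ℝ) (hy : 0 < y) :
    HasDerivAt (fun y : ℝ => ((w (m * y / Z) : ℝ) : ℂ)) (((w1 (m * y / Z) / y : ℝ)) : ℂ) y := by
  have h1 : HasDerivAt (fun y : ℝ => (m : ℝ) * y / Z) ((m : ℝ) * 1 / Z) y :=
    ((hasDerivAt_id y).const_mul (m : ℝ)).div_const Z
  have h2 : HasDerivAt w (deriv w (m * y / Z)) (m * y / Z) :=
    (w_contDiff.differentiable (by simp) _).hasDerivAt
  have h3 := (h2.comp y h1).ofReal_comp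
  have e : deriv w (m * y / Z) * ((m : ℝ) * 1 / Z) = w1 (m * y / Z) / y := by
    rw [w1]
    field_simp
  rw [e] at h3
  exact h3

private theorem Abe_deriv {q : ℕ} (χ : DirichletCharacter ℂ q) (Z : ℝ) (K : ℕ) (s : ℂ)
    (y : ℝ) (hy : 0 < y) :
    HasDerivAt (fun y : ℝ => (y : ℂ) ^ (-s) * Abe_S χ Z K s w y)
      ((y : ℂ) ^ (-s - 1) * (-s * Abe_S χ Z K s w y + Abe_S χ Z K s w1 y)) y := by
  have hyc : (y : ℂ) ≠ 0 := by exact_mod_cast hy.ne'
  have h1 : HasDerivAt (fun y : ℝ => (y : ℂ) ^ (-s)) (-s * (y : ℂ) ^ (-s - 1)) y := by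
    have := ((hasDerivAt_id (y : ℂ)).cpow_const (c := -s)
      (Or.inl (by simpa using hy))).comp_ofReal
    simpa using this
  have h2 : HasDerivAt (fun y : ℝ => Abe_S χ Z K s w y)
      (∑ m ∈ Icc 1 K, χ (m : ZMod q) * (m : ℂ) ^ (-s) * (((w1 (m * y / Z) / y : ℝ)) : ℂ)) y := by
    unfold Abe_S
    apply HasDerivAt.fun_sum
    intro m _
    exact (Abe_deriv_w Z m y hy).const_mul _
  have h3 := h1.mul h2
  refine h3.congr_deriv ?_
  have e1 : (∑ m ∈ Icc 1 K, χ (m : ZMod q) * (m : ℂ) ^ (-s) * (((w1 (m * y / Z) / y : ℝ)) : ℂ)) =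
      Abe_S χ Z K s w1 y / y := by
    rw [Abe_S, Finset.sum_div]
    apply Finset.sum_congr rfl
    intro m _
    push_cast
    ring
  have e2 : (y : ℂ) ^ (-s) = (y : ℂ) ^ (-s - 1) * y := by
    rw [Complex.cpow_sub _ _ hyc, Complex.cpow_one]
    field_simp
  rw [e1, e2]
  field_simp

private theorem Abe_cont {q : ℕ} (χ : DirichletCharacter ℂ q) (Z : ℝ) (K : ℕ) (s : ℂ)
    (u : ℝ → ℝ) (hu : Continuous u) : Continuous (Abe_S χ Z K s u) := by
  unfold Abe_S
  apply continuous_finset_sum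
  intro m _
  apply continuous_const.mul
  exact Complex.continuous_ofReal.comp (hu.comp (by fun_prop))

/-- Text (4.2). -/
theorem abel {q : ℕ} [NeZero q] (χ : DirichletCharacter ℂ q) (X Z : ℝ) (hX : 1 ≤ X)
    (hXZ : X ≤ Z) (s : ℂ) : VV χ X Z s = - ((X : ℂ) ^ (-s) * SD w χ (Z / X) s * psi χ X) -
      ∫ y in X..(2 * Z), (y : ℂ) ^ (-s - 1) *
        (-s * SD w χ (Z / y) s + SD w1 χ (Z / y) s) * psi χ y := by
  have hZ0 : 0 < Z := by linarith
  have hX0 : 0 < X := by linarith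
  have hXZ2 : X ≤ 2 * Z := by linarith
  set K : ℕ := ⌊2 * Z / X⌋₊ with hK
  have hw0 : ∀ v, 2 ≤ v → w v = 0 := fun v h => w_zero h
  have hw10 : ∀ v, 2 ≤ v → w1 v = 0 := fun v h => w1_zero (Or.inr h)
  set f : ℝ → ℂ := fun y => (y : ℂ) ^ (-s) * Abe_S χ Z K s w y with hf
  set c : ℕ → ℂ := fun n => χ (n : ZMod q) * ((ArithmeticFunction.vonMangoldt n : ℝ) : ℂ) with hc
  have hder : ∀ y ∈ Set.Icc X (2 * Z), HasDerivAt f
      ((y : ℂ) ^ (-s - 1) * (-s * Abe_S χ Z K s w y + Abe_S χ Z K s w1 y)) y :=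
    fun y hy => Abe_deriv χ Z K s y (by linarith [hy.1])
  have hdiff : ∀ t ∈ Set.Icc X (2 * Z), DifferentiableAt ℝ f t :=
    fun t ht => (hder t ht).differentiableAt
  have hcontw : Continuous w := w_contDiff.continuous
  have hint : IntegrableOn (deriv f) (Set.Icc X (2 * Z)) := by
    have h1 : ContinuousOn (fun y : ℝ => (y : ℂ) ^ (-s - 1) *
        (-s * Abe_S χ Z K s w y + Abe_S χ Z K s w1 y)) (Set.Icc X (2 * Z)) := by
      apply ContinuousOn.mul
      · intro y hy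
        have hy0 : 0 < y := by linarith [hy.1]
        apply ContinuousAt.continuousWithinAt
        apply ContinuousAt.comp (g := fun z : ℂ => z ^ (-s - 1))
        · exact continuousAt_cpow_const (Or.inl (by simpa using hy0))
        · exact Complex.continuous_ofReal.continuousAt
      · exact ((continuous_const.mul (Abe_cont χ Z K s w hcontw)).add
          (Abe_cont χ Z K s w1 w1_continuous)).continuousOn
    have h2 := h1.integrableOn_Icc (μ := volume)
    refine h2.congr_fun ?_ measurableSet_Icc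
    intro y hy
    exact (hder y hy).deriv.symm
  have hmain := sum_mul_eq_sub_sub_integral_mul c hX0.le hXZ2 hdiff hint
  have hpsi : ∀ t : ℝ, ∑ k ∈ Icc 0 ⌊t⌋₊, c k = psi χ t := by
    intro t
    rw [psi]
    symm
    apply Finset.sum_subset (Finset.Icc_subset_Icc_left (by omega))
    intro n hn hn2
    have : n = 0 := by
      rw [Finset.mem_Icc] at hn hn2
      by_contra h
      exact hn2 ⟨by omega, hn.2⟩
    rw [this]
    simp
  have hf2 : f (2 * Z) = 0 := by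
    rw [hf]
    have : Abe_S χ Z K s w (2 * Z) = 0 := by
      rw [Abe_S]
      apply Finset.sum_eq_zero
      intro m hm
      rw [Finset.mem_Icc] at hm
      have h1 : (1 : ℝ) ≤ m := by exact_mod_cast hm.1
      have h2 : (m : ℝ) * (2 * Z) / Z = 2 * m := by field_simp
      rw [h2, w_zero (by linarith)]
      simp
    simp only [this, mul_zero]
  have hfX : f X = (X : ℂ) ^ (-s) * SD w χ (Z / X) s := by
    rw [Abe_ext χ X Z hX hXZ s w hw0 X le_rfl]
  have hVV : VV χ X Z s = ∑ k ∈ Ioc ⌊X⌋₊ ⌊2 * Z⌋₊, f k * c k := by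
    rw [VV]
    apply Finset.sum_congr rfl
    intro n hn
    rw [Finset.mem_Ioc] at hn
    have h1 : X < n := Nat.lt_of_floor_lt hn.1
    rw [hf, hc, Abe_ext χ X Z hX hXZ s w hw0 n h1.le]
    simp only [Complex.ofReal_natCast]
    ring
  rw [hVV, hmain, hf2, hfX, zero_mul, zero_sub, hpsi X, intervalIntegral.integral_of_le hXZ2]
  congr 1
  apply setIntegral_congr_fun measurableSet_Ioc
  intro y hy
  have hy' : y ∈ Set.Icc X (2 * Z) := ⟨hy.1.le, hy.2⟩
  simp only [hpsi]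
  rw [(hder y hy').deriv, Abe_ext χ X Z hX hXZ s w hw0 y hy.1.le,
    Abe_ext χ X Z hX hXZ s w1 hw10 y hy.1.le]

end Pool.Agent.EM
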