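import Pool.Agent.Lib.MP_848d44_nt_EM.Defs

/-!
# Project EM (MP_848d44_nt), module Dif: differences of smooth functions of Mellin type
-/

set_option autoImplicit false

namespace Pool.Agent.EM

open Finset Complex MeasureTheory
open scoped ArithmeticFunction ENNReal ContDiff ComplexConjugate

private theorem Dif_smooth {P : ℝ → ℂ} (hP : ContDiff ℝ ∞ P) : ContDiff ℝ ∞ (th P) := by
  have h1 : ContDiff ℝ ∞ (deriv P) := (contDiff_infty_iff_deriv.1 hP).2
  unfold th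
  exact (Complex.ofRealCLM.contDiff).mul h1

private theorem Dif_diff {P : ℝ → ℂ} (hP : ContDiff ℝ ∞ P) : Differentiable ℝ P :=
  hP.differentiable (by simp)

private theorem Dif_lin (c : ℂ) {P Q : ℝ → ℂ} (hP : ContDiff ℝ ∞ P) (hQ : ContDiff ℝ ∞ Q) :
    th (fun v => c * P v + Q v) = fun v => c * th P v + th Q v := by
  funext v
  unfold th
  have h1 : deriv (fun v => c * P v + Q v) v = c * deriv P v + deriv Q v := by
    have e1 := (Dif_diff hP v).hasDerivAt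
    have e2 := (Dif_diff hQ v).hasDerivAt
    exact ((e1.const_mul c).add e2).deriv
  rw [h1]
  ring

private theorem Dif_iter (c : ℂ) (i : ℕ) : ∀ {P Q : ℝ → ℂ}, ContDiff ℝ ∞ P → ContDiff ℝ ∞ Q →
    th^[i] (fun v => c * P v + Q v) = fun v => c * th^[i] P v + th^[i] Q v := by
  induction i with
  | zero => intro P Q _ _; rfl
  | succ i ih =>
    intro P Q hP hQ
    rw [Function.iterate_succ_apply, Dif_lin c hP hQ, ih (Dif_smooth hP) (Dif_smooth hQ)]
    rfl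

private theorem Dif_deriv (k : ℕ) : ∀ {g g1 : ℝ → ℂ}, (∀ y : ℝ, 0 < y → HasDerivAt g (g1 y) y) →
    ∀ y : ℝ, 0 < y → HasDerivAt ((fwdDiff (1 : ℝ))^[k] g) ((fwdDiff (1 : ℝ))^[k] g1 y) y := by
  induction k with
  | zero => intro g g1 h y hy; exact h y hy
  | succ k ih =>
    intro g g1 h y hy
    rw [Function.iterate_succ_apply, Function.iterate_succ_apply]
    refine ih (fun z hz => ?_) y hy
    have e1 : HasDerivAt (fun y => g (y + 1)) (g1 (z + 1)) z :=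
      (h (z + 1) (by linarith)).comp_add_const z 1
    exact e1.sub (h z hz)

private theorem Dif_g (s : ℂ) {P : ℝ → ℂ} (hP : ContDiff ℝ ∞ P) (y : ℝ) (hy : 0 < y) :
    HasDerivAt (fun y : ℝ => (y : ℂ) ^ (-s) * P y)
      ((y : ℂ) ^ (-(s + 1)) * (-s * P y + th P y)) y := by
  have hy' : (y : ℂ) ≠ 0 := by exact_mod_cast hy.ne'
  have e1 : HasDerivAt (fun z : ℂ => z ^ (-s)) (-s * (y : ℂ) ^ (-s - 1) * 1) (y : ℂ) :=
    (hasDerivAt_id (y : ℂ)).cpow_const (Or.inl (by simpa using hy))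
  have e2 : HasDerivAt (fun y : ℝ => (y : ℂ) ^ (-s)) (-s * (y : ℂ) ^ (-s - 1) * 1) y :=
    e1.comp_ofReal
  have e3 := (Dif_diff hP y).hasDerivAt
  have e4 := e2.mul e3
  have e5 : (y : ℂ) ^ (-s) = (y : ℂ) ^ (-(s + 1)) * (y : ℂ) := by
    rw [show -s = -(s + 1) + 1 from by ring, Complex.cpow_add _ _ hy', Complex.cpow_one]
  have e6 : (y : ℂ) ^ (-s - 1) = (y : ℂ) ^ (-(s + 1)) := by
    rw [show -s - 1 = -(s + 1) from by ring]
  refine e4.congr_deriv ?_
  unfold th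
  rw [e5, e6]
  ring

/-- Text (2.2). -/
theorem dif (k : ℕ) : ∀ (P : ℝ → ℂ) (B : ℝ), ContDiff ℝ ∞ P →
    (∀ i ≤ k, ∀ v : ℝ, 0 < v → ‖th^[i] P v‖ ≤ B) → ∀ s : ℂ, 0 ≤ s.re → ∀ x : ℝ, 0 < x →
    ‖(fwdDiff (1 : ℝ))^[k] (fun y : ℝ => (y : ℂ) ^ (-s) * P y) x‖ ≤
      B * (‖s‖ + k) ^ k * x ^ (-s.re - k) := by
  induction k with
  | zero =>
    intro P B hP hB s hs x hx
    have h1 := hB 0 le_rfl x hx
    simp only [Function.iterate_zero, id_eq] at h1 ⊢
    rw [norm_mul, Complex.norm_cpow_eq_rpow_re_of_pos hx, Complex.neg_re]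
    simp only [Nat.cast_zero, pow_zero, mul_one, sub_zero]
    rw [mul_comm]
    exact mul_le_mul_of_nonneg_right h1 (Real.rpow_nonneg hx.le _)
  | succ k ih =>
    intro P B hP hB s hs x hx
    have hB0 : 0 ≤ B := (norm_nonneg _).trans (hB 0 (Nat.zero_le _) 1 one_pos)
    set P1 : ℝ → ℂ := fun v => -s * P v + th P v with hP1
    have hP1s : ContDiff ℝ ∞ P1 := (contDiff_const.mul hP).add (Dif_smooth hP)
    have hP1B : ∀ i ≤ k, ∀ v : ℝ, 0 < v → ‖th^[i] P1 v‖ ≤ (‖s‖ + 1) * B := by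
      intro i hi v hv
      rw [hP1, Dif_iter (-s) i hP (Dif_smooth hP)]
      have e1 := hB i (by omega) v hv
      have e2 := hB (i + 1) (by omega) v hv
      rw [Function.iterate_succ_apply] at e2
      calc ‖-s * th^[i] P v + th^[i] (th P) v‖ ≤ ‖-s * th^[i] P v‖ + ‖th^[i] (th P) v‖ :=
            norm_add_le _ _
        _ = ‖s‖ * ‖th^[i] P v‖ + ‖th^[i] (th P) v‖ := by rw [norm_mul, norm_neg]
        _ ≤ ‖s‖ * B + B := add_le_add (mul_le_mul_of_nonneg_left e1 (norm_nonneg _)) e2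
        _ = (‖s‖ + 1) * B := by ring
    set h : ℝ → ℂ := (fwdDiff (1 : ℝ))^[k] (fun y : ℝ => (y : ℂ) ^ (-s) * P y) with hh
    set h1 : ℝ → ℂ := (fwdDiff (1 : ℝ))^[k] (fun y : ℝ => (y : ℂ) ^ (-(s + 1)) * P1 y) with hh1
    have hd : ∀ y : ℝ, 0 < y → HasDerivAt h (h1 y) y :=
      Dif_deriv k (fun y hy => Dif_g s hP y hy)
    have hs1 : (s + 1).re = s.re + 1 := by simp
    have hbound : ∀ y ∈ Set.Icc x (x + 1), ‖h1 y‖ ≤
        (‖s‖ + 1) * B * (‖s + 1‖ + k) ^ k * x ^ (-s.re - (k + 1)) := by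
      intro y hy
      have hy0 : 0 < y := lt_of_lt_of_le hx hy.1
      have e1 := ih P1 ((‖s‖ + 1) * B) hP1s hP1B (s + 1) (by rw [hs1]; linarith) y hy0
      refine e1.trans ?_
      apply mul_le_mul_of_nonneg_left _ (by positivity)
      rw [hs1, show -(s.re + 1) - (k : ℝ) = -s.re - (k + 1) from by ring]
      have hk : (0 : ℝ) ≤ k := Nat.cast_nonneg k
      exact Real.rpow_le_rpow_of_nonpos hx hy.1 (by linarith)
    have hmv := Convex.norm_image_sub_le_of_norm_hasDerivWithin_le (𝕜 := ℝ) (f := h) (f' := h1)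
      (s := Set.Icc x (x + 1)) (x := x) (y := x + 1)
      (fun y hy => (hd y (lt_of_lt_of_le hx hy.1)).hasDerivWithinAt) hbound
      (convex_Icc x (x + 1)) ⟨le_rfl, by linarith⟩ ⟨by linarith, le_rfl⟩
    rw [Function.iterate_succ_apply']
    show ‖h (x + 1) - h x‖ ≤ _
    refine hmv.trans ?_
    have e2 : ‖x + 1 - x‖ = 1 := by
      rw [show x + 1 - x = 1 from by ring]
      simp
    rw [e2, mul_one]
    push_cast
    apply mul_le_mul_of_nonneg_right _ (Real.rpow_nonneg hx.le _)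
    have e3 : ‖s + 1‖ ≤ ‖s‖ + 1 := (norm_add_le s 1).trans_eq (by simp)
    have e4 : (‖s + 1‖ + k) ^ k ≤ (‖s‖ + (k + 1)) ^ k :=
      pow_le_pow_left₀ (by positivity) (by linarith) k
    have hk : (0 : ℝ) ≤ k := Nat.cast_nonneg k
    calc (‖s‖ + 1) * B * (‖s + 1‖ + k) ^ k ≤ (‖s‖ + (k + 1)) * B * (‖s‖ + (k + 1)) ^ k := by
          apply mul_le_mul _ e4 (by positivity) (by positivity)
          exact mul_le_mul_of_nonneg_right (by linarith) hB0
      _ = B * (‖s‖ + (k + 1)) ^ (k + 1) := by ring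

end Pool.Agent.EM
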