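import Pool.Agent.Lib.MP_848d44_nt_EM.Defs

/-!
# Project EM (MP_848d44_nt), module Sbp: repeated summation by parts against a periodic sequence of mean zero
-/

set_option autoImplicit false

namespace Pool.Agent.EM

open Finset Complex MeasureTheory
open scoped ArithmeticFunction ENNReal ContDiff ComplexConjugate

/-- partial sums over less than a period are close -/
private theorem Sbp_diff {q : ℕ} {a : ℤ → ℂ} {A : ℝ} (hA : ∀ n, ‖a n‖ ≤ A) {i j : ℕ}
    (hij : i ≤ j) (hj : j ≤ q) :
    ‖∑ n ∈ range j, a n - ∑ n ∈ range i, a n‖ ≤ q * A := by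
  have hA0 : 0 ≤ A := (norm_nonneg _).trans (hA 0)
  have h1 : ∑ n ∈ range j, a n - ∑ n ∈ range i, a n = ∑ n ∈ Ico i j, a n := by
    rw [Finset.sum_Ico_eq_sub _ hij]
  rw [h1]
  refine (norm_sum_le _ _).trans ?_
  refine (Finset.sum_le_sum (f := fun n : ℕ => ‖a n‖) (g := fun _ => A)
    fun n _ => hA (n : ℤ)).trans ?_
  rw [Finset.sum_const, Nat.card_Ico, nsmul_eq_mul]
  have h2 : ((j - i : ℕ) : ℝ) ≤ q := by exact_mod_cast (Nat.sub_le _ _).trans hj
  gcongr

private theorem Sbp_diff' {q : ℕ} {a : ℤ → ℂ} {A : ℝ} (hA : ∀ n, ‖a n‖ ≤ A) {i j : ℕ}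
    (hi : i ≤ q) (hj : j ≤ q) :
    ‖∑ n ∈ range j, a n - ∑ n ∈ range i, a n‖ ≤ q * A := by
  rcases le_total i j with h | h
  · exact Sbp_diff hA h hj
  · rw [norm_sub_rev]
    exact Sbp_diff hA h hi

/-- the summatory function, with mean zero -/
private theorem Sbp_prim {q : ℕ} (hq : 1 ≤ q) {a : ℤ → ℂ} {A : ℝ} (hp : ∀ n, a (n + q) = a n)
    (hs : ∑ n ∈ range q, a n = 0) (hA : ∀ n, ‖a n‖ ≤ A) :
    ∃ b : ℤ → ℂ, (∀ n, b (n + q) = b n) ∧ ∑ n ∈ range q, b n = 0 ∧ (∀ n, ‖b n‖ ≤ A * q) ∧
      ∀ n, b (n + 1) - b n = a n := by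
  have hq0 : (0 : ℤ) < q := by exact_mod_cast hq
  have hqC : (q : ℂ) ≠ 0 := by
    have : q ≠ 0 := by omega
    exact_mod_cast this
  set S : ℕ → ℂ := fun i => ∑ n ∈ range i, a n with hS
  set B : ℤ → ℂ := fun n => S (n % q).toNat with hB
  set μ : ℂ := (∑ m ∈ range q, B m) / q with hμ
  have hper : Function.Periodic a (q : ℤ) := hp
  have hmod : ∀ n : ℤ, a (n % q) = a n := by
    intro n
    have h1 : n % q = n - (n / q) • (q : ℤ) := by
      rw [smul_eq_mul]
      have := Int.emod_add_mul_ediv n q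
      linarith
    rw [h1]
    exact hper.sub_zsmul_eq _
  have hlt : ∀ n : ℤ, (n % q).toNat < q := by
    intro n
    have h1 := Int.emod_lt_of_pos n hq0
    have h2 := Int.emod_nonneg n hq0.ne'
    omega
  have hstep : ∀ n : ℤ, B (n + 1) - B n = a n := by
    intro n
    have h1 := Int.emod_lt_of_pos n hq0
    have h2 := Int.emod_nonneg n hq0.ne'
    obtain ⟨r, hr⟩ : ∃ r : ℕ, n % q = r := ⟨(n % q).toNat, (Int.toNat_of_nonneg h2).symm⟩
    have hrq : r < q := by
      rw [hr] at h1
      exact_mod_cast h1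
    have e1 : (n + 1) % q = ((r : ℤ) + 1) % q := by
      rw [Int.add_emod, hr, Int.add_emod (r : ℤ) 1]
      congr 2
      rw [Int.emod_eq_of_lt (by omega) (by exact_mod_cast hrq)]
    rcases Nat.lt_or_ge (r + 1) q with h | h
    · have e2 : (n + 1) % q = ((r + 1 : ℕ) : ℤ) := by
        rw [e1, Int.emod_eq_of_lt (by omega) (by exact_mod_cast h)]
        push_cast
        ring
      simp only [hB, e2, hr, Int.toNat_natCast, hS]
      rw [Finset.sum_range_succ, add_sub_cancel_left, ← hmod n, hr]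
    · have h3 : q = r + 1 := by omega
      have e2 : (n + 1) % q = 0 := by
        rw [e1, h3]
        push_cast
        exact Int.emod_self
      simp only [hB, e2, hr, Int.toNat_natCast, hS, Int.toNat_zero]
      rw [Finset.sum_range_zero, zero_sub, ← hmod n, hr]
      rw [h3, Finset.sum_range_succ] at hs
      linear_combination -hs
  have hBb : ∀ n m : ℤ, ‖B n - B m‖ ≤ q * A := fun n m =>
    Sbp_diff' hA (hlt m).le (hlt n).le
  refine ⟨fun n => B n - μ, fun n => ?_, ?_, fun n => ?_, fun n => ?_⟩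
  · simp only [hB, Int.add_emod_right]
  · rw [Finset.sum_sub_distrib, Finset.sum_const, card_range, nsmul_eq_mul, hμ,
      mul_div_cancel₀ _ hqC, sub_self]
  · have h1 : B n - μ = (∑ m ∈ range q, (B n - B m)) / q := by
      rw [Finset.sum_sub_distrib, Finset.sum_const, card_range, nsmul_eq_mul, hμ, sub_div,
        mul_div_cancel_left₀ _ hqC]
    show ‖B n - μ‖ ≤ A * q
    rw [h1, norm_div, Complex.norm_natCast]
    have hqR : (0 : ℝ) < q := by exact_mod_cast hq
    rw [div_le_iff₀ hqR]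
    refine (norm_sum_le _ _).trans ?_
    refine (Finset.sum_le_sum (f := fun m : ℕ => ‖B n - B m‖) (g := fun _ => (q : ℝ) * A)
      fun m _ => hBb n (m : ℤ)).trans (le_of_eq ?_)
    rw [Finset.sum_const, card_range, nsmul_eq_mul]
    ring
  · show (B (n + 1) - μ) - (B n - μ) = a n
    rw [sub_sub_sub_cancel_right]
    exact hstep n

private theorem Sbp_fin {F : ℤ → ℂ} (hF : F.support.Finite) :
    (fwdDiff (1 : ℤ) F).support.Finite := by
  have h1 : ((fun n => F (n + 1)) : ℤ → ℂ).support.Finite := by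
    have h2 : ((fun n => F (n + 1)) : ℤ → ℂ).support = (fun n : ℤ => n + 1) ⁻¹' F.support := rfl
    rw [h2]
    exact hF.preimage (add_left_injective (1 : ℤ)).injOn
  refine (h1.union hF).subset ?_
  intro n hn
  by_contra h
  rw [Set.mem_union, not_or, Function.notMem_support, Function.notMem_support] at h
  refine hn ?_
  show F (n + 1) - F n = 0
  rw [h.1, h.2, sub_zero]

/-- Text (2.1). -/
theorem sbp {q : ℕ} (hq : 1 ≤ q) (k : ℕ) : ∀ (a : ℤ → ℂ) (A : ℝ), (∀ n, a (n + q) = a n) →
    ∑ n ∈ range q, a n = 0 → (∀ n, ‖a n‖ ≤ A) → ∀ F : ℤ → ℂ, F.support.Finite →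
    ‖∑' n : ℤ, a n * F n‖ ≤ A * (q : ℝ) ^ k * ∑' n : ℤ, ‖(fwdDiff (1 : ℤ))^[k] F n‖ := by
  have hsum : ∀ (c : ℤ → ℂ) (F : ℤ → ℂ), F.support.Finite → Summable fun n => c n * F n := by
    intro c F hF
    refine summable_of_hasFiniteSupport (hF.subset ?_)
    exact Function.support_mul_subset_right c F
  induction k with
  | zero =>
    intro a A _ _ hA F hF
    simp only [pow_zero, mul_one, Function.iterate_zero, id]
    have hFs : Summable fun n => ‖F n‖ := by
      refine summable_of_hasFiniteSupport (hF.subset ?_)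
      intro n hn h
      exact hn (by simp [h])
    rw [← tsum_mul_left]
    refine tsum_of_norm_bounded (hFs.mul_left A).hasSum fun n => ?_
    rw [norm_mul]
    gcongr
    exact hA n
  | succ k ih =>
    intro a A hp hs hA F hF
    obtain ⟨b, hbp, hbs, hbA, hb⟩ := Sbp_prim hq hp hs hA
    have h1 : ∑' n : ℤ, a n * F n = - ∑' n : ℤ, b (n + 1) * fwdDiff (1 : ℤ) F n := by
      have e1 : ∑' n : ℤ, a n * F n = ∑' n : ℤ, b (n + 1) * F n - ∑' n : ℤ, b n * F n := by
        rw [← (hsum _ F hF).tsum_sub (hsum _ F hF)]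
        refine tsum_congr fun n => ?_
        rw [← hb n]
        ring
      have e2 : ∑' n : ℤ, b n * F n = ∑' n : ℤ, b (n + 1) * F (n + 1) :=
        ((Equiv.addRight (1 : ℤ)).tsum_eq fun n => b n * F n).symm
      have h2 : ((fun n => F (n + 1)) : ℤ → ℂ).support.Finite := by
        have h2 : ((fun n => F (n + 1)) : ℤ → ℂ).support =
          (fun n : ℤ => n + 1) ⁻¹' F.support := rfl
        rw [h2]
        exact hF.preimage (add_left_injective (1 : ℤ)).injOn
      have e3 : ∑' n : ℤ, b (n + 1) * fwdDiff (1 : ℤ) F n =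
          ∑' n : ℤ, b (n + 1) * F (n + 1) - ∑' n : ℤ, b (n + 1) * F n := by
        rw [← (hsum (fun n => b (n + 1)) (fun n => F (n + 1)) h2).tsum_sub
          (hsum (fun n => b (n + 1)) F hF)]
        refine tsum_congr fun n => ?_
        rw [fwdDiff]
        ring
      rw [e1, e2, e3]
      ring
    rw [h1, norm_neg]
    have hbs' : ∑ n ∈ range q, b ((n : ℤ) + 1) = 0 := by
      have e1 := Finset.sum_range_succ' (fun n : ℕ => b n) q
      rw [Finset.sum_range_succ, hbs, zero_add] at e1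
      have e2 : b (q : ℤ) = b 0 := by
        have := hbp 0
        rwa [zero_add] at this
      push_cast at e1
      rw [e2] at e1
      linear_combination -e1
    have h3 := ih (fun n => b (n + 1)) (A * q) (fun n => by
      show b (n + q + 1) = b (n + 1)
      rw [add_right_comm]
      exact hbp _) hbs' (fun n => hbA _) (fwdDiff (1 : ℤ) F) (Sbp_fin hF)
    refine h3.trans (le_of_eq ?_)
    rw [pow_succ, Function.iterate_succ_apply]
    ring

end Pool.Agent.EM
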