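import Pool.Agent.Lib.MP_848d44_nt_EM.Defs

/-!
# Project EM (MP_848d44_nt), module ThB: the functions theta^i w are bounded
-/

set_option autoImplicit false

namespace Pool.Agent.EM

open Finset Complex MeasureTheory
open scoped ArithmeticFunction ENNReal ContDiff ComplexConjugate

private theorem ThB_scale (P : ℝ → ℂ) (M : ℝ) (v : ℝ) :
    th (fun y => P (y / M)) v = th P (v / M) := by
  unfold th
  have h1 : (fun y : ℝ => P (y / M)) = fun y => P (M⁻¹ * y) := by
    funext y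
    rw [div_eq_inv_mul]
  rw [h1, deriv_comp_mul_left, div_eq_inv_mul, Complex.real_smul]
  push_cast
  ring

private theorem ThB_iter (P : ℝ → ℂ) (M : ℝ) (i : ℕ) :
    th^[i] (fun y => P (y / M)) = fun y => (th^[i] P) (y / M) := by
  induction i with
  | zero => rfl
  | succ i ih =>
    rw [Function.iterate_succ_apply', ih, Function.iterate_succ_apply']
    funext v
    exact ThB_scale _ M v

private theorem ThB_smooth (P : ℝ → ℂ) (hP : ContDiff ℝ ∞ P) (i : ℕ) :
    ContDiff ℝ ∞ (th^[i] P) := by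
  induction i with
  | zero => exact hP
  | succ i ih =>
    rw [Function.iterate_succ_apply']
    unfold th
    exact Complex.ofRealCLM.contDiff.mul ((contDiff_infty_iff_deriv.1 ih).2)

private theorem ThB_const (i : ℕ) :
    (∃ c : ℂ, ∀ v < (1 : ℝ), (th^[i] (fun y : ℝ => ((w y : ℝ) : ℂ))) v = c) ∧
      ∀ v > (2 : ℝ), (th^[i] (fun y : ℝ => ((w y : ℝ) : ℂ))) v = 0 := by
  induction i with
  | zero =>
    refine ⟨⟨1, fun v hv => ?_⟩, fun v hv => ?_⟩
    · change ((w v : ℝ) : ℂ) = 1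
      rw [w_one hv.le, Complex.ofReal_one]
    · change ((w v : ℝ) : ℂ) = 0
      rw [w_zero (le_of_lt hv), Complex.ofReal_zero]
  | succ i ih =>
    obtain ⟨⟨c, hc⟩, h0⟩ := ih
    rw [Function.iterate_succ_apply']
    refine ⟨⟨0, fun v hv => ?_⟩, fun v hv => ?_⟩
    · have : (th^[i] (fun y : ℝ => ((w y : ℝ) : ℂ))) =ᶠ[nhds v] fun _ => c := by
        filter_upwards [gt_mem_nhds hv] with y hy
        exact hc y hy
      unfold th at this ⊢
      rw [this.deriv_eq, deriv_const, mul_zero]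
    · have : (th^[i] (fun y : ℝ => ((w y : ℝ) : ℂ))) =ᶠ[nhds v] fun _ => 0 := by
        filter_upwards [lt_mem_nhds hv] with y hy
        exact h0 y hy
      unfold th at this ⊢
      rw [this.deriv_eq, deriv_const, mul_zero]

private theorem ThB_one (i : ℕ) : ∃ B : ℝ, ∀ v : ℝ,
    ‖(th^[i] (fun y : ℝ => ((w y : ℝ) : ℂ))) v‖ ≤ B := by
  obtain ⟨⟨c, hc⟩, h0⟩ := ThB_const i
  have hs : ContDiff ℝ ∞ (fun y : ℝ => ((w y : ℝ) : ℂ)) :=
    Complex.ofRealCLM.contDiff.comp w_contDiff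
  obtain ⟨B, hB⟩ := (isCompact_Icc (a := (1 : ℝ)) (b := 2)).exists_bound_of_continuousOn
    (ThB_smooth _ hs i).continuous.continuousOn
  refine ⟨max B ‖c‖ + |B|, fun v => ?_⟩
  rcases lt_or_ge v 1 with h1 | h1
  · rw [hc v h1]
    linarith [le_max_right B ‖c‖, abs_nonneg B]
  · rcases lt_or_ge 2 v with h2 | h2
    · rw [h0 v h2, norm_zero]
      have := norm_nonneg c
      linarith [le_max_right B ‖c‖, abs_nonneg B]
    · linarith [hB v ⟨h1, h2⟩, le_max_left B ‖c‖, abs_nonneg B]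

/-- Text (2.3). -/
theorem th_bound (k : ℕ) : ∃ B : ℝ, 0 < B ∧ ∀ i ≤ k, ∀ M : ℝ, 0 < M → ∀ v : ℝ,
    ‖th^[i] (fun y : ℝ => ((w (y / M) : ℝ) : ℂ)) v‖ ≤ B := by
  choose B hB using ThB_one
  have hB0 : ∀ i, 0 ≤ B i := fun i => (norm_nonneg _).trans (hB i 0)
  refine ⟨1 + ∑ i ∈ range (k + 1), B i, ?_, ?_⟩
  · have := Finset.sum_nonneg fun i (_ : i ∈ range (k + 1)) => hB0 i
    linarith
  · intro i hi M _ v
    have h1 := ThB_iter (fun y : ℝ => ((w y : ℝ) : ℂ)) M i
    have h2 : ‖th^[i] (fun y : ℝ => ((w (y / M) : ℝ) : ℂ)) v‖ ≤ B i := by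
      rw [show (th^[i] (fun y : ℝ => ((w (y / M) : ℝ) : ℂ))) =
        fun y => (th^[i] (fun y : ℝ => ((w y : ℝ) : ℂ))) (y / M) from h1]
      exact hB i _
    have h3 : B i ≤ ∑ j ∈ range (k + 1), B j :=
      Finset.single_le_sum (fun j _ => hB0 j) (Finset.mem_range.2 (by omega))
    linarith

end Pool.Agent.EM
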