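import Pool.Agent.Lib.MP_848d44_nt_EM.Defs
import Pool.Agent.Lib.MP_848d44_nt_EM.Sbp
import Pool.Agent.Lib.MP_848d44_nt_EM.Dif
import Pool.Agent.Lib.MP_848d44_nt_EM.ThB

/-!
# Project EM (MP_848d44_nt), module Sdc: smooth sums of different lengths
-/

set_option autoImplicit false

namespace Pool.Agent.EM

open Finset Complex MeasureTheory
open scoped ArithmeticFunction ENNReal ContDiff ComplexConjugate

private theorem Sdc_th_contDiff {P : ℝ → ℂ} (hP : ContDiff ℝ ∞ P) : ContDiff ℝ ∞ (th P) := by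
  unfold th
  exact Complex.ofRealCLM.contDiff.mul (contDiff_infty_iff_deriv.1 hP).2

private theorem Sdc_th_sub (i : ℕ) : ∀ (P Q : ℝ → ℂ), ContDiff ℝ ∞ P → ContDiff ℝ ∞ Q →
    th^[i] (fun v => P v - Q v) = fun v => th^[i] P v - th^[i] Q v := by
  induction i with
  | zero => intro P Q _ _; rfl
  | succ i ih =>
    intro P Q hP hQ
    have h1 : th (fun v => P v - Q v) = fun v => th P v - th Q v := by
      funext v
      unfold th
      have hp : DifferentiableAt ℝ P v := (hP.differentiable (by simp)) v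
      have hq : DifferentiableAt ℝ Q v := (hQ.differentiable (by simp)) v
      rw [show (fun v => P v - Q v) = P - Q from rfl, deriv_sub hp hq, mul_sub]
    rw [Function.iterate_succ_apply, h1, ih (th P) (th Q) (Sdc_th_contDiff hP)
      (Sdc_th_contDiff hQ)]
    rfl

private theorem Sdc_smooth (M : ℝ) : ContDiff ℝ ∞ (fun y : ℝ => ((w (y / M) : ℝ) : ℂ)) :=
  Complex.ofRealCLM.contDiff.comp (w_contDiff.comp (contDiff_id.div_const M))

private theorem Sdc_inv_sq (N : ℕ) : ∑ n ∈ Icc 1 N, ((n : ℝ) ^ 2)⁻¹ ≤ 2 := by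
  have h1 := hasSum_zeta_two
  have h2 : ∑ n ∈ Icc 1 N, ((n : ℝ) ^ 2)⁻¹ ≤ Real.pi ^ 2 / 6 := by
    have h3 := sum_le_hasSum (Icc 1 N) (fun n _ => by positivity) h1
    simpa [one_div] using h3
  have h4 : Real.pi ^ 2 / 6 ≤ 2 := by
    have := Real.pi_lt_d2
    have h5 := Real.pi_pos
    nlinarith
  linarith

/-- Text (2.4). -/
theorem SD_cauchy (k : ℕ) (hk : 2 ≤ k) : ∃ C : ℝ, 0 < C ∧ ∀ (q : ℕ) [NeZero q]
    (χ : DirichletCharacter ℂ q), χ ≠ 1 → ∀ M M' : ℝ, 2 * (k : ℝ) + 2 ≤ M → M ≤ M' →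
    ∀ s : ℂ, 0 ≤ s.re →
    ‖SD w χ M' s - SD w χ M s‖ ≤ C * M ^ 2 * (2 * q * (‖s‖ + k) / M) ^ k := by
  obtain ⟨B, hB, hth⟩ := th_bound k
  refine ⟨B, hB, ?_⟩
  intro q _ χ hχ M M' hM hMM' s hs
  have hk0 : (2 : ℝ) ≤ k := by exact_mod_cast hk
  have hM0 : 0 < M := by linarith
  have hM'0 : 0 < M' := by linarith
  set P : ℝ → ℂ := fun y => ((w (y / M') : ℝ) : ℂ) - ((w (y / M) : ℝ) : ℂ) with hP
  have hPs : ContDiff ℝ ∞ P := (Sdc_smooth M').sub (Sdc_smooth M)
  have hPb : ∀ i ≤ k, ∀ v : ℝ, 0 < v → ‖th^[i] P v‖ ≤ 2 * B := by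
    intro i hi v _
    rw [hP, Sdc_th_sub i _ _ (Sdc_smooth M') (Sdc_smooth M)]
    refine (norm_sub_le _ _).trans ?_
    have h1 := hth i hi M' hM'0 v
    have h2 := hth i hi M hM0 v
    linarith
  set g : ℝ → ℂ := fun y => (y : ℂ) ^ (-s) * P y with hg
  set F : ℤ → ℂ := fun n => ((n : ℝ) : ℂ) ^ (-s) * P n with hF
  set N := ⌊2 * M'⌋₊ with hN
  have hP1 : ∀ y : ℝ, y ≤ M → P y = 0 := by
    intro y hy
    simp only [hP]
    rw [w_one (by rw [div_le_one hM'0]; linarith), w_one (by rw [div_le_one hM0]; linarith),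
      sub_self]
  have hP2 : ∀ y : ℝ, 2 * M' ≤ y → P y = 0 := by
    intro y hy
    simp only [hP]
    rw [w_zero (by rw [le_div_iff₀ hM'0]; linarith), w_zero (by rw [le_div_iff₀ hM0]; linarith),
      sub_self]
  have hF1 : ∀ n : ℤ, (n : ℝ) ≤ M → F n = 0 := by
    intro n hn
    simp only [hF]
    rw [hP1 _ hn, mul_zero]
  have hF2 : ∀ n : ℤ, (N : ℤ) < n → F n = 0 := by
    intro n hn
    obtain ⟨m, rfl⟩ : ∃ m : ℕ, n = m := ⟨n.toNat, by omega⟩
    simp only [hF]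
    rw [hP2, mul_zero]
    have h1 : N < m := by exact_mod_cast hn
    have h2 := Nat.lt_of_floor_lt h1
    push_cast
    exact h2.le
  set S : Finset ℤ := (Icc 1 N).map ⟨fun n : ℕ => (n : ℤ), Nat.cast_injective⟩ with hS
  have hSmem : ∀ n : ℤ, n ∉ S → n ≤ 0 ∨ (N : ℤ) < n := by
    intro n hn
    by_contra hcon
    push Not at hcon
    apply hn
    rw [hS, Finset.mem_map]
    refine ⟨n.toNat, ?_, ?_⟩
    · rw [Finset.mem_Icc]
      omega
    · simp only [Function.Embedding.coeFn_mk]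
      omega
  have hFS : ∀ n : ℤ, n ∉ S → F n = 0 := by
    intro n hn
    rcases hSmem n hn with h1 | h1
    · apply hF1
      have : (n : ℝ) ≤ 0 := by exact_mod_cast h1
      linarith
    · exact hF2 n h1
  -- the sums
  set a : ℤ → ℂ := fun n => χ ((n : ℤ) : ZMod q) with ha
  have hdiff : SD w χ M' s - SD w χ M s = ∑' n : ℤ, a n * F n := by
    rw [tsum_eq_sum (s := S) (fun n hn => by rw [hFS n hn, mul_zero]), hS, Finset.sum_map]
    simp only [Function.Embedding.coeFn_mk]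
    unfold SD
    have h1 : ∑ n ∈ Icc 1 ⌊2 * M⌋₊, χ (n : ZMod q) * (n : ℂ) ^ (-s) * ((w (n / M) : ℝ) : ℂ) =
        ∑ n ∈ Icc 1 N, χ (n : ZMod q) * (n : ℂ) ^ (-s) * ((w (n / M) : ℝ) : ℂ) := by
      apply Finset.sum_subset
      · apply Finset.Icc_subset_Icc_right
        exact Nat.floor_le_floor (by linarith)
      · intro n hn hn'
        rw [Finset.mem_Icc] at hn hn'
        have h2 : ⌊2 * M⌋₊ < n := by omega
        have h3 := Nat.lt_of_floor_lt h2
        rw [w_zero (by rw [le_div_iff₀ hM0]; linarith)]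
        simp
    rw [h1, ← Finset.sum_sub_distrib]
    refine Finset.sum_congr rfl fun n _ => ?_
    simp only [ha, hF, hP]
    push_cast
    ring
  have hq1 : 1 ≤ q := Nat.one_le_iff_ne_zero.2 (NeZero.ne q)
  have hper : ∀ n, a (n + q) = a n := by
    intro n
    simp only [ha]
    congr 1
    push_cast
    simp
  have hsum0 : ∑ n ∈ range q, a n = 0 := by
    have h1 := MulChar.sum_eq_zero_of_ne_one hχ
    rw [← h1]
    simp only [ha]
    refine Finset.sum_bij' (fun n _ => ((n : ℕ) : ZMod q)) (fun x _ => ZMod.val x) ?_ ?_ ?_ ?_ ?_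
    · intro n _
      exact Finset.mem_univ _
    · intro x _
      rw [Finset.mem_range]
      exact ZMod.val_lt x
    · intro n hn
      rw [Finset.mem_range] at hn
      exact ZMod.val_cast_of_lt hn
    · intro x _
      exact ZMod.natCast_zmod_val x
    · intro n _
      simp
  have hbd : ∀ n, ‖a n‖ ≤ 1 := fun n => DirichletCharacter.norm_le_one χ _
  have hFfin : F.support.Finite := by
    refine S.finite_toSet.subset ?_
    intro n hn
    by_contra hn'
    exact hn (hFS n hn')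
  have hmain := sbp hq1 k a 1 hper hsum0 hbd F hFfin
  rw [← hdiff, one_mul] at hmain
  -- the differences
  have hFg : ∀ n : ℤ, (fwdDiff (1 : ℤ))^[k] F n = (fwdDiff (1 : ℝ))^[k] g (n : ℝ) := by
    intro n
    rw [fwdDiff_iter_eq_sum_shift, fwdDiff_iter_eq_sum_shift]
    refine Finset.sum_congr rfl fun j _ => ?_
    congr 1
    simp only [hF, hg]
    have : (((n + j • (1 : ℤ) : ℤ)) : ℝ) = (n : ℝ) + j • (1 : ℝ) := by
      simp
    rw [this]
  have hvan : ∀ n : ℤ, ((n : ℝ) + k ≤ M ∨ (N : ℤ) < n) → (fwdDiff (1 : ℤ))^[k] F n = 0 := by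
    intro n hn
    rw [fwdDiff_iter_eq_sum_shift]
    refine Finset.sum_eq_zero fun j hj => ?_
    rw [Finset.mem_range] at hj
    have : F (n + j • (1 : ℤ)) = 0 := by
      rcases hn with hn | hn
      · apply hF1
        have hj' : (j : ℝ) ≤ k := by exact_mod_cast (by omega : j ≤ k)
        push_cast
        simp
        linarith
      · apply hF2
        simp
        omega
    rw [this, smul_zero]
  have hbound : ∀ n ∈ Icc 1 N, ‖(fwdDiff (1 : ℤ))^[k] F ((n : ℕ) : ℤ)‖ ≤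
      2 * B * (‖s‖ + k) ^ k * ((M / 2) ^ (k - 2))⁻¹ * ((n : ℝ) ^ 2)⁻¹ := by
    intro n hn
    rw [Finset.mem_Icc] at hn
    have hn1 : (1 : ℝ) ≤ n := by exact_mod_cast hn.1
    have hn0 : (0 : ℝ) < n := by linarith
    by_cases hnk : (n : ℝ) + k ≤ M
    · rw [hvan _ (Or.inl (by exact_mod_cast hnk)), norm_zero]
      positivity
    · push Not at hnk
      rw [hFg]
      have h1 := dif k P (2 * B) hPs hPb s hs (n : ℝ) hn0
      have e : (((n : ℕ) : ℤ) : ℝ) = (n : ℝ) := by push_cast; rfl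
      rw [e]
      refine h1.trans ?_
      have h2 : (n : ℝ) ^ (-s.re - k) ≤ ((M / 2) ^ (k - 2))⁻¹ * ((n : ℝ) ^ 2)⁻¹ := by
        have h3 : (n : ℝ) ^ (-s.re - k) ≤ (n : ℝ) ^ (-(k : ℝ)) :=
          Real.rpow_le_rpow_of_exponent_le hn1 (by linarith)
        have h4 : (n : ℝ) ^ (-(k : ℝ)) = ((n : ℝ) ^ (k - 2))⁻¹ * ((n : ℝ) ^ 2)⁻¹ := by
          rw [Real.rpow_neg hn0.le, Real.rpow_natCast, ← mul_inv, ← pow_add]
          congr 2
          omega
        rw [h4] at h3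
        refine h3.trans ?_
        have h5 : M / 2 ≤ (n : ℝ) := by linarith
        have h6 : (M / 2) ^ (k - 2) ≤ (n : ℝ) ^ (k - 2) := pow_le_pow_left₀ (by linarith) h5 _
        have h7 : 0 < (M / 2) ^ (k - 2) := by positivity
        exact mul_le_mul_of_nonneg_right (inv_anti₀ h7 h6) (by positivity)
      calc 2 * B * (‖s‖ + k) ^ k * (n : ℝ) ^ (-s.re - k)
          ≤ 2 * B * (‖s‖ + k) ^ k * (((M / 2) ^ (k - 2))⁻¹ * ((n : ℝ) ^ 2)⁻¹) :=
            mul_le_mul_of_nonneg_left h2 (by positivity)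
        _ = _ := by ring
  have htsum : ∑' n : ℤ, ‖(fwdDiff (1 : ℤ))^[k] F n‖ ≤
      2 * B * (‖s‖ + k) ^ k * ((M / 2) ^ (k - 2))⁻¹ * 2 := by
    rw [tsum_eq_sum (s := S), hS, Finset.sum_map]
    · simp only [Function.Embedding.coeFn_mk]
      refine (Finset.sum_le_sum hbound).trans ?_
      rw [← Finset.mul_sum]
      exact mul_le_mul_of_nonneg_left (Sdc_inv_sq N) (by positivity)
    · intro n hn
      rw [norm_eq_zero]
      apply hvan
      rcases hSmem n hn with h1 | h1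
      · left
        have : (n : ℝ) ≤ 0 := by exact_mod_cast h1
        linarith
      · right
        exact h1
  refine hmain.trans ?_
  have hqk : (0 : ℝ) ≤ (q : ℝ) ^ k := by positivity
  refine (mul_le_mul_of_nonneg_left htsum hqk).trans (le_of_eq ?_)
  obtain ⟨j, rfl⟩ : ∃ j, k = j + 2 := ⟨k - 2, by omega⟩
  rw [Nat.add_sub_cancel]
  obtain ⟨T, hT⟩ : ∃ T : ℝ, T = ‖s‖ + ((j + 2 : ℕ) : ℝ) := ⟨_, rfl⟩
  rw [← hT]
  have e1 : (2 * (q : ℝ) * T / M) ^ (j + 2) =
      2 ^ j * 2 ^ 2 * (q : ℝ) ^ (j + 2) * T ^ (j + 2) / (M ^ j * M ^ 2) := by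
    rw [div_pow, mul_pow, mul_pow, pow_add M j 2, pow_add (2 : ℝ) j 2]
  have e2 : ((M / 2) ^ j)⁻¹ = 2 ^ j / M ^ j := by
    rw [div_pow, inv_div]
  rw [e1, e2]
  have hMj : M ^ j ≠ 0 := pow_ne_zero _ hM0.ne'
  field_simp

end Pool.Agent.EM
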