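import Pool.Agent.Lib.MP_848d44_nt_EM.Defs
import Pool.Agent.Lib.MP_848d44_nt_EM.Sdc

/-!
# Project EM (MP_848d44_nt), module Sdl: smooth sums converge to the L-function
-/

set_option autoImplicit false

namespace Pool.Agent.EM

open Finset Complex MeasureTheory
open scoped ArithmeticFunction ENNReal ContDiff ComplexConjugate

private theorem Sdl_re1 {q : ℕ} [NeZero q] (χ : DirichletCharacter ℂ q) (s : ℂ)
    (hs : 1 < s.re) : Filter.Tendsto (fun M : ℝ => SD w χ M s) Filter.atTop
      (nhds (DirichletCharacter.LFunction χ s)) := by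
  rw [DirichletCharacter.LFunction_eq_LSeries χ hs]
  have hsum : Summable (LSeries.term (fun n : ℕ => χ (n : ZMod q)) s) :=
    DirichletCharacter.LSeriesSummable_of_one_lt_re χ hs
  have h1 : ∀ᶠ M : ℝ in Filter.atTop, ∑' n : ℕ,
      LSeries.term (fun n : ℕ => χ (n : ZMod q)) s n * ((w (n / M) : ℝ) : ℂ) = SD w χ M s := by
    filter_upwards [Filter.eventually_gt_atTop 0] with M hM
    rw [tsum_eq_sum (s := Icc 1 ⌊2 * M⌋₊)]
    · unfold SD
      refine Finset.sum_congr rfl fun n hn => ?_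
      have hn0 : n ≠ 0 := by
        have := (Finset.mem_Icc.1 hn).1
        omega
      rw [LSeries.term_of_ne_zero hn0, Complex.cpow_neg, div_eq_mul_inv]
    · intro n hn
      by_cases h0 : n = 0
      · rw [h0, LSeries.term_zero, zero_mul]
      · have h3 : w (n / M) = 0 := by
          apply w_zero
          rw [le_div_iff₀ hM]
          by_contra hlt
          push Not at hlt
          exact hn (Finset.mem_Icc.2 ⟨by omega, Nat.le_floor hlt.le⟩)
        rw [h3]
        simp
  refine Filter.Tendsto.congr' h1 ?_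
  unfold LSeries
  refine tendsto_tsum_of_dominated_convergence hsum.norm (fun n => ?_) ?_
  · have h4 : ∀ᶠ M : ℝ in Filter.atTop,
        LSeries.term (fun n : ℕ => χ (n : ZMod q)) s n =
          LSeries.term (fun n : ℕ => χ (n : ZMod q)) s n * ((w (n / M) : ℝ) : ℂ) := by
      filter_upwards [Filter.eventually_ge_atTop ((n : ℝ) + 1)] with M hM
      have hM0 : 0 < M := by
        have := Nat.cast_nonneg (α := ℝ) n
        linarith
      have h5 : w (n / M) = 1 := by
        apply w_one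
        rw [div_le_one hM0]
        linarith
      rw [h5]
      simp
    exact tendsto_const_nhds.congr' h4
  · refine Filter.Eventually.of_forall fun M n => ?_
    rw [norm_mul, Complex.norm_real, Real.norm_eq_abs, abs_of_nonneg (w_nonneg _)]
    exact mul_le_of_le_one_right (norm_nonneg _) (w_le_one _)

private theorem Sdl_diff {q : ℕ} (χ : DirichletCharacter ℂ q) (M : ℝ) :
    Differentiable ℂ (SD w χ M) := by
  unfold SD
  refine Differentiable.fun_sum fun n hn => ?_
  have hn0 : (n : ℂ) ≠ 0 := by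
    have := (Finset.mem_Icc.1 hn).1
    exact_mod_cast (by omega : n ≠ 0)
  have h1 : Differentiable ℂ fun s : ℂ => (n : ℂ) ^ (-s) := by
    intro s
    exact (differentiableAt_id.neg).const_cpow (Or.inl hn0)
  exact (h1.const_mul _).mul_const _

private theorem Sdl_cauchy {q : ℕ} [NeZero q] (χ : DirichletCharacter ℂ q) (hχ : χ ≠ 1) (R : ℝ)
    (hR : 0 ≤ R) : ∃ C : ℝ, 0 < C ∧ ∀ M M' : ℝ, 8 ≤ M → M ≤ M' → ∀ s : ℂ, 0 ≤ s.re → ‖s‖ ≤ R →
      ‖SD w χ M' s - SD w χ M s‖ ≤ C / M := by
  obtain ⟨C, hC, h⟩ := SD_cauchy 3 (by norm_num)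
  have hq : 0 < (q : ℝ) := by
    exact_mod_cast Nat.pos_of_ne_zero (NeZero.ne q)
  refine ⟨C * (2 * q * (R + 3)) ^ 3, by positivity, fun M M' hM hMM s hs hsR => ?_⟩
  have h1 := h q χ hχ M M' (by push_cast; linarith) hMM s hs
  refine h1.trans ?_
  have hM0 : 0 < M := by linarith
  have h2 : (2 * q * (‖s‖ + (3 : ℕ)) / M) ^ 3 ≤ (2 * q * (R + 3) / M) ^ 3 := by
    push_cast
    gcongr
  calc C * M ^ 2 * (2 * q * (‖s‖ + (3 : ℕ)) / M) ^ 3
      ≤ C * M ^ 2 * (2 * q * (R + 3) / M) ^ 3 := by gcongr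
    _ = C * (2 * q * (R + 3)) ^ 3 / M := by
        field_simp

/-- Text (2.5). -/
theorem SD_tendsto {q : ℕ} [NeZero q] (χ : DirichletCharacter ℂ q) (hχ : χ ≠ 1) (s : ℂ)
    (hs : 0 < s.re) : Filter.Tendsto (fun M : ℝ => SD w χ M s) Filter.atTop
      (nhds (DirichletCharacter.LFunction χ s)) := by
  have hlim : ∀ z : ℂ, 0 < z.re → ∃ l : ℂ,
      Filter.Tendsto (fun M : ℝ => SD w χ M z) Filter.atTop (nhds l) := by
    intro z hz
    apply cauchy_map_iff_exists_tendsto.1
    obtain ⟨C, hC, h⟩ := Sdl_cauchy χ hχ ‖z‖ (norm_nonneg _)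
    rw [Metric.cauchy_iff]
    refine ⟨inferInstance, fun ε hε => ?_⟩
    set N : ℝ := max 8 (4 * C / ε) with hN
    refine ⟨(fun M : ℝ => SD w χ M z) '' Set.Ici N,
      Filter.image_mem_map (Filter.Ici_mem_atTop N), ?_⟩
    have hN0 : 0 < N := lt_of_lt_of_le (by norm_num) (le_max_left _ _)
    have key : ∀ M ∈ Set.Ici N, ‖SD w χ M z - SD w χ N z‖ ≤ ε / 4 := by
      intro M hM
      refine (h N M (le_max_left _ _) hM z hz.le le_rfl).trans ?_
      rw [div_le_iff₀ hN0]
      have h5 : 4 * C / ε ≤ N := le_max_right _ _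
      rw [div_le_iff₀ hε] at h5
      linarith
    rintro _ ⟨M, hM, rfl⟩ _ ⟨M', hM', rfl⟩
    have h1 := key M hM
    have h2 := key M' hM'
    simp only
    rw [dist_eq_norm]
    calc ‖SD w χ M z - SD w χ M' z‖
        = ‖(SD w χ M z - SD w χ N z) - (SD w χ M' z - SD w χ N z)‖ := by
          congr 1
          ring
      _ ≤ ‖SD w χ M z - SD w χ N z‖ + ‖SD w χ M' z - SD w χ N z‖ := norm_sub_le _ _
      _ < ε := by linarith
  choose! g hg using hlim
  set U : Set ℂ := {z | 0 < z.re} with hU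
  have hUo : IsOpen U := isOpen_lt continuous_const Complex.continuous_re
  have hloc : TendstoLocallyUniformlyOn (fun (M : ℝ) (z : ℂ) => SD w χ M z) g Filter.atTop U := by
    rw [Metric.tendstoLocallyUniformlyOn_iff]
    intro ε hε z hz
    obtain ⟨C, hC, h⟩ := Sdl_cauchy χ hχ (‖z‖ + 1) (by positivity)
    refine ⟨U ∩ Metric.ball z 1, Filter.inter_mem self_mem_nhdsWithin
      (mem_nhdsWithin_of_mem_nhds (Metric.ball_mem_nhds z one_pos)), ?_⟩
    filter_upwards [Filter.eventually_ge_atTop (max 8 (2 * C / ε))] with M hM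
    rintro y ⟨hyU, hyb⟩
    have hM8 : 8 ≤ M := (le_max_left _ _).trans hM
    have hM0 : 0 < M := by linarith
    have hyn : ‖y‖ ≤ ‖z‖ + 1 := by
      have h3 : ‖y - z‖ < 1 := by
        rw [← dist_eq_norm]
        exact hyb
      calc ‖y‖ = ‖z + (y - z)‖ := by
            congr 1
            ring
        _ ≤ ‖z‖ + ‖y - z‖ := norm_add_le _ _
        _ ≤ ‖z‖ + 1 := by linarith
    have h4 : ‖g y - SD w χ M y‖ ≤ C / M := by
      have h5 : Filter.Tendsto (fun M' : ℝ => ‖SD w χ M' y - SD w χ M y‖) Filter.atTop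
          (nhds ‖g y - SD w χ M y‖) := ((hg y hyU).sub_const _).norm
      refine le_of_tendsto h5 ?_
      filter_upwards [Filter.eventually_ge_atTop M] with M' hM'
      exact h M M' hM8 hM' y (le_of_lt hyU) hyn
    rw [dist_eq_norm]
    refine h4.trans_lt ?_
    have h6 : 2 * C / ε ≤ M := (le_max_right _ _).trans hM
    rw [div_le_iff₀ hε] at h6
    rw [div_lt_iff₀ hM0]
    nlinarith
  have hgd : DifferentiableOn ℂ g U :=
    hloc.differentiableOn (Filter.Eventually.of_forall fun M => (Sdl_diff χ M).differentiableOn)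
      hUo
  have hga : AnalyticOnNhd ℂ g U := hgd.analyticOnNhd hUo
  have hLa : AnalyticOnNhd ℂ (DirichletCharacter.LFunction χ) U :=
    (DirichletCharacter.differentiable_LFunction hχ).differentiableOn.analyticOnNhd hUo
  have hpre : IsPreconnected U := by
    have : U = Complex.re ⁻¹' Set.Ioi 0 := rfl
    rw [this]
    exact ((convex_Ioi (0 : ℝ)).linear_preimage Complex.reLm).isPreconnected
  have h2U : (2 : ℂ) ∈ U := by
    show 0 < (2 : ℂ).re
    norm_num
  have hev : g =ᶠ[nhds 2] DirichletCharacter.LFunction χ := by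
    have h7 : {z : ℂ | 1 < z.re} ∈ nhds (2 : ℂ) :=
      (isOpen_lt continuous_const Complex.continuous_re).mem_nhds (by
        show 1 < (2 : ℂ).re
        norm_num)
    filter_upwards [h7] with z hz
    have hz' : 1 < z.re := hz
    exact tendsto_nhds_unique (hg z (by linarith)) (Sdl_re1 χ z hz')
  have heq := hga.eqOn_of_preconnected_of_eventuallyEq hLa hpre h2U hev
  rw [← heq hs]
  exact hg s hs

end Pool.Agent.EM
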