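import Pool.Agent.Lib.MP_848d44_nt_EM.Defs
import Pool.Agent.Lib.MP_848d44_nt_EM.Sdl

/-!
# Project EM (MP_848d44_nt), module App: smooth sums of length q T X^e2 represent the L-function
-/

set_option autoImplicit false

namespace Pool.Agent.EM

open Finset Complex MeasureTheory
open scoped ArithmeticFunction ENNReal ContDiff ComplexConjugate

/-- The real variable estimate. -/
private theorem App_est (m : ℕ) (C K X a b q Y M : ℝ) (hC : 0 < C) (hK : 0 < K) (hX : 1 ≤ X)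
    (hXC : C * K ^ 2 * K ^ m ≤ X) (ha : 1 ≤ a) (haX : a ≤ X) (hb : 0 < b) (hbm : X ^ 15 ≤ b ^ m)
    (hq : 1 ≤ q) (hqX : q ≤ X) (hY0 : 0 ≤ Y) (hY : Y ≤ K * (q * a)) (hM : q * a * b ≤ M) :
    C * M ^ 2 * (Y / M) ^ (m + 2) ≤ (X ^ 10)⁻¹ := by
  have hX0 : 0 < X := by linarith
  have hq0 : 0 < q := by linarith
  have ha0 : 0 < a := by linarith
  have hM0 : 0 < M := lt_of_lt_of_le (by positivity) hM
  have e1 : C * M ^ 2 * (Y / M) ^ (m + 2) = C * Y ^ 2 * (Y / M) ^ m := by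
    rw [pow_add, div_pow Y M 2]
    field_simp
  rw [e1]
  have h1 : Y / M ≤ K / b := by
    rw [div_le_div_iff₀ hM0 hb]
    calc Y * b ≤ K * (q * a) * b := mul_le_mul_of_nonneg_right hY hb.le
      _ = K * (q * a * b) := by ring
      _ ≤ K * M := mul_le_mul_of_nonneg_left hM hK.le
  have h2 : (Y / M) ^ m ≤ K ^ m / X ^ 15 := by
    calc (Y / M) ^ m ≤ (K / b) ^ m := pow_le_pow_left₀ (by positivity) h1 m
      _ = K ^ m / b ^ m := div_pow _ _ _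
      _ ≤ K ^ m / X ^ 15 := div_le_div_of_nonneg_left (by positivity) (by positivity) hbm
  have h3 : Y ≤ K * X ^ 2 := by
    refine hY.trans (mul_le_mul_of_nonneg_left ?_ hK.le)
    rw [sq]
    exact mul_le_mul hqX haX ha0.le hX0.le
  have h4 : Y ^ 2 ≤ K ^ 2 * X ^ 4 := by
    calc Y ^ 2 ≤ (K * X ^ 2) ^ 2 := pow_le_pow_left₀ hY0 h3 2
      _ = K ^ 2 * X ^ 4 := by ring
  calc C * Y ^ 2 * (Y / M) ^ m ≤ C * (K ^ 2 * X ^ 4) * (K ^ m / X ^ 15) :=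
        mul_le_mul (mul_le_mul_of_nonneg_left h4 hC.le) h2 (by positivity) (by positivity)
    _ = C * K ^ 2 * K ^ m / X ^ 11 := by
        field_simp
    _ ≤ X / X ^ 11 := div_le_div_of_nonneg_right hXC (by positivity)
    _ = (X ^ 10)⁻¹ := by
        field_simp

/-- Text (2.6). -/
theorem approx (e₁ e₂ : ℝ) (h1 : 0 < e₁) (h2 : 0 < e₂) (h12 : e₁ + e₂ ≤ 1) :
    ∃ X₀ : ℝ, 1 ≤ X₀ ∧ ∀ X : ℝ, X₀ ≤ X → ∀ (q : ℕ) [NeZero q], (q : ℝ) ≤ X →
    ∀ χ : DirichletCharacter ℂ q, χ ≠ 1 → ∀ M : ℝ, q * X ^ (e₁ + e₂) ≤ M →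
    ∀ s : ℂ, 0 < s.re → ‖s‖ ≤ 5 * X ^ e₁ →
    ‖DirichletCharacter.LFunction χ s - SD w χ M s‖ ≤ X ^ (-10 : ℝ) := by
  set m : ℕ := ⌈15 / e₂⌉₊ with hm
  set k : ℕ := m + 2 with hk
  obtain ⟨C, hC, hmain⟩ := SD_cauchy k (by omega)
  set K : ℝ := 2 * (5 + k) with hK
  have hK0 : 0 < K := by positivity
  set X₁ : ℝ := (2 * (k : ℝ) + 2) ^ (1 / (e₁ + e₂)) with hX₁
  have he : 0 < e₁ + e₂ := by linarith
  refine ⟨max 1 (max X₁ (C * K ^ 2 * K ^ m)), le_max_left _ _, ?_⟩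
  intro X hX q hq hqX χ hχ M hM s hs hsX
  have hX1 : 1 ≤ X := (le_max_left _ _).trans hX
  have hX2 : X₁ ≤ X := ((le_max_left _ _).trans (le_max_right _ _)).trans hX
  have hX3 : C * K ^ 2 * K ^ m ≤ X := ((le_max_right _ _).trans (le_max_right _ _)).trans hX
  have hX0 : 0 < X := by linarith
  have hq1 : (1 : ℝ) ≤ q := by
    exact_mod_cast Nat.one_le_iff_ne_zero.2 (NeZero.ne q)
  have ha : 1 ≤ X ^ e₁ := Real.one_le_rpow hX1 h1.le
  have haX : X ^ e₁ ≤ X := by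
    calc X ^ e₁ ≤ X ^ (1 : ℝ) := Real.rpow_le_rpow_of_exponent_le hX1 (by linarith)
      _ = X := Real.rpow_one X
  have hb0 : 0 < X ^ e₂ := Real.rpow_pos_of_pos hX0 _
  have hbm : X ^ 15 ≤ (X ^ e₂) ^ m := by
    rw [← Real.rpow_natCast (X ^ e₂) m, ← Real.rpow_mul hX0.le, ← Real.rpow_natCast X 15]
    refine Real.rpow_le_rpow_of_exponent_le hX1 ?_
    have h3 : 15 / e₂ ≤ m := Nat.le_ceil _
    rw [div_le_iff₀ h2] at h3
    push_cast
    linarith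
  have hsum : X ^ (e₁ + e₂) = X ^ e₁ * X ^ e₂ := Real.rpow_add hX0 _ _
  have hMge : 2 * (k : ℝ) + 2 ≤ M := by
    have h3 : 2 * (k : ℝ) + 2 ≤ X ^ (e₁ + e₂) := by
      calc 2 * (k : ℝ) + 2 = X₁ ^ (e₁ + e₂) := by
            rw [hX₁, ← Real.rpow_mul (by positivity), one_div, inv_mul_cancel₀ he.ne',
              Real.rpow_one]
        _ ≤ X ^ (e₁ + e₂) := Real.rpow_le_rpow (by positivity) hX2 he.le
    have h4 : X ^ (e₁ + e₂) ≤ q * X ^ (e₁ + e₂) :=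
      le_mul_of_one_le_left (by positivity) hq1
    linarith
  have hbd : C * M ^ 2 * (2 * q * (‖s‖ + k) / M) ^ k ≤ (X ^ 10)⁻¹ := by
    refine App_est m C K X (X ^ e₁) (X ^ e₂) q (2 * q * (‖s‖ + k)) M hC hK0 hX1 hX3 ha haX hb0
      hbm hq1 hqX (by positivity) ?_ ?_
    · have h3 : ‖s‖ + k ≤ (5 + k) * X ^ e₁ := by nlinarith [Nat.cast_nonneg (α := ℝ) k]
      calc 2 * (q : ℝ) * (‖s‖ + k) ≤ 2 * q * ((5 + k) * X ^ e₁) :=
            mul_le_mul_of_nonneg_left h3 (by positivity)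
        _ = K * (q * X ^ e₁) := by rw [hK]; ring
    · rw [mul_assoc, ← hsum]
      exact hM
  have hlim := ((SD_tendsto χ hχ s hs).sub_const (SD w χ M s)).norm
  have hle : ‖DirichletCharacter.LFunction χ s - SD w χ M s‖ ≤
      C * M ^ 2 * (2 * q * (‖s‖ + k) / M) ^ k := by
    refine le_of_tendsto hlim ?_
    filter_upwards [Filter.eventually_ge_atTop M] with M' hM'
    exact hmain q χ hχ M M' hMge hM' s hs.le
  refine hle.trans (hbd.trans (le_of_eq ?_))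
  rw [Real.rpow_neg hX0.le, ← Real.rpow_natCast X 10]
  norm_num

private theorem App_SD_le {q : ℕ} (χ : DirichletCharacter ℂ q) (M : ℝ) (hM : 0 ≤ M) (s : ℂ)
    (hs : 0 < s.re) : ‖SD w χ M s‖ ≤ 2 * M := by
  unfold SD
  refine (norm_sum_le _ _).trans ?_
  have h1 : ∀ n ∈ Icc 1 ⌊2 * M⌋₊,
      ‖χ (n : ZMod q) * (n : ℂ) ^ (-s) * ((w (n / M) : ℝ) : ℂ)‖ ≤ 1 := by
    intro n hn
    rw [Finset.mem_Icc] at hn
    have hn0 : 0 < n := by omega
    rw [norm_mul, norm_mul, Complex.norm_natCast_cpow_of_pos hn0, Complex.norm_real,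
      Real.norm_eq_abs, abs_of_nonneg (w_nonneg _)]
    have h2 : ‖χ (n : ZMod q)‖ ≤ 1 := χ.norm_le_one _
    have h3 : (n : ℝ) ^ (-s).re ≤ 1 := by
      apply Real.rpow_le_one_of_one_le_of_nonpos
      · exact_mod_cast hn.1
      · rw [Complex.neg_re]
        linarith
    have h4 : 0 ≤ (n : ℝ) ^ (-s).re := by positivity
    calc ‖χ (n : ZMod q)‖ * (n : ℝ) ^ (-s).re * w (n / M) ≤ 1 * 1 * 1 :=
          mul_le_mul (mul_le_mul h2 h3 h4 zero_le_one) (w_le_one _) (w_nonneg _) (by norm_num)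
      _ = 1 := by norm_num
  refine (Finset.sum_le_sum h1).trans ?_
  rw [Finset.sum_const, Nat.card_Icc, nsmul_eq_mul, mul_one, Nat.add_sub_cancel]
  exact Nat.floor_le (by positivity)

/-- Text (2.6), trivial upper bound. -/
theorem L_le (e₁ : ℝ) (h1 : 0 < e₁) (h1' : e₁ ≤ 1 / 2) :
    ∃ X₀ : ℝ, 1 ≤ X₀ ∧ ∀ X : ℝ, X₀ ≤ X → ∀ (q : ℕ) [NeZero q], (q : ℝ) ≤ X →
    ∀ χ : DirichletCharacter ℂ q, χ ≠ 1 → ∀ s : ℂ, 0 < s.re → ‖s‖ ≤ 5 * X ^ e₁ →
    ‖DirichletCharacter.LFunction χ s‖ ≤ X ^ (3 : ℝ) := by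
  obtain ⟨X₀, hX₀, hmain⟩ := approx e₁ (1 / 2) h1 (by norm_num) (by linarith)
  refine ⟨max 3 X₀, le_trans (by norm_num) (le_max_left _ _), ?_⟩
  intro X hX q hq hqX χ hχ s hs hsX
  have hX3 : 3 ≤ X := (le_max_left _ _).trans hX
  have hX1 : 1 ≤ X := by linarith
  have hX0 : 0 < X := by linarith
  set M : ℝ := q * X ^ (e₁ + 1 / 2) with hM
  have hM0 : 0 ≤ M := by positivity
  have h2 := hmain X ((le_max_right _ _).trans hX) q hqX χ hχ M le_rfl s hs hsX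
  have h3 := App_SD_le χ M hM0 s hs
  have hM2 : M ≤ X ^ 2 := by
    have h4 : X ^ (e₁ + 1 / 2) ≤ X := by
      calc X ^ (e₁ + 1 / 2) ≤ X ^ (1 : ℝ) :=
            Real.rpow_le_rpow_of_exponent_le hX1 (by linarith)
        _ = X := Real.rpow_one X
    rw [hM, sq]
    exact mul_le_mul hqX h4 (by positivity) hX0.le
  have h5 : X ^ (-10 : ℝ) ≤ 1 := Real.rpow_le_one_of_one_le_of_nonpos hX1 (by norm_num)
  have h6 : X ^ (3 : ℝ) = X ^ 3 := by
    rw [← Real.rpow_natCast X 3]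
    norm_num
  rw [h6]
  have h7 : ‖DirichletCharacter.LFunction χ s‖ ≤
      ‖DirichletCharacter.LFunction χ s - SD w χ M s‖ + ‖SD w χ M s‖ := by
    have h8 := norm_add_le (DirichletCharacter.LFunction χ s - SD w χ M s) (SD w χ M s)
    rwa [sub_add_cancel] at h8
  have h9 : 2 * X ^ 2 + 1 ≤ X ^ 3 := by nlinarith [sq_nonneg X]
  linarith

end Pool.Agent.EM
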