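import Pool.Agent.Lib.MP_848d44_nt_EM.Defs

/-!
# Project EM (MP_848d44_nt), module Cnj: conjugation and the root number
-/

set_option autoImplicit false

namespace Pool.Agent.EM

open Finset Complex MeasureTheory
open scoped ArithmeticFunction ENNReal ContDiff ComplexConjugate

private theorem Cnj_term {q : ℕ} (χ : DirichletCharacter ℂ q) (s : ℂ) (n : ℕ) :
    LSeries.term (fun k => χ⁻¹ (k : ZMod q)) (conj s) n =
      conj (LSeries.term (fun k => χ (k : ZMod q)) s n) := by
  rcases Nat.eq_zero_or_pos n with h | h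
  · subst h
    simp
  · rw [LSeries.term_of_ne_zero h.ne', LSeries.term_of_ne_zero h.ne', map_div₀]
    congr 1
    · exact (MulChar.star_apply' χ _).symm
    · rw [cpow_conj _ _ (by rw [Complex.natCast_arg]; exact Real.pi_pos.ne)]
      simp

private theorem Cnj_LSeries {q : ℕ} (χ : DirichletCharacter ℂ q) (s : ℂ) :
    LSeries (fun k => χ⁻¹ (k : ZMod q)) (conj s) =
      conj (LSeries (fun k => χ (k : ZMod q)) s) := by
  unfold LSeries
  rw [Complex.conj_tsum]
  exact tsum_congr (Cnj_term χ s)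

theorem conj_L {q : ℕ} [NeZero q] (χ : DirichletCharacter ℂ q) (hχ : χ ≠ 1) (s : ℂ) :
    DirichletCharacter.LFunction χ⁻¹ (conj s) = conj (DirichletCharacter.LFunction χ s) := by
  have hχ' : χ⁻¹ ≠ 1 := inv_ne_one.2 hχ
  have hF : Differentiable ℂ (DirichletCharacter.LFunction χ⁻¹) :=
    DirichletCharacter.differentiable_LFunction hχ'
  have hG : Differentiable ℂ (fun z => conj (DirichletCharacter.LFunction χ (conj z))) := by
    intro z
    have h := (DirichletCharacter.differentiable_LFunction hχ (conj z)).conj_conj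
    simpa [Function.comp_def] using h
  have hev : DirichletCharacter.LFunction χ⁻¹ =ᶠ[nhds (2 : ℂ)]
      fun z => conj (DirichletCharacter.LFunction χ (conj z)) := by
    have hop : IsOpen {z : ℂ | 1 < z.re} := isOpen_lt continuous_const Complex.continuous_re
    have hmem : {z : ℂ | 1 < z.re} ∈ nhds (2 : ℂ) := hop.mem_nhds (by simp)
    filter_upwards [hmem] with z hz
    rw [DirichletCharacter.LFunction_eq_LSeries χ⁻¹ hz,
      DirichletCharacter.LFunction_eq_LSeries χ (by simpa using hz)]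
    have h1 := Cnj_LSeries χ (conj z)
    rw [Complex.conj_conj] at h1
    exact h1
  have h := AnalyticOnNhd.eq_of_eventuallyEq
    (fun z _ => hF.analyticAt z : AnalyticOnNhd ℂ _ Set.univ)
    (fun z _ => hG.analyticAt z : AnalyticOnNhd ℂ _ Set.univ) hev
  have h3 := congrFun h (conj s)
  simpa using h3

private theorem Cnj_gauss {q : ℕ} [NeZero q] (χ : DirichletCharacter ℂ q) :
    ‖gaussSum χ⁻¹ (ZMod.stdAddChar (N := q))‖ = ‖gaussSum χ (ZMod.stdAddChar (N := q))‖ := by
  have h1 := star_gaussSum_eq χ (ZMod.stdAddChar (N := q))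
  rw [AddChar.inv_mulShift] at h1
  have h2 := gaussSum_mulShift_eq χ⁻¹ (ZMod.stdAddChar (N := q)) (-1)
  rw [Units.val_neg, Units.val_one] at h2
  rw [h2, inv_inv] at h1
  have h3 : ‖χ (-1)‖ = 1 := by
    have := DirichletCharacter.unit_norm_eq_one χ (-1)
    rwa [Units.val_neg, Units.val_one] at this
  have h4 := congrArg (fun z : ℂ => ‖z‖) h1
  simp only [norm_star, norm_mul, h3, one_mul] at h4
  exact h4.symm

private theorem Cnj_norm_root {q : ℕ} [NeZero q] (χ : DirichletCharacter ℂ q) :
    ‖DirichletCharacter.rootNumber χ‖ =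
      ‖gaussSum χ (ZMod.stdAddChar (N := q))‖ / ‖(q : ℂ) ^ (1 / 2 : ℂ)‖ := by
  unfold DirichletCharacter.rootNumber
  rw [norm_div, norm_div, norm_pow, Complex.norm_I, one_pow, div_one]

theorem norm_root {q : ℕ} [NeZero q] (χ : DirichletCharacter ℂ q) (hχ : χ.IsPrimitive)
    (hχ1 : χ ≠ 1) : ‖DirichletCharacter.rootNumber χ‖ = 1 := by
  have hχi : χ⁻¹.IsPrimitive := by
    unfold DirichletCharacter.IsPrimitive
    rw [DirichletCharacter.conductor_inv]
    exact hχ
  have h1 := hχ.completedLFunction_one_sub (-1)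
  have h2 := hχi.completedLFunction_one_sub (1 - (-1))
  rw [inv_inv, show (1 : ℂ) - (1 - (-1)) = -1 by ring] at h2
  rw [h2] at h1
  have hq : (q : ℂ) ≠ 0 := Nat.cast_ne_zero.2 (NeZero.ne q)
  have h3 : (q : ℂ) ^ ((-1 : ℂ) - 1 / 2) * (q : ℂ) ^ ((1 : ℂ) - (-1) - 1 / 2) = 1 := by
    rw [← Complex.cpow_add _ _ hq, show (-1 : ℂ) - 1 / 2 + (1 - (-1) - 1 / 2) = 0 by ring,
      Complex.cpow_zero]
  have h4 : DirichletCharacter.completedLFunction χ (1 - (-1)) ≠ 0 := by
    intro h0
    have h5 := DirichletCharacter.LFunction_eq_completed_div_gammaFactor χ (1 - (-1))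
      (Or.inl (by norm_num))
    rw [h0, zero_div] at h5
    exact DirichletCharacter.LFunction_ne_zero_of_one_le_re χ (Or.inl hχ1)
      (by norm_num) h5
  have h6 : DirichletCharacter.rootNumber χ * DirichletCharacter.rootNumber χ⁻¹ = 1 := by
    apply mul_right_cancel₀ h4
    rw [one_mul]
    conv_rhs => rw [h1]
    linear_combination (-(DirichletCharacter.rootNumber χ * DirichletCharacter.rootNumber χ⁻¹ *
      DirichletCharacter.completedLFunction χ (1 - (-1)))) * h3
  have h7 := congrArg (fun z : ℂ => ‖z‖) h6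
  simp only [norm_mul, norm_one] at h7
  rw [Cnj_norm_root χ⁻¹, Cnj_gauss, ← Cnj_norm_root] at h7
  nlinarith [norm_nonneg (DirichletCharacter.rootNumber χ)]

end Pool.Agent.EM
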