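import Pool.Agent.Lib.MP_848d44_nt_EM.Defs

/-!
# Project EM (MP_848d44_nt), module Orth: orthogonality of characters
-/

set_option autoImplicit false

namespace Pool.Agent.EM

open Finset Complex MeasureTheory
open scoped ArithmeticFunction ENNReal ContDiff ComplexConjugate

theorem Orth_conj {q : ℕ} [NeZero q] (χ : DirichletCharacter ℂ q) {a : ZMod q} (ha : IsUnit a) :
    conj (χ a) = χ a⁻¹ := by
  have h1 : χ a⁻¹ * χ a = 1 := by
    rw [← map_mul, ZMod.inv_mul_of_unit a ha, map_one]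
  have h2 : ‖χ a‖ = 1 := by
    obtain ⟨u, rfl⟩ := ha
    exact DirichletCharacter.unit_norm_eq_one χ u
  have h3 : conj (χ a) * χ a = 1 := by
    rw [mul_comm, Complex.mul_conj, Complex.normSq_eq_norm_sq, h2]; simp
  have h4 : χ a ≠ 0 := by
    intro h0; rw [h0] at h2; simp at h2
  exact mul_right_cancel₀ h4 (h3.trans h1.symm)

theorem Orth_unit {q : ℕ} [NeZero q] (u v : (ZMod q)ˣ) :
    ∑ χ : DirichletCharacter ℂ q, χ (u : ZMod q) * conj (χ (v : ZMod q)) =
      if u = v then (q.totient : ℂ) else 0 := by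
  have h := DirichletCharacter.sum_char_inv_mul_char_eq ℂ v.isUnit (u : ZMod q)
  have h2 : ∑ χ : DirichletCharacter ℂ q, χ (u : ZMod q) * conj (χ (v : ZMod q)) =
      ∑ χ : DirichletCharacter ℂ q, χ (v : ZMod q)⁻¹ * χ (u : ZMod q) := by
    refine sum_congr rfl fun χ _ => ?_
    rw [Orth_conj χ v.isUnit, mul_comm]
  rw [h2, h]
  by_cases huv : u = v
  · rw [if_pos huv, if_pos (by rw [huv])]
  · rw [if_neg huv, if_neg (fun h' => huv (Units.ext h'.symm))]

theorem Orth_split {q : ℕ} [NeZero q] (χ : DirichletCharacter ℂ q) (f : ZMod q → ℂ) :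
    ∑ a : ZMod q, χ a * f a = ∑ u : (ZMod q)ˣ, χ (u : ZMod q) * f (u : ZMod q) := by
  symm
  refine Fintype.sum_of_injective (fun u : (ZMod q)ˣ => (u : ZMod q)) Units.val_injective _ _ ?_
    (fun _ => rfl)
  intro a ha
  have : ¬ IsUnit a := fun ⟨u, hu⟩ => ha ⟨u, hu⟩
  rw [MulChar.map_nonunit χ this, zero_mul]

/-- Text (1.1). -/
theorem orth_l2 {q : ℕ} [NeZero q] (f : ZMod q → ℂ) :
    ∑ χ : DirichletCharacter ℂ q, ‖∑ a : ZMod q, χ a * f a‖ ^ 2 =
      (q.totient : ℝ) * ∑ a : (ZMod q)ˣ, ‖f (a : ZMod q)‖ ^ 2 := by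
  apply Complex.ofReal_injective
  push_cast
  have h1 : ∀ χ : DirichletCharacter ℂ q, ((‖∑ a : ZMod q, χ a * f a‖ : ℝ) : ℂ) ^ 2 =
      ∑ u : (ZMod q)ˣ, ∑ v : (ZMod q)ˣ, (f (u : ZMod q) * conj (f (v : ZMod q))) *
        (χ (u : ZMod q) * conj (χ (v : ZMod q))) := by
    intro χ
    rw [← Complex.mul_conj', Orth_split, map_sum, sum_mul_sum]
    refine sum_congr rfl fun u _ => sum_congr rfl fun v _ => ?_
    rw [map_mul]
    ring
  rw [sum_congr rfl fun χ _ => h1 χ, sum_comm, mul_sum]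
  refine sum_congr rfl fun u _ => ?_
  rw [sum_comm]
  have h2 : ∀ v : (ZMod q)ˣ, ∑ χ : DirichletCharacter ℂ q,
      (f (u : ZMod q) * conj (f (v : ZMod q))) * (χ (u : ZMod q) * conj (χ (v : ZMod q))) =
      if u = v then (f (u : ZMod q) * conj (f (v : ZMod q))) * (q.totient : ℂ) else 0 := by
    intro v
    rw [← mul_sum, Orth_unit]
    split_ifs <;> simp
  rw [sum_congr rfl fun v _ => h2 v, sum_ite_eq]
  rw [if_pos (mem_univ _), Complex.mul_conj']
  ring

theorem Orth_mod {q : ℕ} [NeZero q] (n : ℕ) (a : ZMod q) :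
    (n : ZMod q) = a ↔ n % q = a.val := by
  constructor
  · rintro rfl
    rw [ZMod.val_natCast]
  · intro h
    rw [← ZMod.natCast_zmod_val a, ← h, ZMod.natCast_mod]

theorem Orth_fib {q : ℕ} [NeZero q] (χ : DirichletCharacter ℂ q) (s : Finset ℕ) (b : ℕ → ℂ) :
    ∑ n ∈ s, χ (n : ZMod q) * b n =
      ∑ a : ZMod q, χ a * ∑ n ∈ s.filter (fun n => n % q = a.val), b n := by
  classical
  rw [← sum_fiberwise s (fun n => (n : ZMod q))]
  refine sum_congr rfl fun a _ => ?_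
  rw [mul_sum]
  refine sum_congr ?_ fun n hn => ?_
  · ext n
    simp only [mem_filter, Orth_mod]
  · rw [(Orth_mod n a).2 (mem_filter.1 hn).2]

/-- Text (1.2). -/
theorem psi_l2 {q : ℕ} [NeZero q] (x Y : ℝ) :
    ∑ χ ∈ ncs q, ‖psi χ x‖ ^ 2 ≤ (q.totient : ℝ) * vari x q Y := by
  set f : ZMod q → ℂ := fun a => ((psc x q a.val - Y : ℝ) : ℂ) with hf
  have h1 : ∀ χ ∈ ncs q, psi χ x = ∑ a : ZMod q, χ a * f a := by
    intro χ hχ
    unfold psi
    rw [Orth_fib χ]
    have h2 : ∑ a : ZMod q, χ a * f a =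
        ∑ a : ZMod q, χ a * ((psc x q a.val : ℝ) : ℂ) - (∑ a : ZMod q, χ a) * (Y : ℂ) := by
      rw [sum_mul, ← sum_sub_distrib]
      refine sum_congr rfl fun a _ => ?_
      rw [hf]
      push_cast
      ring
    rw [h2, MulChar.sum_eq_zero_of_ne_one (mem_ncs.1 hχ), zero_mul, sub_zero]
    refine sum_congr rfl fun a _ => ?_
    unfold psc
    push_cast
    rfl
  calc ∑ χ ∈ ncs q, ‖psi χ x‖ ^ 2 = ∑ χ ∈ ncs q, ‖∑ a : ZMod q, χ a * f a‖ ^ 2 :=
        sum_congr rfl fun χ hχ => by rw [h1 χ hχ]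
    _ ≤ ∑ χ : DirichletCharacter ℂ q, ‖∑ a : ZMod q, χ a * f a‖ ^ 2 :=
        sum_le_sum_of_subset_of_nonneg (subset_univ _) fun _ _ _ => by positivity
    _ = (q.totient : ℝ) * ∑ u : (ZMod q)ˣ, ‖f (u : ZMod q)‖ ^ 2 := orth_l2 f
    _ = (q.totient : ℝ) * vari x q Y := by
        congr 1
        unfold vari
        refine sum_nbij (fun u : (ZMod q)ˣ => (u : ZMod q).val) ?_ ?_ ?_ ?_
        · intro u _
          rw [mem_filter, mem_range]
          exact ⟨ZMod.val_lt _, ZMod.val_coe_unit_coprime u⟩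
        · intro u _ v _ huv
          exact Units.ext (ZMod.val_injective q huv)
        · intro a ha
          rw [mem_coe, mem_filter, mem_range] at ha
          refine ⟨ZMod.unitOfCoprime a ha.2, by simp, ?_⟩
          show ((ZMod.unitOfCoprime a ha.2 : (ZMod q)ˣ) : ZMod q).val = a
          rw [ZMod.coe_unitOfCoprime, ZMod.val_natCast_of_lt ha.1]
        · intro u _
          rw [hf]
          simp only
          rw [Complex.norm_real, Real.norm_eq_abs, sq_abs]

theorem Orth_cnt (q : ℕ) [NeZero q] (K r : ℕ) :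
    (((Icc 1 K).filter (fun n => n % q = r)).card : ℝ) ≤ (K : ℝ) / q + 1 := by
  have hq : 0 < q := Nat.pos_of_ne_zero (NeZero.ne q)
  have h1 : ((Icc 1 K).filter (fun n => n % q = r)).card ≤ (range (K / q + 1)).card := by
    apply card_le_card_of_injOn (fun n => n / q)
    · intro n hn
      rw [mem_coe, mem_filter, mem_Icc] at hn
      rw [mem_coe, mem_range]
      exact Nat.lt_succ_of_le (Nat.div_le_div_right hn.1.2)
    · intro m hm n hn hmn
      rw [mem_coe, mem_filter] at hm hn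
      have hmn' : m / q = n / q := hmn
      have e1 := Nat.div_add_mod m q
      have e2 := Nat.div_add_mod n q
      rw [← e1, ← e2, hmn', hm.2, hn.2]
  rw [card_range] at h1
  have h2 : ((K / q : ℕ) : ℝ) ≤ (K : ℝ) / q := Nat.cast_div_le
  have h3 : (((Icc 1 K).filter (fun n => n % q = r)).card : ℝ) ≤ ((K / q + 1 : ℕ) : ℝ) := by
    exact_mod_cast h1
  push_cast at h3
  linarith

/-- Text (1.3). -/
theorem dir_l2 {q : ℕ} [NeZero q] (K : ℕ) (b : ℕ → ℂ) :
    ∑ χ : DirichletCharacter ℂ q, ‖∑ n ∈ Icc 1 K, χ (n : ZMod q) * b n‖ ^ 2 ≤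
      (q.totient : ℝ) * ((K : ℝ) / q + 1) * ∑ n ∈ Icc 1 K, ‖b n‖ ^ 2 := by
  set f : ZMod q → ℂ := fun a => ∑ n ∈ (Icc 1 K).filter (fun n => n % q = a.val), b n with hf
  have hKq : 0 ≤ (K : ℝ) / q + 1 := by positivity
  have hfa : ∀ a : ZMod q, ‖f a‖ ^ 2 ≤
      ((K : ℝ) / q + 1) * ∑ n ∈ (Icc 1 K).filter (fun n => n % q = a.val), ‖b n‖ ^ 2 := by
    intro a
    have h1 : ‖f a‖ ≤ ∑ n ∈ (Icc 1 K).filter (fun n => n % q = a.val), ‖b n‖ := norm_sum_le _ _
    have h2 := sq_sum_le_card_mul_sum_sq (s := (Icc 1 K).filter (fun n => n % q = a.val))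
      (f := fun n => ‖b n‖)
    calc ‖f a‖ ^ 2 ≤ (∑ n ∈ (Icc 1 K).filter (fun n => n % q = a.val), ‖b n‖) ^ 2 :=
          pow_le_pow_left₀ (norm_nonneg _) h1 2
      _ ≤ _ := h2
      _ ≤ _ := mul_le_mul_of_nonneg_right (Orth_cnt q K a.val)
          (sum_nonneg fun _ _ => by positivity)
  calc ∑ χ : DirichletCharacter ℂ q, ‖∑ n ∈ Icc 1 K, χ (n : ZMod q) * b n‖ ^ 2
      = ∑ χ : DirichletCharacter ℂ q, ‖∑ a : ZMod q, χ a * f a‖ ^ 2 :=
        sum_congr rfl fun χ _ => by rw [Orth_fib χ]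
    _ = (q.totient : ℝ) * ∑ u : (ZMod q)ˣ, ‖f (u : ZMod q)‖ ^ 2 := orth_l2 f
    _ ≤ (q.totient : ℝ) * ∑ a : ZMod q, ‖f a‖ ^ 2 := by
        refine mul_le_mul_of_nonneg_left ?_ (by positivity)
        rw [← sum_image (f := fun a : ZMod q => ‖f a‖ ^ 2) (s := univ)
          (g := fun u : (ZMod q)ˣ => (u : ZMod q)) (fun u _ v _ h => Units.ext h)]
        exact sum_le_sum_of_subset_of_nonneg (subset_univ _) fun _ _ _ => by positivity
    _ ≤ (q.totient : ℝ) * ∑ a : ZMod q, ((K : ℝ) / q + 1) *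
          ∑ n ∈ (Icc 1 K).filter (fun n => n % q = a.val), ‖b n‖ ^ 2 :=
        mul_le_mul_of_nonneg_left (sum_le_sum fun a _ => hfa a) (by positivity)
    _ = (q.totient : ℝ) * ((K : ℝ) / q + 1) * ∑ n ∈ Icc 1 K, ‖b n‖ ^ 2 := by
        rw [← mul_sum, mul_assoc]
        congr 2
        classical
        rw [← sum_fiberwise (Icc 1 K) (fun n => (n : ZMod q))]
        refine sum_congr rfl fun a _ => ?_
        refine sum_congr ?_ fun _ _ => rfl
        ext n
        simp only [mem_filter, Orth_mod]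

/-- The number of nonprincipal characters. -/
theorem card_ncs (q : ℕ) [NeZero q] (hq : 3 ≤ q) :
    (q.totient : ℝ) / 2 ≤ ((ncs q).card : ℝ) ∧ ((ncs q).card : ℝ) ≤ q.totient := by
  classical
  have h1 : (univ : Finset (DirichletCharacter ℂ q)).card = q.totient := by
    rw [← DirichletCharacter.card_eq_totient_of_hasEnoughRootsOfUnity ℂ q,
      Nat.card_eq_fintype_card, card_univ]
  have h2 : (ncs q).card + 1 = q.totient := by
    have h3 : ncs q = univ.erase 1 := by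
      ext χ
      rw [mem_ncs, mem_erase]
      simp
    rw [h3, card_erase_of_mem (mem_univ _), h1]
    have := Nat.totient_pos.2 (show 0 < q by omega)
    omega
  have h4 : 2 ≤ q.totient := by
    obtain ⟨k, hk⟩ := Nat.totient_even (show 2 < q by omega)
    have := Nat.totient_pos.2 (show 0 < q by omega)
    omega
  have h5 : ((ncs q).card : ℝ) + 1 = q.totient := by exact_mod_cast h2
  have h6 : (2 : ℝ) ≤ q.totient := by exact_mod_cast h4
  constructor <;> linarith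

end Pool.Agent.EM
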