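import Pool.Agent.Lib.MP_848d44_nt_EM.Defs
import Pool.Agent.Lib.MP_848d44_nt_EM.Abe
import Pool.Agent.Lib.MP_848d44_nt_EM.Orth

/-!
# Project EM (MP_848d44_nt), module Vbd: the average of V
-/

set_option autoImplicit false

namespace Pool.Agent.EM

open Finset Complex MeasureTheory
open scoped ArithmeticFunction ENNReal ContDiff ComplexConjugate

private theorem Vbd_cs {ι : Type*} (s : Finset ι) (a b : ι → ℝ) {P Q T : ℝ}
    (ha : ∑ i ∈ s, a i ^ 2 ≤ P) (hb : ∑ i ∈ s, b i ^ 2 ≤ Q) (hT : 0 ≤ T)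
    (h : P * Q ≤ T ^ 2) : ∑ i ∈ s, a i * b i ≤ T := by
  have h1 := Finset.sum_mul_sq_le_sq_mul_sq s a b
  have h2 : (∑ i ∈ s, a i ^ 2) * (∑ i ∈ s, b i ^ 2) ≤ P * Q :=
    mul_le_mul ha hb (Finset.sum_nonneg fun i _ => sq_nonneg _)
      (le_trans (Finset.sum_nonneg fun i _ => sq_nonneg _) ha)
  exact le_of_abs_le (abs_le_of_sq_le_sq (h1.trans (h2.trans h)) hT)

private theorem Vbd_int {ι : Type*} (s : Finset ι) (f : ι → ℝ → ℂ) (g : ℝ → ℝ) {a b : ℝ}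
    (hab : a ≤ b) (hg : IntervalIntegrable g volume a b)
    (h : ∀ y ∈ Set.Icc a b, ∑ i ∈ s, ‖f i y‖ ≤ g y) :
    ∑ i ∈ s, ‖∫ y in a..b, f i y‖ ≤ ∫ y in a..b, g y := by
  classical
  obtain ⟨S, hS⟩ : ∃ S, S = s.filter (fun i => IntervalIntegrable (f i) volume a b) := ⟨_, rfl⟩
  have h1 : ∑ i ∈ s, ‖∫ y in a..b, f i y‖ = ∑ i ∈ S, ‖∫ y in a..b, f i y‖ := by
    rw [hS]
    refine (Finset.sum_filter_of_ne ?_).symm
    intro i _ hne
    by_contra hni
    apply hne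
    rw [intervalIntegral.integral_undef hni, norm_zero]
  have hint : ∀ i ∈ S, IntervalIntegrable (fun y => ‖f i y‖) volume a b := by
    intro i hi
    rw [hS, Finset.mem_filter] at hi
    exact hi.2.norm
  rw [h1]
  calc ∑ i ∈ S, ‖∫ y in a..b, f i y‖ ≤ ∑ i ∈ S, ∫ y in a..b, ‖f i y‖ :=
        Finset.sum_le_sum fun i _ => intervalIntegral.norm_integral_le_integral_norm hab
    _ = ∫ y in a..b, ∑ i ∈ S, ‖f i y‖ := (intervalIntegral.integral_finsetSum hint).symm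
    _ ≤ ∫ y in a..b, g y := by
        refine intervalIntegral.integral_mono_on hab ?_ hg ?_
        · have h2 := IntervalIntegrable.sum S hint
          refine h2.congr ?_
          intro y _
          simp
        · intro y hy
          refine le_trans ?_ (h y hy)
          refine Finset.sum_le_sum_of_subset_of_nonneg ?_ fun i _ _ => norm_nonneg _
          rw [hS]
          exact Finset.filter_subset _ _

private theorem Vbd_harm (K : ℕ) {N a σ : ℝ} (hN : 1 ≤ N) (hK : (K : ℝ) ≤ N) (ha : 0 ≤ a)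
    (hσ : 1 - a ≤ 2 * σ) : ∑ n ∈ Icc 1 K, (((n : ℝ) ^ (-σ)) ^ 2) ≤ N ^ a * (1 + Real.log N) := by
  rcases Nat.eq_zero_or_pos K with rfl | hKpos
  · rw [Finset.Icc_eq_empty_of_lt Nat.zero_lt_one, Finset.sum_empty]
    have := Real.log_nonneg hN
    positivity
  have hKr : (0 : ℝ) < K := by exact_mod_cast hKpos
  have h1 : ∀ n ∈ Icc 1 K, (((n : ℝ) ^ (-σ)) ^ 2) ≤ N ^ a * ((n : ℝ)⁻¹) := by
    intro n hn
    rw [Finset.mem_Icc] at hn
    have hn1 : (1 : ℝ) ≤ n := by exact_mod_cast hn.1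
    have hnK : (n : ℝ) ≤ K := by exact_mod_cast hn.2
    have hn0 : (0 : ℝ) < n := by linarith
    rw [← Real.rpow_natCast, ← Real.rpow_mul hn0.le]
    have h2 : (n : ℝ) ^ (-σ * ((2 : ℕ) : ℝ)) ≤ (n : ℝ) ^ (a + (-1)) := by
      apply Real.rpow_le_rpow_of_exponent_le hn1
      push_cast
      linarith
    refine h2.trans ?_
    rw [Real.rpow_add hn0, Real.rpow_neg_one]
    exact mul_le_mul_of_nonneg_right (Real.rpow_le_rpow hn0.le (hnK.trans hK) ha)
      (inv_nonneg.2 hn0.le)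
  refine (Finset.sum_le_sum h1).trans ?_
  rw [← Finset.mul_sum]
  refine mul_le_mul_of_nonneg_left ?_ (by positivity)
  have h3 := harmonic_le_one_add_log K
  rw [harmonic_eq_sum_Icc] at h3
  push_cast at h3
  refine h3.trans ?_
  have h4 := Real.log_le_log hKr hK
  linarith

/-- Text (4.3), the main term. -/
theorem V_avg (ε : ℝ) (hε : 0 < ε) (hε1 : ε ≤ 1) (e₂ : ℝ) (h2 : 0 < e₂) (h2' : e₂ ≤ ε / 32) :
    ∃ X₀ : ℝ, 1 ≤ X₀ ∧ ∀ X : ℝ, X₀ ≤ X → ∀ (q : ℕ) [NeZero q], 3 ≤ q → (q : ℝ) ≤ X →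
    (∀ x : ℝ, X ≤ x → x ≤ q * X ^ (1 + ε) →
      ∑ χ ∈ ncs q, ‖psi χ x‖ ^ 2 ≤ (q.totient : ℝ) * x ^ (1 - ε)) →
    ∀ s : ℂ, 1 / 2 - ε / 64 ≤ s.re → s.re ≤ 1 → ‖s‖ ≤ 4 * X ^ (ε / 16) →
    ∑ χ ∈ ncs q, ‖VV χ X (X * (q * X ^ (ε / 16 + e₂))) s‖ ≤
      (q.totient : ℝ) * X ^ (-(5 / 16 * ε)) := by
  obtain ⟨B, hB0, hB⟩ := w1_bound
  obtain ⟨D, hD⟩ : ∃ D : ℝ, D = 3 * (4 + B) ^ 2 * (1 + 192 / ε) / (ε / 4) ^ 2 := ⟨_, rfl⟩
  have hev : ∀ᶠ X : ℝ in Filter.atTop, 2 ≤ X ∧ 2 ≤ X ^ (ε / 2) ∧ D ≤ X ^ (ε / 64) := by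
    refine (Filter.eventually_ge_atTop 2).and (Filter.Eventually.and ?_ ?_)
    · exact (tendsto_rpow_atTop (by positivity)).eventually_ge_atTop 2
    · exact (tendsto_rpow_atTop (by positivity)).eventually_ge_atTop D
  obtain ⟨X₁, hX₁⟩ := Filter.eventually_atTop.1 hev
  refine ⟨max 1 X₁, le_max_left _ _, ?_⟩
  intro X hX q _ hq hqX hyp s hs1 hs2 hs3
  obtain ⟨hX2, hXε, hXD⟩ := hX₁ X ((le_max_right _ _).trans hX)
  have hX0 : 0 < X := by linarith
  have hX1 : 1 ≤ X := by linarith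
  have hq0 : (0 : ℝ) < q := by
    have : 0 < q := by omega
    exact_mod_cast this
  obtain ⟨φ, hφ⟩ : ∃ φ : ℝ, φ = (q.totient : ℝ) := ⟨_, rfl⟩
  have hφ0 : 0 ≤ φ := by
    rw [hφ]
    positivity
  obtain ⟨M, hM⟩ : ∃ M : ℝ, M = q * X ^ (ε / 16 + e₂) := ⟨_, rfl⟩
  obtain ⟨Z, hZ⟩ : ∃ Z : ℝ, Z = X * M := ⟨_, rfl⟩
  rw [← hM, ← hZ]
  have hpw1 : 1 ≤ X ^ (ε / 16 + e₂) := Real.one_le_rpow hX1 (by positivity)
  have hM1 : 1 ≤ M := by
    rw [hM]
    have : (1 : ℝ) ≤ q := by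
      have : 1 ≤ q := by omega
      exact_mod_cast this
    nlinarith
  have hXZ : X ≤ Z := by
    rw [hZ]
    nlinarith
  -- `2 M ≤ X ^ 3`
  have hM3 : 2 * M ≤ X ^ (3 : ℝ) := by
    have h1 : X ^ (ε / 16 + e₂) ≤ X := by
      calc X ^ (ε / 16 + e₂) ≤ X ^ (1 : ℝ) :=
            Real.rpow_le_rpow_of_exponent_le hX1 (by linarith)
        _ = X := Real.rpow_one X
    have h3 : X ^ (3 : ℝ) = X * X * X := by
      have : (3 : ℝ) = ((3 : ℕ) : ℝ) := by norm_num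
      rw [this, Real.rpow_natCast]
      ring
    rw [h3, hM]
    have h4 : (q : ℝ) * X ^ (ε / 16 + e₂) ≤ X * X :=
      mul_le_mul hqX h1 (by positivity) hX0.le
    nlinarith [mul_pos hX0 hX0]
  -- `2 Z ≤ q X ^ (1 + ε)`
  have hZwin : 2 * Z ≤ q * X ^ (1 + ε) := by
    have h1 : X ^ (1 + ε) = X * (X ^ (ε / 16 + e₂) * X ^ (ε - (ε / 16 + e₂))) := by
      rw [← Real.rpow_add hX0, Real.rpow_add hX0, Real.rpow_one]
      congr 2
      ring
    have h3 : X ^ (ε / 2) ≤ X ^ (ε - (ε / 16 + e₂)) :=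
      Real.rpow_le_rpow_of_exponent_le hX1 (by linarith)
    have h4 : 2 ≤ X ^ (ε - (ε / 16 + e₂)) := hXε.trans h3
    rw [h1, hZ, hM]
    have h5 : (0 : ℝ) ≤ X * (q * X ^ (ε / 16 + e₂)) := by positivity
    nlinarith
  obtain ⟨A, hA⟩ : ∃ A : ℝ, A = ε / 4 * X ^ (11 * ε / 64) := ⟨_, rfl⟩
  have hA0 : 0 ≤ A := by
    rw [hA]
    positivity
  obtain ⟨S, hSdef⟩ : ∃ S : ℝ, S = (4 + B) * X ^ (ε / 16) := ⟨_, rfl⟩
  have hpw16 : 1 ≤ X ^ (ε / 16) := Real.one_le_rpow hX1 (by positivity)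
  have hS0 : 0 ≤ S := by
    rw [hSdef]
    positivity
  -- the key numerical inequality
  have hlogN : 1 + Real.log (2 * M) ≤ (1 + 192 / ε) * X ^ (ε / 64) := by
    have h1 : Real.log (2 * M) ≤ 3 * Real.log X := by
      have h3 := Real.log_le_log (by linarith) hM3
      rwa [Real.log_rpow hX0] at h3
    have h3 : Real.log X ≤ X ^ (ε / 64) / (ε / 64) := Real.log_le_rpow_div hX0.le (by positivity)
    have h4 : 1 ≤ X ^ (ε / 64) := Real.one_le_rpow hX1 (by positivity)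
    have h5 : X ^ (ε / 64) / (ε / 64) = 64 / ε * X ^ (ε / 64) := by
      field_simp
    rw [h5] at h3
    have h6 : (1 + 192 / ε) * X ^ (ε / 64) = X ^ (ε / 64) + 3 * (64 / ε * X ^ (ε / 64)) := by
      ring
    rw [h6]
    linarith
  have hkey : 3 * X ^ (ε / 16 + e₂) * (S ^ 2 * ((2 * M) ^ (ε / 32) * (1 + Real.log (2 * M)))) ≤
      A ^ 2 := by
    have h1 : (2 * M) ^ (ε / 32) ≤ X ^ (3 * (ε / 32)) := by
      rw [Real.rpow_mul hX0.le]
      exact Real.rpow_le_rpow (by linarith) hM3 (by positivity)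
    have h3 : X ^ (ε / 16 + e₂) ≤ X ^ (3 * (ε / 32)) :=
      Real.rpow_le_rpow_of_exponent_le hX1 (by linarith)
    have hln0 : 0 ≤ 1 + Real.log (2 * M) := by
      have := Real.log_nonneg (show (1 : ℝ) ≤ 2 * M by linarith)
      linarith
    have h4 : 3 * X ^ (ε / 16 + e₂) * (S ^ 2 * ((2 * M) ^ (ε / 32) * (1 + Real.log (2 * M)))) ≤
        3 * X ^ (3 * (ε / 32)) * (S ^ 2 * (X ^ (3 * (ε / 32)) *
          ((1 + 192 / ε) * X ^ (ε / 64)))) := by
      have h5 : (2 * M) ^ (ε / 32) * (1 + Real.log (2 * M)) ≤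
          X ^ (3 * (ε / 32)) * ((1 + 192 / ε) * X ^ (ε / 64)) :=
        mul_le_mul h1 hlogN hln0 (by positivity)
      have h6 : S ^ 2 * ((2 * M) ^ (ε / 32) * (1 + Real.log (2 * M))) ≤
          S ^ 2 * (X ^ (3 * (ε / 32)) * ((1 + 192 / ε) * X ^ (ε / 64))) :=
        mul_le_mul_of_nonneg_left h5 (sq_nonneg S)
      have h7 : 0 ≤ S ^ 2 * ((2 * M) ^ (ε / 32) * (1 + Real.log (2 * M))) := by
        have : 0 ≤ (2 * M) ^ (ε / 32) := Real.rpow_nonneg (by linarith) _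
        positivity
      exact mul_le_mul (by linarith) h6 h7 (by positivity)
    refine h4.trans ?_
    have h5 : 3 * (4 + B) ^ 2 * (1 + 192 / ε) ≤ (ε / 4) ^ 2 * X ^ (ε / 64) := by
      have h6 := hXD
      rw [hD, div_le_iff₀ (by positivity)] at h6
      linarith
    have h6 : 3 * X ^ (3 * (ε / 32)) * (S ^ 2 * (X ^ (3 * (ε / 32)) *
          ((1 + 192 / ε) * X ^ (ε / 64)))) =
        3 * (4 + B) ^ 2 * (1 + 192 / ε) * X ^ (21 * ε / 64) := by
      have h7 : X ^ (21 * ε / 64) = X ^ (3 * (ε / 32)) * (X ^ (ε / 16) * X ^ (ε / 16)) *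
          (X ^ (3 * (ε / 32)) * X ^ (ε / 64)) := by
        rw [← Real.rpow_add hX0, ← Real.rpow_add hX0, ← Real.rpow_add hX0, ← Real.rpow_add hX0]
        congr 1
        ring
      rw [h7, hSdef]
      ring
    rw [h6]
    have h8 : A ^ 2 = (ε / 4) ^ 2 * X ^ (ε / 64) * X ^ (21 * ε / 64) := by
      have h9 : X ^ (11 * ε / 64) * X ^ (11 * ε / 64) = X ^ (ε / 64) * X ^ (21 * ε / 64) := by
        rw [← Real.rpow_add hX0, ← Real.rpow_add hX0]
        congr 1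
        ring
      rw [hA, mul_pow, sq (X ^ (11 * ε / 64)), h9]
      ring
    rw [h8]
    exact mul_le_mul_of_nonneg_right h5 (by positivity)
  -- the bound for character sums
  have hmain : ∀ (y : ℝ) (K : ℕ) (b : ℕ → ℂ), X ≤ y → y ≤ 2 * Z → (K : ℝ) ≤ 2 * M →
      (∀ n ∈ Icc 1 K, ‖b n‖ ≤ (n : ℝ) ^ (-s.re) * S) →
      ∑ χ ∈ ncs q, ‖∑ n ∈ Icc 1 K, χ (n : ZMod q) * b n‖ * ‖psi χ y‖ ≤
        φ * y ^ ((1 - ε) / 2) * A := by
    intro y K b hy1 hy2 hK hb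
    have hy0 : 0 < y := by linarith
    have h1 : ∑ χ ∈ ncs q, ‖∑ n ∈ Icc 1 K, χ (n : ZMod q) * b n‖ ^ 2 ≤
        φ * (3 * X ^ (ε / 16 + e₂) *
          (S ^ 2 * ((2 * M) ^ (ε / 32) * (1 + Real.log (2 * M))))) := by
      have h3 : ∑ χ ∈ ncs q, ‖∑ n ∈ Icc 1 K, χ (n : ZMod q) * b n‖ ^ 2 ≤
          ∑ χ : DirichletCharacter ℂ q, ‖∑ n ∈ Icc 1 K, χ (n : ZMod q) * b n‖ ^ 2 :=
        Finset.sum_le_sum_of_subset_of_nonneg (Finset.subset_univ _) fun i _ _ => sq_nonneg _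
      refine h3.trans ((dir_l2 K b).trans ?_)
      rw [← hφ, mul_assoc]
      refine mul_le_mul_of_nonneg_left ?_ hφ0
      have h4 : (K : ℝ) / q + 1 ≤ 3 * X ^ (ε / 16 + e₂) := by
        have h5 : (K : ℝ) / q ≤ 2 * X ^ (ε / 16 + e₂) := by
          rw [div_le_iff₀ hq0]
          calc (K : ℝ) ≤ 2 * M := hK
            _ = 2 * X ^ (ε / 16 + e₂) * q := by rw [hM]; ring
        linarith
      have h5 : ∑ n ∈ Icc 1 K, ‖b n‖ ^ 2 ≤
          S ^ 2 * ((2 * M) ^ (ε / 32) * (1 + Real.log (2 * M))) := by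
        have h6 : ∀ n ∈ Icc 1 K, ‖b n‖ ^ 2 ≤ S ^ 2 * ((n : ℝ) ^ (-s.re)) ^ 2 := by
          intro n hn
          have h7 := pow_le_pow_left₀ (norm_nonneg _) (hb n hn) 2
          rw [mul_pow] at h7
          linarith
        refine (Finset.sum_le_sum h6).trans ?_
        rw [← Finset.mul_sum]
        exact mul_le_mul_of_nonneg_left
          (Vbd_harm K (by linarith) hK (by positivity) (by linarith)) (sq_nonneg S)
      exact mul_le_mul h4 h5 (Finset.sum_nonneg fun i _ => sq_nonneg _) (by positivity)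
    have h3 := hyp y hy1 (hy2.trans hZwin)
    rw [← hφ] at h3
    refine Vbd_cs (ncs q) _ _ h1 h3 (by positivity) ?_
    have h4 : (φ * y ^ ((1 - ε) / 2) * A) ^ 2 = φ * φ * y ^ (1 - ε) * A ^ 2 := by
      have h5 : y ^ (1 - ε) = y ^ ((1 - ε) / 2) * y ^ ((1 - ε) / 2) := by
        rw [← Real.rpow_add hy0]
        congr 1
        ring
      rw [h5]
      ring
    rw [h4]
    have h5 : 0 ≤ φ * φ * y ^ (1 - ε) := by positivity
    calc φ * (3 * X ^ (ε / 16 + e₂) * (S ^ 2 * ((2 * M) ^ (ε / 32) * (1 + Real.log (2 * M))))) *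
          (φ * y ^ (1 - ε)) = φ * φ * y ^ (1 - ε) * (3 * X ^ (ε / 16 + e₂) *
          (S ^ 2 * ((2 * M) ^ (ε / 32) * (1 + Real.log (2 * M))))) := by ring
      _ ≤ _ := mul_le_mul_of_nonneg_left hkey h5
  have hnormn : ∀ n : ℕ, 1 ≤ n → ‖((n : ℂ)) ^ (-s)‖ = (n : ℝ) ^ (-s.re) := by
    intro n hn
    have hn0 : (0 : ℝ) < n := by exact_mod_cast hn
    have h1 := norm_cpow_eq_rpow_re_of_pos hn0 (-s)
    rw [neg_re] at h1
    exact_mod_cast h1
  have hsB : ‖s‖ + B ≤ S := by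
    rw [hSdef]
    nlinarith
  have h1S : (1 : ℝ) ≤ S := by
    rw [hSdef]
    nlinarith
  -- first term
  have hfirst : ∑ χ ∈ ncs q, ‖(X : ℂ) ^ (-s) * SD w χ (Z / X) s * psi χ X‖ ≤
      φ * A * X ^ (-(31 * ε / 64)) := by
    have hZX : Z / X = M := by
      rw [hZ]
      field_simp
    have h1 : ∀ χ : DirichletCharacter ℂ q, SD w χ (Z / X) s =
        ∑ n ∈ Icc 1 ⌊2 * M⌋₊, χ (n : ZMod q) * ((n : ℂ) ^ (-s) * ((w (n / M) : ℝ) : ℂ)) := by
      intro χ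
      unfold SD
      rw [hZX]
      refine Finset.sum_congr rfl fun n _ => ?_
      rw [mul_assoc]
    have h3 := hmain X ⌊2 * M⌋₊ (fun n => (n : ℂ) ^ (-s) * ((w (n / M) : ℝ) : ℂ)) le_rfl
      (by linarith) (Nat.floor_le (by linarith)) (by
        intro n hn
        rw [Finset.mem_Icc] at hn
        rw [norm_mul, hnormn n hn.1, norm_real, Real.norm_eq_abs, abs_of_nonneg (w_nonneg _)]
        exact mul_le_mul_of_nonneg_left ((w_le_one _).trans h1S) (by positivity))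
    have h4 : ∑ χ ∈ ncs q, ‖(X : ℂ) ^ (-s) * SD w χ (Z / X) s * psi χ X‖ =
        X ^ (-s.re) * ∑ χ ∈ ncs q, ‖∑ n ∈ Icc 1 ⌊2 * M⌋₊,
          χ (n : ZMod q) * ((n : ℂ) ^ (-s) * ((w (n / M) : ℝ) : ℂ))‖ * ‖psi χ X‖ := by
      rw [Finset.mul_sum]
      refine Finset.sum_congr rfl fun χ _ => ?_
      rw [norm_mul, norm_mul, h1 χ, norm_cpow_eq_rpow_re_of_pos hX0, neg_re, mul_assoc]
    rw [h4]
    refine (mul_le_mul_of_nonneg_left h3 (by positivity)).trans ?_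
    have h5 : X ^ (-s.re) * (φ * X ^ ((1 - ε) / 2) * A) = φ * A * (X ^ (-s.re + (1 - ε) / 2)) := by
      rw [Real.rpow_add hX0]
      ring
    rw [h5]
    refine mul_le_mul_of_nonneg_left ?_ (by positivity)
    exact Real.rpow_le_rpow_of_exponent_le hX1 (by linarith)
  -- second term
  have hsecond : ∑ χ ∈ ncs q, ‖∫ y in X..(2 * Z), (y : ℂ) ^ (-s - 1) *
      (-s * SD w χ (Z / y) s + SD w1 χ (Z / y) s) * psi χ y‖ ≤
      φ * A * (X ^ (-(31 * ε / 64)) * (64 / (31 * ε))) := by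
    have hab : X ≤ 2 * Z := by linarith
    have hgint : IntervalIntegrable (fun y : ℝ => y ^ (-(31 * ε / 64) - 1)) volume X (2 * Z) := by
      refine intervalIntegral.intervalIntegrable_rpow (Or.inr ?_)
      rw [Set.uIcc_of_le hab]
      exact fun h => absurd h.1 (not_le.2 hX0)
    refine (Vbd_int (ncs q) _ (fun y => φ * A * y ^ (-(31 * ε / 64) - 1)) hab
      (hgint.const_mul _) ?_).trans ?_
    · intro y hy
      have hy0 : 0 < y := by linarith [hy.1]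
      have hy1 : 1 ≤ y := by linarith [hy.1]
      have h1 : ∀ χ : DirichletCharacter ℂ q, -s * SD w χ (Z / y) s + SD w1 χ (Z / y) s =
          ∑ n ∈ Icc 1 ⌊2 * (Z / y)⌋₊, χ (n : ZMod q) * ((n : ℂ) ^ (-s) *
            (-s * ((w (n / (Z / y)) : ℝ) : ℂ) + ((w1 (n / (Z / y)) : ℝ) : ℂ))) := by
        intro χ
        unfold SD
        rw [Finset.mul_sum, ← Finset.sum_add_distrib]
        refine Finset.sum_congr rfl fun n _ => ?_
        ring
      have hZy : 2 * (Z / y) ≤ 2 * M := by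
        have h3 : Z / y ≤ M := by
          rw [div_le_iff₀ hy0, hZ]
          nlinarith [hy.1]
        linarith
      have hZy0 : 0 ≤ 2 * (Z / y) := by
        have : 0 ≤ Z := by linarith
        positivity
      have h3 := hmain y ⌊2 * (Z / y)⌋₊ (fun n => (n : ℂ) ^ (-s) *
            (-s * ((w (n / (Z / y)) : ℝ) : ℂ) + ((w1 (n / (Z / y)) : ℝ) : ℂ))) hy.1 hy.2
        ((Nat.floor_le hZy0).trans hZy) (by
          intro n hn
          rw [Finset.mem_Icc] at hn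
          rw [norm_mul, hnormn n hn.1]
          refine mul_le_mul_of_nonneg_left ?_ (by positivity)
          refine (norm_add_le _ _).trans ?_
          rw [norm_mul, norm_neg, norm_real, norm_real, Real.norm_eq_abs, Real.norm_eq_abs,
            abs_of_nonneg (w_nonneg _)]
          have h4 := hB (n / (Z / y))
          have h5 := w_le_one (n / (Z / y))
          have h6 := w_nonneg (n / (Z / y))
          have h7 : ‖s‖ * w (n / (Z / y)) ≤ ‖s‖ * 1 :=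
            mul_le_mul_of_nonneg_left h5 (norm_nonneg s)
          linarith)
      have h4 : ∑ χ ∈ ncs q, ‖(y : ℂ) ^ (-s - 1) *
          (-s * SD w χ (Z / y) s + SD w1 χ (Z / y) s) * psi χ y‖ =
          y ^ (-s.re - 1) * ∑ χ ∈ ncs q, ‖∑ n ∈ Icc 1 ⌊2 * (Z / y)⌋₊, χ (n : ZMod q) *
            ((n : ℂ) ^ (-s) * (-s * ((w (n / (Z / y)) : ℝ) : ℂ) +
              ((w1 (n / (Z / y)) : ℝ) : ℂ)))‖ * ‖psi χ y‖ := by
        rw [Finset.mul_sum]
        refine Finset.sum_congr rfl fun χ _ => ?_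
        rw [norm_mul, norm_mul, h1 χ, norm_cpow_eq_rpow_re_of_pos hy0, sub_re, neg_re, one_re,
          mul_assoc]
      show ∑ χ ∈ ncs q, ‖(y : ℂ) ^ (-s - 1) *
          (-s * SD w χ (Z / y) s + SD w1 χ (Z / y) s) * psi χ y‖ ≤ _
      rw [h4]
      refine (mul_le_mul_of_nonneg_left h3 (by positivity)).trans ?_
      have h5 : y ^ (-s.re - 1) * (φ * y ^ ((1 - ε) / 2) * A) =
          φ * A * (y ^ (-s.re - 1 + (1 - ε) / 2)) := by
        rw [Real.rpow_add hy0]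
        ring
      rw [h5]
      refine mul_le_mul_of_nonneg_left ?_ (by positivity)
      exact Real.rpow_le_rpow_of_exponent_le hy1 (by linarith)
    · rw [intervalIntegral.integral_const_mul]
      refine mul_le_mul_of_nonneg_left ?_ (by positivity)
      rw [integral_rpow (Or.inr ⟨by
        intro h
        have : 0 < 31 * ε / 64 := by positivity
        linarith, by
        rw [Set.uIcc_of_le hab]
        exact fun h => absurd h.1 (not_le.2 hX0)⟩)]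
      have h1 : -(31 * ε / 64) - 1 + 1 = -(31 * ε / 64) := by ring
      rw [h1]
      have h3 : 0 ≤ (2 * Z) ^ (-(31 * ε / 64)) := Real.rpow_nonneg (by linarith) _
      have h4 : ((2 * Z) ^ (-(31 * ε / 64)) - X ^ (-(31 * ε / 64))) / -(31 * ε / 64) =
          (X ^ (-(31 * ε / 64)) - (2 * Z) ^ (-(31 * ε / 64))) * (64 / (31 * ε)) := by
        field_simp
        ring
      rw [h4]
      refine mul_le_mul_of_nonneg_right ?_ (by positivity)
      linarith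
  have habel : ∑ χ ∈ ncs q, ‖VV χ X Z s‖ ≤
      ∑ χ ∈ ncs q, ‖(X : ℂ) ^ (-s) * SD w χ (Z / X) s * psi χ X‖ +
        ∑ χ ∈ ncs q, ‖∫ y in X..(2 * Z), (y : ℂ) ^ (-s - 1) *
          (-s * SD w χ (Z / y) s + SD w1 χ (Z / y) s) * psi χ y‖ := by
    rw [← Finset.sum_add_distrib]
    refine Finset.sum_le_sum fun χ _ => ?_
    rw [abel χ X Z hX1 hXZ s]
    refine (norm_sub_le _ _).trans ?_
    rw [norm_neg]
  refine habel.trans ((add_le_add hfirst hsecond).trans ?_)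
  rw [← hφ]
  have h1 : φ * A * X ^ (-(31 * ε / 64)) + φ * A * (X ^ (-(31 * ε / 64)) * (64 / (31 * ε))) =
      φ * X ^ (-(5 / 16 * ε)) * (ε / 4 * (1 + 64 / (31 * ε))) := by
    have h3 : X ^ (-(5 / 16 * ε)) = X ^ (11 * ε / 64) * X ^ (-(31 * ε / 64)) := by
      rw [← Real.rpow_add hX0]
      congr 1
      ring
    rw [h3, hA]
    ring
  rw [h1]
  have h3 : ε / 4 * (1 + 64 / (31 * ε)) ≤ 1 := by
    have h4 : ε / 4 * (1 + 64 / (31 * ε)) = ε / 4 + 16 / 31 := by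
      field_simp
      ring
    rw [h4]
    linarith
  have h4 : 0 ≤ φ * X ^ (-(5 / 16 * ε)) := by positivity
  exact mul_le_of_le_one_right h4 h3

end Pool.Agent.EM
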