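import Pool.Agent.Lib.MP_848d44_nt_EM.Defs
import Pool.Agent.Lib.MP_848d44_nt_EM.Vbd
import Pool.Agent.Lib.MP_848d44_nt_EM.App

/-!
# Project EM (MP_848d44_nt), module Dbd: the average of L' + P L
-/

set_option autoImplicit false

namespace Pool.Agent.EM

open Finset Complex MeasureTheory
open scoped ArithmeticFunction ENNReal ContDiff ComplexConjugate

private theorem Dbd_diff {q : ℕ} (χ : DirichletCharacter ℂ q) (M : ℝ) :
    Differentiable ℂ (SD w χ M) := by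
  unfold SD
  refine Differentiable.fun_sum fun n hn => ?_
  have hn0 : (n : ℂ) ≠ 0 := by
    have := (Finset.mem_Icc.1 hn).1
    exact_mod_cast (by omega : n ≠ 0)
  refine Differentiable.mul_const (Differentiable.const_mul ?_ _) _
  exact (differentiable_id.neg).const_cpow (Or.inl hn0)

private theorem Dbd_sum {q : ℕ} (χ : DirichletCharacter ℂ q) (X : ℝ) (hX : 1 ≤ X) (s : ℂ)
    (hs : 0 ≤ s.re) : ∑ n ∈ Icc 1 ⌊X⌋₊,
      ‖χ (n : ZMod q) * ((ArithmeticFunction.vonMangoldt n : ℝ) : ℂ) * (n : ℂ) ^ (-s)‖ ≤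
        X ^ 2 := by
  have h1 : ∀ n ∈ Icc 1 ⌊X⌋₊,
      ‖χ (n : ZMod q) * ((ArithmeticFunction.vonMangoldt n : ℝ) : ℂ) * (n : ℂ) ^ (-s)‖ ≤ X := by
    intro n hn
    obtain ⟨hn1, hn2⟩ := Finset.mem_Icc.1 hn
    have hn0 : 0 < n := by omega
    have hnX : (n : ℝ) ≤ X := (Nat.le_floor_iff (by linarith)).1 hn2
    have hnR : (0 : ℝ) < n := by exact_mod_cast hn0
    have h2 : ‖(n : ℂ) ^ (-s)‖ ≤ 1 := by
      rw [norm_natCast_cpow_of_pos hn0, neg_re]
      exact Real.rpow_le_one_of_one_le_of_nonpos (by exact_mod_cast hn1) (by linarith)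
    have h3 : ‖((ArithmeticFunction.vonMangoldt n : ℝ) : ℂ)‖ ≤ X := by
      rw [norm_real, Real.norm_of_nonneg ArithmeticFunction.vonMangoldt_nonneg]
      refine ArithmeticFunction.vonMangoldt_le_log.trans ?_
      exact (Real.log_le_self hnR.le).trans hnX
    rw [norm_mul, norm_mul]
    calc ‖χ (n : ZMod q)‖ * ‖((ArithmeticFunction.vonMangoldt n : ℝ) : ℂ)‖ * ‖(n : ℂ) ^ (-s)‖
        ≤ 1 * X * 1 := by
          gcongr
          exact χ.norm_le_one _
      _ = X := by ring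
  refine (Finset.sum_le_card_nsmul _ _ _ h1).trans ?_
  rw [Nat.card_Icc, Nat.add_sub_cancel, nsmul_eq_mul, pow_two]
  gcongr
  exact Nat.floor_le (by linarith)

/-- Text (4.3). -/
theorem DD_avg (ε : ℝ) (hε : 0 < ε) (hε1 : ε ≤ 1) :
    ∃ X₀ : ℝ, 1 ≤ X₀ ∧ ∀ X : ℝ, X₀ ≤ X → ∀ (q : ℕ) [NeZero q], 3 ≤ q → (q : ℝ) ≤ X →
    (∀ x : ℝ, X ≤ x → x ≤ q * X ^ (1 + ε) →
      ∑ χ ∈ ncs q, ‖psi χ x‖ ^ 2 ≤ (q.totient : ℝ) * x ^ (1 - ε)) →
    ∀ s : ℂ, 1 / 2 - ε / 64 ≤ s.re → s.re ≤ 1 → ‖s‖ ≤ 4 * X ^ (ε / 16) →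
    ∑ χ ∈ ncs q, ‖DD χ X s‖ ≤ (q.totient : ℝ) * X ^ (-(ε / 4)) := by
  obtain ⟨X₁, hX₁, hV⟩ := V_avg ε hε hε1 (ε / 32) (by positivity) le_rfl
  obtain ⟨X₂, hX₂, hA⟩ := approx (ε / 16) (ε / 32) (by positivity) (by positivity) (by linarith)
  refine ⟨max (max X₁ X₂) (max 18 (2 ^ (16 / ε) : ℝ)), ?_, ?_⟩
  · exact hX₁.trans ((le_max_left _ _).trans (le_max_left _ _))
  intro X hX q _ hq hqX hpsi s hs1 hs2 hs3
  have hXX₁ : X₁ ≤ X := ((le_max_left _ _).trans (le_max_left _ _)).trans hX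
  have hXX₂ : X₂ ≤ X := ((le_max_right _ _).trans (le_max_left _ _)).trans hX
  have hX18 : (18 : ℝ) ≤ X := ((le_max_left _ _).trans (le_max_right _ _)).trans hX
  have hXe : (2 : ℝ) ^ (16 / ε) ≤ X := ((le_max_right _ _).trans (le_max_right _ _)).trans hX
  have hX1 : 1 ≤ X := by linarith
  have hX0 : 0 < X := by linarith
  have hpow1 : 1 ≤ X ^ (ε / 16) := Real.one_le_rpow hX1 (by positivity)
  have hY1 : 1 ≤ X ^ (ε / 16 + ε / 32) := Real.one_le_rpow hX1 (by positivity)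
  have hqR : (3 : ℝ) ≤ q := by exact_mod_cast hq
  set Y : ℝ := q * X ^ (ε / 16 + ε / 32) with hY
  have hYge : 1 ≤ Y := by
    rw [hY]
    nlinarith
  set Z : ℝ := X * Y with hZ
  have hXZ : X ≤ Z := by
    rw [hZ]
    nlinarith
  have hs0 : 0 < s.re := by linarith
  -- the estimate for one character
  have hone : ∀ χ ∈ ncs q, ‖DD χ X s‖ ≤ ‖VV χ X Z s‖ + 9 * X ^ (-8 : ℝ) := by
    intro χ hχ
    rw [mem_ncs] at hχ
    have hLd : Differentiable ℂ (DirichletCharacter.LFunction χ) :=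
      DirichletCharacter.differentiable_LFunction hχ
    have hSd := Dbd_diff χ Z
    have hd1 : ‖deriv (fun z => DirichletCharacter.LFunction χ z - SD w χ Z z) s‖ ≤
        X ^ (-10 : ℝ) / (1 / 8) := by
      refine norm_deriv_le_of_forall_mem_sphere_norm_le (by norm_num)
        (hLd.sub hSd).diffContOnCl fun z hz => ?_
      rw [mem_sphere_iff_norm] at hz
      have h1 : |(z - s).re| ≤ 1 / 8 := (abs_re_le_norm _).trans hz.le
      have h2 := (abs_le.1 h1).1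
      rw [sub_re] at h2
      refine hA X hXX₂ q hqX χ hχ Z ?_ z (by linarith) ?_
      · rw [hZ]
        nlinarith
      · have h3 : ‖z‖ ≤ ‖s‖ + ‖z - s‖ := by
          calc ‖z‖ = ‖s + (z - s)‖ := by congr 1; ring
            _ ≤ ‖s‖ + ‖z - s‖ := norm_add_le _ _
        linarith
    have hd2 : deriv (fun z => DirichletCharacter.LFunction χ z - SD w χ Z z) s =
        deriv (DirichletCharacter.LFunction χ) s - deriv (SD w χ Z) s :=
      deriv_fun_sub (hLd s) (hSd s)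
    have hkey : DD χ X s = -VV χ X Z s +
        ((deriv (DirichletCharacter.LFunction χ) s - deriv (SD w χ Z) s) +
        ∑ n ∈ Icc 1 ⌊X⌋₊, χ (n : ZMod q) * ((ArithmeticFunction.vonMangoldt n : ℝ) : ℂ) *
          (n : ℂ) ^ (-s) * (DirichletCharacter.LFunction χ s - SD w χ (Z / n) s)) := by
      rw [ident χ X Z hX1 hXZ s, DD, PX, Finset.sum_mul]
      simp only [mul_sub]
      rw [Finset.sum_sub_distrib]
      ring
    have hsum : ‖∑ n ∈ Icc 1 ⌊X⌋₊, χ (n : ZMod q) *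
        ((ArithmeticFunction.vonMangoldt n : ℝ) : ℂ) * (n : ℂ) ^ (-s) *
          (DirichletCharacter.LFunction χ s - SD w χ (Z / n) s)‖ ≤ X ^ 2 * X ^ (-10 : ℝ) := by
      refine (norm_sum_le _ _).trans ?_
      refine le_trans ?_ (mul_le_mul_of_nonneg_right (Dbd_sum χ X hX1 s hs0.le)
        (Real.rpow_nonneg hX0.le _))
      rw [Finset.sum_mul]
      refine Finset.sum_le_sum fun n hn => ?_
      obtain ⟨hn1, hn2⟩ := Finset.mem_Icc.1 hn
      have hnX : (n : ℝ) ≤ X := (Nat.le_floor_iff hX0.le).1 hn2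
      have hn0 : (0 : ℝ) < n := by exact_mod_cast (by omega : 0 < n)
      rw [norm_mul]
      gcongr
      refine hA X hXX₂ q hqX χ hχ (Z / n) ?_ s hs0 (by linarith)
      rw [le_div_iff₀ hn0, hZ, mul_comm X]
      exact mul_le_mul_of_nonneg_left hnX (by linarith)
    have hX8 : X ^ 2 * X ^ (-10 : ℝ) = X ^ (-8 : ℝ) := by
      rw [← Real.rpow_natCast X 2, ← Real.rpow_add hX0]
      norm_num
    have hX10 : X ^ (-10 : ℝ) ≤ X ^ (-8 : ℝ) := Real.rpow_le_rpow_of_exponent_le hX1 (by norm_num)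
    rw [hkey]
    refine (norm_add_le _ _).trans ?_
    rw [norm_neg]
    gcongr
    refine (norm_add_le _ _).trans ?_
    rw [hd2] at hd1
    rw [hX8] at hsum
    linarith
  refine (Finset.sum_le_sum hone).trans ?_
  rw [Finset.sum_add_distrib, Finset.sum_const, nsmul_eq_mul]
  have hVs := hV X hXX₁ q hq hqX hpsi s hs1 hs2 hs3
  rw [← hY, ← hZ] at hVs
  have hcard := (card_ncs q hq).2
  have hphi : (0 : ℝ) ≤ q.totient := Nat.cast_nonneg _
  have h8 : 0 ≤ 9 * X ^ (-8 : ℝ) := by positivity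
  have hfin : X ^ (-(5 / 16 * ε)) + 9 * X ^ (-8 : ℝ) ≤ X ^ (-(ε / 4)) := by
    have e1 : X ^ (-(5 / 16 * ε)) = X ^ (-(ε / 4)) * X ^ (-(ε / 16)) := by
      rw [← Real.rpow_add hX0]
      congr 1
      ring
    have e2 : X ^ (-(ε / 16)) ≤ 1 / 2 := by
      have h1 : (2 : ℝ) ≤ X ^ (ε / 16) := by
        have h2 := Real.rpow_le_rpow (by positivity) hXe (by positivity : 0 ≤ ε / 16)
        rw [← Real.rpow_mul (by norm_num)] at h2
        have h3 : 16 / ε * (ε / 16) = 1 := by field_simp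
        rwa [h3, Real.rpow_one] at h2
      rw [Real.rpow_neg hX0.le, one_div]
      exact inv_anti₀ (by norm_num) h1
    have e3 : X ^ (-8 : ℝ) ≤ X ^ (-(ε / 4)) * (1 / 18) := by
      have h1 : X ^ (-8 : ℝ) = X ^ (-(ε / 4)) * X ^ (-8 + ε / 4) := by
        rw [← Real.rpow_add hX0]
        congr 1
        ring
      rw [h1]
      gcongr
      calc X ^ (-8 + ε / 4) ≤ X ^ (-1 : ℝ) :=
            Real.rpow_le_rpow_of_exponent_le hX1 (by linarith)
        _ = X⁻¹ := Real.rpow_neg_one X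
        _ ≤ 18⁻¹ := inv_anti₀ (by norm_num) hX18
        _ = 1 / 18 := by norm_num
    have e4 : 0 < X ^ (-(ε / 4)) := Real.rpow_pos_of_pos hX0 _
    rw [e1]
    nlinarith
  calc ∑ χ ∈ ncs q, ‖VV χ X Z s‖ + ((ncs q).card : ℝ) * (9 * X ^ (-8 : ℝ))
      ≤ (q.totient : ℝ) * X ^ (-(5 / 16 * ε)) + (q.totient : ℝ) * (9 * X ^ (-8 : ℝ)) := by
        gcongr
    _ = (q.totient : ℝ) * (X ^ (-(5 / 16 * ε)) + 9 * X ^ (-8 : ℝ)) := by ring
    _ ≤ (q.totient : ℝ) * X ^ (-(ε / 4)) := by gcongr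

end Pool.Agent.EM
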