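import Mathlib

/-!
# Project EM (MP_848d44_nt): definitions

Text of the proof: `/team-store/TEXT_EM_848d44.md`.
-/

set_option autoImplicit false

namespace Pool.Agent.EM

open Finset Complex MeasureTheory
open scoped ArithmeticFunction ENNReal ContDiff

noncomputable section

/-- The smooth cutoff: `1` on `(-∞, 1]`, `0` on `[2, ∞)`. -/
def w (v : ℝ) : ℝ := Real.smoothTransition (2 - v)

/-- `v w'(v)`. -/
def w1 (v : ℝ) : ℝ := v * deriv w v

/-- The operator `v d/dv` on complex valued functions. -/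
def th (P : ℝ → ℂ) : ℝ → ℂ := fun v => (v : ℂ) * deriv P v

/-- The smooth Dirichlet polynomial `∑ χ(n) n^{-s} u(n/M)` (used for `u` vanishing on `[2, ∞)`). -/
def SD {q : ℕ} (u : ℝ → ℝ) (χ : DirichletCharacter ℂ q) (M : ℝ) (s : ℂ) : ℂ :=
  ∑ n ∈ Icc 1 ⌊2 * M⌋₊, χ (n : ZMod q) * (n : ℂ) ^ (-s) * ((u (n / M) : ℝ) : ℂ)

/-- `ψ(x, χ)`. -/
def psi {q : ℕ} (χ : DirichletCharacter ℂ q) (x : ℝ) : ℂ :=
  ∑ n ∈ Icc 1 ⌊x⌋₊, χ (n : ZMod q) * ((ArithmeticFunction.vonMangoldt n : ℝ) : ℂ)

/-- The Dirichlet polynomial `∑_{n ≤ X} Λ(n) χ(n) n^{-s}`. -/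
def PX {q : ℕ} (χ : DirichletCharacter ℂ q) (X : ℝ) (s : ℂ) : ℂ :=
  ∑ n ∈ Icc 1 ⌊X⌋₊, χ (n : ZMod q) * ((ArithmeticFunction.vonMangoldt n : ℝ) : ℂ) * (n : ℂ) ^ (-s)

/-- `L' + P_X L`. -/
def DD {q : ℕ} [NeZero q] (χ : DirichletCharacter ℂ q) (X : ℝ) (s : ℂ) : ℂ :=
  deriv (DirichletCharacter.LFunction χ) s + PX χ X s * DirichletCharacter.LFunction χ s

open Classical in
/-- The nonprincipal characters. -/
def ncs (q : ℕ) [NeZero q] : Finset (DirichletCharacter ℂ q) := univ.filter (fun χ => χ ≠ 1)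

/-- The class sum `ψ(x, q, a)`. -/
def psc (x : ℝ) (q a : ℕ) : ℝ :=
  ∑ n ∈ Finset.filter (fun n => n % q = a) (Finset.Icc 1 ⌊x⌋₊), ArithmeticFunction.vonMangoldt n

/-- The variance. -/
def vari (x : ℝ) (q : ℕ) (Y : ℝ) : ℝ :=
  ∑ a ∈ Finset.filter (fun a => Nat.Coprime a q) (Finset.range q), (psc x q a - Y) ^ 2

theorem mem_ncs {q : ℕ} [NeZero q] {χ : DirichletCharacter ℂ q} : χ ∈ ncs q ↔ χ ≠ 1 := by
  classical
  simp [ncs]

theorem w_one {v : ℝ} (h : v ≤ 1) : w v = 1 := Real.smoothTransition.one_of_one_le (by linarith)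

theorem w_zero {v : ℝ} (h : 2 ≤ v) : w v = 0 := Real.smoothTransition.zero_of_nonpos (by linarith)

theorem w_nonneg (v : ℝ) : 0 ≤ w v := Real.smoothTransition.nonneg _

theorem w_le_one (v : ℝ) : w v ≤ 1 := Real.smoothTransition.le_one _

theorem w_contDiff : ContDiff ℝ ∞ w := by
  unfold w
  exact Real.smoothTransition.contDiff.comp (contDiff_const.sub contDiff_id)

theorem w1_zero {v : ℝ} (h : v ≤ 1 ∨ 2 ≤ v) : w1 v = 0 := by
  unfold w1
  have hd : deriv w v = 0 := by
    have hc : Continuous (deriv w) := (w_contDiff.continuous_deriv (by simp))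
    rcases h with h | h
    · have h1 : ∀ u < (1 : ℝ), deriv w u = 0 := by
        intro u hu
        have : w =ᶠ[nhds u] fun _ => (1 : ℝ) := by
          filter_upwards [gt_mem_nhds hu] with y hy
          exact w_one hy.le
        rw [this.deriv_eq]
        simp
      have hcl : v ∈ closure (Set.Iio (1 : ℝ)) := by
        rw [closure_Iio]
        exact h
      have : closure (Set.Iio (1 : ℝ)) ⊆ {u | deriv w u = 0} :=
        closure_minimal h1 (isClosed_eq hc continuous_const)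
      exact this hcl
    · have h1 : ∀ u > (2 : ℝ), deriv w u = 0 := by
        intro u hu
        have : w =ᶠ[nhds u] fun _ => (0 : ℝ) := by
          filter_upwards [lt_mem_nhds hu] with y hy
          exact w_zero hy.le
        rw [this.deriv_eq]
        simp
      have hcl : v ∈ closure (Set.Ioi (2 : ℝ)) := by
        rw [closure_Ioi]
        exact h
      have : closure (Set.Ioi (2 : ℝ)) ⊆ {u | deriv w u = 0} :=
        closure_minimal h1 (isClosed_eq hc continuous_const)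
      exact this hcl
  rw [hd, mul_zero]

theorem w1_continuous : Continuous w1 := by
  unfold w1
  exact continuous_id.mul (w_contDiff.continuous_deriv (by simp))

/-- `w1` is bounded. -/
theorem w1_bound : ∃ B : ℝ, 0 < B ∧ ∀ v, |w1 v| ≤ B := by
  obtain ⟨B, hB⟩ := (isCompact_Icc (a := (1 : ℝ)) (b := 2)).exists_bound_of_continuousOn
    w1_continuous.continuousOn
  refine ⟨|B| + 1, by positivity, fun v => ?_⟩
  by_cases h : v ∈ Set.Icc (1 : ℝ) 2
  · have := hB v h
    rw [Real.norm_eq_abs] at this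
    linarith [le_abs_self B]
  · rw [w1_zero]
    · simp; positivity
    · by_contra h2
      rw [not_or, not_le, not_le] at h2
      exact h ⟨h2.1.le, h2.2.le⟩

end

end Pool.Agent.EM
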