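import Pool.Agent.Lib.MP_848d44_nt_EM.Defs

/-!
# Project EM (MP_848d44_nt), module Gam: a lower bound for the ratio of two Gamma values
-/

set_option autoImplicit false

namespace Pool.Agent.EM

open Finset Complex MeasureTheory
open scoped ArithmeticFunction ENNReal ContDiff ComplexConjugate

private theorem Gam_rec (s : ℂ) (hs : 0 < s.re) (K : ℕ) :
    Complex.Gamma (s + K) = (∏ n ∈ range K, (s + n)) * Complex.Gamma s := by
  induction K with
  | zero => simp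
  | succ K ih =>
    have h : s + (K : ℂ) ≠ 0 := by
      intro h0
      have h1 := congrArg Complex.re h0
      simp only [Complex.add_re, Complex.natCast_re, Complex.zero_re] at h1
      have h2 : (0 : ℝ) ≤ (K : ℝ) := Nat.cast_nonneg K
      linarith
    rw [Finset.prod_range_succ, Nat.cast_succ, ← add_assoc, Complex.Gamma_add_one _ h, ih]
    ring

private theorem Gam_beta_le {A x v : ℝ} :
    ‖Complex.betaIntegral ((A : ℂ) + (v : ℂ) * I) x‖ ≤ ‖Complex.betaIntegral (A : ℂ) x‖ := by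
  have hreal : Complex.betaIntegral (A : ℂ) x =
      ((∫ t in (0 : ℝ)..1, t ^ (A - 1) * (1 - t) ^ (x - 1) : ℝ) : ℂ) := by
    unfold Complex.betaIntegral
    rw [← intervalIntegral.integral_ofReal]
    refine intervalIntegral.integral_congr fun t ht => ?_
    rw [Set.uIcc_of_le zero_le_one] at ht
    simp only [Complex.ofReal_mul]
    rw [Complex.ofReal_cpow ht.1, Complex.ofReal_cpow (by linarith [ht.2] : (0 : ℝ) ≤ 1 - t)]
    push_cast
    rfl
  have hnn : 0 ≤ ∫ t in (0 : ℝ)..1, t ^ (A - 1) * (1 - t) ^ (x - 1) := by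
    refine intervalIntegral.integral_nonneg zero_le_one fun t ht => ?_
    exact mul_nonneg (Real.rpow_nonneg ht.1 _) (Real.rpow_nonneg (by linarith [ht.2]) _)
  rw [hreal, Complex.norm_real, Real.norm_of_nonneg hnn]
  unfold Complex.betaIntegral
  refine (intervalIntegral.norm_integral_le_integral_norm zero_le_one).trans ?_
  refine le_of_eq (intervalIntegral.integral_congr_ae ?_)
  refine Filter.Eventually.of_forall fun t ht => ?_
  rw [Set.uIoc_of_le zero_le_one] at ht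
  rcases eq_or_lt_of_le ht.2 with h1 | h1
  · rw [h1]
    rcases eq_or_ne x 1 with hx1 | hx1
    · rw [hx1]
      simp
    · have h2 : ((x : ℂ) - 1) ≠ 0 := by
        intro h3
        apply hx1
        have h4 : ((x - 1 : ℝ) : ℂ) = 0 := by
          push_cast
          exact h3
        have h5 : x - 1 = 0 := by exact_mod_cast h4
        linarith
      have h3 : x - 1 ≠ 0 := sub_ne_zero.2 hx1
      simp [Complex.zero_cpow h2, Real.zero_rpow h3]
  · rw [norm_mul]
    have e1 : ‖(t : ℂ) ^ ((A : ℂ) + (v : ℂ) * I - 1)‖ = t ^ (A - 1) := by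
      rw [Complex.norm_cpow_eq_rpow_re_of_pos ht.1]
      congr 1
      simp
    have e2 : ‖(1 - (t : ℂ)) ^ ((x : ℂ) - 1)‖ = (1 - t) ^ (x - 1) := by
      have h2 : (1 - (t : ℂ)) = ((1 - t : ℝ) : ℂ) := by push_cast; rfl
      rw [h2, Complex.norm_cpow_eq_rpow_re_of_pos (by linarith)]
      congr 1
    rw [e1, e2]

private theorem Gam_one {A x v : ℝ} (hA : 0 < A) (hx : 0 < x) :
    ‖Complex.Gamma ((A : ℂ) + (v : ℂ) * I)‖ * Real.Gamma (A + x) ≤
      ‖Complex.Gamma ((A : ℂ) + (v : ℂ) * I + x)‖ * Real.Gamma A := by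
  have h1 := Complex.Gamma_mul_Gamma_eq_betaIntegral (s := (A : ℂ) + (v : ℂ) * I) (t := (x : ℂ))
    (by simpa using hA) (by simpa using hx)
  have h2 := Complex.Gamma_mul_Gamma_eq_betaIntegral (s := (A : ℂ)) (t := (x : ℂ))
    (by simpa using hA) (by simpa using hx)
  have n1 := congrArg norm h1
  have n2 := congrArg norm h2
  rw [norm_mul, norm_mul] at n1 n2
  have gA : ‖Complex.Gamma (A : ℂ)‖ = Real.Gamma A := by
    rw [Complex.Gamma_ofReal, Complex.norm_real, Real.norm_of_nonneg (Real.Gamma_pos_of_pos hA).le]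
  have gx : ‖Complex.Gamma (x : ℂ)‖ = Real.Gamma x := by
    rw [Complex.Gamma_ofReal, Complex.norm_real, Real.norm_of_nonneg (Real.Gamma_pos_of_pos hx).le]
  have gAx : ‖Complex.Gamma ((A : ℂ) + (x : ℂ))‖ = Real.Gamma (A + x) := by
    rw [← Complex.ofReal_add, Complex.Gamma_ofReal, Complex.norm_real,
      Real.norm_of_nonneg (Real.Gamma_pos_of_pos (by linarith)).le]
  rw [gx] at n1
  rw [gA, gx, gAx] at n2
  have hb := Gam_beta_le (A := A) (x := x) (v := v)
  have px : 0 < Real.Gamma x := Real.Gamma_pos_of_pos hx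
  have pAx : 0 < Real.Gamma (A + x) := Real.Gamma_pos_of_pos (by linarith)
  have h3 : ‖Complex.Gamma ((A : ℂ) + (v : ℂ) * I)‖ * Real.Gamma (A + x) * Real.Gamma x ≤
      ‖Complex.Gamma ((A : ℂ) + (v : ℂ) * I + x)‖ * Real.Gamma A * Real.Gamma x := by
    calc ‖Complex.Gamma ((A : ℂ) + (v : ℂ) * I)‖ * Real.Gamma (A + x) * Real.Gamma x
        = (‖Complex.Gamma ((A : ℂ) + (v : ℂ) * I)‖ * Real.Gamma x) * Real.Gamma (A + x) := by ring
      _ = ‖Complex.Gamma ((A : ℂ) + (v : ℂ) * I + x)‖ *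
          ‖Complex.betaIntegral ((A : ℂ) + (v : ℂ) * I) x‖ * Real.Gamma (A + x) := by rw [n1]
      _ ≤ ‖Complex.Gamma ((A : ℂ) + (v : ℂ) * I + x)‖ *
          ‖Complex.betaIntegral (A : ℂ) x‖ * Real.Gamma (A + x) := by gcongr
      _ = ‖Complex.Gamma ((A : ℂ) + (v : ℂ) * I + x)‖ *
          (Real.Gamma (A + x) * ‖Complex.betaIntegral (A : ℂ) x‖) := by ring
      _ = ‖Complex.Gamma ((A : ℂ) + (v : ℂ) * I + x)‖ * Real.Gamma A * Real.Gamma x := by
          rw [← n2]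
          ring
  exact le_of_mul_le_mul_right h3 px

private theorem Gam_two {A x : ℝ} (hA : 1 < A) (hx : 0 < x) :
    (A - 1) ^ x * Real.Gamma A ≤ Real.Gamma (A + x) := by
  have hA1 : 0 < A - 1 := by linarith
  have h1x : 0 < 1 + x := by linarith
  have h := Real.Gamma_mul_add_mul_le_rpow_Gamma_mul_rpow_Gamma (s := A - 1) (t := A + x)
    (a := x / (1 + x)) (b := 1 / (1 + x)) hA1 (by linarith) (by positivity) (by positivity)
    (by field_simp; ring)
  have e : x / (1 + x) * (A - 1) + 1 / (1 + x) * (A + x) = A := by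
    field_simp
    ring
  rw [e] at h
  have g1 : Real.Gamma A = (A - 1) * Real.Gamma (A - 1) := by
    have := Real.Gamma_add_one hA1.ne'
    rwa [sub_add_cancel] at this
  have pA : 0 < Real.Gamma A := Real.Gamma_pos_of_pos (by linarith)
  have pA1 : 0 < Real.Gamma (A - 1) := Real.Gamma_pos_of_pos hA1
  have pAx : 0 < Real.Gamma (A + x) := Real.Gamma_pos_of_pos (by linarith)
  have h2 : Real.Gamma A ^ (1 + x) ≤ Real.Gamma (A - 1) ^ x * Real.Gamma (A + x) := by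
    have h3 := Real.rpow_le_rpow pA.le h h1x.le
    rw [Real.mul_rpow (by positivity) (by positivity), ← Real.rpow_mul pA1.le,
      ← Real.rpow_mul pAx.le] at h3
    have e1 : x / (1 + x) * (1 + x) = x := by field_simp
    have e2 : 1 / (1 + x) * (1 + x) = 1 := by field_simp
    rwa [e1, e2, Real.rpow_one] at h3
  rw [Real.rpow_add pA, Real.rpow_one] at h2
  have h4 : Real.Gamma A ^ x = (A - 1) ^ x * Real.Gamma (A - 1) ^ x := by
    conv_lhs => rw [g1]
    exact Real.mul_rpow hA1.le pA1.le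
  rw [h4] at h2
  have p5 : 0 < Real.Gamma (A - 1) ^ x := by positivity
  have h5 : Real.Gamma (A - 1) ^ x * ((A - 1) ^ x * Real.Gamma A) ≤
      Real.Gamma (A - 1) ^ x * Real.Gamma (A + x) := by
    calc Real.Gamma (A - 1) ^ x * ((A - 1) ^ x * Real.Gamma A) =
        Real.Gamma A * ((A - 1) ^ x * Real.Gamma (A - 1) ^ x) := by ring
      _ ≤ _ := h2
  exact le_of_mul_le_mul_left h5 p5

private theorem Gam_norm (a v : ℝ) (n : ℕ) :
    ‖(a : ℂ) + (v : ℂ) * I + (n : ℂ)‖ ^ 2 = (a + n) ^ 2 + v ^ 2 := by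
  rw [Complex.sq_norm, Complex.normSq_apply]
  simp
  ring

/-- Text (6.2). -/
theorem gamma_ratio : ∃ c : ℝ, 0 < c ∧ ∀ u x v : ℝ, 1 / 8 ≤ u → u ≤ 1 → 0 ≤ x → x ≤ 1 / 16 →
    1 / 2 ≤ v → c * v ^ x * ‖Complex.Gamma ((u : ℂ) + (v : ℂ) * I)‖ ≤
      ‖Complex.Gamma ((u : ℂ) + (x : ℂ) + (v : ℂ) * I)‖ := by
  refine ⟨3 / 4, by norm_num, fun u x v hu hu1 hx hx1 hv => ?_⟩
  rcases hx.eq_or_lt with h0 | h0
  · rw [← h0]
    simp only [Real.rpow_zero, Complex.ofReal_zero, add_zero, mul_one]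
    nlinarith [norm_nonneg (Complex.Gamma ((u : ℂ) + (v : ℂ) * I))]
  have hv0 : 0 < v := by linarith
  have hu0 : 0 < u := by linarith
  obtain ⟨K, hK⟩ : ∃ K : ℕ, K = ⌈v⌉₊ + 2 := ⟨_, rfl⟩
  have hK1 : v + 2 ≤ K := by
    rw [hK]
    push_cast
    linarith [Nat.le_ceil v]
  have hK2 : (K : ℝ) ≤ v + 3 := by
    rw [hK]
    push_cast
    linarith [(Nat.ceil_lt_add_one hv0.le).le]
  obtain ⟨A, hA⟩ : ∃ A : ℝ, A = u + K := ⟨_, rfl⟩
  have hA1 : 1 < A := by
    rw [hA]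
    linarith
  have e1 : (u : ℂ) + (v : ℂ) * I + (K : ℂ) = (A : ℂ) + (v : ℂ) * I := by
    rw [hA]
    push_cast
    ring
  have e2 : ((u + x : ℝ) : ℂ) + (v : ℂ) * I + (K : ℂ) = (A : ℂ) + (v : ℂ) * I + (x : ℂ) := by
    rw [hA]
    push_cast
    ring
  have r1 := congrArg norm (Gam_rec ((u : ℂ) + (v : ℂ) * I) (by simpa using hu0) K)
  have r2 := congrArg norm (Gam_rec (((u + x : ℝ) : ℂ) + (v : ℂ) * I)
    (by simp; linarith) K)
  rw [e1, norm_mul, norm_prod] at r1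
  rw [e2, norm_mul, norm_prod] at r2
  obtain ⟨p, hp⟩ : ∃ p : ℝ, p = ∏ n ∈ range K, ‖(u : ℂ) + (v : ℂ) * I + (n : ℂ)‖ := ⟨_, rfl⟩
  obtain ⟨q, hq⟩ : ∃ q : ℝ, q = ∏ n ∈ range K, ‖((u + x : ℝ) : ℂ) + (v : ℂ) * I + (n : ℂ)‖ :=
    ⟨_, rfl⟩
  rw [← hp] at r1
  rw [← hq] at r2
  have hp0 : 0 ≤ p := by
    rw [hp]
    exact prod_nonneg fun _ _ => norm_nonneg _
  have hq0 : 0 < q := by
    rw [hq]
    refine prod_pos fun n _ => ?_
    have h1 : 0 < ‖((u + x : ℝ) : ℂ) + (v : ℂ) * I + (n : ℂ)‖ ^ 2 := by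
      rw [Gam_norm]
      positivity
    refine lt_of_le_of_ne (norm_nonneg _) fun h => ?_
    rw [← h] at h1
    norm_num at h1
  have hpq : 3 / 4 * q ≤ p := by
    have hxv : x / v ≤ 1 / 8 := by
      rw [div_le_iff₀ hv0]
      nlinarith
    have hxv0 : 0 ≤ x / v := by positivity
    have hsq : (1 - x / v) ^ K * q ^ 2 ≤ p ^ 2 := by
      rw [hp, hq, ← prod_pow, ← prod_pow]
      have h1 : (1 - x / v) ^ K = ∏ _n ∈ range K, (1 - x / v) := by simp
      rw [h1, ← prod_mul_distrib]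
      refine prod_le_prod (fun n _ => ?_) (fun n _ => ?_)
      · have : 0 ≤ 1 - x / v := by linarith
        positivity
      · rw [Gam_norm, Gam_norm]
        have hn : (0 : ℝ) ≤ n := Nat.cast_nonneg n
        obtain ⟨b, hb⟩ : ∃ b : ℝ, b = u + x + n := ⟨_, rfl⟩
        have hb0 : x ≤ b := by
          rw [hb]
          linarith
        have e3 : u + (n : ℝ) = b - x := by
          rw [hb]
          ring
        rw [← hb, e3]
        have h2 : 2 * x * b ≤ x / v * (b ^ 2 + v ^ 2) := by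
          rw [div_mul_eq_mul_div, le_div_iff₀ hv0]
          nlinarith [sq_nonneg (b - v)]
        nlinarith
    have hbern : 9 / 16 ≤ (1 - x / v) ^ K := by
      have h1 := one_add_mul_le_pow (a := -(x / v)) (by linarith) K
      have h2 : (K : ℝ) * (x / v) ≤ 7 / 16 := by
        calc (K : ℝ) * (x / v) ≤ (v + 3) * (x / v) := by gcongr
          _ = x + 3 * (x / v) := by
            field_simp
          _ ≤ 7 / 16 := by linarith
      have h3 : (1 - x / v) = 1 + -(x / v) := by ring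
      rw [h3]
      linarith
    have h4 : (3 / 4 * q) ^ 2 ≤ p ^ 2 := by
      calc (3 / 4 * q) ^ 2 = 9 / 16 * q ^ 2 := by ring
        _ ≤ (1 - x / v) ^ K * q ^ 2 := by gcongr
        _ ≤ p ^ 2 := hsq
    exact (pow_le_pow_iff_left₀ (by positivity) hp0 two_ne_zero).1 h4
  have g1 := Gam_one (v := v) (by linarith : 0 < A) h0
  have g2 := Gam_two hA1 h0
  have pA : 0 < Real.Gamma A := Real.Gamma_pos_of_pos (by linarith)
  have hvA : v ^ x ≤ (A - 1) ^ x := by
    refine Real.rpow_le_rpow hv0.le ?_ hx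
    rw [hA]
    linarith
  have g3 : ‖Complex.Gamma ((A : ℂ) + (v : ℂ) * I)‖ * v ^ x ≤
      ‖Complex.Gamma ((A : ℂ) + (v : ℂ) * I + x)‖ := by
    have h1 : ‖Complex.Gamma ((A : ℂ) + (v : ℂ) * I)‖ * v ^ x * Real.Gamma A ≤
        ‖Complex.Gamma ((A : ℂ) + (v : ℂ) * I + x)‖ * Real.Gamma A := by
      calc ‖Complex.Gamma ((A : ℂ) + (v : ℂ) * I)‖ * v ^ x * Real.Gamma A
          ≤ ‖Complex.Gamma ((A : ℂ) + (v : ℂ) * I)‖ * (A - 1) ^ x * Real.Gamma A := by gcongr
        _ = ‖Complex.Gamma ((A : ℂ) + (v : ℂ) * I)‖ * ((A - 1) ^ x * Real.Gamma A) := by ring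
        _ ≤ ‖Complex.Gamma ((A : ℂ) + (v : ℂ) * I)‖ * Real.Gamma (A + x) := by gcongr
        _ ≤ _ := g1
    exact le_of_mul_le_mul_right h1 pA
  have e4 : (u : ℂ) + (x : ℂ) + (v : ℂ) * I = ((u + x : ℝ) : ℂ) + (v : ℂ) * I := by
    push_cast
    ring
  rw [e4]
  refine le_of_mul_le_mul_left ?_ hq0
  rw [r1, r2] at g3
  calc q * (3 / 4 * v ^ x * ‖Complex.Gamma ((u : ℂ) + (v : ℂ) * I)‖)
      = (3 / 4 * q) * ‖Complex.Gamma ((u : ℂ) + (v : ℂ) * I)‖ * v ^ x := by ring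
    _ ≤ p * ‖Complex.Gamma ((u : ℂ) + (v : ℂ) * I)‖ * v ^ x := by gcongr
    _ ≤ _ := g3

end Pool.Agent.EM
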