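import Pool.Agent.Lib.MP_848d44_nt_EM.Defs
import Pool.Agent.Lib.MP_848d44_nt_EM.Gam
import Pool.Agent.Lib.MP_848d44_nt_EM.Cnj

/-!
# Project EM (MP_848d44_nt), module Fep: the functional equation for primitive characters
-/

set_option autoImplicit false

namespace Pool.Agent.EM

open Finset Complex MeasureTheory
open scoped ArithmeticFunction ENNReal ContDiff ComplexConjugate

private theorem Fep_norm_Gammaℝ (z : ℂ) :
    ‖Gammaℝ z‖ = Real.pi ^ (-z.re / 2) * ‖Complex.Gamma (z / 2)‖ := by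
  rw [Gammaℝ_def, norm_mul, Complex.norm_cpow_eq_rpow_re_of_pos Real.pi_pos]
  congr 2
  simp

private theorem Fep_gam {c : ℝ} (hc : 0 < c) (hg : ∀ u x v : ℝ, 1 / 8 ≤ u → u ≤ 1 → 0 ≤ x →
    x ≤ 1 / 16 → 1 / 2 ≤ v → c * v ^ x * ‖Complex.Gamma ((u : ℂ) + (v : ℂ) * I)‖ ≤
      ‖Complex.Gamma ((u : ℂ) + (x : ℂ) + (v : ℂ) * I)‖) {a x y : ℝ} (ha0 : 0 ≤ a) (ha1 : a ≤ 1)
    (hx0 : 0 ≤ x) (hx1 : x ≤ 1 / 16) (hy : 1 ≤ y) :
    c / (2 * Real.pi) * y ^ x * ‖Gammaℝ (1 / 2 - (x : ℂ) + (y : ℂ) * I + (a : ℂ))‖ ≤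
      ‖Gammaℝ (1 / 2 + (x : ℂ) - (y : ℂ) * I + (a : ℂ))‖ := by
  have hpi := Real.pi_pos
  have h1 := hg ((1 / 2 - x + a) / 2) x (y / 2) (by linarith) (by linarith) hx0 hx1 (by linarith)
  have e1 : (1 / 2 - (x : ℂ) + (y : ℂ) * I + (a : ℂ)) / 2 =
      (((1 / 2 - x + a) / 2 : ℝ) : ℂ) + ((y / 2 : ℝ) : ℂ) * I := by
    push_cast
    ring
  have e2 : (1 / 2 + (x : ℂ) - (y : ℂ) * I + (a : ℂ)) / 2 =
      conj ((((1 / 2 - x + a) / 2 : ℝ) : ℂ) + (x : ℂ) + ((y / 2 : ℝ) : ℂ) * I) := by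
    rw [map_add, map_add, map_mul, conj_ofReal, conj_ofReal, conj_ofReal, conj_I]
    push_cast
    ring
  have r1 : (1 / 2 - (x : ℂ) + (y : ℂ) * I + (a : ℂ)).re = 1 / 2 - x + a := by
    simp
  have r2 : (1 / 2 + (x : ℂ) - (y : ℂ) * I + (a : ℂ)).re = 1 / 2 + x + a := by
    simp
  rw [Fep_norm_Gammaℝ, Fep_norm_Gammaℝ, e1, e2, Complex.Gamma_conj, RCLike.norm_conj, r1, r2]
  set G1 := ‖Complex.Gamma ((((1 / 2 - x + a) / 2 : ℝ) : ℂ) + ((y / 2 : ℝ) : ℂ) * I)‖ with hG1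
  set G2 := ‖Complex.Gamma ((((1 / 2 - x + a) / 2 : ℝ) : ℂ) + (x : ℂ) +
    ((y / 2 : ℝ) : ℂ) * I)‖ with hG2
  have h2 : Real.pi ^ (-(1 / 2 + x + a) / 2) =
      Real.pi ^ (-(1 / 2 - x + a) / 2) * Real.pi ^ (-x) := by
    rw [← Real.rpow_add hpi]
    congr 1
    ring
  have h3 : y ^ x / (2 * Real.pi) ≤ (y / 2) ^ x * Real.pi ^ (-x) := by
    rw [Real.rpow_neg hpi.le, Real.div_rpow (by linarith) (by norm_num), ← div_eq_mul_inv, div_div,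
      ← Real.mul_rpow (by norm_num) hpi.le]
    have h4 : (2 * Real.pi) ^ x ≤ 2 * Real.pi := by
      calc (2 * Real.pi) ^ x ≤ (2 * Real.pi) ^ (1 : ℝ) :=
            Real.rpow_le_rpow_of_exponent_le (by linarith [Real.pi_gt_three]) (by linarith)
        _ = 2 * Real.pi := Real.rpow_one _
    exact div_le_div_of_nonneg_left (by positivity) (by positivity) h4
  have hG0 : 0 ≤ G1 := norm_nonneg _
  calc c / (2 * Real.pi) * y ^ x * (Real.pi ^ (-(1 / 2 - x + a) / 2) * G1)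
      = (y ^ x / (2 * Real.pi)) * (c * Real.pi ^ (-(1 / 2 - x + a) / 2) * G1) := by ring
    _ ≤ ((y / 2) ^ x * Real.pi ^ (-x)) * (c * Real.pi ^ (-(1 / 2 - x + a) / 2) * G1) :=
        mul_le_mul_of_nonneg_right h3 (by positivity)
    _ = (Real.pi ^ (-(1 / 2 - x + a) / 2) * Real.pi ^ (-x)) * (c * (y / 2) ^ x * G1) := by ring
    _ ≤ (Real.pi ^ (-(1 / 2 - x + a) / 2) * Real.pi ^ (-x)) * G2 :=
        mul_le_mul_of_nonneg_left h1 (by positivity)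
    _ = Real.pi ^ (-(1 / 2 + x + a) / 2) * G2 := by rw [h2]

private theorem Fep_even_inv {f : ℕ} [NeZero f] (χ : DirichletCharacter ℂ f) (h : χ.Even) :
    (χ⁻¹).Even := by
  unfold DirichletCharacter.Even at h ⊢
  rw [MulChar.inv_apply_eq_inv', h, inv_one]

private theorem Fep_odd_inv {f : ℕ} [NeZero f] (χ : DirichletCharacter ℂ f) (h : χ.Odd) :
    (χ⁻¹).Odd := by
  unfold DirichletCharacter.Odd at h ⊢
  rw [MulChar.inv_apply_eq_inv', h, inv_neg, inv_one]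

/-- Text (6.1) for primitive characters. -/
theorem fe_prim : ∃ c : ℝ, 0 < c ∧ ∀ (f : ℕ) [NeZero f] (χ : DirichletCharacter ℂ f), χ ≠ 1 →
    χ.IsPrimitive → ∀ x y : ℝ, 0 ≤ x → x ≤ 1 / 16 → 1 ≤ y →
    c * y ^ x * ‖DirichletCharacter.LFunction χ (1 / 2 + (x : ℂ) + (y : ℂ) * I)‖ ≤
      ‖DirichletCharacter.LFunction χ (1 / 2 - (x : ℂ) + (y : ℂ) * I)‖ := by
  obtain ⟨c, hc, hg⟩ := gamma_ratio
  refine ⟨c / (2 * Real.pi), by positivity, ?_⟩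
  intro f _ χ hχ1 hχ x y hx0 hx1 hy
  have hfe := hχ.completedLFunction_one_sub (1 / 2 + (x : ℂ) - (y : ℂ) * I)
  have hs1 : (1 : ℂ) - (1 / 2 + (x : ℂ) - (y : ℂ) * I) = 1 / 2 - (x : ℂ) + (y : ℂ) * I := by ring
  rw [hs1] at hfe
  have r1 : (1 / 2 - (x : ℂ) + (y : ℂ) * I).re = 1 / 2 - x := by simp
  have r2 : (1 / 2 + (x : ℂ) - (y : ℂ) * I).re = 1 / 2 + x := by simp
  have n1 : (1 / 2 - (x : ℂ) + (y : ℂ) * I) ≠ 0 := by
    intro h
    rw [h, zero_re] at r1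
    linarith
  have n2 : (1 / 2 + (x : ℂ) - (y : ℂ) * I) ≠ 0 := by
    intro h
    rw [h, zero_re] at r2
    linarith
  have hL1 := DirichletCharacter.LFunction_eq_completed_div_gammaFactor χ
    (1 / 2 - (x : ℂ) + (y : ℂ) * I) (Or.inl n1)
  have hL2 := DirichletCharacter.LFunction_eq_completed_div_gammaFactor χ⁻¹
    (1 / 2 + (x : ℂ) - (y : ℂ) * I) (Or.inl n2)
  have hcj := conj_L χ hχ1 (1 / 2 + (x : ℂ) + (y : ℂ) * I)
  have hcs : conj (1 / 2 + (x : ℂ) + (y : ℂ) * I) = 1 / 2 + (x : ℂ) - (y : ℂ) * I := by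
    rw [map_add, map_add, map_mul, conj_ofReal, conj_ofReal, conj_I, map_div₀, map_one,
      Complex.conj_ofNat]
    ring
  rw [hcs] at hcj
  -- the gamma factors
  obtain ⟨g1, g2, hg12⟩ : DirichletCharacter.gammaFactor χ (1 / 2 - (x : ℂ) + (y : ℂ) * I) ≠ 0 ∧
      DirichletCharacter.gammaFactor χ⁻¹ (1 / 2 + (x : ℂ) - (y : ℂ) * I) ≠ 0 ∧
      c / (2 * Real.pi) * y ^ x *
        ‖DirichletCharacter.gammaFactor χ (1 / 2 - (x : ℂ) + (y : ℂ) * I)‖ ≤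
      ‖DirichletCharacter.gammaFactor χ⁻¹ (1 / 2 + (x : ℂ) - (y : ℂ) * I)‖ := by
    rcases χ.even_or_odd with h | h
    · rw [h.gammaFactor_def, (Fep_even_inv χ h).gammaFactor_def]
      refine ⟨Gammaℝ_ne_zero_of_re_pos (by rw [r1]; linarith),
        Gammaℝ_ne_zero_of_re_pos (by rw [r2]; linarith), ?_⟩
      have h1 := Fep_gam hc hg (le_refl (0:ℝ)) zero_le_one hx0 hx1 hy
      rwa [ofReal_zero, add_zero, add_zero] at h1
    · rw [h.gammaFactor_def, (Fep_odd_inv χ h).gammaFactor_def]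
      refine ⟨Gammaℝ_ne_zero_of_re_pos (by rw [add_re, r1, one_re]; linarith),
        Gammaℝ_ne_zero_of_re_pos (by rw [add_re, r2, one_re]; linarith), ?_⟩
      have h1 := Fep_gam hc hg zero_le_one (le_refl (1:ℝ)) hx0 hx1 hy
      rwa [ofReal_one] at h1
  rw [eq_div_iff g1] at hL1
  rw [eq_div_iff g2] at hL2
  rw [← hL1, ← hL2, hcj] at hfe
  have hn := congrArg norm hfe
  rw [norm_mul, norm_mul, norm_mul, norm_mul, norm_root χ hχ hχ1, mul_one, RCLike.norm_conj,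
    Complex.norm_natCast_cpow_of_pos (NeZero.pos f)] at hn
  have r3 : (1 / 2 + (x : ℂ) - (y : ℂ) * I - 1 / 2).re = x := by simp
  rw [r3] at hn
  have hf : 1 ≤ (f : ℝ) ^ x :=
    Real.one_le_rpow (by exact_mod_cast (NeZero.pos f : 0 < f)) hx0
  set L1 := ‖DirichletCharacter.LFunction χ (1 / 2 - (x : ℂ) + (y : ℂ) * I)‖ with hL1'
  set L2 := ‖DirichletCharacter.LFunction χ (1 / 2 + (x : ℂ) + (y : ℂ) * I)‖ with hL2'
  set G1 := ‖DirichletCharacter.gammaFactor χ (1 / 2 - (x : ℂ) + (y : ℂ) * I)‖ with hG1'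
  set G2 := ‖DirichletCharacter.gammaFactor χ⁻¹ (1 / 2 + (x : ℂ) - (y : ℂ) * I)‖ with hG2'
  have hG1 : 0 < G1 := norm_pos_iff.2 g1
  have hG2 : 0 < G2 := norm_pos_iff.2 g2
  have hL20 : 0 ≤ L2 := norm_nonneg _
  refine le_of_mul_le_mul_right ?_ hG1
  calc c / (2 * Real.pi) * y ^ x * L2 * G1 = (c / (2 * Real.pi) * y ^ x * G1) * L2 := by ring
    _ ≤ G2 * L2 := mul_le_mul_of_nonneg_right hg12 hL20
    _ = 1 * (L2 * G2) := by ring
    _ ≤ (f : ℝ) ^ x * (L2 * G2) := mul_le_mul_of_nonneg_right hf (by positivity)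
    _ = L1 * G1 := hn.symm

end Pool.Agent.EM
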