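import Pool.Agent.Lib.MP_848d44_nt_EM.Defs

/-!
# Project EM (MP_848d44_nt), module Ppr: a product over the primes dividing q
-/

set_option autoImplicit false

namespace Pool.Agent.EM

open Finset Complex MeasureTheory
open scoped ArithmeticFunction ENNReal ContDiff ComplexConjugate

private noncomputable def Ppr_f (p : ℕ) : ℝ := (1 - (p : ℝ) ^ (-(7 / 16) : ℝ)) ^ 2

private theorem Ppr_lt (p : ℕ) (hp : 2 ≤ p) : (p : ℝ) ^ (-(7 / 16) : ℝ) < 1 := by
  have h : (1 : ℝ) < p := by exact_mod_cast hp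
  exact Real.rpow_lt_one_of_one_lt_of_neg h (by norm_num)

private theorem Ppr_pos (p : ℕ) (hp : 2 ≤ p) : 0 < Ppr_f p := by
  have h := Ppr_lt p hp
  unfold Ppr_f
  have h1 : 0 < 1 - (p : ℝ) ^ (-(7 / 16) : ℝ) := by linarith
  positivity

private theorem Ppr_le_one (p : ℕ) (hp : 2 ≤ p) : Ppr_f p ≤ 1 := by
  have h := Ppr_lt p hp
  have h0 : 0 ≤ (p : ℝ) ^ (-(7 / 16) : ℝ) := Real.rpow_nonneg (Nat.cast_nonneg p) _
  unfold Ppr_f
  exact pow_le_one₀ (by linarith) (by linarith)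

private theorem Ppr_large (κ : ℝ) (hκ : 0 < κ) :
    ∃ P : ℕ, ∀ p : ℕ, P ≤ p → (p : ℝ) ^ (-κ) ≤ Ppr_f p := by
  have t1 : Filter.Tendsto (fun p : ℕ => (p : ℝ) ^ (-(7 / 16) : ℝ)) Filter.atTop (nhds 0) :=
    (tendsto_rpow_neg_atTop (y := 7 / 16) (by norm_num)).comp tendsto_natCast_atTop_atTop
  have t2 : Filter.Tendsto (fun p : ℕ => (p : ℝ) ^ (-κ)) Filter.atTop (nhds 0) :=
    (tendsto_rpow_neg_atTop hκ).comp tendsto_natCast_atTop_atTop
  have t3 : Filter.Tendsto Ppr_f Filter.atTop (nhds 1) := by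
    have := (t1.const_sub 1).pow 2
    rw [sub_zero, one_pow] at this
    exact this
  have e1 := t3.eventually (lt_mem_nhds (show (1 / 2 : ℝ) < 1 by norm_num))
  have e2 := t2.eventually (gt_mem_nhds (show (0 : ℝ) < 1 / 2 by norm_num))
  obtain ⟨P, hP⟩ := Filter.eventually_atTop.1 (e1.and e2)
  refine ⟨P, fun p hp => ?_⟩
  obtain ⟨h1, h2⟩ := hP p hp
  linarith

/-- Text (6.3). -/
theorem prime_prod (κ : ℝ) (hκ : 0 < κ) : ∃ c : ℝ, 0 < c ∧ ∀ q : ℕ, 1 ≤ q →
    c * (q : ℝ) ^ (-κ) ≤ ∏ p ∈ q.primeFactors, (1 - (p : ℝ) ^ (-(7 / 16) : ℝ)) ^ 2 := by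
  classical
  obtain ⟨P, hP⟩ := Ppr_large κ hκ
  set T : Finset ℕ := (Finset.range P).filter Nat.Prime with hT
  refine ⟨∏ p ∈ T, Ppr_f p, Finset.prod_pos fun p hp => ?_, fun q hq => ?_⟩
  · exact Ppr_pos p (Finset.mem_filter.1 hp).2.two_le
  have hq0 : q ≠ 0 := by omega
  have hpr : ∀ p ∈ q.primeFactors, 2 ≤ p := fun p hp => (Nat.prime_of_mem_primeFactors hp).two_le
  change _ ≤ ∏ p ∈ q.primeFactors, Ppr_f p
  rw [← Finset.prod_filter_mul_prod_filter_not q.primeFactors (fun p => p < P)]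
  have h1 : ∏ p ∈ T, Ppr_f p ≤ ∏ p ∈ q.primeFactors.filter (fun p => p < P), Ppr_f p := by
    have hsub : q.primeFactors.filter (fun p => p < P) ⊆ T := by
      intro p hp
      rw [Finset.mem_filter] at hp
      rw [hT, Finset.mem_filter, Finset.mem_range]
      exact ⟨hp.2, Nat.prime_of_mem_primeFactors hp.1⟩
    rw [← Finset.prod_sdiff hsub]
    have h2 : ∏ p ∈ T \ q.primeFactors.filter (fun p => p < P), Ppr_f p ≤ 1 := by
      refine Finset.prod_le_one (fun p _ => ?_) fun p hp => ?_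
      · unfold Ppr_f
        positivity
      · rw [Finset.mem_sdiff, hT, Finset.mem_filter] at hp
        exact Ppr_le_one p hp.1.2.two_le
    refine mul_le_of_le_one_left (Finset.prod_nonneg fun p _ => ?_) h2
    unfold Ppr_f
    positivity
  have h3 : (q : ℝ) ^ (-κ) ≤ ∏ p ∈ q.primeFactors.filter (fun p => ¬ p < P), Ppr_f p := by
    set U := q.primeFactors.filter (fun p => ¬ p < P) with hU
    have h4 : ∏ p ∈ U, (p : ℝ) ^ (-κ) ≤ ∏ p ∈ U, Ppr_f p := by
      refine Finset.prod_le_prod (fun p _ => Real.rpow_nonneg (Nat.cast_nonneg p) _)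
        fun p hp => ?_
      rw [hU, Finset.mem_filter, not_lt] at hp
      exact hP p hp.2
    refine le_trans ?_ h4
    rw [Real.finsetProd_rpow _ _ fun p _ => Nat.cast_nonneg p]
    have h5 : (0 : ℝ) < ∏ p ∈ U, (p : ℝ) := by
      refine Finset.prod_pos fun p hp => ?_
      have := hpr p (Finset.mem_filter.1 hp).1
      positivity
    have h6 : (∏ p ∈ U, (p : ℝ)) ≤ q := by
      have h7 : (∏ p ∈ U, p) ∣ q :=
        (Finset.prod_dvd_prod_of_subset _ _ _ (Finset.filter_subset _ _)).trans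
          (Nat.prod_primeFactors_dvd q)
      have h8 := Nat.le_of_dvd (by omega) h7
      calc (∏ p ∈ U, (p : ℝ)) = ((∏ p ∈ U, p : ℕ) : ℝ) := (Nat.cast_prod _ _).symm
        _ ≤ q := Nat.cast_le.2 h8
    exact Real.rpow_le_rpow_of_nonpos h5 h6 (by linarith)
  refine mul_le_mul h1 h3 (Real.rpow_nonneg (Nat.cast_nonneg q) _) ?_
  exact Finset.prod_nonneg fun p _ => by
    unfold Ppr_f
    positivity

end Pool.Agent.EM
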