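import Pool.Agent.Lib.MP_848d44_nt_EM.Defs
import Pool.Agent.Lib.MP_848d44_nt_EM.Fep
import Pool.Agent.Lib.MP_848d44_nt_EM.Ppr

/-!
# Project EM (MP_848d44_nt), module Fei: the functional equation inequality for all nonprincipal characters
-/

set_option autoImplicit false

namespace Pool.Agent.EM

open Finset Complex MeasureTheory
open scoped ArithmeticFunction ENNReal ContDiff ComplexConjugate

private theorem Fei_norm {p : ℕ} (hp : 2 ≤ p) (a x y : ℝ) :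
    ‖(p : ℂ) ^ (-((a : ℂ) + (x : ℂ) + (y : ℂ) * I))‖ = (p : ℝ) ^ (-(a + x)) := by
  rw [Complex.norm_natCast_cpow_of_pos (by omega)]
  congr 1
  simp

private theorem Fei_lo {p : ℕ} (hp : 2 ≤ p) {z : ℂ} (hz : ‖z‖ ≤ 1) {x y : ℝ} (hx : x ≤ 1 / 16) :
    1 - (p : ℝ) ^ (-(7 / 16) : ℝ) ≤
      ‖1 - z * (p : ℂ) ^ (-(1 / 2 - (x : ℂ) + (y : ℂ) * I))‖ := by
  have h1 : ‖(p : ℂ) ^ (-(1 / 2 - (x : ℂ) + (y : ℂ) * I))‖ = (p : ℝ) ^ (-(1 / 2 + -x)) := by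
    rw [← Fei_norm hp (1 / 2) (-x) y]
    congr 3
    push_cast
    ring
  have h2 : (p : ℝ) ^ (-(1 / 2 + -x)) ≤ (p : ℝ) ^ (-(7 / 16) : ℝ) :=
    Real.rpow_le_rpow_of_exponent_le (by exact_mod_cast (by omega : 1 ≤ p)) (by linarith)
  have h3 : ‖z * (p : ℂ) ^ (-(1 / 2 - (x : ℂ) + (y : ℂ) * I))‖ ≤ (p : ℝ) ^ (-(7 / 16) : ℝ) := by
    rw [norm_mul, h1]
    exact (mul_le_of_le_one_left (Real.rpow_nonneg (Nat.cast_nonneg p) _) hz).trans h2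
  have h4 := norm_sub_norm_le (1 : ℂ) (z * (p : ℂ) ^ (-(1 / 2 - (x : ℂ) + (y : ℂ) * I)))
  rw [norm_one] at h4
  linarith

private theorem Fei_hi {p : ℕ} (hp : 2 ≤ p) {z : ℂ} (hz : ‖z‖ ≤ 1) {x y : ℝ} (hx : 0 ≤ x) :
    (1 - (p : ℝ) ^ (-(7 / 16) : ℝ)) *
      ‖1 - z * (p : ℂ) ^ (-(1 / 2 + (x : ℂ) + (y : ℂ) * I))‖ ≤ 1 := by
  have h1 : ‖(p : ℂ) ^ (-(1 / 2 + (x : ℂ) + (y : ℂ) * I))‖ = (p : ℝ) ^ (-(1 / 2 + x)) := by
    rw [← Fei_norm hp (1 / 2) x y]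
    congr 3
    push_cast
    ring
  have h2 : (p : ℝ) ^ (-(1 / 2 + x)) ≤ (p : ℝ) ^ (-(7 / 16) : ℝ) :=
    Real.rpow_le_rpow_of_exponent_le (by exact_mod_cast (by omega : 1 ≤ p)) (by linarith)
  have h3 : ‖z * (p : ℂ) ^ (-(1 / 2 + (x : ℂ) + (y : ℂ) * I))‖ ≤ (p : ℝ) ^ (-(7 / 16) : ℝ) := by
    rw [norm_mul, h1]
    exact (mul_le_of_le_one_left (Real.rpow_nonneg (Nat.cast_nonneg p) _) hz).trans h2
  have h4 := norm_sub_le (1 : ℂ) (z * (p : ℂ) ^ (-(1 / 2 + (x : ℂ) + (y : ℂ) * I)))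
  rw [norm_one] at h4
  have h5 : (p : ℝ) ^ (-(7 / 16) : ℝ) < 1 :=
    Real.rpow_lt_one_of_one_lt_of_neg (by exact_mod_cast (by omega : 1 < p)) (by norm_num)
  have h6 : 0 ≤ (p : ℝ) ^ (-(7 / 16) : ℝ) := Real.rpow_nonneg (Nat.cast_nonneg p) _
  have h7 : ‖1 - z * (p : ℂ) ^ (-(1 / 2 + (x : ℂ) + (y : ℂ) * I))‖ ≤
      1 + (p : ℝ) ^ (-(7 / 16) : ℝ) := by linarith
  calc (1 - (p : ℝ) ^ (-(7 / 16) : ℝ)) *
      ‖1 - z * (p : ℂ) ^ (-(1 / 2 + (x : ℂ) + (y : ℂ) * I))‖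
      ≤ (1 - (p : ℝ) ^ (-(7 / 16) : ℝ)) * (1 + (p : ℝ) ^ (-(7 / 16) : ℝ)) :=
        mul_le_mul_of_nonneg_left h7 (by linarith)
    _ ≤ 1 := by nlinarith

/-- Text (6.1). -/
theorem fe_ratio (κ : ℝ) (hκ : 0 < κ) : ∃ c : ℝ, 0 < c ∧ ∀ (q : ℕ) [NeZero q]
    (χ : DirichletCharacter ℂ q), χ ≠ 1 → ∀ x y : ℝ, 0 ≤ x → x ≤ 1 / 16 → 1 ≤ y →
    c * (q : ℝ) ^ (-κ) * y ^ x *
      ‖DirichletCharacter.LFunction χ (1 / 2 + (x : ℂ) + (y : ℂ) * I)‖ ≤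
      ‖DirichletCharacter.LFunction χ (1 / 2 - (x : ℂ) + (y : ℂ) * I)‖ := by
  obtain ⟨c1, hc1, hfe⟩ := fe_prim
  obtain ⟨c2, hc2, hpp⟩ := prime_prod κ hκ
  refine ⟨c1 * c2, mul_pos hc1 hc2, fun q hq χ hχ x y hx hx2 hy => ?_⟩
  have hcond : NeZero χ.conductor :=
    ⟨fun h0 => (NeZero.ne q) (Nat.eq_zero_of_zero_dvd (h0 ▸ χ.conductor_dvd_level))⟩
  obtain ⟨ψ, hψ⟩ : ∃ ψ : DirichletCharacter ℂ χ.conductor, ψ = χ.primitiveCharacter := ⟨_, rfl⟩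
  have hcl : DirichletCharacter.changeLevel χ.conductor_dvd_level ψ = χ := by
    rw [hψ]
    exact χ.changeLevel_primitiveCharacter
  have hψ1 : ψ ≠ 1 := by
    intro h
    apply hχ
    rw [← hcl, h, map_one]
  have hprim : ψ.IsPrimitive := by
    rw [hψ]
    exact χ.primitiveCharacter_isPrimitive
  have hL : ∀ s : ℂ, DirichletCharacter.LFunction χ s = DirichletCharacter.LFunction ψ s *
      ∏ p ∈ q.primeFactors, (1 - ψ p * (p : ℂ) ^ (-s)) := by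
    intro s
    have h := DirichletCharacter.LFunction_changeLevel χ.conductor_dvd_level ψ (s := s)
      (Or.inl hψ1)
    rw [hcl] at h
    exact h
  have hf := hfe χ.conductor ψ hψ1 hprim x y hx hx2 hy
  have hq1 : 1 ≤ q := Nat.one_le_iff_ne_zero.2 (NeZero.ne q)
  have hp := hpp q hq1
  rw [hL, hL, norm_mul, norm_mul, norm_prod, norm_prod]
  obtain ⟨A, hA⟩ : ∃ A : ℝ, A = ∏ p ∈ q.primeFactors,
    ‖1 - ψ p * (p : ℂ) ^ (-(1 / 2 + (x : ℂ) + (y : ℂ) * I))‖ := ⟨_, rfl⟩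
  obtain ⟨B, hB⟩ : ∃ B : ℝ, B = ∏ p ∈ q.primeFactors,
    ‖1 - ψ p * (p : ℂ) ^ (-(1 / 2 - (x : ℂ) + (y : ℂ) * I))‖ := ⟨_, rfl⟩
  rw [← hA, ← hB]
  have hA0 : 0 ≤ A := by
    rw [hA]
    exact Finset.prod_nonneg fun p _ => norm_nonneg _
  have hB0 : 0 ≤ B := by
    rw [hB]
    exact Finset.prod_nonneg fun p _ => norm_nonneg _
  have hAB : (∏ p ∈ q.primeFactors, (1 - (p : ℝ) ^ (-(7 / 16) : ℝ)) ^ 2) * A ≤ B := by
    rw [hA, hB, ← Finset.prod_mul_distrib]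
    refine Finset.prod_le_prod (fun p _ => by positivity) fun p hp => ?_
    have hp2 : 2 ≤ p := (Nat.prime_of_mem_primeFactors hp).two_le
    have h1 := Fei_lo hp2 (ψ.norm_le_one p) (x := x) (y := y) hx2
    have h2 := Fei_hi hp2 (ψ.norm_le_one p) (x := x) (y := y) hx
    have h3 : (p : ℝ) ^ (-(7 / 16) : ℝ) < 1 :=
      Real.rpow_lt_one_of_one_lt_of_neg (by exact_mod_cast (by omega : 1 < p)) (by norm_num)
    have h4 : 0 ≤ 1 - (p : ℝ) ^ (-(7 / 16) : ℝ) := by linarith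
    rw [sq, mul_assoc]
    exact (mul_le_of_le_one_right h4 h2).trans h1
  have hcA : c2 * (q : ℝ) ^ (-κ) * A ≤ B := (mul_le_mul_of_nonneg_right hp hA0).trans hAB
  have hy0 : 0 ≤ y ^ x := Real.rpow_nonneg (by linarith) _
  have hq0 : 0 ≤ (q : ℝ) ^ (-κ) := Real.rpow_nonneg (Nat.cast_nonneg q) _
  calc c1 * c2 * (q : ℝ) ^ (-κ) * y ^ x *
        (‖DirichletCharacter.LFunction ψ (1 / 2 + (x : ℂ) + (y : ℂ) * I)‖ * A)
      = (c1 * y ^ x * ‖DirichletCharacter.LFunction ψ (1 / 2 + (x : ℂ) + (y : ℂ) * I)‖) *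
        (c2 * (q : ℝ) ^ (-κ) * A) := by ring
    _ ≤ ‖DirichletCharacter.LFunction ψ (1 / 2 - (x : ℂ) + (y : ℂ) * I)‖ * B :=
        mul_le_mul hf hcA (by positivity) (norm_nonneg _)

end Pool.Agent.EM
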