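import Pool.Agent.Lib.MP_848d44_nt_EM.Defs

/-!
# Project EM (MP_848d44_nt), module Jen: circle averages of log |f|
-/

set_option autoImplicit false

namespace Pool.Agent.EM

open Finset Complex MeasureTheory
open scoped ArithmeticFunction ENNReal ContDiff ComplexConjugate

private theorem Jen_aux {A B : ℝ≥0∞} (hA : A ≠ ⊤) (hB : B ≠ ⊤) {I : ℝ}
    (hI : I = A.toReal - B.toReal) : A + ENNReal.ofReal (-I) = B + ENNReal.ofReal I := by
  have ha := ENNReal.toReal_nonneg (a := A)
  have hb := ENNReal.toReal_nonneg (a := B)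
  rw [← ENNReal.ofReal_toReal hA, ← ENNReal.ofReal_toReal hB]
  rcases le_total 0 I with h | h
  · rw [ENNReal.ofReal_of_nonpos (by linarith : -I ≤ 0), add_zero, ← ENNReal.ofReal_add hb h]
    congr 1
    linarith
  · rw [ENNReal.ofReal_of_nonpos h, add_zero, ← ENNReal.ofReal_add ha (by linarith)]
    congr 1
    linarith

/-- The positive and the negative part of `log |f|` on a circle. -/
theorem circ_parts {f : ℂ → ℂ} {c : ℂ} {R : ℝ} (hR : 0 < R)
    (hf : AnalyticOnNhd ℂ f (Metric.closedBall c R)) :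
    (∫⁻ θ in Set.Ioo (-Real.pi) Real.pi, ENNReal.ofReal (Real.log ‖f (circleMap c R θ)‖)) +
      ENNReal.ofReal (-(2 * Real.pi * Real.circleAverage (fun z => Real.log ‖f z‖) c R)) =
    (∫⁻ θ in Set.Ioo (-Real.pi) Real.pi, ENNReal.ofReal (-Real.log ‖f (circleMap c R θ)‖)) +
      ENNReal.ofReal (2 * Real.pi * Real.circleAverage (fun z => Real.log ‖f z‖) c R) := by
  have hpi := Real.pi_pos
  have hci : CircleIntegrable (fun z => Real.log ‖f z‖) c R := by
    refine MeromorphicOn.circleIntegrable_log_norm ?_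
    rw [abs_of_pos hR]
    exact (hf.mono Metric.sphere_subset_closedBall).meromorphicOn
  have hper : Function.Periodic (fun θ : ℝ => Real.log ‖f (circleMap c R θ)‖)
      (2 * Real.pi) := fun θ => by
    simp only
    rw [periodic_circleMap c R θ]
  have h1 : IntervalIntegrable (fun θ : ℝ => Real.log ‖f (circleMap c R θ)‖) volume
      (-Real.pi) Real.pi := by
    refine hper.intervalIntegrable (by linarith) (t := 0) ?_ _ _
    rw [zero_add]
    exact hci
  have h2 : IntegrableOn (fun θ : ℝ => Real.log ‖f (circleMap c R θ)‖)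
      (Set.Ioo (-Real.pi) Real.pi) volume :=
    (intervalIntegrable_iff_integrableOn_Ioo_of_le (by linarith)).1 h1
  have h3 : ∫ θ in Set.Ioo (-Real.pi) Real.pi, Real.log ‖f (circleMap c R θ)‖ =
      2 * Real.pi * Real.circleAverage (fun z => Real.log ‖f z‖) c R := by
    rw [← integral_Ioc_eq_integral_Ioo, ← intervalIntegral.integral_of_le (by linarith)]
    have h4 := hper.intervalIntegral_add_eq (-Real.pi) 0
    rw [zero_add, show -Real.pi + 2 * Real.pi = Real.pi by ring] at h4
    rw [h4, Real.circleAverage_def, smul_eq_mul, ← mul_assoc,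
      mul_inv_cancel₀ (by positivity), one_mul]
  have h5 := integral_eq_lintegral_pos_part_sub_lintegral_neg_part h2
  rw [h3] at h5
  exact Jen_aux h2.lintegral_lt_top.ne h2.neg.lintegral_lt_top.ne h5

/-- Jensen's inequality. -/
theorem jensen_le {f : ℂ → ℂ} {c : ℂ} {R : ℝ} (hR : 0 < R)
    (hf : AnalyticOnNhd ℂ f (Metric.closedBall c R)) (h0 : f c ≠ 0) :
    Real.log ‖f c‖ ≤ Real.circleAverage (fun z => Real.log ‖f z‖) c R := by
  have hf' : AnalyticOnNhd ℂ f (Metric.closedBall c |R|) := by rwa [abs_of_pos hR]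
  rw [hf'.circleAverage_log_norm hR.ne' h0]
  have : 0 ≤ ∑ᶠ u, MeromorphicOn.divisor f (Metric.closedBall c |R|) u *
      Real.log (R * ‖c - u‖⁻¹) := by
    refine finsum_nonneg fun u => ?_
    by_cases hu : u ∈ Metric.closedBall c |R|
    · refine mul_nonneg (mod_cast MeromorphicOn.AnalyticOnNhd.divisor_nonneg hf' u) ?_
      rcases eq_or_ne u c with rfl | h
      · simp
      · have h1 : 0 < ‖c - u‖ := norm_pos_iff.2 (sub_ne_zero.2 h.symm)
        have h2 : ‖c - u‖ ≤ R := by
          rw [Metric.mem_closedBall, dist_eq_norm', abs_of_pos hR] at hu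
          exact hu
        refine Real.log_nonneg ?_
        rw [← div_eq_mul_inv, le_div_iff₀ h1, one_mul]
        exact h2
    · simp [hu]
  linarith

end Pool.Agent.EM
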