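import Pool.Agent.Lib.MP_848d44_nt_EM.Defs

/-!
# Project EM (MP_848d44_nt), module Pol: polar coordinates
-/

set_option autoImplicit false

namespace Pool.Agent.EM

open Finset Complex MeasureTheory
open scoped ArithmeticFunction ENNReal ContDiff ComplexConjugate

private lemma Pol_symm (c : ℂ) (ρ θ : ℝ) :
    c + Complex.polarCoord.symm (ρ, θ) = circleMap c ρ θ := by
  rw [Complex.polarCoord_symm_apply, circleMap, Complex.exp_mul_I]
  simp

private lemma Pol_mem (c : ℂ) (ρ θ R : ℝ) (hρ : 0 < ρ) :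
    circleMap c ρ θ ∈ Metric.ball c R ↔ ρ < R := by
  rw [Metric.mem_ball, dist_eq_norm]
  have h : circleMap c ρ θ - c = circleMap 0 ρ θ := by simp [circleMap]
  rw [h, norm_circleMap_zero, abs_of_pos hρ]

private lemma Pol_meas {F : ℂ → ℝ≥0∞} (hF : Measurable F) (c : ℂ) :
    Measurable fun p : ℝ × ℝ => F (circleMap c p.1 p.2) := by
  have h : Continuous fun p : ℝ × ℝ => circleMap c p.1 p.2 := by
    unfold circleMap
    fun_prop
  exact hF.comp h.measurable

private lemma Pol_meas2 {F : ℂ → ℝ≥0∞} (hF : Measurable F) (c : ℂ) (ρ : ℝ) :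
    Measurable fun θ : ℝ => F (circleMap c ρ θ) :=
  hF.comp (continuous_circleMap c ρ).measurable

private lemma Pol_meas3 {F : ℂ → ℝ≥0∞} (hF : Measurable F) (c : ℂ) :
    Measurable fun ρ : ℝ => ∫⁻ θ in Set.Ioo (-Real.pi) Real.pi, F (circleMap c ρ θ) :=
  Measurable.lintegral_prod_right' (ν := volume.restrict (Set.Ioo (-Real.pi) Real.pi))
    (Pol_meas hF c)

theorem polar (F : ℂ → ℝ≥0∞) (hF : Measurable F) (c : ℂ) (R : ℝ) :
    ∫⁻ z in Metric.ball c R, F z = ∫⁻ ρ in Set.Ioo 0 R, ENNReal.ofReal ρ *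
      ∫⁻ θ in Set.Ioo (-Real.pi) Real.pi, F (circleMap c ρ θ) := by
  have hb : MeasurableSet (Metric.ball c R) := Metric.isOpen_ball.measurableSet
  have hind : Measurable ((Metric.ball c R).indicator F) := hF.indicator hb
  rw [← lintegral_indicator hb]
  have h1 : ∫⁻ z, (Metric.ball c R).indicator F z =
      ∫⁻ z, (Metric.ball c R).indicator F (c + z) :=
    (lintegral_add_left_eq_self _ c).symm
  rw [h1, ← Complex.lintegral_comp_polarCoord_symm
    (fun z => (Metric.ball c R).indicator F (c + z))]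
  have h2 : ∀ p : ℝ × ℝ, ENNReal.ofReal p.1 •
      (Metric.ball c R).indicator F (c + Complex.polarCoord.symm p) =
      ENNReal.ofReal p.1 * (Metric.ball c R).indicator F (circleMap c p.1 p.2) := by
    rintro ⟨ρ, θ⟩
    rw [Pol_symm, smul_eq_mul]
  simp only [h2]
  have h3 : polarCoord.target = Set.Ioi (0 : ℝ) ×ˢ Set.Ioo (-Real.pi) Real.pi := rfl
  rw [h3, MeasureTheory.Measure.volume_eq_prod, setLIntegral_prod]
  · have h4 : ∀ ρ ∈ Set.Ioi (0 : ℝ), (∫⁻ θ in Set.Ioo (-Real.pi) Real.pi,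
        ENNReal.ofReal ρ * (Metric.ball c R).indicator F (circleMap c ρ θ)) =
        (Set.Iio R).indicator (fun ρ => ENNReal.ofReal ρ *
          ∫⁻ θ in Set.Ioo (-Real.pi) Real.pi, F (circleMap c ρ θ)) ρ := by
      intro ρ hρ
      rw [lintegral_const_mul _ (Pol_meas2 hind c ρ)]
      by_cases hR : ρ < R
      · rw [Set.indicator_of_mem (Set.mem_Iio.2 hR)]
        congr 1
        refine lintegral_congr fun θ => ?_
        rw [Set.indicator_of_mem ((Pol_mem c ρ θ R hρ).2 hR)]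
      · rw [Set.indicator_of_notMem (fun h => hR (Set.mem_Iio.1 h))]
        have h5 : ∀ θ : ℝ, (Metric.ball c R).indicator F (circleMap c ρ θ) = 0 := fun θ =>
          Set.indicator_of_notMem (fun h => hR ((Pol_mem c ρ θ R hρ).1 h)) _
        simp only [h5, lintegral_zero, mul_zero]
    rw [setLIntegral_congr_fun measurableSet_Ioi h4, lintegral_indicator measurableSet_Iio,
      Measure.restrict_restrict measurableSet_Iio]
    congr 2
    ext x
    simp [Set.mem_Ioo, and_comm]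
  · exact ((measurable_fst.ennreal_ofReal).mul (Pol_meas hind c)).aemeasurable

private lemma Pol_int {R : ℝ} (hR : 0 < R) :
    ∫⁻ ρ in Set.Ioo 0 R, ENNReal.ofReal ρ = ENNReal.ofReal (R ^ 2 / 2) := by
  have hc : IntegrableOn (fun ρ : ℝ => ρ) (Set.Ioo 0 R) :=
    (continuous_id.integrableOn_Icc (a := 0) (b := R)).mono_set Set.Ioo_subset_Icc_self
  have h1 : ENNReal.ofReal (∫ ρ in Set.Ioo 0 R, ρ) = ∫⁻ ρ in Set.Ioo 0 R, ENNReal.ofReal ρ := by
    refine ofReal_integral_eq_lintegral_ofReal hc ?_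
    filter_upwards [ae_restrict_mem measurableSet_Ioo] with ρ hρ using hρ.1.le
  rw [← h1, ← integral_Ioc_eq_integral_Ioo, ← intervalIntegral.integral_of_le hR.le, integral_id]
  congr 1
  ring

private lemma Pol_const {R : ℝ} (hR : 0 < R) (Q : ℝ) :
    ∫⁻ ρ in Set.Ioo 0 R, ENNReal.ofReal ρ * ENNReal.ofReal (2 * Real.pi * Q) =
      ENNReal.ofReal (Real.pi * R ^ 2 * Q) := by
  rw [lintegral_mul_const _ ENNReal.measurable_ofReal, Pol_int hR, ← ENNReal.ofReal_mul (by positivity)]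
  congr 1
  ring

theorem polar_ge (F : ℂ → ℝ≥0∞) (hF : Measurable F) (c : ℂ) (R Q : ℝ) (hR : 0 < R)
    (h : ∀ ρ ∈ Set.Ioo 0 R, ENNReal.ofReal (2 * Real.pi * Q) ≤
      ∫⁻ θ in Set.Ioo (-Real.pi) Real.pi, F (circleMap c ρ θ)) :
    ENNReal.ofReal (Real.pi * R ^ 2 * Q) ≤ ∫⁻ z in Metric.ball c R, F z := by
  rw [polar F hF c R, ← Pol_const hR Q]
  exact setLIntegral_mono' measurableSet_Ioo fun ρ hρ => mul_le_mul_right (h ρ hρ) _

theorem polar_le (F G : ℂ → ℝ≥0∞) (hF : Measurable F) (hG : Measurable G) (c : ℂ) (R Q : ℝ)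
    (hR : 0 < R) (h : ∀ ρ ∈ Set.Ioo 0 R, ∫⁻ θ in Set.Ioo (-Real.pi) Real.pi, F (circleMap c ρ θ) ≤
      ENNReal.ofReal (2 * Real.pi * Q) +
        ∫⁻ θ in Set.Ioo (-Real.pi) Real.pi, G (circleMap c ρ θ)) :
    ∫⁻ z in Metric.ball c R, F z ≤
      ENNReal.ofReal (Real.pi * R ^ 2 * Q) + ∫⁻ z in Metric.ball c R, G z := by
  rw [polar F hF c R, polar G hG c R, ← Pol_const hR Q,
    ← lintegral_add_left (ENNReal.measurable_ofReal.mul_const _)]
  refine setLIntegral_mono' measurableSet_Ioo fun ρ hρ => ?_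
  rw [← mul_add]
  exact mul_le_mul_right (h ρ hρ) _

private lemma Pol_mean {f : ℂ → ℂ} (hf : Differentiable ℂ f) (z : ℂ) (ρ : ℝ) :
    2 * Real.pi * ‖f z‖ ≤ ∫ θ in (-Real.pi)..Real.pi, ‖f (circleMap z ρ θ)‖ := by
  have h1 : Real.circleAverage f z ρ = f z := DiffContOnCl.circleAverage hf.diffContOnCl
  rw [Real.circleAverage_def] at h1
  have h2 : ∫ θ in (0:ℝ)..2 * Real.pi, f (circleMap z ρ θ) =
      ∫ θ in (-Real.pi)..Real.pi, f (circleMap z ρ θ) := by
    have hp : Function.Periodic (fun θ : ℝ => f (circleMap z ρ θ)) (2 * Real.pi) := fun θ => by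
      show f (circleMap z ρ (θ + 2 * Real.pi)) = f (circleMap z ρ θ)
      rw [periodic_circleMap z ρ θ]
    have h3 := hp.intervalIntegral_add_eq 0 (-Real.pi)
    rw [zero_add] at h3
    rw [h3]
    congr 1
    ring
  rw [h2] at h1
  have h4 : ∫ θ in (-Real.pi)..Real.pi, f (circleMap z ρ θ) = (2 * Real.pi : ℝ) • f z := by
    rw [← h1, smul_smul, mul_inv_cancel₀ (by positivity), one_smul]
  have h5 : ‖∫ θ in (-Real.pi)..Real.pi, f (circleMap z ρ θ)‖ = 2 * Real.pi * ‖f z‖ := by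
    rw [h4, norm_smul, Real.norm_of_nonneg (by positivity)]
  rw [← h5]
  exact intervalIntegral.norm_integral_le_integral_norm (by linarith [Real.pi_pos])

/-- The value of an entire function is bounded by its mean over a disc. -/
theorem norm_le_area {f : ℂ → ℂ} (hf : Differentiable ℂ f) (z : ℂ) (r A : ℝ) (hr : 0 < r)
    (hA : 0 ≤ A) (h : ∫⁻ y in Metric.ball z r, ENNReal.ofReal ‖f y‖ ≤ ENNReal.ofReal A) :
    ‖f z‖ ≤ A / (Real.pi * r ^ 2) := by
  have hm : Measurable fun y => ENNReal.ofReal ‖f y‖ :=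
    (hf.continuous.norm.measurable).ennreal_ofReal
  have h1 := polar_ge (fun y => ENNReal.ofReal ‖f y‖) hm z r ‖f z‖ hr (by
    intro ρ _
    have hcont : Continuous fun θ : ℝ => ‖f (circleMap z ρ θ)‖ :=
      (hf.continuous.comp (continuous_circleMap z ρ)).norm
    have hc : IntegrableOn (fun θ : ℝ => ‖f (circleMap z ρ θ)‖)
        (Set.Ioo (-Real.pi) Real.pi) :=
      (hcont.integrableOn_Icc (a := -Real.pi) (b := Real.pi)).mono_set Set.Ioo_subset_Icc_self
    have h2 : ENNReal.ofReal (∫ θ in Set.Ioo (-Real.pi) Real.pi, ‖f (circleMap z ρ θ)‖) =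
        ∫⁻ θ in Set.Ioo (-Real.pi) Real.pi, ENNReal.ofReal ‖f (circleMap z ρ θ)‖ :=
      ofReal_integral_eq_lintegral_ofReal hc (Filter.Eventually.of_forall fun θ => norm_nonneg _)
    rw [← h2]
    apply ENNReal.ofReal_le_ofReal
    rw [← integral_Ioc_eq_integral_Ioo,
      ← intervalIntegral.integral_of_le (by linarith [Real.pi_pos])]
    exact Pol_mean hf z ρ)
  have h3 := h1.trans h
  rw [ENNReal.ofReal_le_ofReal_iff hA] at h3
  rw [le_div_iff₀ (by positivity)]
  linarith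

end Pool.Agent.EM
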