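import Pool.Agent.Lib.MP_848d44_nt_EM.Defs
import Pool.Agent.Lib.MP_848d44_nt_EM.Pol
import Pool.Agent.Lib.MP_848d44_nt_EM.Jen

/-!
# Project EM (MP_848d44_nt), module Fin: the final contradiction
-/

set_option autoImplicit false

namespace Pool.Agent.EM

open Finset Complex MeasureTheory
open scoped ArithmeticFunction ENNReal ContDiff ComplexConjugate

/-- On a circle in a zero free disc the circle average of `log |f|` is the value at the centre. -/
private theorem Fin_avg {f : ℂ → ℂ} (hf : Differentiable ℂ f) {c : ℂ} {ρ : ℝ} (hρ : 0 < ρ)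
    (hnz : ∀ z ∈ Metric.closedBall c ρ, f z ≠ 0) :
    Real.circleAverage (fun z => Real.log ‖f z‖) c ρ = Real.log ‖f c‖ := by
  refine AnalyticOnNhd.circleAverage_log_norm_of_ne_zero ?_ ?_
  · exact fun z _ => hf.analyticAt z
  · rwa [abs_of_pos hρ]

private theorem Fin_circ {f : ℂ → ℂ} (hf : Differentiable ℂ f) {c : ℂ} {ρ : ℝ} (hρ : 0 < ρ)
    (hnz : ∀ z ∈ Metric.closedBall c ρ, f z ≠ 0) :
    (∫⁻ θ in Set.Ioo (-Real.pi) Real.pi, ENNReal.ofReal (Real.log ‖f (circleMap c ρ θ)‖)) +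
      ENNReal.ofReal (-(2 * Real.pi * Real.log ‖f c‖)) =
    (∫⁻ θ in Set.Ioo (-Real.pi) Real.pi, ENNReal.ofReal (-Real.log ‖f (circleMap c ρ θ)‖)) +
      ENNReal.ofReal (2 * Real.pi * Real.log ‖f c‖) := by
  have h := circ_parts (f := f) (c := c) hρ (fun z _ => hf.analyticAt z)
  rwa [Fin_avg hf hρ hnz] at h

private theorem Fin_reflect : MeasurePreserving (fun z : ℂ => 1 - conj z) volume volume := by
  have h1 : MeasurePreserving (fun z : ℂ => conj z) volume volume :=
    (conjLIE : ℂ ≃ₗᵢ[ℝ] ℂ).measurePreserving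
  exact (Measure.measurePreserving_sub_left volume (1 : ℂ)).comp h1

/-- Text, section 10. -/
theorem final_contra {f : ℂ → ℂ} (hf : Differentiable ℂ f) (t₀ r A B G : ℝ) (hr : 0 < r)
    (hr' : r ≤ 1 / 4) (hnz : ∀ z ∈ Metric.closedBall (1 / 2 + (t₀ : ℂ) * I) r, f z ≠ 0)
    (hA0 : 0 ≤ A) (hB0 : 0 ≤ B) (hG0 : 0 ≤ G)
    (hA : ∫⁻ z in Metric.ball (1 / 2 + (t₀ : ℂ) * I) 1 ∩ {z : ℂ | 1 / 2 < z.re},
      ENNReal.ofReal |Real.log ‖f z‖| ≤ ENNReal.ofReal A)
    (hB : ∫⁻ z in Metric.ball (1 / 2 + (t₀ : ℂ) * I) (3 * r),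
      ENNReal.ofReal (-Real.log ‖f z‖) ≤ ENNReal.ofReal B)
    (hG : ∀ z ∈ Metric.ball (1 / 2 + (t₀ : ℂ) * I - 3 * (r : ℂ) / 16) (r / 16),
      Real.log ‖f (1 - conj z)‖ + G ≤ Real.log ‖f z‖) :
    Real.pi * (r / 16) ^ 2 * G ≤ 5 * A + B := by
  have hpi := Real.pi_pos
  set c : ℂ := 1 / 2 + (t₀ : ℂ) * I with hc
  set s₁ : ℂ := c + (r : ℂ) / 4 with hs₁
  set g : ℝ := Real.log ‖f s₁‖ with hg
  have hcre : c.re = 1 / 2 := by simp [hc]
  have hcim : c.im = t₀ := by simp [hc]
  have hs₁re : s₁.re = 1 / 2 + r / 4 := by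
    rw [hs₁, add_re, hcre]
    simp
  have hd1 : dist s₁ c = r / 4 := by
    rw [dist_eq_norm, hs₁, add_sub_cancel_left]
    rw [show (r : ℂ) / 4 = ((r / 4 : ℝ) : ℂ) by push_cast; ring, Complex.norm_real,
      Real.norm_of_nonneg (by positivity)]
  have hmp : Measurable fun z : ℂ => ENNReal.ofReal (Real.log ‖f z‖) :=
    (Real.measurable_log.comp hf.continuous.norm.measurable).ennreal_ofReal
  have hmm : Measurable fun z : ℂ => ENNReal.ofReal (-Real.log ‖f z‖) :=
    (Real.measurable_log.comp hf.continuous.norm.measurable).neg.ennreal_ofReal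
  -- zero free circles around `s₁`
  have hz : ∀ ρ ∈ Set.Ioo 0 (r / 2), ∀ z ∈ Metric.closedBall s₁ ρ, f z ≠ 0 := by
    intro ρ hρ z hzm
    refine hnz z ?_
    rw [Metric.mem_closedBall] at hzm ⊢
    have h1 := dist_triangle z s₁ c
    have h2 := hρ.2
    linarith
  -- (a)
  have ha : ENNReal.ofReal (Real.pi * (r / 4) ^ 2 * g) ≤ ENNReal.ofReal A := by
    refine (polar_ge _ hmp s₁ (r / 4) g (by positivity) ?_).trans ?_
    · intro ρ hρ
      have h := Fin_circ hf hρ.1 (hz ρ ⟨hρ.1, by linarith [hρ.2]⟩)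
      rw [← hg] at h
      rcases le_total 0 g with h0 | h0
      · rw [ENNReal.ofReal_of_nonpos (by
          have : 0 ≤ 2 * Real.pi * g := by positivity
          linarith : -(2 * Real.pi * g) ≤ 0), add_zero] at h
        rw [h]
        exact le_add_self
      · rw [ENNReal.ofReal_of_nonpos (mul_nonpos_of_nonneg_of_nonpos (by positivity) h0)]
        exact zero_le
    · refine le_trans ?_ hA
      refine (lintegral_mono fun z => ENNReal.ofReal_le_ofReal (le_abs_self _)).trans
        (lintegral_mono_set ?_)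
      intro z hzm
      rw [Metric.mem_ball] at hzm
      refine ⟨?_, ?_⟩
      · rw [Metric.mem_ball]
        have h1 := dist_triangle z s₁ c
        linarith
      · rw [Set.mem_ofPred_eq]
        have h1 : |(z - s₁).re| ≤ ‖z - s₁‖ := Complex.abs_re_le_norm _
        rw [← dist_eq_norm, sub_re, hs₁re] at h1
        have h2 := (abs_le.1 h1).1
        linarith
  have ha' : Real.pi * (r / 4) ^ 2 * g ≤ A := (ENNReal.ofReal_le_ofReal_iff hA0).1 ha
  -- (b)
  have hb : ∫⁻ z in Metric.ball s₁ (r / 2), ENNReal.ofReal (Real.log ‖f z‖) ≤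
      ENNReal.ofReal (4 * A + B) := by
    refine (polar_le _ _ hmp hmm s₁ (r / 2) g (by positivity) ?_).trans ?_
    · intro ρ hρ
      have h := Fin_circ hf hρ.1 (hz ρ hρ)
      rw [← hg] at h
      rw [add_comm (ENNReal.ofReal (2 * Real.pi * g)), ← h]
      exact le_self_add
    · rw [ENNReal.ofReal_add (by positivity) hB0]
      refine add_le_add (ENNReal.ofReal_le_ofReal ?_) (le_trans (lintegral_mono_set ?_) hB)
      · nlinarith [ha']
      · intro z hzm
        rw [Metric.mem_ball] at hzm ⊢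
        have h1 := dist_triangle z s₁ c
        linarith
  -- (c)
  set s₂ : ℂ := c - 3 * (r : ℂ) / 16 with hs₂
  have hd2 : dist s₂ s₁ = 7 * r / 16 := by
    rw [dist_eq_norm, hs₁, hs₂]
    rw [show c - 3 * (r : ℂ) / 16 - (c + (r : ℂ) / 4) = ((-(7 * r / 16) : ℝ) : ℂ) by
      push_cast; ring, Complex.norm_real, norm_neg, Real.norm_of_nonneg (by positivity)]
  have hvol : volume (Metric.ball s₂ (r / 16)) = ENNReal.ofReal (Real.pi * (r / 16) ^ 2) := by
    rw [Complex.volume_ball, mul_comm, ENNReal.ofReal_mul hpi.le, ENNReal.ofReal_pow (by positivity)]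
    congr 1
    rw [← NNReal.coe_real_pi, ENNReal.ofReal_coe_nnreal]
  have hc1 : ∫⁻ z in Metric.ball s₂ (r / 16), ENNReal.ofReal (Real.log ‖f z‖) ≤
      ENNReal.ofReal (4 * A + B) := by
    refine (lintegral_mono_set ?_).trans hb
    intro z hzm
    rw [Metric.mem_ball] at hzm ⊢
    have h1 := dist_triangle z s₂ s₁
    linarith
  have hpre : (fun z : ℂ => 1 - conj z) ⁻¹' (Metric.ball (1 - conj s₂) (r / 16)) =
      Metric.ball s₂ (r / 16) := by
    ext z
    rw [Set.mem_preimage, Metric.mem_ball, Metric.mem_ball, dist_eq_norm, dist_eq_norm]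
    have h : 1 - conj z - (1 - conj s₂) = -(conj (z - s₂)) := by
      rw [RingHom.map_sub (starRingEnd ℂ) z s₂]
      ring
    rw [h, norm_neg, Complex.norm_conj]
  have hc2 : ∫⁻ z in Metric.ball s₂ (r / 16), ENNReal.ofReal (-Real.log ‖f (1 - conj z)‖) ≤
      ENNReal.ofReal A := by
    have h1 := Fin_reflect.setLIntegral_comp_preimage
      (Metric.isOpen_ball (x := 1 - conj s₂) (ε := r / 16)).measurableSet hmm
    rw [hpre] at h1
    rw [h1]
    refine le_trans ?_ hA
    refine (lintegral_mono fun z => ENNReal.ofReal_le_ofReal (neg_le_abs _)).trans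
      (lintegral_mono_set ?_)
    have hs₂re : (1 - conj s₂).re = 1 / 2 + 3 * r / 16 := by
      have : s₂.re = 1 / 2 - 3 * r / 16 := by
        rw [hs₂, sub_re, hcre]
        rw [show (3 * (r : ℂ) / 16) = ((3 * r / 16 : ℝ) : ℂ) by push_cast; ring, ofReal_re]
      rw [sub_re, one_re, conj_re, this]
      ring
    have hd3 : dist (1 - conj s₂) c = 3 * r / 16 := by
      have : (1 - conj s₂) - c = ((3 * r / 16 : ℝ) : ℂ) := by
        apply Complex.ext
        · rw [sub_re, hs₂re, hcre, ofReal_re]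
          ring
        · have h2 : s₂.im = t₀ := by
            rw [hs₂, sub_im, hcim]
            rw [show (3 * (r : ℂ) / 16) = ((3 * r / 16 : ℝ) : ℂ) by push_cast; ring, ofReal_im,
              sub_zero]
          rw [sub_im, sub_im, one_im, conj_im, h2, hcim, ofReal_im]
          ring
      rw [dist_eq_norm, this, Complex.norm_real, Real.norm_of_nonneg (by positivity)]
    intro z hzm
    rw [Metric.mem_ball] at hzm
    refine ⟨?_, ?_⟩
    · rw [Metric.mem_ball]
      have h2 := dist_triangle z (1 - conj s₂) c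
      linarith
    · rw [Set.mem_ofPred_eq]
      have h2 : |(z - (1 - conj s₂)).re| ≤ ‖z - (1 - conj s₂)‖ := Complex.abs_re_le_norm _
      rw [← dist_eq_norm, sub_re, hs₂re] at h2
      have h3 := (abs_le.1 h2).1
      linarith
  have hc3 : ENNReal.ofReal (Real.pi * (r / 16) ^ 2 * G) ≤
      (∫⁻ z in Metric.ball s₂ (r / 16), ENNReal.ofReal (Real.log ‖f z‖)) +
      ∫⁻ z in Metric.ball s₂ (r / 16), ENNReal.ofReal (-Real.log ‖f (1 - conj z)‖) := by
    rw [← lintegral_add_left hmp, mul_comm, ENNReal.ofReal_mul hG0, ← hvol,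
      ← setLIntegral_const]
    refine setLIntegral_mono' Metric.isOpen_ball.measurableSet fun z hzm => ?_
    have h1 := hG z hzm
    calc ENNReal.ofReal G ≤ ENNReal.ofReal (Real.log ‖f z‖ + -Real.log ‖f (1 - conj z)‖) :=
          ENNReal.ofReal_le_ofReal (by linarith)
      _ ≤ _ := ENNReal.ofReal_add_le
  have hfin : ENNReal.ofReal (Real.pi * (r / 16) ^ 2 * G) ≤ ENNReal.ofReal (5 * A + B) := by
    refine (hc3.trans (add_le_add hc1 hc2)).trans ?_
    rw [← ENNReal.ofReal_add (by positivity) hA0]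
    exact ENNReal.ofReal_le_ofReal (by linarith)
  exact (ENNReal.ofReal_le_ofReal_iff (by positivity)).1 hfin

end Pool.Agent.EM
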