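import Pool.Agent.Lib.MP_848d44_nt_EM.Defs
import Pool.Agent.Lib.MP_848d44_nt_EM.Pol
import Pool.Agent.Lib.MP_848d44_nt_EM.Jen

/-!
# Project EM (MP_848d44_nt), module Gdc: a circle on which f is not small
-/

set_option autoImplicit false

namespace Pool.Agent.EM

open Finset Complex MeasureTheory
open scoped ArithmeticFunction ENNReal ContDiff ComplexConjugate

/-- the integral of a logarithmic singularity -/
private theorem Gdc_log (d ρ₀ : ℝ) (h0 : 0 < ρ₀) :
    ∫⁻ R : ℝ, ENNReal.ofReal (max (Real.log (ρ₀ / |R - d|)) 0) ≤ ENNReal.ofReal (2 * ρ₀) := by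
  have h1 : ∀ R : ℝ, ENNReal.ofReal (max (Real.log (ρ₀ / |R - d|)) 0) ≤
      (Set.Ioc (d - ρ₀) (d + ρ₀)).indicator
        (fun R => ENNReal.ofReal (Real.log ρ₀ - Real.log (R - d))) R +
      ({d - ρ₀} : Set ℝ).indicator (fun _ => ⊤) R := by
    intro R
    by_cases hR : |R - d| ≤ ρ₀
    · have h2 := abs_le.mp hR
      by_cases h3 : R = d - ρ₀
      · have h4 : ({d - ρ₀} : Set ℝ).indicator (fun _ => (⊤ : ℝ≥0∞)) R = ⊤ := by
          rw [Set.indicator_of_mem]
          exact h3
        rw [h4]
        simp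
      · have hm : R ∈ Set.Ioc (d - ρ₀) (d + ρ₀) := by
          refine ⟨lt_of_le_of_ne (by linarith) (Ne.symm h3), by linarith⟩
        rw [Set.indicator_of_mem hm]
        refine le_trans ?_ le_self_add
        by_cases h4 : R - d = 0
        · rw [h4, abs_zero, div_zero, Real.log_zero, max_self]
          simp
        · apply ENNReal.ofReal_le_ofReal
          have h5 : 0 < |R - d| := abs_pos.mpr h4
          have h6 : Real.log (ρ₀ / |R - d|) = Real.log ρ₀ - Real.log (R - d) := by
            rw [Real.log_div h0.ne' h5.ne', Real.log_abs]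
          rw [h6]
          apply max_le le_rfl
          rw [← h6]
          apply Real.log_nonneg
          rwa [one_le_div h5]
    · have h2 : Real.log (ρ₀ / |R - d|) ≤ 0 := by
        have h3 : 0 < |R - d| := by
          push Not at hR
          linarith
        apply Real.log_nonpos (by positivity)
        rw [div_le_one h3]
        exact (not_le.mp hR).le
      rw [max_eq_right h2]
      simp
  refine (lintegral_mono h1).trans ?_
  rw [lintegral_add_right _ (measurable_const.indicator (measurableSet_singleton _))]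
  have h2 : ∫⁻ R : ℝ, ({d - ρ₀} : Set ℝ).indicator (fun _ => (⊤ : ℝ≥0∞)) R = 0 := by
    rw [lintegral_indicator (measurableSet_singleton _)]
    simp
  rw [h2, add_zero, lintegral_indicator measurableSet_Ioc]
  have hint : IntervalIntegrable (fun R => Real.log ρ₀ - Real.log (R - d)) volume (d - ρ₀)
      (d + ρ₀) := by
    apply IntervalIntegrable.sub
    · exact intervalIntegrable_const
    · have h3 : IntervalIntegrable Real.log volume (d - ρ₀ - d) (d + ρ₀ - d) :=
        intervalIntegral.intervalIntegrable_log'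
      have h4 := h3.comp_sub_right d
      rw [sub_add_cancel, sub_add_cancel] at h4
      exact h4
  have hle : d - ρ₀ ≤ d + ρ₀ := by linarith
  have h3 : ∫ R in (d - ρ₀)..(d + ρ₀), (Real.log ρ₀ - Real.log (R - d)) = 2 * ρ₀ := by
    have e1 : ∫ R in (d - ρ₀)..(d + ρ₀), (Real.log ρ₀ - Real.log (R - d)) =
        ∫ R in (-ρ₀)..ρ₀, (Real.log ρ₀ - Real.log R) := by
      rw [intervalIntegral.integral_comp_sub_right (fun x => Real.log ρ₀ - Real.log x) d]
      congr 1 <;> ring
    rw [e1, intervalIntegral.integral_sub intervalIntegrable_const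
      intervalIntegral.intervalIntegrable_log', intervalIntegral.integral_const, integral_log,
      Real.log_neg_eq_log, smul_eq_mul]
    ring
  have hnn : ∀ᵐ R ∂(volume.restrict (Set.Ioc (d - ρ₀) (d + ρ₀))),
      0 ≤ Real.log ρ₀ - Real.log (R - d) := by
    filter_upwards [ae_restrict_mem measurableSet_Ioc, (Measure.ae_ne
      (volume.restrict (Set.Ioc (d - ρ₀) (d + ρ₀))) d)] with R hR hRd
    have h4 : R - d ≠ 0 := sub_ne_zero.mpr hRd
    have h5 : 0 < |R - d| := abs_pos.mpr h4
    have h6 : |R - d| ≤ ρ₀ := abs_le.mpr ⟨by linarith [hR.1], by linarith [hR.2]⟩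
    rw [← Real.log_abs (R - d)]
    have := Real.log_le_log h5 h6
    linarith
  rw [← ofReal_integral_eq_lintegral_ofReal (hint.1) hnn, ← intervalIntegral.integral_of_le hle,
    h3]

open MeromorphicOn in
/-- Text, section 8. -/
theorem good_circle {f : ℂ → ℂ} (hf : Differentiable ℂ f) (hne : ∃ z, f z ≠ 0) (c : ℂ)
    (r ρ₀ n A : ℝ) (hr : 0 < r) (h0 : 0 < ρ₀) (hρ : ρ₀ ≤ r)
    (hn : ∑ᶠ u, (divisor f (Metric.closedBall c (3 * r)) u : ℝ) ≤ n) (hA0 : 0 ≤ A)
    (hA : ∫⁻ z in Metric.ball c (3 * r), ENNReal.ofReal (-Real.log ‖f z‖) ≤ ENNReal.ofReal A) :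
    ∃ R : ℝ, r ≤ R ∧ R ≤ 2 * r ∧ ∀ z ∈ Metric.sphere c R, f z ≠ 0 ∧
      -Real.log ‖f z‖ ≤ A / (Real.pi * ρ₀ ^ 2) + 2 * ρ₀ * n / r := by
  classical
  have hfa : AnalyticOnNhd ℂ f Set.univ := fun z _ => hf.analyticAt z
  have hfU : ∀ U : Set ℂ, AnalyticOnNhd ℂ f U := fun U => hfa.mono (Set.subset_univ _)
  set U : Set ℂ := Metric.closedBall c (3 * r) with hU
  set D := divisor f U with hD
  have hDfin : D.support.Finite := D.finiteSupport (isCompact_closedBall c (3 * r))
  set S : Finset ℂ := hDfin.toFinset with hS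
  have hD0 : ∀ u, (0 : ℝ) ≤ (D u : ℝ) := by
    intro u
    have := AnalyticOnNhd.divisor_nonneg (hfU U) u
    exact_mod_cast this
  have hsum : ∑ u ∈ S, (D u : ℝ) ≤ n := by
    rw [finsum_eq_sum_of_support_subset (s := S)] at hn
    · exact hn
    · intro u hu
      rw [Function.mem_support] at hu
      rw [hS, Set.Finite.coe_toFinset, Function.mem_support]
      intro h
      apply hu
      rw [h, Int.cast_zero]
  -- the order is finite everywhere
  have hord : ∀ z, f z = 0 → z ∈ U → D z ≠ 0 := by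
    intro z hz hzU hDz
    have h1 : analyticOrderAt f z ≠ 0 := by
      intro h
      exact ((hf.analyticAt z).analyticOrderAt_eq_zero.mp h) hz
    have h2 : analyticOrderAt f z ≠ ⊤ := by
      intro h
      rw [analyticOrderAt_eq_top] at h
      obtain ⟨w, hw⟩ := hne
      have h3 := hfa.eqOn_zero_of_preconnected_of_eventuallyEq_zero isPreconnected_univ
        (Set.mem_univ z) h
      exact hw (h3 (Set.mem_univ w))
    rw [hD, AnalyticOnNhd.divisor_apply (hfU U) hzU] at hDz
    obtain ⟨m, hm⟩ := ENat.ne_top_iff_exists.mp h2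
    rw [← hm] at hDz h1
    have h4 : m ≠ 0 := by
      rintro rfl
      exact h1 rfl
    apply h4
    have h5 : ((m : ℕ∞).map (fun n : ℕ => (n : ℤ))).untop₀ = (m : ℤ) := by
      simp
    rw [h5] at hDz
    exact_mod_cast hDz
  set g : ℂ → ℝ → ℝ := fun u R => max (Real.log (ρ₀ / |R - ‖u - c‖|)) 0 with hg
  -- the pointwise bound
  have hpt : ∀ z : ℂ, ‖z - c‖ ≤ 2 * r → f z ≠ 0 → -Real.log ‖f z‖ ≤
      A / (Real.pi * ρ₀ ^ 2) + ∑ u ∈ S, (D u : ℝ) * max (Real.log (ρ₀ / ‖z - u‖)) 0 := by
    intro z hz hfz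
    set Sg : ℝ := ∑ u ∈ S, (D u : ℝ) * max (Real.log (ρ₀ / ‖z - u‖)) 0 with hSg
    set Q : ℝ := -Real.log ‖f z‖ - Sg with hQ
    have hcirc : ∀ ρ ∈ Set.Ioo 0 ρ₀, ENNReal.ofReal (2 * Real.pi * Q) ≤
        ∫⁻ θ in Set.Ioo (-Real.pi) Real.pi,
          ENNReal.ofReal (-Real.log ‖f (circleMap z ρ θ)‖) := by
      rintro ρ ⟨hρ0, hρ1⟩
      have hJ := AnalyticOnNhd.circleAverage_log_norm (c := z) (R := ρ) hρ0.ne'
        (hfU _) hfz
      have hball : Metric.closedBall z |ρ| ⊆ U := by
        intro y hy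
        rw [Metric.mem_closedBall, abs_of_pos hρ0, dist_eq_norm] at hy
        rw [hU, Metric.mem_closedBall, dist_eq_norm]
        calc ‖y - c‖ = ‖(y - z) + (z - c)‖ := by ring_nf
          _ ≤ ‖y - z‖ + ‖z - c‖ := norm_add_le _ _
          _ ≤ 3 * r := by linarith
      have hle : ∑ᶠ u, divisor f (Metric.closedBall z |ρ|) u * Real.log (ρ * ‖z - u‖⁻¹) ≤ Sg := by
        have hdiv : ∀ u, divisor f (Metric.closedBall z |ρ|) u =
            if u ∈ Metric.closedBall z |ρ| then D u else 0 := by
          intro u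
          by_cases hu : u ∈ Metric.closedBall z |ρ|
          · rw [if_pos hu, hD, AnalyticOnNhd.divisor_apply (hfU _) hu,
              AnalyticOnNhd.divisor_apply (hfU _) (hball hu)]
          · rw [if_neg hu]
            exact Function.locallyFinsuppWithin.apply_eq_zero_of_notMem _ hu
        rw [finsum_eq_sum_of_support_subset (s := S)]
        · rw [hSg]
          refine Finset.sum_le_sum (fun u _ => ?_)
          rw [hdiv u]
          by_cases hu : u ∈ Metric.closedBall z |ρ|
          · rw [if_pos hu]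
            refine mul_le_mul_of_nonneg_left ?_ (hD0 u)
            by_cases hzu : ‖z - u‖ = 0
            · rw [hzu, inv_zero, mul_zero, Real.log_zero]
              exact le_max_right _ _
            · have hpos : 0 < ‖z - u‖ := lt_of_le_of_ne (norm_nonneg _) (Ne.symm hzu)
              refine le_trans ?_ (le_max_left _ _)
              apply Real.log_le_log (by positivity)
              rw [← div_eq_mul_inv]
              gcongr
          · rw [if_neg hu, Int.cast_zero, zero_mul]
            exact mul_nonneg (hD0 u) (le_max_right _ _)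
        · intro u hu
          rw [Function.mem_support] at hu
          rw [hS, Set.Finite.coe_toFinset, Function.mem_support]
          intro h
          apply hu
          rw [hdiv u, h]
          simp
      have hav : Real.circleAverage (fun z => Real.log ‖f z‖) z ρ ≤ Real.log ‖f z‖ + Sg := by
        have h1 : Real.circleAverage (fun z => Real.log ‖f z‖) z ρ =
          ∑ᶠ u, divisor f (Metric.closedBall z |ρ|) u * Real.log (ρ * ‖z - u‖⁻¹) +
            Real.log ‖f z‖ := hJ
        rw [h1]
        linarith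
      have hparts := circ_parts hρ0 (hfU (Metric.closedBall z ρ))
      set av := Real.circleAverage (fun z => Real.log ‖f z‖) z ρ with hav'
      have hQav : 2 * Real.pi * Q ≤ -(2 * Real.pi * av) := by
        have hpi := Real.pi_pos
        rw [hQ]
        nlinarith
      by_cases hsg : 0 ≤ av
      · have h2 : 2 * Real.pi * Q ≤ 0 := by
          refine hQav.trans ?_
          have hpi := Real.pi_pos
          nlinarith [mul_nonneg hpi.le hsg]
        rw [ENNReal.ofReal_of_nonpos h2]
        exact bot_le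
      · push Not at hsg
        have h3 : ENNReal.ofReal (2 * Real.pi * av) = 0 := by
          apply ENNReal.ofReal_of_nonpos
          have hpi := Real.pi_pos
          nlinarith
        rw [h3, add_zero] at hparts
        rw [← hparts]
        refine le_trans (ENNReal.ofReal_le_ofReal hQav) ?_
        exact le_add_self
    have hmeas : Measurable (fun z => ENNReal.ofReal (-Real.log ‖f z‖)) := by
      have hc : Measurable f := hf.continuous.measurable
      exact ((Real.measurable_log.comp hc.norm).neg).ennreal_ofReal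
    have hpolar := polar_ge _ hmeas z ρ₀ Q h0 hcirc
    have hsub : Metric.ball z ρ₀ ⊆ Metric.ball c (3 * r) := by
      intro y hy
      rw [Metric.mem_ball, dist_eq_norm] at hy ⊢
      calc ‖y - c‖ = ‖(y - z) + (z - c)‖ := by ring_nf
        _ ≤ ‖y - z‖ + ‖z - c‖ := norm_add_le _ _
        _ < 3 * r := by linarith
    have h4 : ENNReal.ofReal (Real.pi * ρ₀ ^ 2 * Q) ≤ ENNReal.ofReal A :=
      hpolar.trans ((lintegral_mono_set hsub).trans hA)
    have h5 : Real.pi * ρ₀ ^ 2 * Q ≤ A := (ENNReal.ofReal_le_ofReal_iff hA0).mp h4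
    have h6 : 0 < Real.pi * ρ₀ ^ 2 := by positivity
    have h7 : Q ≤ A / (Real.pi * ρ₀ ^ 2) := by
      rw [le_div_iff₀ h6]
      linarith
    linarith
  -- choice of the radius
  set μ : Measure ℝ := volume.restrict (Set.Icc r (2 * r)) with hμ
  have hvol : μ Set.univ = ENNReal.ofReal r := by
    rw [hμ, Measure.restrict_apply_univ, Real.volume_Icc]
    congr 1
    ring
  have hμ0 : μ ≠ 0 := by
    intro h
    rw [h] at hvol
    simp only [Measure.coe_zero, Pi.zero_apply] at hvol
    have := ENNReal.ofReal_eq_zero.mp hvol.symm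
    linarith
  set G : ℝ → ℝ≥0∞ := fun R => ∑ u ∈ S, ENNReal.ofReal (D u) * ENNReal.ofReal (g u R) with hG
  have hgm : ∀ u, Measurable (g u) := by
    intro u
    rw [hg]
    exact (Real.measurable_log.comp (measurable_const.div
      (measurable_id.sub_const _).norm)).max measurable_const
  have hGm : Measurable G := by
    rw [hG]
    exact Finset.measurable_fun_sum _ (fun u _ => ((hgm u).ennreal_ofReal).const_mul _)
  have hGint : ∫⁻ R, G R ∂μ ≤ ENNReal.ofReal (2 * ρ₀ * n) := by
    calc ∫⁻ R, G R ∂μ ≤ ∫⁻ R, G R := lintegral_mono' Measure.restrict_le_self le_rfl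
      _ = ∑ u ∈ S, ENNReal.ofReal (D u) * ∫⁻ R, ENNReal.ofReal (g u R) := by
          rw [hG, lintegral_finsetSum _ (fun u _ => ((hgm u).ennreal_ofReal).const_mul _)]
          refine Finset.sum_congr rfl (fun u _ => ?_)
          rw [lintegral_const_mul _ (hgm u).ennreal_ofReal]
      _ ≤ ∑ u ∈ S, ENNReal.ofReal (D u) * ENNReal.ofReal (2 * ρ₀) := by
          gcongr with u hu
          exact Gdc_log ‖u - c‖ ρ₀ h0
      _ = ENNReal.ofReal ((∑ u ∈ S, (D u : ℝ)) * (2 * ρ₀)) := by
          rw [← Finset.sum_mul, ENNReal.ofReal_mul (Finset.sum_nonneg (fun u _ => hD0 u)),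
            ENNReal.ofReal_sum_of_nonneg (fun u _ => hD0 u)]
      _ ≤ ENNReal.ofReal (2 * ρ₀ * n) := by
          apply ENNReal.ofReal_le_ofReal
          nlinarith
  set N : Set ℝ := ((fun u => ‖u - c‖) '' (S : Set ℂ)) ∪ (Set.Icc r (2 * r))ᶜ with hN
  have hN0 : μ N = 0 := by
    rw [hN]
    apply measure_union_null
    · exact (S.finite_toSet.image _).measure_zero _
    · rw [hμ, Measure.restrict_apply measurableSet_Icc.compl, Set.compl_inter_self,
        measure_empty]
  obtain ⟨R, hRN, hR⟩ := exists_notMem_null_le_laverage hμ0 hGm.aemeasurable hN0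
  have hRI : R ∈ Set.Icc r (2 * r) := by
    by_contra h
    exact hRN (Or.inr h)
  have hRS : ∀ u ∈ S, R ≠ ‖u - c‖ := by
    intro u hu h
    exact hRN (Or.inl ⟨u, hu, h.symm⟩)
  have hn0 : 0 ≤ n := (Finset.sum_nonneg (fun u _ => hD0 u)).trans hsum
  have hGR : ∑ u ∈ S, (D u : ℝ) * g u R ≤ 2 * ρ₀ * n / r := by
    have h1 : G R = ENNReal.ofReal (∑ u ∈ S, (D u : ℝ) * g u R) := by
      rw [hG, ENNReal.ofReal_sum_of_nonneg (fun u _ => mul_nonneg (hD0 u) (le_max_right _ _))]
      refine Finset.sum_congr rfl (fun u _ => ?_)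
      rw [ENNReal.ofReal_mul (hD0 u)]
    rw [h1, laverage_eq, hvol] at hR
    have h2 : (∫⁻ x, G x ∂μ) / ENNReal.ofReal r ≤ ENNReal.ofReal (2 * ρ₀ * n / r) := by
      rw [ENNReal.ofReal_div_of_pos hr]
      exact ENNReal.div_le_div_right hGint _
    exact (ENNReal.ofReal_le_ofReal_iff (by positivity)).mp (hR.trans h2)
  refine ⟨R, hRI.1, hRI.2, fun z hz => ?_⟩
  rw [Metric.mem_sphere, dist_eq_norm] at hz
  have hfz : f z ≠ 0 := by
    intro h
    have hzU : z ∈ U := by
      rw [hU, Metric.mem_closedBall, dist_eq_norm, hz]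
      linarith [hRI.2]
    have hzS : z ∈ S := by
      rw [hS, Set.Finite.mem_toFinset, Function.mem_support]
      exact hord z h hzU
    exact hRS z hzS hz.symm
  refine ⟨hfz, (hpt z (by rw [hz]; exact hRI.2) hfz).trans ?_⟩
  have h3 : ∑ u ∈ S, (D u : ℝ) * max (Real.log (ρ₀ / ‖z - u‖)) 0 ≤
      ∑ u ∈ S, (D u : ℝ) * g u R := by
    refine Finset.sum_le_sum (fun u hu => mul_le_mul_of_nonneg_left ?_ (hD0 u))
    have h4 : 0 < |R - ‖u - c‖| := abs_pos.mpr (sub_ne_zero.mpr (hRS u hu))
    have h5 : |R - ‖u - c‖| ≤ ‖z - u‖ := by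
      rw [← hz]
      have := abs_norm_sub_norm_le (z - c) (u - c)
      rwa [sub_sub_sub_cancel_right] at this
    refine max_le_max (Real.log_le_log (div_pos h0 (h4.trans_le h5)) ?_) le_rfl
    gcongr
  linarith

end Pool.Agent.EM
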