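import Pool.Agent.Lib.MP_848d44_nt_EM.Defs

/-!
# Project EM (MP_848d44_nt), module Gmv: Gaussian mean value of a Dirichlet polynomial
-/

set_option autoImplicit false

namespace Pool.Agent.EM

open Finset Complex MeasureTheory
open scoped ArithmeticFunction ENNReal ContDiff ComplexConjugate

private theorem Gmv_cpow {n : ℕ} (hn : 0 < n) (t : ℝ) :
    (n : ℂ) ^ (-((t : ℂ) * I)) = cexp (-((t : ℂ) * I) * (Real.log n : ℝ)) := by
  have h : (n : ℂ) ≠ 0 := by exact_mod_cast hn.ne'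
  rw [cpow_def_of_ne_zero h, mul_comm, natCast_log]

private theorem Gmv_expand (T : ℝ) (S : Finset ℕ) (hS : ∀ n ∈ S, 0 < n) (b : ℕ → ℝ)
    (t : ℝ) : ((‖∑ n ∈ S, (b n : ℂ) * (n : ℂ) ^ (-((t : ℂ) * I))‖ ^ 2 *
      Real.exp (-(t / (3 * T)) ^ 2) : ℝ) : ℂ) =
    ∑ m ∈ S, ∑ n ∈ S, ((b m : ℂ) * b n) *
      cexp ((-(1 / (3 * (T : ℂ)) ^ 2)) * (t : ℂ) ^ 2 +
        (-(I * ((Real.log m - Real.log n : ℝ) : ℂ))) * t + 0) := by
  have h1 : ((‖∑ n ∈ S, (b n : ℂ) * (n : ℂ) ^ (-((t : ℂ) * I))‖ ^ 2 : ℝ) : ℂ) =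
      (∑ n ∈ S, (b n : ℂ) * (n : ℂ) ^ (-((t : ℂ) * I))) *
        conj (∑ n ∈ S, (b n : ℂ) * (n : ℂ) ^ (-((t : ℂ) * I))) := by
    rw [mul_conj, normSq_eq_norm_sq]
  rw [ofReal_mul, h1, map_sum, sum_mul_sum, sum_mul]
  refine sum_congr rfl fun m hm => ?_
  rw [sum_mul]
  refine sum_congr rfl fun n hn => ?_
  rw [Gmv_cpow (hS m hm), Gmv_cpow (hS n hn), map_mul, conj_ofReal, ← exp_conj, map_mul, map_neg,
    map_mul, conj_ofReal, conj_I, conj_ofReal, ofReal_exp]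
  have e : ∀ x y z u v : ℂ, x * cexp y * (z * cexp u) * cexp v = x * z * cexp (y + u + v) := by
    intro x y z u v
    rw [Complex.exp_add, Complex.exp_add]
    ring
  rw [e]
  congr 2
  push_cast
  ring

private theorem Gmv_re {T : ℝ} (hT : 0 < T) : (-(1 / (3 * (T : ℂ)) ^ 2)).re < 0 := by
  have h : (-(1 / (3 * (T : ℂ)) ^ 2)) = ((-(1 / (3 * T) ^ 2) : ℝ) : ℂ) := by push_cast; ring
  rw [h, ofReal_re]
  have : 0 < 1 / (3 * T) ^ 2 := by positivity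
  linarith

private theorem Gmv_int {T : ℝ} (hT : 0 < T) (S : Finset ℕ) (b : ℕ → ℝ) :
    Integrable (fun t : ℝ => ∑ m ∈ S, ∑ n ∈ S, ((b m : ℂ) * b n) *
      cexp ((-(1 / (3 * (T : ℂ)) ^ 2)) * (t : ℂ) ^ 2 +
        (-(I * ((Real.log m - Real.log n : ℝ) : ℂ))) * t + 0)) := by
  refine integrable_finsetSum _ fun m _ => integrable_finsetSum _ fun n _ => ?_
  exact (integrable_cexp_quadratic' (Gmv_re hT) _ _).const_mul _

theorem gmv_integrable (T : ℝ) (hT : 0 < T) (S : Finset ℕ) (hS : ∀ n ∈ S, 0 < n) (b : ℕ → ℝ) :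
    Integrable (fun t : ℝ => ‖∑ n ∈ S, (b n : ℂ) * (n : ℂ) ^ (-((t : ℂ) * I))‖ ^ 2 *
      Real.exp (-(t / (3 * T)) ^ 2)) := by
  have h := (Gmv_int hT S b).re
  refine h.congr (Filter.Eventually.of_forall fun t => ?_)
  have h1 := Gmv_expand T S hS b t
  simp only
  rw [← h1]
  exact ofReal_re _

/-- Text, section 3: the Gaussian mean value. -/
theorem gmv (T : ℝ) (hT : 0 < T) (S : Finset ℕ) (hS : ∀ n ∈ S, 0 < n) (b : ℕ → ℝ) :
    ∫ t : ℝ, ‖∑ n ∈ S, (b n : ℂ) * (n : ℂ) ^ (-((t : ℂ) * I))‖ ^ 2 *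
      Real.exp (-(t / (3 * T)) ^ 2) =
    3 * T * √Real.pi * ∑ m ∈ S, ∑ n ∈ S, b m * b n *
      Real.exp (-(9 / 4) * T ^ 2 * (Real.log ((m : ℝ) / n)) ^ 2) := by
  apply ofReal_injective
  rw [← integral_complex_ofReal]
  have h0 : ∀ t : ℝ, ((‖∑ n ∈ S, (b n : ℂ) * (n : ℂ) ^ (-((t : ℂ) * I))‖ ^ 2 *
      Real.exp (-(t / (3 * T)) ^ 2) : ℝ) : ℂ) = _ := fun t => Gmv_expand T S hS b t
  rw [integral_congr_ae (Filter.Eventually.of_forall h0)]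
  rw [integral_finsetSum _ fun m _ => integrable_finsetSum _ fun n _ =>
    (integrable_cexp_quadratic' (Gmv_re hT) _ _).const_mul _]
  rw [ofReal_mul, ofReal_sum, mul_sum]
  refine sum_congr rfl fun m hm => ?_
  rw [integral_finsetSum _ fun n _ =>
    (integrable_cexp_quadratic' (Gmv_re hT) _ _).const_mul _]
  rw [ofReal_sum, mul_sum]
  refine sum_congr rfl fun n hn => ?_
  rw [integral_const_mul, integral_cexp_quadratic (Gmv_re hT)]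
  have hm0 : (m : ℝ) ≠ 0 := by exact_mod_cast (hS m hm).ne'
  have hn0 : (n : ℝ) ≠ 0 := by exact_mod_cast (hS n hn).ne'
  have hT0 : (T : ℂ) ≠ 0 := by exact_mod_cast hT.ne'
  rw [Real.log_div hm0 hn0]
  set u : ℝ := Real.log m - Real.log n with hu
  have e1 : ((Real.pi : ℂ) / -(-(1 / (3 * (T : ℂ)) ^ 2))) ^ (1 / 2 : ℂ) =
      ((3 * T * √Real.pi : ℝ) : ℂ) := by
    have e2 : ((Real.pi : ℂ) / -(-(1 / (3 * (T : ℂ)) ^ 2))) =
        (((3 * T * √Real.pi) ^ 2 : ℝ) : ℂ) := by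
      have e5 : (3 * T * √Real.pi) ^ 2 = (3 * T) ^ 2 * Real.pi := by
        rw [mul_pow, Real.sq_sqrt Real.pi_pos.le]
      rw [e5]
      push_cast
      field_simp
    have e3 : (1 / 2 : ℂ) = ((1 / 2 : ℝ) : ℂ) := by push_cast; ring
    rw [e2, e3, ← ofReal_cpow (by positivity), ← Real.sqrt_eq_rpow, Real.sqrt_sq (by positivity)]
  have e4 : (0 : ℂ) - (-(I * (u : ℂ))) ^ 2 / (4 * -(1 / (3 * (T : ℂ)) ^ 2)) =
      ((-(9 / 4) * T ^ 2 * u ^ 2 : ℝ) : ℂ) := by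
    have : (-(I * (u : ℂ))) ^ 2 = - (u : ℂ) ^ 2 := by
      rw [neg_sq, mul_pow, I_sq]
      ring
    rw [this]
    push_cast
    field_simp
    ring
  rw [e1, e4, ← ofReal_exp]
  push_cast
  ring

end Pool.Agent.EM
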