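import Pool.Agent.Lib.MP_848d44_nt_EM.Defs

/-!
# Project EM (MP_848d44_nt), module Gro: no zeros in the disc
-/

set_option autoImplicit false

namespace Pool.Agent.EM

open Finset Complex MeasureTheory
open scoped ArithmeticFunction ENNReal ContDiff ComplexConjugate

/-- Text, section 9. -/
theorem zero_free {f Q : ℂ → ℂ} (hf : Differentiable ℂ f) (hQ : Differentiable ℂ Q) (c : ℂ)
    (R δ : ℝ) (hR : 0 < R) (hδ : 0 ≤ δ) (hRδ : 2 * Real.pi * R * δ ≤ 1 / 4)
    (hne : ∀ z ∈ Metric.sphere c R, f z ≠ 0)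
    (hD : ∀ z ∈ Metric.sphere c R, ‖deriv f z + deriv Q z * f z‖ ≤ δ * ‖f z‖) :
    ∀ z ∈ Metric.closedBall c R, f z ≠ 0 := by
  set h : ℂ → ℂ := fun z => f z * Complex.exp (Q z) with hh
  have hder : ∀ z, HasDerivAt h ((deriv f z + deriv Q z * f z) * Complex.exp (Q z)) z := by
    intro z
    have h1 := (hf z).hasDerivAt.mul ((hQ z).hasDerivAt.cexp)
    have h2 : (deriv f z + deriv Q z * f z) * Complex.exp (Q z) =
        deriv f z * Complex.exp (Q z) + f z * (Complex.exp (Q z) * deriv Q z) := by ring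
    rw [h2]
    exact h1
  have hdiff : Differentiable ℂ h := fun z => (hder z).differentiableAt
  set g : ℝ → ℂ := fun θ => h (circleMap c R θ) with hg
  have hsph : ∀ θ : ℝ, circleMap c R θ ∈ Metric.sphere c R := fun θ => circleMap_mem_sphere c hR.le θ
  set g' : ℝ → ℂ := fun θ => ((deriv f (circleMap c R θ) + deriv Q (circleMap c R θ) *
    f (circleMap c R θ)) * Complex.exp (Q (circleMap c R θ))) * (circleMap 0 R θ * I) with hg'
  have hgd : ∀ θ, HasDerivAt g (g' θ) θ := by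
    intro θ
    exact (hder (circleMap c R θ)).comp_of_eq θ (hasDerivAt_circleMap c R θ) rfl
  have hgn : ∀ θ, ‖g' θ‖ ≤ R * δ * ‖g θ‖ := by
    intro θ
    have h1 := hD _ (hsph θ)
    have h2 : ‖circleMap 0 R θ * I‖ = R := by
      rw [norm_mul, norm_I, mul_one, norm_circleMap_zero, abs_of_pos hR]
    rw [hg', hg]
    simp only [hh]
    rw [norm_mul, norm_mul, h2, norm_mul]
    have h3 : 0 ≤ ‖Complex.exp (Q (circleMap c R θ))‖ := norm_nonneg _
    have h4 := mul_le_mul_of_nonneg_right h1 h3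
    nlinarith [mul_le_mul_of_nonneg_right h4 hR.le]
  have hg0 : g 0 ≠ 0 := by
    simp only [hg, hh]
    exact mul_ne_zero (hne _ (hsph 0)) (Complex.exp_ne_zero _)
  have hg0p : 0 < ‖g 0‖ := norm_pos_iff.mpr hg0
  have hKn : 0 ≤ R * δ := mul_nonneg hR.le hδ
  have hgron : ∀ θ ∈ Set.Icc (0 : ℝ) (2 * Real.pi),
      ‖g θ - g 0‖ ≤ gronwallBound 0 (R * δ) (R * δ * ‖g 0‖) (θ - 0) := by
    refine norm_le_gronwallBound_of_norm_deriv_right_le (f := fun θ => g θ - g 0) (f' := g')
      ?_ ?_ ?_ ?_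
    · intro θ _
      exact ((hgd θ).continuousAt.sub continuousAt_const).continuousWithinAt
    · intro θ _
      exact ((hgd θ).sub_const (g 0)).hasDerivWithinAt
    · simp
    · intro θ _
      refine (hgn θ).trans ?_
      have h1 : ‖g θ‖ ≤ ‖g θ - g 0‖ + ‖g 0‖ := by
        have := norm_add_le (g θ - g 0) (g 0)
        rwa [sub_add_cancel] at this
      calc R * δ * ‖g θ‖ ≤ R * δ * (‖g θ - g 0‖ + ‖g 0‖) := mul_le_mul_of_nonneg_left h1 hKn
        _ = R * δ * ‖g θ - g 0‖ + R * δ * ‖g 0‖ := by ring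
  have hbd : ∀ θ ∈ Set.Icc (0 : ℝ) (2 * Real.pi), ‖g θ - g 0‖ ≤ ‖g 0‖ / 2 := by
    intro θ hθ
    refine (hgron θ hθ).trans ?_
    by_cases hK : R * δ = 0
    · rw [gronwallBound, if_pos hK, hK]
      simp only [zero_mul, add_zero]
      positivity
    · rw [gronwallBound, if_neg hK]
      rw [zero_mul, zero_add, mul_div_cancel_left₀ _ hK, sub_zero]
      have h1 : R * δ * θ ≤ 1 / 4 := by
        calc R * δ * θ ≤ R * δ * (2 * Real.pi) := mul_le_mul_of_nonneg_left hθ.2 hKn
          _ = 2 * Real.pi * R * δ := by ring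
          _ ≤ 1 / 4 := hRδ
      have h2 : Real.exp (R * δ * θ) ≤ Real.exp (1 / 4) := Real.exp_le_exp.mpr h1
      have h3 : Real.exp (1 / 4) ≤ 3 / 2 := by
        have h4 := Real.exp_bound_div_one_sub_of_interval (x := 1 / 4) (by norm_num) (by norm_num)
        refine h4.trans ?_
        norm_num
      have h5 : Real.exp (R * δ * θ) - 1 ≤ 1 / 2 := by linarith
      calc ‖g 0‖ * (Real.exp (R * δ * θ) - 1) ≤ ‖g 0‖ * (1 / 2) :=
            mul_le_mul_of_nonneg_left h5 hg0p.le
        _ = ‖g 0‖ / 2 := by ring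
  have hmax : ∀ z ∈ Metric.closedBall c R, ‖h z - g 0‖ ≤ ‖g 0‖ / 2 := by
    intro z hz
    refine Complex.norm_le_of_forall_mem_frontier_norm_le (f := fun z => h z - g 0)
      (U := Metric.ball c R) Metric.isBounded_ball ?_ ?_ ?_
    · exact (hdiff.sub_const (g 0)).diffContOnCl
    · intro w hw
      rw [frontier_ball c hR.ne'] at hw
      have h1 : w ∈ circleMap c R '' Set.Ioc 0 (2 * Real.pi) := by
        rw [image_circleMap_Ioc, abs_of_pos hR]
        exact hw
      obtain ⟨θ, hθ, rfl⟩ := h1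
      exact hbd θ ⟨hθ.1.le, hθ.2⟩
    · rw [closure_ball c hR.ne']
      exact hz
  intro z hz hfz
  have h1 := hmax z hz
  have h2 : h z = 0 := by simp only [hh]; rw [hfz, zero_mul]
  rw [h2, zero_sub, norm_neg] at h1
  linarith

/-- The Dirichlet polynomial `P_X` has an entire primitive. -/
theorem PX_primitive {q : ℕ} (χ : DirichletCharacter ℂ q) (X : ℝ) :
    ∃ Q : ℂ → ℂ, Differentiable ℂ Q ∧ ∀ s, deriv Q s = PX χ X s := by
  have key : ∀ s : ℂ, HasDerivAt (fun s : ℂ => ∑ n ∈ Icc 1 ⌊X⌋₊,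
      χ (n : ZMod q) * ((ArithmeticFunction.vonMangoldt n : ℝ) : ℂ) *
        (-((n : ℂ) ^ (-s)) / Complex.log n)) (PX χ X s) s := by
    intro s
    unfold PX
    refine HasDerivAt.fun_sum (fun n hn => ?_)
    rw [Finset.mem_Icc] at hn
    rcases Nat.eq_or_lt_of_le hn.1 with h1 | h1
    · subst h1
      simp only [ArithmeticFunction.vonMangoldt_apply_one, Complex.ofReal_zero, mul_zero, zero_mul]
      exact hasDerivAt_const _ _
    · have hn0 : (n : ℂ) ≠ 0 := Nat.cast_ne_zero.mpr (by omega)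
      have hlog : Complex.log (n : ℂ) ≠ 0 := by
        rw [Complex.natCast_log.symm]
        have : Real.log (n : ℝ) ≠ 0 := (Real.log_pos (by exact_mod_cast h1)).ne'
        exact_mod_cast this
      have h2 : HasDerivAt (fun s : ℂ => (n : ℂ) ^ (-s)) ((n : ℂ) ^ (-s) * Complex.log n * (-1)) s :=
        (hasDerivAt_neg s).const_cpow (Or.inl hn0)
      have h3 := ((h2.neg).div_const (Complex.log n)).const_mul
        (χ (n : ZMod q) * ((ArithmeticFunction.vonMangoldt n : ℝ) : ℂ))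
      have h4 : -((n : ℂ) ^ (-s) * Complex.log n * (-1)) / Complex.log n = (n : ℂ) ^ (-s) := by
        field_simp
      rw [h4] at h3
      exact h3
  exact ⟨_, fun s => (key s).differentiableAt, fun s => (key s).deriv⟩

end Pool.Agent.EM
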