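import Pool.Agent.Lib.MP_848d44_nt_EM.Defs
import Pool.Agent.Lib.MP_848d44_nt_EM.App
import Pool.Agent.Lib.MP_848d44_nt_EM.Orth
import Pool.Agent.Lib.MP_848d44_nt_EM.Gmv

/-!
# Project EM (MP_848d44_nt), module Hyb: the hybrid mean value theorem
-/

set_option autoImplicit false

namespace Pool.Agent.EM

open Finset Complex MeasureTheory
open scoped ArithmeticFunction ENNReal ContDiff ComplexConjugate

/-! ### The inner sum -/

private theorem Hyb_exp_le {u v : ℝ} (hv : 0 < v) (h : v ≤ u) : Real.exp (-u) ≤ 1 / v := by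
  have hu : 0 < u := lt_of_lt_of_le hv h
  have h1 : u ≤ Real.exp u := by
    have := Real.add_one_le_exp u
    linarith
  rw [Real.exp_neg, ← one_div]
  exact one_div_le_one_div_of_le hv (h.trans h1)

private theorem Hyb_log {m n : ℕ} (hm : 0 < m) (hmn : m < n) {B : ℝ} (hB : (n : ℝ) ≤ B) :
    (((n : ℝ) - m) / B) ^ 2 ≤ (Real.log ((m : ℝ) / n)) ^ 2 := by
  have hm' : (0 : ℝ) < m := by exact_mod_cast hm
  have hn' : (0 : ℝ) < n := by exact_mod_cast (hm.trans hmn)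
  have hmn' : (m : ℝ) < n := by exact_mod_cast hmn
  have hB0 : 0 < B := lt_of_lt_of_le hn' hB
  have h1 : Real.log ((m : ℝ) / n) ≤ (m : ℝ) / n - 1 := Real.log_le_sub_one_of_pos (by positivity)
  have h2 : ((n : ℝ) - m) / B ≤ ((n : ℝ) - m) / n :=
    div_le_div_of_nonneg_left (by linarith) hn' hB
  have h3 : ((n : ℝ) - m) / n = 1 - (m : ℝ) / n := by field_simp
  have h4 : 0 ≤ ((n : ℝ) - m) / B := div_nonneg (by linarith) hB0.le
  rw [← neg_sq (Real.log ((m : ℝ) / n))]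
  exact pow_le_pow_left₀ h4 (by linarith) 2

private theorem Hyb_log' {m n : ℕ} (hm : 0 < m) (hn : 0 < n) (hmn : m ≠ n) {B : ℝ}
    (hmB : (m : ℝ) ≤ B) (hnB : (n : ℝ) ≤ B) :
    (((n : ℝ) - m) / B) ^ 2 ≤ (Real.log ((m : ℝ) / n)) ^ 2 := by
  rcases lt_or_gt_of_ne hmn with h | h
  · exact Hyb_log hm h hnB
  · have h1 := Hyb_log hn h hmB
    have hm' : (0 : ℝ) < m := by exact_mod_cast hm
    have hn' : (0 : ℝ) < n := by exact_mod_cast hn
    have h2 : Real.log ((n : ℝ) / m) = - Real.log ((m : ℝ) / n) := by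
      rw [Real.log_div hn'.ne' hm'.ne', Real.log_div hm'.ne' hn'.ne']
      ring
    rw [h2, neg_sq] at h1
    calc (((n : ℝ) - m) / B) ^ 2 = (((m : ℝ) - n) / B) ^ 2 := by ring
      _ ≤ _ := h1

private theorem Hyb_one {q m n k : ℕ} (hq : 0 < q) (hm : 0 < m) (hn : 0 < n) (hk : 0 < k)
    {T M R : ℝ} (hT : 0 < T) (hR : 0 < R) (hM : M = q * T * R) (hmM : (m : ℝ) ≤ 2 * M)
    (hnM : (n : ℝ) ≤ 2 * M) (hmn : m ≠ n) (hkq : ((n : ℝ) - m) ^ 2 = ((k : ℝ) * q) ^ 2) :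
    Real.exp (-(9 / 4) * T ^ 2 * (Real.log ((m : ℝ) / n)) ^ 2) ≤
      16 / 9 * R ^ 2 * ((k : ℝ) ^ 2)⁻¹ := by
  have h1 := Hyb_log' hm hn hmn hmM hnM
  have hq' : (0 : ℝ) < q := by exact_mod_cast hq
  have hk' : (0 : ℝ) < k := by exact_mod_cast hk
  have h2 : (((n : ℝ) - m) / (2 * M)) ^ 2 = (k : ℝ) ^ 2 / (4 * T ^ 2 * R ^ 2) := by
    rw [div_pow, hkq, hM]
    field_simp
    ring
  rw [h2] at h1
  have h3 : 9 / 16 * (k : ℝ) ^ 2 / R ^ 2 ≤ 9 / 4 * T ^ 2 * (Real.log ((m : ℝ) / n)) ^ 2 := by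
    calc 9 / 16 * (k : ℝ) ^ 2 / R ^ 2 = 9 / 4 * T ^ 2 * ((k : ℝ) ^ 2 / (4 * T ^ 2 * R ^ 2)) := by
          field_simp
          ring
      _ ≤ _ := by gcongr
  have h4 := Hyb_exp_le (by positivity) h3
  calc Real.exp (-(9 / 4) * T ^ 2 * (Real.log ((m : ℝ) / n)) ^ 2)
      = Real.exp (-(9 / 4 * T ^ 2 * (Real.log ((m : ℝ) / n)) ^ 2)) := by ring_nf
    _ ≤ 1 / (9 / 16 * (k : ℝ) ^ 2 / R ^ 2) := h4
    _ = _ := by
      field_simp

private theorem Hyb_sum_inv (S : Finset ℕ) (f : ℕ → ℕ) (hf : Set.InjOn f S)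
    (h0 : ∀ n ∈ S, 0 < f n) : ∑ n ∈ S, ((f n : ℝ) ^ 2)⁻¹ ≤ 2 := by
  classical
  have h1 : ∑ n ∈ S, ((f n : ℝ) ^ 2)⁻¹ = ∑ k ∈ S.image f, ((k : ℝ) ^ 2)⁻¹ := by
    rw [Finset.sum_image hf]
  rw [h1]
  obtain ⟨N, hN⟩ : ∃ N : ℕ, ∀ k ∈ S.image f, k < N :=
    ⟨(S.image f).sup id + 1, fun k hk => Nat.lt_succ_of_le (Finset.le_sup (f := id) hk)⟩
  have h2 : S.image f ⊆ Finset.Ioo 0 N := by
    intro k hk
    rw [Finset.mem_Ioo]
    refine ⟨?_, hN k hk⟩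
    obtain ⟨n, hn, rfl⟩ := Finset.mem_image.1 hk
    exact h0 n hn
  refine (Finset.sum_le_sum_of_subset_of_nonneg h2 fun k _ _ => by positivity).trans ?_
  have h3 := sum_Ioo_inv_sq_le (α := ℝ) 0 N
  simpa using h3

private theorem Hyb_inner {q : ℕ} (hq : 0 < q) {T M R : ℝ} (hT : 0 < T) (hR : 1 ≤ R)
    (hM : M = q * T * R) (S : Finset ℕ) (hS : ∀ n ∈ S, 0 < n ∧ (n : ℝ) ≤ 2 * M)
    (hSq : ∀ m ∈ S, ∀ n ∈ S, (m : ZMod q) = (n : ZMod q)) (m : ℕ) (hm : m ∈ S) :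
    ∑ n ∈ S, Real.exp (-(9 / 4) * T ^ 2 * (Real.log ((m : ℝ) / n)) ^ 2) ≤ 9 * R ^ 2 := by
  classical
  have hR0 : 0 < R := by linarith
  set E : ℕ → ℝ := fun n => Real.exp (-(9 / 4) * T ^ 2 * (Real.log ((m : ℝ) / n)) ^ 2) with hE
  have hmod : ∀ n ∈ S, m < n → q ∣ n - m := by
    intro n hn hlt
    have h1 := (ZMod.natCast_eq_natCast_iff' _ _ _).1 (hSq m hm n hn)
    exact (Nat.modEq_iff_dvd' hlt.le).1 h1
  have hmod' : ∀ n ∈ S, n < m → q ∣ m - n := by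
    intro n hn hlt
    have h1 := (ZMod.natCast_eq_natCast_iff' _ _ _).1 (hSq n hn m hm)
    exact (Nat.modEq_iff_dvd' hlt.le).1 h1
  have hup : ∑ n ∈ S.filter (fun n => m < n), E n ≤ 16 / 9 * R ^ 2 * 2 := by
    have h1 : ∑ n ∈ S.filter (fun n => m < n), (((n - m) / q : ℕ) ^ 2 : ℝ)⁻¹ ≤ 2 := by
      refine Hyb_sum_inv _ (fun n => (n - m) / q) ?_ ?_
      · intro a ha b hb hab
        simp only [Finset.coe_filter, Set.mem_ofPred_eq] at ha hb
        obtain ⟨k, hk⟩ := hmod a ha.1 ha.2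
        obtain ⟨l, hl⟩ := hmod b hb.1 hb.2
        simp only at hab
        rw [hk, hl, Nat.mul_div_cancel_left _ hq, Nat.mul_div_cancel_left _ hq] at hab
        rw [← hab] at hl
        omega
      · intro a ha
        rw [Finset.mem_filter] at ha
        obtain ⟨k, hk⟩ := hmod a ha.1 ha.2
        rw [hk, Nat.mul_div_cancel_left _ hq]
        rcases Nat.eq_zero_or_pos k with h0 | h0
        · rw [h0, mul_zero] at hk
          omega
        · exact h0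
    calc ∑ n ∈ S.filter (fun n => m < n), E n
        ≤ ∑ n ∈ S.filter (fun n => m < n), 16 / 9 * R ^ 2 * (((n - m) / q : ℕ) ^ 2 : ℝ)⁻¹ := by
          refine Finset.sum_le_sum fun n hn => ?_
          rw [Finset.mem_filter] at hn
          obtain ⟨k, hk⟩ := hmod n hn.1 hn.2
          have hk0 : 0 < k := by
            rcases Nat.eq_zero_or_pos k with h0 | h0
            · rw [h0, mul_zero] at hk
              omega
            · exact h0
          rw [hk, Nat.mul_div_cancel_left _ hq]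
          refine Hyb_one hq (hS m hm).1 (hS n hn.1).1 hk0 hT hR0 hM (hS m hm).2 (hS n hn.1).2
            hn.2.ne ?_
          have h2 : (n : ℝ) - m = ((n - m : ℕ) : ℝ) := by
            rw [Nat.cast_sub hn.2.le]
          rw [h2, hk]
          push_cast
          ring
      _ = 16 / 9 * R ^ 2 * ∑ n ∈ S.filter (fun n => m < n), (((n - m) / q : ℕ) ^ 2 : ℝ)⁻¹ := by
          rw [Finset.mul_sum]
      _ ≤ _ := by gcongr
  have hdn : ∑ n ∈ S.filter (fun n => n < m), E n ≤ 16 / 9 * R ^ 2 * 2 := by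
    have h1 : ∑ n ∈ S.filter (fun n => n < m), (((m - n) / q : ℕ) ^ 2 : ℝ)⁻¹ ≤ 2 := by
      refine Hyb_sum_inv _ (fun n => (m - n) / q) ?_ ?_
      · intro a ha b hb hab
        simp only [Finset.coe_filter, Set.mem_ofPred_eq] at ha hb
        obtain ⟨k, hk⟩ := hmod' a ha.1 ha.2
        obtain ⟨l, hl⟩ := hmod' b hb.1 hb.2
        simp only at hab
        rw [hk, hl, Nat.mul_div_cancel_left _ hq, Nat.mul_div_cancel_left _ hq] at hab
        rw [← hab] at hl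
        omega
      · intro a ha
        rw [Finset.mem_filter] at ha
        obtain ⟨k, hk⟩ := hmod' a ha.1 ha.2
        rw [hk, Nat.mul_div_cancel_left _ hq]
        rcases Nat.eq_zero_or_pos k with h0 | h0
        · rw [h0, mul_zero] at hk
          omega
        · exact h0
    calc ∑ n ∈ S.filter (fun n => n < m), E n
        ≤ ∑ n ∈ S.filter (fun n => n < m), 16 / 9 * R ^ 2 * (((m - n) / q : ℕ) ^ 2 : ℝ)⁻¹ := by
          refine Finset.sum_le_sum fun n hn => ?_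
          rw [Finset.mem_filter] at hn
          obtain ⟨k, hk⟩ := hmod' n hn.1 hn.2
          have hk0 : 0 < k := by
            rcases Nat.eq_zero_or_pos k with h0 | h0
            · rw [h0, mul_zero] at hk
              omega
            · exact h0
          rw [hk, Nat.mul_div_cancel_left _ hq]
          refine Hyb_one hq (hS m hm).1 (hS n hn.1).1 hk0 hT hR0 hM (hS m hm).2 (hS n hn.1).2
            hn.2.ne' ?_
          have h2 : (n : ℝ) - m = -((m - n : ℕ) : ℝ) := by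
            rw [Nat.cast_sub hn.2.le]
            ring
          rw [h2, hk]
          push_cast
          ring
      _ = 16 / 9 * R ^ 2 * ∑ n ∈ S.filter (fun n => n < m), (((m - n) / q : ℕ) ^ 2 : ℝ)⁻¹ := by
          rw [Finset.mul_sum]
      _ ≤ _ := by gcongr
  have hmm : ∑ n ∈ S.filter (fun n => n = m), E n ≤ 1 := by
    rw [Finset.filter_eq' S m, if_pos hm, Finset.sum_singleton]
    simp only [hE]
    rw [Real.exp_le_one_iff]
    have : 0 ≤ T ^ 2 * (Real.log ((m : ℝ) / m)) ^ 2 := by positivity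
    linarith
  have hsplit : ∑ n ∈ S, E n = ∑ n ∈ S.filter (fun n => n = m), E n +
      ∑ n ∈ S.filter (fun n => m < n), E n + ∑ n ∈ S.filter (fun n => n < m), E n := by
    rw [Finset.sum_filter, Finset.sum_filter, Finset.sum_filter, ← Finset.sum_add_distrib,
      ← Finset.sum_add_distrib]
    refine Finset.sum_congr rfl fun n _ => ?_
    rcases lt_trichotomy n m with h | h | h
    · rw [if_neg h.ne, if_neg (by omega), if_pos h]
      ring
    · rw [if_pos h, if_neg (by omega), if_neg (by omega)]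
      ring
    · rw [if_neg h.ne', if_pos h, if_neg (by omega)]
      ring
  rw [hsplit]
  have hR2 : 1 ≤ R ^ 2 := by nlinarith
  linarith

/-- the double sum over one class -/
private theorem Hyb_double {q : ℕ} (hq : 0 < q) {T M R : ℝ} (hT : 0 < T) (hR : 1 ≤ R)
    (hM : M = q * T * R) (S : Finset ℕ) (hS : ∀ n ∈ S, 0 < n ∧ (n : ℝ) ≤ 2 * M)
    (hSq : ∀ m ∈ S, ∀ n ∈ S, (m : ZMod q) = (n : ZMod q)) (b : ℕ → ℝ)
    (hb : ∀ n ∈ S, (b n) ^ 2 ≤ (n : ℝ)⁻¹) :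
    ∑ m ∈ S, ∑ n ∈ S, b m * b n * Real.exp (-(9 / 4) * T ^ 2 * (Real.log ((m : ℝ) / n)) ^ 2) ≤
      9 * R ^ 2 * ∑ m ∈ S, (m : ℝ)⁻¹ := by
  set E : ℕ → ℕ → ℝ := fun m n => Real.exp (-(9 / 4) * T ^ 2 * (Real.log ((m : ℝ) / n)) ^ 2)
    with hE
  have hE0 : ∀ m n, 0 ≤ E m n := fun m n => (Real.exp_pos _).le
  have hsymm : ∀ m ∈ S, ∀ n ∈ S, E m n = E n m := by
    intro m hm n hn
    have hm' : (0 : ℝ) < m := by exact_mod_cast (hS m hm).1
    have hn' : (0 : ℝ) < n := by exact_mod_cast (hS n hn).1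
    simp only [hE]
    have h2 : Real.log ((n : ℝ) / m) = - Real.log ((m : ℝ) / n) := by
      rw [Real.log_div hn'.ne' hm'.ne', Real.log_div hm'.ne' hn'.ne']
      ring
    rw [h2, neg_sq]
  have h1 : ∑ m ∈ S, ∑ n ∈ S, b m * b n * E m n ≤
      ∑ m ∈ S, ∑ n ∈ S, ((b m) ^ 2 * E m n / 2 + (b n) ^ 2 * E n m / 2) := by
    refine Finset.sum_le_sum fun m hm => Finset.sum_le_sum fun n hn => ?_
    rw [← hsymm m hm n hn]
    have := hE0 m n
    have h2 : b m * b n ≤ (b m) ^ 2 / 2 + (b n) ^ 2 / 2 := by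
      nlinarith [sq_nonneg (b m - b n)]
    calc b m * b n * E m n ≤ ((b m) ^ 2 / 2 + (b n) ^ 2 / 2) * E m n := by gcongr
      _ = _ := by ring
  have h2 : ∑ m ∈ S, ∑ n ∈ S, ((b m) ^ 2 * E m n / 2 + (b n) ^ 2 * E n m / 2) =
      ∑ m ∈ S, (b m) ^ 2 * ∑ n ∈ S, E m n := by
    have h3 : ∑ m ∈ S, ∑ n ∈ S, (b n) ^ 2 * E n m / 2 =
        ∑ m ∈ S, ∑ n ∈ S, (b m) ^ 2 * E m n / 2 := Finset.sum_comm
    simp only [Finset.sum_add_distrib]
    rw [h3, ← Finset.sum_add_distrib]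
    refine Finset.sum_congr rfl fun m _ => ?_
    rw [← Finset.sum_add_distrib, Finset.mul_sum]
    refine Finset.sum_congr rfl fun n _ => ?_
    ring
  refine h1.trans (h2.le.trans ?_)
  rw [Finset.mul_sum]
  refine Finset.sum_le_sum fun m hm => ?_
  have h3 := Hyb_inner hq hT hR hM S hS hSq m hm
  have h4 : (0 : ℝ) ≤ (m : ℝ)⁻¹ := by positivity
  calc (b m) ^ 2 * ∑ n ∈ S, E m n ≤ (m : ℝ)⁻¹ * (9 * R ^ 2) := by
        refine mul_le_mul (hb m hm) h3 (Finset.sum_nonneg fun n _ => hE0 m n) h4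
    _ = _ := by ring

/-! ### Orthogonality for a fixed height -/

/-- the coefficients -/
private noncomputable def Hyb_b (σ M : ℝ) (n : ℕ) : ℝ := (n : ℝ) ^ (-σ) * w (n / M)

/-- the class -/
private noncomputable def Hyb_S (q : ℕ) (M : ℝ) (a : ZMod q) : Finset ℕ :=
  (Icc 1 ⌊2 * M⌋₊).filter (fun n => (n : ZMod q) = a)

private theorem Hyb_term (σ M t : ℝ) {n : ℕ} (hn : 0 < n) :
    (n : ℂ) ^ (-((σ : ℂ) + (t : ℂ) * I)) * ((w (n / M) : ℝ) : ℂ) =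
      (Hyb_b σ M n : ℂ) * (n : ℂ) ^ (-((t : ℂ) * I)) := by
  have hn' : (n : ℂ) ≠ 0 := by
    exact_mod_cast hn.ne'
  have h1 : -((σ : ℂ) + (t : ℂ) * I) = ((-σ : ℝ) : ℂ) + -((t : ℂ) * I) := by
    push_cast
    ring
  rw [h1, cpow_add _ _ hn']
  unfold Hyb_b
  rw [ofReal_mul, ofReal_cpow (by positivity)]
  push_cast
  ring

private theorem Hyb_SD {q : ℕ} [NeZero q] (χ : DirichletCharacter ℂ q) (σ M t : ℝ) :
    SD w χ M ((σ : ℂ) + (t : ℂ) * I) =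
      ∑ a : ZMod q, χ a * ∑ n ∈ Hyb_S q M a, (Hyb_b σ M n : ℂ) * (n : ℂ) ^ (-((t : ℂ) * I)) := by
  unfold SD
  rw [← Finset.sum_fiberwise (Icc 1 ⌊2 * M⌋₊) (fun n : ℕ => (n : ZMod q))]
  refine Finset.sum_congr rfl fun a _ => ?_
  rw [Finset.mul_sum]
  refine Finset.sum_congr rfl fun n hn => ?_
  unfold Hyb_S at hn
  rw [Finset.mem_filter, Finset.mem_Icc] at hn
  rw [hn.2, mul_assoc, Hyb_term σ M t (by omega : 0 < n)]

private theorem Hyb_orth {q : ℕ} [NeZero q] (σ M t : ℝ) :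
    ∑ χ : DirichletCharacter ℂ q, ‖SD w χ M ((σ : ℂ) + (t : ℂ) * I)‖ ^ 2 =
      (q.totient : ℝ) * ∑ a : (ZMod q)ˣ,
        ‖∑ n ∈ Hyb_S q M (a : ZMod q), (Hyb_b σ M n : ℂ) * (n : ℂ) ^ (-((t : ℂ) * I))‖ ^ 2 := by
  rw [← orth_l2 (fun a : ZMod q => ∑ n ∈ Hyb_S q M a, (Hyb_b σ M n : ℂ) *
    (n : ℂ) ^ (-((t : ℂ) * I)))]
  refine Finset.sum_congr rfl fun χ _ => ?_
  rw [Hyb_SD]

private theorem Hyb_cont {q : ℕ} (χ : DirichletCharacter ℂ q) (σ M : ℝ) :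
    Continuous fun t : ℝ => SD w χ M ((σ : ℂ) + (t : ℂ) * I) := by
  unfold SD
  refine continuous_finsetSum _ fun n hn => ?_
  rw [Finset.mem_Icc] at hn
  have hn' : (n : ℂ) ≠ 0 := by
    exact_mod_cast (by omega : n ≠ 0)
  refine (continuous_const.mul ?_).mul continuous_const
  exact Continuous.const_cpow (by fun_prop) (Or.inl hn')

/-- the sum of the squares of the coefficients -/
private theorem Hyb_bsq {σ M : ℝ} (hσ : 1 / 2 ≤ σ) {n : ℕ} (hn : 0 < n) :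
    (Hyb_b σ M n) ^ 2 ≤ (n : ℝ)⁻¹ := by
  have hn1 : (1 : ℝ) ≤ n := by exact_mod_cast hn
  have h1 : (n : ℝ) ^ (-σ) ≤ (n : ℝ) ^ (-(1 / 2) : ℝ) :=
    Real.rpow_le_rpow_of_exponent_le hn1 (by linarith)
  have h2 : Hyb_b σ M n ≤ (n : ℝ) ^ (-(1 / 2) : ℝ) := by
    unfold Hyb_b
    calc (n : ℝ) ^ (-σ) * w (n / M) ≤ (n : ℝ) ^ (-(1 / 2) : ℝ) * 1 :=
          mul_le_mul h1 (w_le_one _) (w_nonneg _) (by positivity)
      _ = _ := mul_one _
  have h3 : 0 ≤ Hyb_b σ M n := by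
    unfold Hyb_b
    exact mul_nonneg (by positivity) (w_nonneg _)
  calc (Hyb_b σ M n) ^ 2 ≤ ((n : ℝ) ^ (-(1 / 2) : ℝ)) ^ 2 := pow_le_pow_left₀ h3 h2 2
    _ = (n : ℝ)⁻¹ := by
      rw [← Real.rpow_natCast, ← Real.rpow_mul (by positivity)]
      norm_num
      exact Real.rpow_neg_one _

private theorem Hyb_units {q : ℕ} [NeZero q] (M : ℝ) :
    ∑ a : (ZMod q)ˣ, ∑ m ∈ Hyb_S q M (a : ZMod q), (m : ℝ)⁻¹ ≤
      ∑ m ∈ Icc 1 ⌊2 * M⌋₊, (m : ℝ)⁻¹ := by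
  classical
  have h1 : ∑ a : (ZMod q)ˣ, ∑ m ∈ Hyb_S q M (a : ZMod q), (m : ℝ)⁻¹ =
      ∑ a ∈ Finset.univ.image (fun a : (ZMod q)ˣ => (a : ZMod q)),
        ∑ m ∈ Hyb_S q M a, (m : ℝ)⁻¹ := by
    rw [Finset.sum_image (fun a _ b _ h => Units.ext h)]
  rw [h1]
  refine (Finset.sum_le_sum_of_subset_of_nonneg (Finset.subset_univ _)
    fun a _ _ => Finset.sum_nonneg fun m _ => by positivity).trans ?_
  exact (Finset.sum_fiberwise (Icc 1 ⌊2 * M⌋₊) (fun n : ℕ => (n : ZMod q))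
    (fun m : ℕ => (m : ℝ)⁻¹)).le

private theorem Hyb_harm {N : ℕ} {B : ℝ} (hB : 1 ≤ B) (hN : (N : ℝ) ≤ B) :
    ∑ m ∈ Icc 1 N, (m : ℝ)⁻¹ ≤ 1 + Real.log B := by
  have h1 : ∑ m ∈ Icc 1 N, (m : ℝ)⁻¹ = ((harmonic N : ℚ) : ℝ) := by
    rw [harmonic_eq_sum_Icc]
    push_cast
    rfl
  rw [h1]
  refine (harmonic_le_one_add_log N).trans ?_
  rcases Nat.eq_zero_or_pos N with h0 | h0
  · rw [h0, Nat.cast_zero, Real.log_zero]
    have := Real.log_nonneg hB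
    linarith
  · have : Real.log N ≤ Real.log B := Real.log_le_log (by exact_mod_cast h0) hN
    linarith

/-- The mean value with explicit constants. -/
private theorem Hyb_main {q : ℕ} [NeZero q] {T M R σ : ℝ} (hT : 5 ≤ T) (hR : 1 ≤ R)
    (hM : M = q * T * R) (hσ : 1 / 2 ≤ σ) :
    ∑ χ : DirichletCharacter ℂ q, ∫⁻ t in Set.Icc (T - 5) (2 * T + 5),
      ENNReal.ofReal (‖SD w χ M ((σ : ℂ) + (t : ℂ) * I)‖ ^ 2) ≤
      ENNReal.ofReal (Real.exp 1 * q.totient * (3 * T * √Real.pi * (9 * R ^ 2 *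
        (1 + Real.log (2 * M))))) := by
  have hq : 0 < q := Nat.pos_of_ne_zero (NeZero.ne q)
  have hT0 : 0 < T := by linarith
  have hR0 : 0 < R := by linarith
  have hq' : (1 : ℝ) ≤ q := by exact_mod_cast hq
  have hM1 : 1 ≤ 2 * M := by
    rw [hM]
    have h1 : (1 : ℝ) ≤ q * T := by nlinarith
    have h2 : (1 : ℝ) ≤ q * T * R := by nlinarith
    linarith
  have hM0 : 0 ≤ 2 * M := by linarith
  have hSm : ∀ a : ZMod q, ∀ n ∈ Hyb_S q M a, 0 < n ∧ (n : ℝ) ≤ 2 * M := by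
    intro a n hn
    unfold Hyb_S at hn
    rw [Finset.mem_filter, Finset.mem_Icc] at hn
    exact ⟨by omega, (Nat.le_floor_iff hM0).1 hn.1.2⟩
  have hSq : ∀ a : ZMod q, ∀ m ∈ Hyb_S q M a, ∀ n ∈ Hyb_S q M a,
      (m : ZMod q) = (n : ZMod q) := by
    intro a m hm n hn
    unfold Hyb_S at hm hn
    rw [Finset.mem_filter] at hm hn
    rw [hm.2, hn.2]
  set F : ZMod q → ℝ → ℝ := fun a t =>
    ‖∑ n ∈ Hyb_S q M a, (Hyb_b σ M n : ℂ) * (n : ℂ) ^ (-((t : ℂ) * I))‖ ^ 2 with hF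
  set G : ℝ → ℝ := fun t => Real.exp (-(t / (3 * T)) ^ 2) with hG
  have hFi : ∀ a : ZMod q, Integrable (fun t => F a t * G t) := fun a =>
    gmv_integrable T hT0 (Hyb_S q M a) (fun n hn => (hSm a n hn).1) (Hyb_b σ M)
  have hFint : ∀ a : ZMod q, ∫ t, F a t * G t ≤
      3 * T * √Real.pi * (9 * R ^ 2 * ∑ m ∈ Hyb_S q M a, (m : ℝ)⁻¹) := by
    intro a
    have h1 := gmv T hT0 (Hyb_S q M a) (fun n hn => (hSm a n hn).1) (Hyb_b σ M)
    simp only [hF, hG]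
    rw [h1]
    have h2 := Hyb_double hq hT0 hR hM (Hyb_S q M a) (hSm a) (hSq a) (Hyb_b σ M)
      (fun n hn => Hyb_bsq hσ (hSm a n hn).1)
    gcongr
  have hexp : ∀ t ∈ Set.Icc (T - 5) (2 * T + 5), 1 ≤ Real.exp 1 * G t := by
    intro t ht
    simp only [hG]
    rw [← Real.exp_add, Real.one_le_exp_iff]
    have h1 : |t / (3 * T)| ≤ 1 := by
      rw [abs_le]
      constructor
      · rw [le_div_iff₀ (by linarith)]
        linarith [ht.1]
      · rw [div_le_iff₀ (by linarith)]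
        linarith [ht.2]
    have h2 : (t / (3 * T)) ^ 2 ≤ 1 := by
      rw [← sq_abs]
      exact pow_le_one₀ (abs_nonneg _) h1
    linarith
  have hstep1 : ∑ χ : DirichletCharacter ℂ q, ∫⁻ t in Set.Icc (T - 5) (2 * T + 5),
      ENNReal.ofReal (‖SD w χ M ((σ : ℂ) + (t : ℂ) * I)‖ ^ 2) =
      ∫⁻ t in Set.Icc (T - 5) (2 * T + 5), ∑ χ : DirichletCharacter ℂ q,
        ENNReal.ofReal (‖SD w χ M ((σ : ℂ) + (t : ℂ) * I)‖ ^ 2) := by
    rw [lintegral_finsetSum]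
    intro χ _
    exact ENNReal.measurable_ofReal.comp (((Hyb_cont χ σ M).norm.pow 2).measurable)
  have hstep2 : ∫⁻ t in Set.Icc (T - 5) (2 * T + 5), ∑ χ : DirichletCharacter ℂ q,
        ENNReal.ofReal (‖SD w χ M ((σ : ℂ) + (t : ℂ) * I)‖ ^ 2) ≤
      ∫⁻ t in Set.Icc (T - 5) (2 * T + 5), ENNReal.ofReal (∑ a : (ZMod q)ˣ,
        Real.exp 1 * q.totient * (F (a : ZMod q) t * G t)) := by
    refine setLIntegral_mono' measurableSet_Icc fun t ht => ?_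
    rw [← ENNReal.ofReal_sum_of_nonneg (fun χ _ => by positivity), Hyb_orth]
    refine ENNReal.ofReal_le_ofReal ?_
    rw [Finset.mul_sum]
    refine Finset.sum_le_sum fun a _ => ?_
    have h1 := hexp t ht
    have h2 : 0 ≤ (q.totient : ℝ) * F (a : ZMod q) t := by
      simp only [hF]
      positivity
    calc (q.totient : ℝ) * F (a : ZMod q) t = (q.totient : ℝ) * F (a : ZMod q) t * 1 := by ring
      _ ≤ (q.totient : ℝ) * F (a : ZMod q) t * (Real.exp 1 * G t) := by gcongr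
      _ = _ := by ring
  have hint : Integrable (fun t => ∑ a : (ZMod q)ˣ,
        Real.exp 1 * q.totient * (F (a : ZMod q) t * G t)) :=
    integrable_finsetSum _ fun a _ => (hFi (a : ZMod q)).const_mul _
  have hnn : ∀ t, 0 ≤ ∑ a : (ZMod q)ˣ, Real.exp 1 * q.totient * (F (a : ZMod q) t * G t) := by
    intro t
    refine Finset.sum_nonneg fun a _ => ?_
    simp only [hF, hG]
    positivity
  have hstep3 : ∫⁻ t in Set.Icc (T - 5) (2 * T + 5), ENNReal.ofReal (∑ a : (ZMod q)ˣ,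
        Real.exp 1 * q.totient * (F (a : ZMod q) t * G t)) ≤
      ENNReal.ofReal (∫ t, ∑ a : (ZMod q)ˣ,
        Real.exp 1 * q.totient * (F (a : ZMod q) t * G t)) := by
    rw [ofReal_integral_eq_lintegral_ofReal hint (Filter.Eventually.of_forall hnn)]
    exact setLIntegral_le_lintegral _ _
  rw [hstep1]
  refine hstep2.trans (hstep3.trans (ENNReal.ofReal_le_ofReal ?_))
  rw [integral_finsetSum (f := fun (a : (ZMod q)ˣ) t =>
    Real.exp 1 * q.totient * (F (a : ZMod q) t * G t)) _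
    fun a _ => (hFi (a : ZMod q)).const_mul _]
  simp only [integral_const_mul]
  rw [← Finset.mul_sum]
  have hexp0 : 0 ≤ Real.exp 1 * (q.totient : ℝ) := by positivity
  refine mul_le_mul_of_nonneg_left ?_ hexp0
  calc ∑ a : (ZMod q)ˣ, ∫ t, F (a : ZMod q) t * G t
      ≤ ∑ a : (ZMod q)ˣ, 3 * T * √Real.pi * (9 * R ^ 2 *
          ∑ m ∈ Hyb_S q M (a : ZMod q), (m : ℝ)⁻¹) :=
        Finset.sum_le_sum fun a _ => hFint (a : ZMod q)
    _ = 3 * T * √Real.pi * (9 * R ^ 2 * ∑ a : (ZMod q)ˣ,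
          ∑ m ∈ Hyb_S q M (a : ZMod q), (m : ℝ)⁻¹) := by
        rw [← Finset.mul_sum, ← Finset.mul_sum]
    _ ≤ 3 * T * √Real.pi * (9 * R ^ 2 * (1 + Real.log (2 * M))) := by
        have h1 := (Hyb_units (q := q) M).trans (Hyb_harm hM1 (Nat.floor_le hM0))
        gcongr

/-- Text, section 3. -/
theorem hybrid (e₁ e₂ : ℝ) (h1 : 0 < e₁) (h2 : 0 < e₂) (h12 : e₁ + e₂ ≤ 1) :
    ∃ X₀ : ℝ, 1 ≤ X₀ ∧ ∀ X : ℝ, X₀ ≤ X → ∀ (q : ℕ) [NeZero q], (q : ℝ) ≤ X →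
    ∀ σ : ℝ, 1 / 2 ≤ σ →
    ∑ χ : DirichletCharacter ℂ q, ∫⁻ t in Set.Icc (X ^ e₁ - 5) (2 * X ^ e₁ + 5),
      ENNReal.ofReal (‖SD w χ (q * X ^ (e₁ + e₂)) ((σ : ℂ) + (t : ℂ) * I)‖ ^ 2) ≤
      ENNReal.ofReal (q.totient * X ^ e₁ * X ^ (3 * e₂)) := by
  have hA : ∀ᶠ X : ℝ in Filter.atTop, 5 ≤ X ^ e₁ :=
    (tendsto_rpow_atTop h1).eventually_ge_atTop 5
  have hB : ∀ᶠ X : ℝ in Filter.atTop, 162 * (2 + 2 * Real.log X) ≤ X ^ e₂ := by
    have h3 : (fun X : ℝ => 162 * (2 + 2 * Real.log X)) =o[Filter.atTop] fun X : ℝ => X ^ e₂ := by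
      have h4 : (fun X : ℝ => (2 : ℝ)) =o[Filter.atTop] fun X : ℝ => X ^ e₂ := by
        refine Asymptotics.isLittleO_const_left.2 (Or.inr ?_)
        exact (tendsto_norm_atTop_atTop).comp (tendsto_rpow_atTop h2)
      have h5 : (fun X : ℝ => 2 * Real.log X) =o[Filter.atTop] fun X : ℝ => X ^ e₂ :=
        (isLittleO_log_rpow_atTop h2).const_mul_left 2
      exact (h4.add h5).const_mul_left 162
    filter_upwards [h3.bound one_pos, Filter.eventually_ge_atTop (1 : ℝ)] with X hX hX1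
    rw [one_mul, Real.norm_eq_abs, Real.norm_eq_abs, abs_of_nonneg (by positivity : 0 ≤ X ^ e₂)]
      at hX
    exact (le_abs_self _).trans hX
  obtain ⟨X₀, hX₀⟩ := Filter.eventually_atTop.1 (hA.and hB)
  refine ⟨max X₀ 1, le_max_right _ _, fun X hX q _ hqX σ hσ => ?_⟩
  have hX1 : 1 ≤ X := (le_max_right _ _).trans hX
  have hX0 : 0 < X := by linarith
  obtain ⟨hT, hL⟩ := hX₀ X ((le_max_left _ _).trans hX)
  have hR : 1 ≤ X ^ e₂ := Real.one_le_rpow hX1 h2.le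
  have hM : (q : ℝ) * X ^ (e₁ + e₂) = q * X ^ e₁ * X ^ e₂ := by
    rw [Real.rpow_add hX0, mul_assoc]
  have hmain := Hyb_main (q := q) (M := q * X ^ (e₁ + e₂)) hT hR hM hσ
  refine hmain.trans (ENNReal.ofReal_le_ofReal ?_)
  have hq' : (1 : ℝ) ≤ q := by
    exact_mod_cast Nat.pos_of_ne_zero (NeZero.ne q)
  have hlog : Real.log (2 * (q * X ^ (e₁ + e₂))) ≤ 1 + 2 * Real.log X := by
    have h3 : 2 * (q * X ^ (e₁ + e₂)) ≤ Real.exp 1 * X ^ (2 : ℝ) := by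
      have h4 : X ^ (e₁ + e₂) ≤ X ^ (1 : ℝ) := Real.rpow_le_rpow_of_exponent_le hX1 h12
      rw [Real.rpow_one] at h4
      have h5 : (2 : ℝ) ≤ Real.exp 1 := by
        have := Real.add_one_le_exp (1 : ℝ)
        linarith
      have h6 : (q : ℝ) * X ^ (e₁ + e₂) ≤ X * X := by gcongr
      have h7 : X ^ (2 : ℝ) = X * X := by
        rw [Real.rpow_two, sq]
      rw [h7]
      gcongr
    calc Real.log (2 * (q * X ^ (e₁ + e₂))) ≤ Real.log (Real.exp 1 * X ^ (2 : ℝ)) :=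
          Real.log_le_log (by positivity) h3
      _ = 1 + 2 * Real.log X := by
          rw [Real.log_mul (by positivity) (by positivity), Real.log_exp,
            Real.log_rpow hX0]
  have hpi : √Real.pi ≤ 2 := by
    rw [Real.sqrt_le_left (by norm_num)]
    linarith [Real.pi_le_four]
  have he : Real.exp 1 ≤ 3 := by
    linarith [Real.exp_one_lt_d9]
  have hlogX : 0 ≤ Real.log X := Real.log_nonneg hX1
  have hlog2 : 0 ≤ 1 + Real.log (2 * (q * X ^ (e₁ + e₂))) := by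
    have : 0 ≤ Real.log (2 * (q * X ^ (e₁ + e₂))) := by
      refine Real.log_nonneg ?_
      have h8 : 1 ≤ X ^ (e₁ + e₂) := Real.one_le_rpow hX1 (by linarith)
      nlinarith
    linarith
  calc Real.exp 1 * q.totient * (3 * X ^ e₁ * √Real.pi * (9 * (X ^ e₂) ^ 2 *
        (1 + Real.log (2 * (q * X ^ (e₁ + e₂))))))
      ≤ 3 * q.totient * (3 * X ^ e₁ * 2 * (9 * (X ^ e₂) ^ 2 *
        (1 + (1 + 2 * Real.log X)))) := by gcongr
    _ = q.totient * X ^ e₁ * ((X ^ e₂) ^ 2 * (162 * (2 + 2 * Real.log X))) := by ring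
    _ ≤ q.totient * X ^ e₁ * ((X ^ e₂) ^ 2 * X ^ e₂) := by gcongr
    _ = q.totient * X ^ e₁ * X ^ (3 * e₂) := by
      congr 1
      rw [mul_comm (3 : ℝ) e₂, Real.rpow_mul hX0.le]
      rw [show ((3 : ℝ)) = ((3 : ℕ) : ℝ) by norm_num, Real.rpow_natCast]
      ring

/-- the number of characters -/
private theorem Hyb_card (q : ℕ) [NeZero q] :
    ((Finset.univ : Finset (DirichletCharacter ℂ q)).card : ℝ) = q.totient := by
  classical
  have h := orth_l2 (q := q) (Pi.single 1 1)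
  have h1 : ∀ χ : DirichletCharacter ℂ q,
      ‖∑ a : ZMod q, χ a * (Pi.single (M := fun _ => ℂ) (1 : ZMod q) (1 : ℂ)) a‖ ^ 2 = 1 := by
    intro χ
    rw [Finset.sum_eq_single (1 : ZMod q)]
    · simp
    · intro b _ hb
      rw [Pi.single_eq_of_ne hb, mul_zero]
    · intro h0
      exact absurd (Finset.mem_univ _) h0
  have h2 : ∑ a : (ZMod q)ˣ,
      ‖(Pi.single (M := fun _ => ℂ) (1 : ZMod q) (1 : ℂ)) (a : ZMod q)‖ ^ 2 = 1 := by
    rw [Finset.sum_eq_single (1 : (ZMod q)ˣ)]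
    · simp
    · intro b _ hb
      have hb' : (b : ZMod q) ≠ 1 := fun h0 => hb (Units.ext h0)
      rw [Pi.single_eq_of_ne hb']
      simp
    · intro h0
      exact absurd (Finset.mem_univ _) h0
  simp only [h1, h2] at h
  simpa using h

/-- Text, section 3, for the L-functions. -/
theorem hybrid_L (e₁ e₂ : ℝ) (h1 : 0 < e₁) (h2 : 0 < e₂) (h12 : e₁ + e₂ ≤ 1) :
    ∃ X₀ : ℝ, 1 ≤ X₀ ∧ ∀ X : ℝ, X₀ ≤ X → ∀ (q : ℕ) [NeZero q], (q : ℝ) ≤ X →
    ∀ σ : ℝ, 1 / 2 ≤ σ → σ ≤ 4 →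
    ∑ χ ∈ ncs q, ∫⁻ t in Set.Icc (X ^ e₁ - 5) (2 * X ^ e₁ + 5),
      ENNReal.ofReal (‖DirichletCharacter.LFunction χ ((σ : ℂ) + (t : ℂ) * I)‖ ^ 2) ≤
      ENNReal.ofReal (q.totient * X ^ e₁ * X ^ (4 * e₂)) := by
  classical
  obtain ⟨X₁, hX₁1, hX₁⟩ := hybrid e₁ e₂ h1 h2 h12
  obtain ⟨X₂, hX₂1, hX₂⟩ := approx e₁ e₂ h1 h2 h12
  have hA : ∀ᶠ X : ℝ in Filter.atTop, 5 ≤ X ^ e₁ :=
    (tendsto_rpow_atTop h1).eventually_ge_atTop 5
  have hB : ∀ᶠ X : ℝ in Filter.atTop, 8 ≤ X ^ e₂ :=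
    (tendsto_rpow_atTop h2).eventually_ge_atTop 8
  obtain ⟨X₃, hX₃⟩ := Filter.eventually_atTop.1 (hA.and hB)
  refine ⟨max (max X₁ X₂) X₃, (hX₁1.trans (le_max_left _ _)).trans (le_max_left _ _),
    fun X hX q _ hqX σ hσ hσ4 => ?_⟩
  have hXa : X₁ ≤ X := ((le_max_left _ _).trans (le_max_left _ _)).trans hX
  have hXb : X₂ ≤ X := ((le_max_right _ _).trans (le_max_left _ _)).trans hX
  have hX1 : 1 ≤ X := hX₁1.trans hXa
  have hX0 : 0 < X := by linarith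
  obtain ⟨hT, hR⟩ := hX₃ X ((le_max_right _ _).trans hX)
  set T : ℝ := X ^ e₁ with hTdef
  set M : ℝ := q * X ^ (e₁ + e₂) with hMdef
  have hsd := hX₁ X hXa q hqX σ hσ
  have hpt : ∀ χ ∈ ncs q, ∀ t ∈ Set.Icc (T - 5) (2 * T + 5),
      ENNReal.ofReal (‖DirichletCharacter.LFunction χ ((σ : ℂ) + (t : ℂ) * I)‖ ^ 2) ≤
      2 * ENNReal.ofReal (‖SD w χ M ((σ : ℂ) + (t : ℂ) * I)‖ ^ 2) + 2 := by
    intro χ hχ t ht
    have hs : ‖(σ : ℂ) + (t : ℂ) * I‖ ≤ 5 * T := by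
      refine (norm_add_le _ _).trans ?_
      rw [norm_mul, norm_I, mul_one, norm_real, norm_real, Real.norm_eq_abs, Real.norm_eq_abs,
        abs_of_nonneg (by linarith), abs_of_nonneg (by linarith [ht.1])]
      linarith [ht.2]
    have h3 := hX₂ X hXb q hqX χ (mem_ncs.1 hχ) M le_rfl ((σ : ℂ) + (t : ℂ) * I)
      (by simp; linarith) hs
    have h4 : X ^ (-10 : ℝ) ≤ 1 := Real.rpow_le_one_of_one_le_of_nonpos hX1 (by norm_num)
    have h5 : ‖DirichletCharacter.LFunction χ ((σ : ℂ) + (t : ℂ) * I)‖ ≤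
        ‖SD w χ M ((σ : ℂ) + (t : ℂ) * I)‖ + 1 := by
      calc ‖DirichletCharacter.LFunction χ ((σ : ℂ) + (t : ℂ) * I)‖ =
          ‖SD w χ M ((σ : ℂ) + (t : ℂ) * I) +
            (DirichletCharacter.LFunction χ ((σ : ℂ) + (t : ℂ) * I) -
            SD w χ M ((σ : ℂ) + (t : ℂ) * I))‖ := by rw [add_sub_cancel]
        _ ≤ _ := norm_add_le _ _
        _ ≤ _ := by linarith
    have h6 : ‖DirichletCharacter.LFunction χ ((σ : ℂ) + (t : ℂ) * I)‖ ^ 2 ≤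
        2 * ‖SD w χ M ((σ : ℂ) + (t : ℂ) * I)‖ ^ 2 + 2 := by
      have h7 := norm_nonneg (DirichletCharacter.LFunction χ ((σ : ℂ) + (t : ℂ) * I))
      have h8 := norm_nonneg (SD w χ M ((σ : ℂ) + (t : ℂ) * I))
      nlinarith [sq_nonneg (‖SD w χ M ((σ : ℂ) + (t : ℂ) * I)‖ - 1)]
    refine (ENNReal.ofReal_le_ofReal h6).trans ?_
    rw [ENNReal.ofReal_add (by positivity) (by norm_num), ENNReal.ofReal_mul (by norm_num)]
    norm_num
  have hvol : volume (Set.Icc (T - 5) (2 * T + 5)) ≤ ENNReal.ofReal (3 * T) := by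
    rw [Real.volume_Icc]
    exact ENNReal.ofReal_le_ofReal (by linarith)
  have hone : ∀ χ ∈ ncs q, ∫⁻ t in Set.Icc (T - 5) (2 * T + 5),
      ENNReal.ofReal (‖DirichletCharacter.LFunction χ ((σ : ℂ) + (t : ℂ) * I)‖ ^ 2) ≤
      2 * (∫⁻ t in Set.Icc (T - 5) (2 * T + 5),
        ENNReal.ofReal (‖SD w χ M ((σ : ℂ) + (t : ℂ) * I)‖ ^ 2)) +
      2 * ENNReal.ofReal (3 * T) := by
    intro χ hχ
    refine (setLIntegral_mono' measurableSet_Icc (hpt χ hχ)).trans ?_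
    have hmeas : Measurable fun t : ℝ =>
        ENNReal.ofReal (‖SD w χ M ((σ : ℂ) + (t : ℂ) * I)‖ ^ 2) :=
      ENNReal.measurable_ofReal.comp (((Hyb_cont χ σ M).norm.pow 2).measurable)
    rw [lintegral_add_left (hmeas.const_mul 2), lintegral_const_mul _ hmeas, setLIntegral_const]
    gcongr
  have hsum : ∑ χ ∈ ncs q, ∫⁻ t in Set.Icc (T - 5) (2 * T + 5),
      ENNReal.ofReal (‖SD w χ M ((σ : ℂ) + (t : ℂ) * I)‖ ^ 2) ≤
      ENNReal.ofReal (q.totient * T * X ^ (3 * e₂)) := by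
    refine le_trans ?_ hsd
    exact Finset.sum_le_sum_of_subset (Finset.subset_univ _)
  have hcard : ((ncs q).card : ℝ≥0∞) ≤ ENNReal.ofReal (q.totient) := by
    have h3 : ((ncs q).card : ℝ) ≤ q.totient := by
      rw [← Hyb_card q]
      exact_mod_cast Finset.card_le_card (Finset.subset_univ _)
    calc ((ncs q).card : ℝ≥0∞) = ENNReal.ofReal ((ncs q).card : ℝ) := by
          rw [ENNReal.ofReal_natCast]
      _ ≤ _ := ENNReal.ofReal_le_ofReal h3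
  calc ∑ χ ∈ ncs q, ∫⁻ t in Set.Icc (T - 5) (2 * T + 5),
      ENNReal.ofReal (‖DirichletCharacter.LFunction χ ((σ : ℂ) + (t : ℂ) * I)‖ ^ 2)
      ≤ ∑ χ ∈ ncs q, (2 * (∫⁻ t in Set.Icc (T - 5) (2 * T + 5),
        ENNReal.ofReal (‖SD w χ M ((σ : ℂ) + (t : ℂ) * I)‖ ^ 2)) +
        2 * ENNReal.ofReal (3 * T)) := Finset.sum_le_sum hone
    _ = 2 * (∑ χ ∈ ncs q, ∫⁻ t in Set.Icc (T - 5) (2 * T + 5),
        ENNReal.ofReal (‖SD w χ M ((σ : ℂ) + (t : ℂ) * I)‖ ^ 2)) +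
        ((ncs q).card : ℝ≥0∞) * (2 * ENNReal.ofReal (3 * T)) := by
        rw [Finset.sum_add_distrib, Finset.sum_const, nsmul_eq_mul, Finset.mul_sum]
    _ ≤ 2 * ENNReal.ofReal (q.totient * T * X ^ (3 * e₂)) +
        ENNReal.ofReal (q.totient) * (2 * ENNReal.ofReal (3 * T)) := by gcongr
    _ = ENNReal.ofReal (2 * (q.totient * T * X ^ (3 * e₂)) + q.totient * (2 * (3 * T))) := by
        have h0 : (2 : ℝ≥0∞) = ENNReal.ofReal 2 := by norm_num
        rw [h0, ← ENNReal.ofReal_mul (by norm_num), ← ENNReal.ofReal_mul (by norm_num),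
          ← ENNReal.ofReal_mul (by positivity), ← ENNReal.ofReal_add (by positivity)
          (by positivity)]
    _ ≤ ENNReal.ofReal (q.totient * T * X ^ (4 * e₂)) := by
        refine ENNReal.ofReal_le_ofReal ?_
        have h3 : X ^ (4 * e₂) = X ^ (3 * e₂) * X ^ e₂ := by
          rw [← Real.rpow_add hX0]
          congr 1
          ring
        have h4 : 1 ≤ X ^ (3 * e₂) := Real.one_le_rpow hX1 (by linarith)
        rw [h3]
        have h5 : 2 * X ^ (3 * e₂) + 6 ≤ X ^ (3 * e₂) * X ^ e₂ := by nlinarith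
        calc 2 * (q.totient * T * X ^ (3 * e₂)) + q.totient * (2 * (3 * T))
            = q.totient * T * (2 * X ^ (3 * e₂) + 6) := by ring
          _ ≤ q.totient * T * (X ^ (3 * e₂) * X ^ e₂) := by gcongr

end Pool.Agent.EM
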