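import Pool.Agent.Lib.MP_848d44_nt_EM.Defs
import Pool.Agent.Lib.MP_848d44_nt_EM.Jen

/-!
# Project EM (MP_848d44_nt), module Logm: log- is bounded by log+ on average
-/

set_option autoImplicit false

namespace Pool.Agent.EM

open Finset Complex MeasureTheory
open scoped ArithmeticFunction ENNReal ContDiff ComplexConjugate

private theorem Logm_jen {f : ℂ → ℂ} (hf : Differentiable ℂ f) (t : ℝ)
    (h2 : 1 / 4 ≤ ‖f (2 + (t : ℂ) * I)‖) :
    ∫⁻ θ in Set.Ioo (-Real.pi) Real.pi,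
      ENNReal.ofReal (-Real.log ‖f (circleMap (2 + (t : ℂ) * I) (3 / 2) θ)‖) ≤
    (∫⁻ θ in Set.Ioo (-Real.pi) Real.pi,
      ENNReal.ofReal (Real.log ‖f (circleMap (2 + (t : ℂ) * I) (3 / 2) θ)‖)) +
      ENNReal.ofReal (2 * Real.pi * Real.log 4) := by
  have hR : (0 : ℝ) < 3 / 2 := by norm_num
  have han : AnalyticOnNhd ℂ f (Metric.closedBall (2 + (t : ℂ) * I) (3 / 2)) :=
    fun z _ => hf.analyticAt z
  have h1 := circ_parts hR han
  have h0 : f (2 + (t : ℂ) * I) ≠ 0 := by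
    intro h
    rw [h, norm_zero] at h2
    norm_num at h2
  have h3 := jensen_le hR han h0
  have h4 : -Real.log 4 ≤ Real.log ‖f (2 + (t : ℂ) * I)‖ := by
    rw [← Real.log_inv]
    refine Real.log_le_log (by norm_num) ?_
    linarith
  refine (le_self_add.trans h1.ge).trans (add_le_add le_rfl (ENNReal.ofReal_le_ofReal ?_))
  have h5 : 0 < 2 * Real.pi := by positivity
  nlinarith [mul_le_mul_of_nonneg_left (h4.trans h3) h5.le]

private theorem Logm_circle (t θ : ℝ) : circleMap (2 + (t : ℂ) * I) (3 / 2) θ =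
    ((2 + 3 / 2 * Real.cos θ : ℝ) : ℂ) + ((t + 3 / 2 * Real.sin θ : ℝ) : ℂ) * I := by
  rw [circleMap, Complex.exp_mul_I]
  push_cast
  ring

private theorem Logm_meas_p {f : ℂ → ℂ} (hf : Differentiable ℂ f) :
    Measurable fun z : ℂ => ENNReal.ofReal (Real.log ‖f z‖) :=
  (Real.measurable_log.comp hf.continuous.norm.measurable).ennreal_ofReal

private theorem Logm_meas_m {f : ℂ → ℂ} (hf : Differentiable ℂ f) :
    Measurable fun z : ℂ => ENNReal.ofReal (-Real.log ‖f z‖) :=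
  (Real.measurable_log.comp hf.continuous.norm.measurable).neg.ennreal_ofReal

private theorem Logm_lower (h : ℝ → ℝ≥0∞) (T s : ℝ) (hs : |s| ≤ 3 / 2) :
    ∫⁻ u in Set.Icc T (2 * T), h u ≤
      ∫⁻ t in Set.Icc (T - 3 / 2) (2 * T + 3 / 2), h (t + s) := by
  rw [← lintegral_indicator measurableSet_Icc, ← lintegral_indicator measurableSet_Icc,
    ← lintegral_add_right_eq_self _ s]
  refine lintegral_mono fun t => ?_
  obtain ⟨h1, h2⟩ := abs_le.mp hs
  by_cases ht : t + s ∈ Set.Icc T (2 * T)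
  · rw [Set.indicator_of_mem ht, Set.indicator_of_mem]
    rw [Set.mem_Icc] at ht ⊢
    constructor <;> linarith [ht.1, ht.2]
  · rw [Set.indicator_of_notMem ht]
    exact zero_le

private theorem Logm_upper (h : ℝ → ℝ≥0∞) (T s : ℝ) (hs : |s| ≤ 3 / 2) :
    ∫⁻ t in Set.Icc (T - 3 / 2) (2 * T + 3 / 2), h (t + s) ≤
      ∫⁻ u in Set.Icc (T - 5) (2 * T + 5), h u := by
  rw [← lintegral_indicator measurableSet_Icc, ← lintegral_indicator measurableSet_Icc,
    ← lintegral_add_right_eq_self (fun u => (Set.Icc (T - 5) (2 * T + 5)).indicator _ u) s]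
  refine lintegral_mono fun t => ?_
  obtain ⟨h1, h2⟩ := abs_le.mp hs
  by_cases ht : t ∈ Set.Icc (T - 3 / 2) (2 * T + 3 / 2)
  · rw [Set.indicator_of_mem ht, Set.indicator_of_mem]
    rw [Set.mem_Icc] at ht ⊢
    constructor <;> linarith [ht.1, ht.2]
  · rw [Set.indicator_of_notMem ht]
    exact zero_le

private theorem Logm_sin (θ : ℝ) : |3 / 2 * Real.sin θ| ≤ 3 / 2 := by
  rw [abs_mul, abs_of_pos (by norm_num : (0 : ℝ) < 3 / 2)]
  have := Real.abs_sin_le_one θ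
  linarith

private theorem Logm_one {f : ℂ → ℂ} (hf : Differentiable ℂ f)
    (h2 : ∀ t : ℝ, 1 / 4 ≤ ‖f (2 + (t : ℂ) * I)‖) (T : ℝ) :
    ∫⁻ θ in Set.Ioo (-Real.pi) Real.pi, ∫⁻ u in Set.Icc T (2 * T),
      ENNReal.ofReal (-Real.log ‖f (((2 + 3 / 2 * Real.cos θ : ℝ) : ℂ) + (u : ℂ) * I)‖) ≤
    (∫⁻ θ in Set.Ioo (-Real.pi) Real.pi, ∫⁻ u in Set.Icc (T - 5) (2 * T + 5),
      ENNReal.ofReal (Real.log ‖f (((2 + 3 / 2 * Real.cos θ : ℝ) : ℂ) + (u : ℂ) * I)‖)) +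
      ENNReal.ofReal (2 * Real.pi * Real.log 4) * ENNReal.ofReal (T + 3) := by
  have hc : Continuous fun p : ℝ × ℝ => circleMap (2 + (p.1 : ℂ) * I) (3 / 2) p.2 := by
    unfold circleMap
    fun_prop
  have hc' : Continuous fun p : ℝ × ℝ => circleMap (2 + (p.2 : ℂ) * I) (3 / 2) p.1 := by
    unfold circleMap
    fun_prop
  have hmp := (Logm_meas_p hf).comp hc.measurable
  have hmm := (Logm_meas_m hf).comp hc.measurable
  have k1 : ∫⁻ t in Set.Icc (T - 3 / 2) (2 * T + 3 / 2),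
      ∫⁻ θ in Set.Ioo (-Real.pi) Real.pi,
        ENNReal.ofReal (-Real.log ‖f (circleMap (2 + (t : ℂ) * I) (3 / 2) θ)‖) ≤
      (∫⁻ t in Set.Icc (T - 3 / 2) (2 * T + 3 / 2), ∫⁻ θ in Set.Ioo (-Real.pi) Real.pi,
        ENNReal.ofReal (Real.log ‖f (circleMap (2 + (t : ℂ) * I) (3 / 2) θ)‖)) +
      ENNReal.ofReal (2 * Real.pi * Real.log 4) * ENNReal.ofReal (T + 3) := by
    have e : ENNReal.ofReal (2 * Real.pi * Real.log 4) * ENNReal.ofReal (T + 3) =
        ∫⁻ _t in Set.Icc (T - 3 / 2) (2 * T + 3 / 2),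
          ENNReal.ofReal (2 * Real.pi * Real.log 4) := by
      rw [setLIntegral_const, Real.volume_Icc]
      congr 2
      ring
    rw [e, ← lintegral_add_right _ measurable_const]
    exact lintegral_mono fun t => Logm_jen hf t (h2 t)
  have s1 : ∫⁻ t in Set.Icc (T - 3 / 2) (2 * T + 3 / 2),
      ∫⁻ θ in Set.Ioo (-Real.pi) Real.pi,
        ENNReal.ofReal (-Real.log ‖f (circleMap (2 + (t : ℂ) * I) (3 / 2) θ)‖) =
      ∫⁻ θ in Set.Ioo (-Real.pi) Real.pi, ∫⁻ t in Set.Icc (T - 3 / 2) (2 * T + 3 / 2),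
        ENNReal.ofReal (-Real.log ‖f (circleMap (2 + (t : ℂ) * I) (3 / 2) θ)‖) :=
    lintegral_lintegral_swap hmm.aemeasurable
  have s2 : ∫⁻ t in Set.Icc (T - 3 / 2) (2 * T + 3 / 2),
      ∫⁻ θ in Set.Ioo (-Real.pi) Real.pi,
        ENNReal.ofReal (Real.log ‖f (circleMap (2 + (t : ℂ) * I) (3 / 2) θ)‖) =
      ∫⁻ θ in Set.Ioo (-Real.pi) Real.pi, ∫⁻ t in Set.Icc (T - 3 / 2) (2 * T + 3 / 2),
        ENNReal.ofReal (Real.log ‖f (circleMap (2 + (t : ℂ) * I) (3 / 2) θ)‖) :=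
    lintegral_lintegral_swap hmp.aemeasurable
  rw [s1, s2] at k1
  refine (lintegral_mono fun θ => ?_).trans (k1.trans (add_le_add (lintegral_mono fun θ => ?_)
    le_rfl))
  · simp only [Logm_circle]
    exact Logm_lower (fun u => ENNReal.ofReal
      (-Real.log ‖f (((2 + 3 / 2 * Real.cos θ : ℝ) : ℂ) + (u : ℂ) * I)‖)) T _ (Logm_sin θ)
  · simp only [Logm_circle]
    exact Logm_upper (fun u => ENNReal.ofReal
      (Real.log ‖f (((2 + 3 / 2 * Real.cos θ : ℝ) : ℂ) + (u : ℂ) * I)‖)) T _ (Logm_sin θ)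

private theorem Logm_image : (fun θ : ℝ => 2 + 3 / 2 * Real.cos θ) '' Set.Ioo 0 Real.pi =
    Set.Ioo (1 / 2 : ℝ) (7 / 2) := by
  ext σ
  rw [Set.mem_image, Set.mem_Ioo]
  constructor
  · rintro ⟨θ, ⟨h1, h2⟩, rfl⟩
    have h3 : Real.cos θ < 1 := by
      have := Real.cos_lt_cos_of_nonneg_of_le_pi le_rfl h2.le h1
      rwa [Real.cos_zero] at this
    have h4 : -1 < Real.cos θ := by
      have := Real.cos_lt_cos_of_nonneg_of_le_pi h1.le le_rfl h2
      rwa [Real.cos_pi] at this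
    constructor <;> linarith
  · rintro ⟨h1, h2⟩
    have h3 : -1 < 2 / 3 * (σ - 2) := by linarith
    have h4 : 2 / 3 * (σ - 2) < 1 := by linarith
    refine ⟨Real.arccos (2 / 3 * (σ - 2)), ⟨Real.arccos_pos.mpr h4, ?_⟩, ?_⟩
    · refine lt_of_le_of_ne (Real.arccos_le_pi _) fun h => ?_
      rw [Real.arccos_eq_pi] at h
      linarith
    · rw [Real.cos_arccos h3.le h4.le]
      ring

private theorem Logm_cov (A : ℝ → ℝ≥0∞) :
    ∫⁻ σ in Set.Ioo (1 / 2 : ℝ) (7 / 2), A σ ≤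
      ENNReal.ofReal (3 / 2) *
        ∫⁻ θ in Set.Ioo (-Real.pi) Real.pi, A (2 + 3 / 2 * Real.cos θ) := by
  have hd : ∀ θ ∈ Set.Ioo (0 : ℝ) Real.pi, HasDerivWithinAt
      (fun θ : ℝ => 2 + 3 / 2 * Real.cos θ) (3 / 2 * -Real.sin θ) (Set.Ioo 0 Real.pi) θ :=
    fun θ _ => (((Real.hasDerivAt_cos θ).const_mul (3 / 2)).const_add 2).hasDerivWithinAt
  have hinj : Set.InjOn (fun θ : ℝ => 2 + 3 / 2 * Real.cos θ) (Set.Ioo 0 Real.pi) := by
    intro a ha b hb hab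
    simp only at hab
    exact Real.injOn_cos ⟨ha.1.le, ha.2.le⟩ ⟨hb.1.le, hb.2.le⟩ (by linarith)
  rw [← Logm_image, lintegral_image_eq_lintegral_abs_deriv_mul measurableSet_Ioo hd hinj]
  calc ∫⁻ θ in Set.Ioo 0 Real.pi, ENNReal.ofReal |3 / 2 * -Real.sin θ| *
        A (2 + 3 / 2 * Real.cos θ)
      ≤ ∫⁻ θ in Set.Ioo 0 Real.pi, ENNReal.ofReal (3 / 2) * A (2 + 3 / 2 * Real.cos θ) := by
        refine lintegral_mono fun θ => mul_le_mul_left (ENNReal.ofReal_le_ofReal ?_) _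
        have := Logm_sin θ
        rwa [mul_neg, abs_neg]
    _ = ENNReal.ofReal (3 / 2) * ∫⁻ θ in Set.Ioo 0 Real.pi, A (2 + 3 / 2 * Real.cos θ) :=
        lintegral_const_mul' _ _ ENNReal.ofReal_ne_top
    _ ≤ _ := by
        refine mul_le_mul_right (lintegral_mono_set ?_) _
        exact Set.Ioo_subset_Ioo (by linarith [Real.pi_pos]) le_rfl

/-- Text, section 5: Jensen on the discs with centre `2 + it` and radius `3/2`. -/
theorem logm {ι : Type*} (S : Finset ι) (f : ι → ℂ → ℂ) (hf : ∀ i ∈ S, Differentiable ℂ (f i))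
    (h2 : ∀ i ∈ S, ∀ t : ℝ, 1 / 4 ≤ ‖f i (2 + (t : ℂ) * I)‖) (T : ℝ) (hT : 6 ≤ T) (K : ℝ≥0∞)
    (hK : ∀ σ : ℝ, 1 / 2 ≤ σ → σ ≤ 4 → ∑ i ∈ S, ∫⁻ t in Set.Icc (T - 5) (2 * T + 5),
      ENNReal.ofReal (Real.log ‖f i ((σ : ℂ) + (t : ℂ) * I)‖) ≤ K) :
    ∑ i ∈ S, ∫⁻ σ in Set.Ioo (1 / 2 : ℝ) (7 / 2), ∫⁻ t in Set.Icc T (2 * T),
      ENNReal.ofReal (-Real.log ‖f i ((σ : ℂ) + (t : ℂ) * I)‖) ≤
      ENNReal.ofReal (3 * Real.pi) * K +
        ENNReal.ofReal (3 * Real.pi * (T + 4) * Real.log 4) * S.card := by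
  have hpi := Real.pi_pos
  have hlog : 0 ≤ Real.log 4 := Real.log_nonneg (by norm_num)
  have hB : ∑ i ∈ S, ∫⁻ θ in Set.Ioo (-Real.pi) Real.pi, ∫⁻ u in Set.Icc (T - 5) (2 * T + 5),
      ENNReal.ofReal (Real.log ‖f i (((2 + 3 / 2 * Real.cos θ : ℝ) : ℂ) + (u : ℂ) * I)‖) ≤
      ENNReal.ofReal (2 * Real.pi) * K := by
    rw [← lintegral_finsetSum' S]
    · calc _ ≤ ∫⁻ _θ in Set.Ioo (-Real.pi) Real.pi, K := by
            refine lintegral_mono fun θ => hK _ ?_ ?_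
            · linarith [Real.neg_one_le_cos θ]
            · linarith [Real.cos_le_one θ]
        _ = _ := by
            rw [setLIntegral_const, Real.volume_Ioo, mul_comm]
            congr 2
            ring
    · intro i hi
      refine Measurable.aemeasurable ?_
      have hc : Continuous fun p : ℝ × ℝ =>
          (((2 + 3 / 2 * Real.cos p.1 : ℝ) : ℂ) + (p.2 : ℂ) * I) := by
        have := Real.continuous_cos
        fun_prop
      exact ((Logm_meas_p (hf i hi)).comp hc.measurable).lintegral_prod_right'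
  calc ∑ i ∈ S, ∫⁻ σ in Set.Ioo (1 / 2 : ℝ) (7 / 2), ∫⁻ t in Set.Icc T (2 * T),
      ENNReal.ofReal (-Real.log ‖f i ((σ : ℂ) + (t : ℂ) * I)‖)
      ≤ ∑ i ∈ S, ENNReal.ofReal (3 / 2) *
        ((∫⁻ θ in Set.Ioo (-Real.pi) Real.pi, ∫⁻ u in Set.Icc (T - 5) (2 * T + 5),
          ENNReal.ofReal (Real.log ‖f i (((2 + 3 / 2 * Real.cos θ : ℝ) : ℂ) + (u : ℂ) * I)‖)) +
          ENNReal.ofReal (2 * Real.pi * Real.log 4) * ENNReal.ofReal (T + 3)) := by
        refine Finset.sum_le_sum fun i hi => ?_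
        refine (Logm_cov (fun σ => ∫⁻ t in Set.Icc T (2 * T),
          ENNReal.ofReal (-Real.log ‖f i ((σ : ℂ) + (t : ℂ) * I)‖))).trans ?_
        exact mul_le_mul_right (Logm_one (hf i hi) (h2 i hi) T) _
    _ ≤ ENNReal.ofReal (3 / 2) * (ENNReal.ofReal (2 * Real.pi) * K +
          S.card * (ENNReal.ofReal (2 * Real.pi * Real.log 4) * ENNReal.ofReal (T + 3))) := by
        rw [← Finset.mul_sum, Finset.sum_add_distrib, Finset.sum_const, nsmul_eq_mul]
        exact mul_le_mul_right (add_le_add hB le_rfl) _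
    _ ≤ _ := by
        rw [mul_add, ← mul_assoc, ← ENNReal.ofReal_mul (by norm_num)]
        refine add_le_add (le_of_eq ?_) ?_
        · congr 2
          ring
        · rw [← ENNReal.ofReal_mul (by positivity), mul_left_comm,
            ← ENNReal.ofReal_mul (by norm_num), mul_comm]
          refine mul_le_mul_left (ENNReal.ofReal_le_ofReal ?_) _
          nlinarith [mul_nonneg hpi.le hlog]

end Pool.Agent.EM
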