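import Pool.Agent.Lib.MP_848d44_nt_EM.Defs
import Pool.Agent.Lib.MP_848d44_nt_EM.Hyb

/-!
# Project EM (MP_848d44_nt), module Logp: log+ |L| on average
-/

set_option autoImplicit false

namespace Pool.Agent.EM

open Finset Complex MeasureTheory
open scoped ArithmeticFunction ENNReal ContDiff ComplexConjugate

private lemma Logp_log {X κ y : ℝ} (hX : 1 ≤ X) (hκ : 0 < κ) (hy : 0 ≤ y) :
    Real.log y ≤ κ * Real.log X + y ^ 2 * X ^ (-(2 * κ)) := by
  have hX0 : 0 < X := by linarith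
  have hlX : 0 ≤ Real.log X := Real.log_nonneg hX
  have hp : 0 < X ^ (-(2 * κ)) := Real.rpow_pos_of_pos hX0 _
  rcases hy.eq_or_lt with h | h
  · rw [← h, Real.log_zero]
    positivity
  · have hk : 0 < X ^ κ := Real.rpow_pos_of_pos hX0 _
    have h1 : Real.log y = κ * Real.log X + Real.log (y / X ^ κ) := by
      rw [Real.log_div h.ne' hk.ne', Real.log_rpow hX0]
      ring
    have h2 : Real.log (y / X ^ κ) ≤ (y / X ^ κ) ^ 2 := by
      have h3 := Real.log_le_sub_one_of_pos (div_pos h hk)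
      nlinarith [sq_nonneg (y / X ^ κ - 1 / 2)]
    have h4 : (y / X ^ κ) ^ 2 = y ^ 2 * X ^ (-(2 * κ)) := by
      rw [div_pow, Real.rpow_neg hX0.le, div_eq_mul_inv]
      congr 2
      rw [← Real.rpow_natCast, ← Real.rpow_mul hX0.le]
      congr 1
      push_cast
      ring
    rw [h1, ← h4]
    linarith

private lemma Logp_card (q : ℕ) [NeZero q] : (ncs q).card ≤ q.totient := by
  classical
  have h1 : Fintype.card (DirichletCharacter ℂ q) = q.totient := by
    rw [← Nat.card_eq_fintype_card]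
    exact DirichletCharacter.card_eq_totient_of_hasEnoughRootsOfUnity ℂ q
  rw [← h1]
  exact Finset.card_le_univ _

/-- Text, section 5, first display. -/
theorem logp (e₁ κ : ℝ) (h1 : 0 < e₁) (h1' : e₁ ≤ 1 / 2) (hκ : 0 < κ) :
    ∃ X₀ : ℝ, 1 ≤ X₀ ∧ ∀ X : ℝ, X₀ ≤ X → ∀ (q : ℕ) [NeZero q], (q : ℝ) ≤ X →
    ∀ σ : ℝ, 1 / 2 ≤ σ → σ ≤ 4 →
    ∑ χ ∈ ncs q, ∫⁻ t in Set.Icc (X ^ e₁ - 5) (2 * X ^ e₁ + 5),
      ENNReal.ofReal (Real.log ‖DirichletCharacter.LFunction χ ((σ : ℂ) + (t : ℂ) * I)‖) ≤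
      ENNReal.ofReal (3 * q.totient * X ^ e₁ * (κ * Real.log X)) := by
  set e₂ : ℝ := min (κ / 4) (1 / 2) with he2
  have he2p : 0 < e₂ := lt_min (by positivity) (by norm_num)
  have he2a : e₂ ≤ κ / 4 := min_le_left _ _
  have he2b : e₂ ≤ 1 / 2 := min_le_right _ _
  obtain ⟨X₁, hX₁, hH⟩ := hybrid_L e₁ e₂ h1 he2p (by linarith)
  refine ⟨max X₁ (max (Real.exp (1 / κ)) ((10 : ℝ) ^ (1 / e₁))), hX₁.trans (le_max_left _ _),
    ?_⟩
  intro X hX q _ hq σ hσ hσ'
  have hXa : X₁ ≤ X := (le_max_left _ _).trans hX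
  have hXb : Real.exp (1 / κ) ≤ X := (le_max_left _ _).trans ((le_max_right _ _).trans hX)
  have hXc : (10 : ℝ) ^ (1 / e₁) ≤ X := (le_max_right _ _).trans ((le_max_right _ _).trans hX)
  have hX1 : 1 ≤ X := hX₁.trans hXa
  have hX0 : 0 < X := by linarith
  have hN : 1 ≤ κ * Real.log X := by
    have h2 : 1 / κ ≤ Real.log X := by
      rw [← Real.log_exp (1 / κ)]
      exact Real.log_le_log (Real.exp_pos _) hXb
    rw [div_le_iff₀ hκ] at h2
    linarith
  set T : ℝ := X ^ e₁ with hT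
  have hT10 : 10 ≤ T := by
    have h2 : ((10 : ℝ) ^ (1 / e₁)) ^ e₁ ≤ X ^ e₁ :=
      Real.rpow_le_rpow (by positivity) hXc h1.le
    rw [← Real.rpow_mul (by norm_num), one_div, inv_mul_cancel₀ h1.ne', Real.rpow_one] at h2
    exact h2
  have hH' := hH X hXa q hq σ hσ hσ'
  have hp : 0 < X ^ (-(2 * κ)) := Real.rpow_pos_of_pos hX0 _
  have hφ : (0 : ℝ) ≤ q.totient := Nat.cast_nonneg _
  -- the estimate for each character
  have hchar : ∀ χ ∈ ncs q, ∫⁻ t in Set.Icc (T - 5) (2 * T + 5),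
      ENNReal.ofReal (Real.log ‖DirichletCharacter.LFunction χ ((σ : ℂ) + (t : ℂ) * I)‖) ≤
      ENNReal.ofReal (κ * Real.log X * (T + 10)) + ENNReal.ofReal (X ^ (-(2 * κ))) *
        ∫⁻ t in Set.Icc (T - 5) (2 * T + 5),
      ENNReal.ofReal (‖DirichletCharacter.LFunction χ ((σ : ℂ) + (t : ℂ) * I)‖ ^ 2) := by
    intro χ _
    calc ∫⁻ t in Set.Icc (T - 5) (2 * T + 5),
        ENNReal.ofReal (Real.log ‖DirichletCharacter.LFunction χ ((σ : ℂ) + (t : ℂ) * I)‖)
        ≤ ∫⁻ t in Set.Icc (T - 5) (2 * T + 5), (ENNReal.ofReal (κ * Real.log X) +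
          ENNReal.ofReal (X ^ (-(2 * κ))) * ENNReal.ofReal
            (‖DirichletCharacter.LFunction χ ((σ : ℂ) + (t : ℂ) * I)‖ ^ 2)) := by
          refine lintegral_mono fun t => ?_
          rw [← ENNReal.ofReal_mul hp.le, ← ENNReal.ofReal_add (by linarith) (by positivity)]
          refine ENNReal.ofReal_le_ofReal ?_
          have := Logp_log hX1 hκ
            (norm_nonneg (DirichletCharacter.LFunction χ ((σ : ℂ) + (t : ℂ) * I)))
          linarith
      _ = ENNReal.ofReal (κ * Real.log X) * volume (Set.Icc (T - 5) (2 * T + 5)) +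
          ENNReal.ofReal (X ^ (-(2 * κ))) * ∫⁻ t in Set.Icc (T - 5) (2 * T + 5),
            ENNReal.ofReal
              (‖DirichletCharacter.LFunction χ ((σ : ℂ) + (t : ℂ) * I)‖ ^ 2) := by
          rw [lintegral_add_left measurable_const, setLIntegral_const,
            lintegral_const_mul' _ _ ENNReal.ofReal_ne_top]
      _ = _ := by
          rw [Real.volume_Icc, ← ENNReal.ofReal_mul (by linarith)]
          congr 3
          ring
  calc ∑ χ ∈ ncs q, ∫⁻ t in Set.Icc (T - 5) (2 * T + 5),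
      ENNReal.ofReal (Real.log ‖DirichletCharacter.LFunction χ ((σ : ℂ) + (t : ℂ) * I)‖)
      ≤ ∑ χ ∈ ncs q, (ENNReal.ofReal (κ * Real.log X * (T + 10)) +
        ENNReal.ofReal (X ^ (-(2 * κ))) * ∫⁻ t in Set.Icc (T - 5) (2 * T + 5),
        ENNReal.ofReal (‖DirichletCharacter.LFunction χ ((σ : ℂ) + (t : ℂ) * I)‖ ^ 2)) :=
        Finset.sum_le_sum hchar
    _ = ((ncs q).card : ℝ≥0∞) * ENNReal.ofReal (κ * Real.log X * (T + 10)) +
        ENNReal.ofReal (X ^ (-(2 * κ))) * ∑ χ ∈ ncs q, ∫⁻ t in Set.Icc (T - 5) (2 * T + 5),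
        ENNReal.ofReal (‖DirichletCharacter.LFunction χ ((σ : ℂ) + (t : ℂ) * I)‖ ^ 2) := by
        rw [Finset.sum_add_distrib, Finset.sum_const, nsmul_eq_mul, Finset.mul_sum]
    _ ≤ ENNReal.ofReal (q.totient * (κ * Real.log X * (T + 10))) +
        ENNReal.ofReal (X ^ (-(2 * κ)) * (q.totient * T * X ^ (4 * e₂))) := by
        refine add_le_add ?_ ?_
        · rw [ENNReal.ofReal_mul hφ, ENNReal.ofReal_natCast]
          refine mul_le_mul_left ?_ _
          exact_mod_cast Logp_card q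
        · rw [ENNReal.ofReal_mul hp.le]
          exact mul_le_mul_right hH' _
    _ = ENNReal.ofReal (q.totient * (κ * Real.log X * (T + 10)) +
        X ^ (-(2 * κ)) * (q.totient * T * X ^ (4 * e₂))) := by
        rw [ENNReal.ofReal_add]
        · have : 0 ≤ κ * Real.log X * (T + 10) := mul_nonneg (by linarith) (by linarith)
          positivity
        · have h3 : 0 < X ^ (4 * e₂) := Real.rpow_pos_of_pos hX0 _
          have h4 : 0 ≤ T := by linarith
          positivity
    _ ≤ ENNReal.ofReal (3 * q.totient * T * (κ * Real.log X)) := by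
        refine ENNReal.ofReal_le_ofReal ?_
        have h3 : X ^ (-(2 * κ)) * X ^ (4 * e₂) ≤ 1 := by
          rw [← Real.rpow_add hX0]
          exact Real.rpow_le_one_of_one_le_of_nonpos hX1 (by linarith)
        have h4 : X ^ (-(2 * κ)) * (q.totient * T * X ^ (4 * e₂)) ≤ q.totient * T := by
          have h5 : 0 ≤ (q.totient : ℝ) * T := mul_nonneg hφ (by linarith)
          calc X ^ (-(2 * κ)) * (q.totient * T * X ^ (4 * e₂)) =
              (q.totient * T) * (X ^ (-(2 * κ)) * X ^ (4 * e₂)) := by ring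
            _ ≤ (q.totient * T) * 1 := mul_le_mul_of_nonneg_left h3 h5
            _ = q.totient * T := mul_one _
        have h5 : (q.totient : ℝ) * T ≤ q.totient * T * (κ * Real.log X) := by
          have h5 : 0 ≤ (q.totient : ℝ) * T := mul_nonneg hφ (by linarith)
          nlinarith
        have h6 : (q.totient : ℝ) * (κ * Real.log X * (T + 10)) ≤
            q.totient * (κ * Real.log X * (2 * T)) := by
          refine mul_le_mul_of_nonneg_left ?_ hφ
          refine mul_le_mul_of_nonneg_left (by linarith) (by linarith)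
        linarith

end Pool.Agent.EM
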