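import Pool.Agent.Lib.MP_848d44_nt_EM.Defs

/-!
# Project EM (MP_848d44_nt), module Two: a lower bound at 2 + it
-/

set_option autoImplicit false

namespace Pool.Agent.EM

open Finset Complex MeasureTheory
open scoped ArithmeticFunction ENNReal ContDiff ComplexConjugate

theorem L_two {q : ℕ} [NeZero q] (χ : DirichletCharacter ℂ q) (t : ℝ) :
    1 / 4 ≤ ‖DirichletCharacter.LFunction χ (2 + (t : ℂ) * I)‖ := by
  set s : ℂ := 2 + (t : ℂ) * I with hs
  have hre : s.re = 2 := by simp [hs]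
  have hre1 : 1 < s.re := by rw [hre]; norm_num
  rw [DirichletCharacter.LFunction_eq_LSeries χ hre1]
  have hsum : Summable (LSeries.term (fun n => χ (n : ZMod q)) s) :=
    DirichletCharacter.LSeriesSummable_of_one_lt_re χ hre1
  have h1 : HasSum (fun n : ℕ => if n = 1 then (1 : ℂ) else 0) 1 := hasSum_ite_eq 1 1
  have h2 : HasSum (fun n : ℕ => if n = 1 then (1 : ℝ) else 0) 1 := hasSum_ite_eq 1 1
  have h3 : HasSum (fun n : ℕ => LSeries.term (fun n => χ (n : ZMod q)) s n -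
      if n = 1 then (1 : ℂ) else 0) (LSeries (fun n => χ (n : ZMod q)) s - 1) :=
    hsum.hasSum.sub h1
  have h4 : HasSum (fun n : ℕ => 1 / (n : ℝ) ^ 2 - if n = 1 then (1 : ℝ) else 0)
      (Real.pi ^ 2 / 6 - 1) := hasSum_zeta_two.sub h2
  have h5 : ∀ n : ℕ, ‖LSeries.term (fun n => χ (n : ZMod q)) s n -
      if n = 1 then (1 : ℂ) else 0‖ ≤ 1 / (n : ℝ) ^ 2 - if n = 1 then (1 : ℝ) else 0 := by
    intro n
    rcases Nat.eq_zero_or_pos n with hn | hn
    · subst hn
      simp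
    by_cases h1 : n = 1
    · subst h1
      rw [if_pos rfl, if_pos rfl, LSeries.term_of_ne_zero one_ne_zero]
      simp
    · rw [if_neg h1, if_neg h1, sub_zero, sub_zero, LSeries.term_of_ne_zero hn.ne', norm_div,
        Complex.norm_natCast_cpow_of_pos hn, hre]
      have e1 : ((n : ℝ) ^ (2 : ℝ)) = (n : ℝ) ^ 2 := by
        rw [show (2 : ℝ) = ((2 : ℕ) : ℝ) from by norm_num, Real.rpow_natCast]
      rw [e1]
      exact div_le_div_of_nonneg_right (DirichletCharacter.norm_le_one χ _) (by positivity)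
  have h6 : ‖LSeries (fun n => χ (n : ZMod q)) s - 1‖ ≤ Real.pi ^ 2 / 6 - 1 := by
    rw [← h3.tsum_eq]
    exact tsum_of_norm_bounded h4 h5
  have h7 : Real.pi ^ 2 / 6 - 1 ≤ 3 / 4 := by
    have e1 := Real.pi_lt_d2
    have e2 := Real.pi_pos
    nlinarith
  have h8 : ‖(1 : ℂ)‖ ≤ ‖LSeries (fun n => χ (n : ZMod q)) s‖ +
      ‖LSeries (fun n => χ (n : ZMod q)) s - 1‖ := by
    have := norm_sub_le (LSeries (fun n => χ (n : ZMod q)) s)
      (LSeries (fun n => χ (n : ZMod q)) s - 1)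
    rwa [sub_sub_cancel] at this
  rw [norm_one] at h8
  linarith

end Pool.Agent.EM
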