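import Pool.Agent.Lib.MP_848d44_nt_EM.Defs
import Pool.Agent.Lib.MP_848d44_nt_EM.Logp
import Pool.Agent.Lib.MP_848d44_nt_EM.Logm
import Pool.Agent.Lib.MP_848d44_nt_EM.Two
import Pool.Agent.Lib.MP_848d44_nt_EM.Orth

/-!
# Project EM (MP_848d44_nt), module Lar: |log |L|| is small on average in the right half
-/

set_option autoImplicit false

namespace Pool.Agent.EM

open Finset Complex MeasureTheory
open scoped ArithmeticFunction ENNReal ContDiff ComplexConjugate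

private theorem Lar_sum_le {ι : Type*} (S : Finset ι) (f : ι → ℝ → ℝ≥0∞) (μ : Measure ℝ) :
    ∑ i ∈ S, ∫⁻ s, f i s ∂μ ≤ ∫⁻ s, ∑ i ∈ S, f i s ∂μ := by
  classical
  induction S using Finset.induction_on with
  | empty => simp
  | insert a S ha ih =>
    rw [Finset.sum_insert ha]
    calc ∫⁻ s, f a s ∂μ + ∑ i ∈ S, ∫⁻ s, f i s ∂μ
        ≤ ∫⁻ s, f a s ∂μ + ∫⁻ s, ∑ i ∈ S, f i s ∂μ := by gcongr
      _ ≤ ∫⁻ s, (f a s + ∑ i ∈ S, f i s) ∂μ := le_lintegral_add _ _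
      _ = ∫⁻ s, ∑ i ∈ insert a S, f i s ∂μ := by simp only [Finset.sum_insert ha]

private theorem Lar_abs (x : ℝ) : ENNReal.ofReal |x| ≤ ENNReal.ofReal x + ENNReal.ofReal (-x) := by
  rcases le_total 0 x with h | h
  · rw [abs_of_nonneg h]
    exact le_self_add
  · rw [abs_of_nonpos h]
    exact le_add_self

private theorem Lar_split {f : ℂ → ℂ} (hf : Differentiable ℂ f) (T : ℝ) :
    ∫⁻ σ in Set.Ioo (1 / 2 : ℝ) (7 / 2), ∫⁻ t in Set.Icc T (2 * T),
      ENNReal.ofReal |Real.log ‖f ((σ : ℂ) + (t : ℂ) * I)‖| ≤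
    (∫⁻ σ in Set.Ioo (1 / 2 : ℝ) (7 / 2), ∫⁻ t in Set.Icc T (2 * T),
      ENNReal.ofReal (Real.log ‖f ((σ : ℂ) + (t : ℂ) * I)‖)) +
    ∫⁻ σ in Set.Ioo (1 / 2 : ℝ) (7 / 2), ∫⁻ t in Set.Icc T (2 * T),
      ENNReal.ofReal (-Real.log ‖f ((σ : ℂ) + (t : ℂ) * I)‖) := by
  have hc : Continuous fun p : ℝ × ℝ => (p.1 : ℂ) + (p.2 : ℂ) * I := by fun_prop
  have hm : Measurable fun p : ℝ × ℝ =>
      ENNReal.ofReal (Real.log ‖f ((p.1 : ℂ) + (p.2 : ℂ) * I)‖) :=
    (Real.measurable_log.comp (hf.continuous.comp hc).norm.measurable).ennreal_ofReal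
  have hm1 : ∀ σ : ℝ, Measurable fun t : ℝ =>
      ENNReal.ofReal (Real.log ‖f ((σ : ℂ) + (t : ℂ) * I)‖) := fun σ =>
    hm.comp measurable_prodMk_left
  have hm2 : Measurable fun σ : ℝ => ∫⁻ t in Set.Icc T (2 * T),
      ENNReal.ofReal (Real.log ‖f ((σ : ℂ) + (t : ℂ) * I)‖) := hm.lintegral_prod_right'
  rw [← lintegral_add_left hm2]
  refine lintegral_mono fun σ => ?_
  dsimp only
  rw [← lintegral_add_left (hm1 σ)]
  exact lintegral_mono fun t => Lar_abs _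

/-- Text (5.1). -/
theorem log_area (e₁ κ : ℝ) (h1 : 0 < e₁) (h1' : e₁ ≤ 1 / 2) (hκ : 0 < κ) :
    ∃ X₀ : ℝ, 1 ≤ X₀ ∧ ∀ X : ℝ, X₀ ≤ X → ∀ (q : ℕ) [NeZero q], 3 ≤ q → (q : ℝ) ≤ X →
    ∑ χ ∈ ncs q, ∫⁻ σ in Set.Ioo (1 / 2 : ℝ) (7 / 2), ∫⁻ t in Set.Icc (X ^ e₁) (2 * X ^ e₁),
      ENNReal.ofReal |Real.log ‖DirichletCharacter.LFunction χ ((σ : ℂ) + (t : ℂ) * I)‖| ≤
      ENNReal.ofReal (50 * q.totient * X ^ e₁ * (κ * Real.log X)) := by
  obtain ⟨X₁, hX₁, H⟩ := logp e₁ κ h1 h1' hκ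
  refine ⟨max X₁ (max (Real.exp (3 / κ)) (6 ^ (1 / e₁))), le_max_of_le_left hX₁, ?_⟩
  intro X hX q _ hq hqX
  have hXa : X₁ ≤ X := (le_max_left _ _).trans hX
  have hXb : Real.exp (3 / κ) ≤ X :=
    ((le_max_left _ _).trans (le_max_right _ _)).trans hX
  have hXc : (6 : ℝ) ^ (1 / e₁) ≤ X :=
    ((le_max_right _ _).trans (le_max_right _ _)).trans hX
  have hX1 : 1 ≤ X := hX₁.trans hXa
  have hX0 : 0 < X := by linarith
  obtain ⟨T, hT⟩ : ∃ T : ℝ, T = X ^ e₁ := ⟨_, rfl⟩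
  obtain ⟨N, hN⟩ : ∃ N : ℝ, N = κ * Real.log X := ⟨_, rfl⟩
  have hT6 : 6 ≤ T := by
    rw [hT]
    calc (6 : ℝ) = ((6 : ℝ) ^ (1 / e₁)) ^ e₁ := by
          rw [← Real.rpow_mul (by norm_num), one_div_mul_cancel h1.ne', Real.rpow_one]
      _ ≤ X ^ e₁ := Real.rpow_le_rpow (by positivity) hXc h1.le
  have hN3 : 3 ≤ N := by
    have h2 : 3 / κ ≤ Real.log X := by
      rw [Real.le_log_iff_exp_le hX0]
      exact hXb
    rw [hN]
    calc (3 : ℝ) = κ * (3 / κ) := by field_simp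
      _ ≤ κ * Real.log X := mul_le_mul_of_nonneg_left h2 hκ.le
  have Hp := H X hXa q hqX
  rw [← hT, ← hN] at Hp ⊢
  have hφ : (0 : ℝ) ≤ (q.totient : ℝ) := Nat.cast_nonneg _
  have hpi := Real.pi_pos
  have hlog : 0 ≤ Real.log 4 := Real.log_nonneg (by norm_num)
  -- the negative part
  have Hm := logm (ncs q) (fun χ => DirichletCharacter.LFunction χ)
    (fun χ hχ => DirichletCharacter.differentiable_LFunction (mem_ncs.1 hχ))
    (fun χ _ t => L_two χ t) T hT6 _ (fun σ hσ hσ' => Hp σ hσ hσ')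
  -- the positive part
  have Hq : ∑ χ ∈ ncs q, ∫⁻ σ in Set.Ioo (1 / 2 : ℝ) (7 / 2), ∫⁻ t in Set.Icc T (2 * T),
      ENNReal.ofReal (Real.log ‖DirichletCharacter.LFunction χ ((σ : ℂ) + (t : ℂ) * I)‖) ≤
      ENNReal.ofReal 3 * ENNReal.ofReal (3 * q.totient * T * N) := by
    refine (Lar_sum_le _ _ _).trans ?_
    calc ∫⁻ σ in Set.Ioo (1 / 2 : ℝ) (7 / 2), ∑ χ ∈ ncs q, ∫⁻ t in Set.Icc T (2 * T),
          ENNReal.ofReal (Real.log ‖DirichletCharacter.LFunction χ ((σ : ℂ) + (t : ℂ) * I)‖)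
        ≤ ∫⁻ _σ in Set.Ioo (1 / 2 : ℝ) (7 / 2), ENNReal.ofReal (3 * q.totient * T * N) := by
          refine setLIntegral_mono' measurableSet_Ioo fun σ hσ => ?_
          refine le_trans ?_ (Hp σ hσ.1.le (by linarith [hσ.2]))
          refine Finset.sum_le_sum fun χ _ => ?_
          exact lintegral_mono_set (Set.Icc_subset_Icc (by linarith) (by linarith))
      _ = ENNReal.ofReal 3 * ENNReal.ofReal (3 * q.totient * T * N) := by
          rw [setLIntegral_const, Real.volume_Ioo, mul_comm]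
          norm_num
  have hcard := (card_ncs q hq).2
  have hcard' : ((ncs q).card : ℝ≥0∞) ≤ ENNReal.ofReal (q.totient : ℝ) := by
    rw [← ENNReal.ofReal_natCast]
    exact ENNReal.ofReal_le_ofReal hcard
  calc ∑ χ ∈ ncs q, ∫⁻ σ in Set.Ioo (1 / 2 : ℝ) (7 / 2), ∫⁻ t in Set.Icc T (2 * T),
        ENNReal.ofReal |Real.log ‖DirichletCharacter.LFunction χ ((σ : ℂ) + (t : ℂ) * I)‖|
      ≤ ∑ χ ∈ ncs q, ((∫⁻ σ in Set.Ioo (1 / 2 : ℝ) (7 / 2), ∫⁻ t in Set.Icc T (2 * T),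
          ENNReal.ofReal (Real.log ‖DirichletCharacter.LFunction χ ((σ : ℂ) + (t : ℂ) * I)‖)) +
        ∫⁻ σ in Set.Ioo (1 / 2 : ℝ) (7 / 2), ∫⁻ t in Set.Icc T (2 * T),
          ENNReal.ofReal
            (-Real.log ‖DirichletCharacter.LFunction χ ((σ : ℂ) + (t : ℂ) * I)‖)) :=
        Finset.sum_le_sum fun χ hχ => Lar_split
          (DirichletCharacter.differentiable_LFunction (mem_ncs.1 hχ)) T
    _ ≤ ENNReal.ofReal 3 * ENNReal.ofReal (3 * q.totient * T * N) +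
        (ENNReal.ofReal (3 * Real.pi) * ENNReal.ofReal (3 * q.totient * T * N) +
          ENNReal.ofReal (3 * Real.pi * (T + 4) * Real.log 4) *
            ENNReal.ofReal (q.totient : ℝ)) := by
        rw [Finset.sum_add_distrib]
        refine add_le_add Hq (Hm.trans ?_)
        gcongr
    _ = ENNReal.ofReal (3 * (3 * q.totient * T * N) + (3 * Real.pi * (3 * q.totient * T * N) +
          3 * Real.pi * (T + 4) * Real.log 4 * q.totient)) := by
        rw [← ENNReal.ofReal_mul (by norm_num), ← ENNReal.ofReal_mul (by positivity),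
          ← ENNReal.ofReal_mul (by positivity), ← ENNReal.ofReal_add (by positivity)
          (by positivity), ← ENNReal.ofReal_add (by positivity) (by positivity)]
    _ ≤ ENNReal.ofReal (50 * q.totient * T * N) := by
        refine ENNReal.ofReal_le_ofReal ?_
        have hpi2 : Real.pi ≤ 3.15 := by linarith [Real.pi_lt_d2]
        have hlog4 : Real.log 4 ≤ 1.4 := by
          have : Real.log 4 = 2 * Real.log 2 := by
            rw [show (4 : ℝ) = 2 ^ (2 : ℕ) by norm_num, Real.log_pow]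
            norm_num
          rw [this]
          linarith [Real.log_two_lt_d9]
        have hφT : 0 ≤ (q.totient : ℝ) * T := by positivity
        have hφTN : 0 ≤ (q.totient : ℝ) * T * N := by positivity
        have e1 : Real.pi * ((q.totient : ℝ) * T * N) ≤ 3.15 * ((q.totient : ℝ) * T * N) :=
          mul_le_mul_of_nonneg_right hpi2 hφTN
        have e2 : 3 * Real.pi * (T + 4) * Real.log 4 * q.totient ≤
            3 * 3.15 * (2 * T) * 1.4 * q.totient := by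
          have : T + 4 ≤ 2 * T := by linarith
          gcongr
        have e3 : (q.totient : ℝ) * T * 3 ≤ (q.totient : ℝ) * T * N :=
          mul_le_mul_of_nonneg_left hN3 hφT
        nlinarith [e1, e2, e3]

end Pool.Agent.EM
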