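import Pool.Agent.Lib.MP_848d44_nt_EM.Defs

/-!
# Project EM (MP_848d44_nt), module Ref: reflection
-/

set_option autoImplicit false

namespace Pool.Agent.EM

open Finset Complex MeasureTheory
open scoped ArithmeticFunction ENNReal ContDiff ComplexConjugate

private theorem Ref_null {f : ℂ → ℂ} (hf : Differentiable ℂ f) (hne : ∃ z, f z ≠ 0) :
    volume {z : ℂ | f z = 0} = 0 := by
  apply measure_null_of_locally_null
  intro x _
  refine ⟨{x}, ?_, measure_singleton x⟩
  rcases (hf.analyticAt x).eventually_eq_zero_or_eventually_ne_zero with h1 | h1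
  · exfalso
    obtain ⟨z, hz⟩ := hne
    have h2 := AnalyticOnNhd.eq_of_eventuallyEq
      (fun z _ => hf.analyticAt z : AnalyticOnNhd ℂ f Set.univ)
      (fun _ _ => analyticAt_const : AnalyticOnNhd ℂ (fun _ => (0 : ℂ)) Set.univ) h1
    exact hz (congrFun h2 z)
  · rw [eventually_nhdsWithin_iff] at h1
    rw [mem_nhdsWithin_iff_eventually]
    filter_upwards [h1] with y hy hys
    by_contra h2
    exact hy h2 hys

private theorem Ref_line : volume {z : ℂ | z.re = 1 / 2} = 0 := by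
  have h1 : {z : ℂ | z.re = 1 / 2} =
      Complex.measurableEquivRealProd ⁻¹' (({1 / 2} : Set ℝ) ×ˢ (Set.univ : Set ℝ)) := by
    ext z
    simp [Complex.measurableEquivRealProd_apply]
  rw [h1, Complex.volume_preserving_equiv_real_prod.measure_preimage_equiv, Measure.volume_eq_prod,
    Measure.prod_prod, Real.volume_singleton, zero_mul]

private theorem Ref_mp : MeasurePreserving (fun z : ℂ => 1 - conj z) := by
  have h1 := (Complex.conjLIE.trans (LinearIsometryEquiv.neg ℝ)).measurePreserving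
  have h2 := (measurePreserving_add_left (volume : Measure ℂ) 1).comp h1
  have h3 : (fun z : ℂ => 1 - conj z) =
      (fun x : ℂ => 1 + x) ∘ (Complex.conjLIE.trans (LinearIsometryEquiv.neg ℝ)) := by
    funext z
    simp [sub_eq_add_neg]
  rw [h3]
  exact h2

/-- Text (7.3). -/
theorem reflect {f : ℂ → ℂ} (hf : Differentiable ℂ f) (hne : ∃ z, f z ≠ 0) (t₀ r E : ℝ)
    (hr : 0 < r) (hr' : 3 * r ≤ 1) (hE : 0 ≤ E)
    (h : ∀ z ∈ Metric.ball (1 / 2 + (t₀ : ℂ) * I) (3 * r), z.re ≤ 1 / 2 →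
      Real.exp (-E) * ‖f (1 - conj z)‖ ≤ ‖f z‖) :
    ∫⁻ z in Metric.ball (1 / 2 + (t₀ : ℂ) * I) (3 * r), ENNReal.ofReal (-Real.log ‖f z‖) ≤
      2 * (∫⁻ z in Metric.ball (1 / 2 + (t₀ : ℂ) * I) 1 ∩ {z : ℂ | 1 / 2 < z.re},
        ENNReal.ofReal |Real.log ‖f z‖|) + ENNReal.ofReal (9 * Real.pi * r ^ 2 * E) := by
  obtain ⟨c, hc⟩ : ∃ c : ℂ, c = 1 / 2 + (t₀ : ℂ) * I := ⟨_, rfl⟩
  rw [← hc] at h ⊢
  have hmG : Measurable fun z : ℂ => ENNReal.ofReal |Real.log ‖f z‖| := by
    have h1 : Measurable fun z : ℂ => Real.log ‖f z‖ :=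
      Real.measurable_log.comp hf.continuous.norm.measurable
    exact ENNReal.measurable_ofReal.comp (measurable_norm.comp h1)
  have hmb : MeasurableSet (Metric.ball c (3 * r)) := measurableSet_ball
  have hmlt : MeasurableSet {z : ℂ | 1 / 2 < z.re} :=
    measurableSet_lt measurable_const Complex.measurable_re
  have hmle : MeasurableSet {z : ℂ | z.re ≤ 1 / 2} :=
    measurableSet_le Complex.measurable_re measurable_const
  have hmge : MeasurableSet {z : ℂ | 1 / 2 ≤ z.re} :=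
    measurableSet_le measurable_const Complex.measurable_re
  have hcover : Metric.ball c (3 * r) ⊆ (Metric.ball c (3 * r) ∩ {z : ℂ | 1 / 2 < z.re}) ∪
      (Metric.ball c (3 * r) ∩ {z : ℂ | z.re ≤ 1 / 2}) := by
    intro z hz
    rcases lt_or_ge (1 / 2) z.re with h1 | h1
    · exact Or.inl ⟨hz, h1⟩
    · exact Or.inr ⟨hz, h1⟩
  have hA : ∫⁻ z in Metric.ball c (3 * r) ∩ {z : ℂ | 1 / 2 < z.re},
      ENNReal.ofReal |Real.log ‖f z‖| ≤
      ∫⁻ z in Metric.ball c 1 ∩ {z : ℂ | 1 / 2 < z.re}, ENNReal.ofReal |Real.log ‖f z‖| :=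
    lintegral_mono_set (Set.inter_subset_inter_left _ (Metric.ball_subset_ball hr'))
  have hA1 : ∫⁻ z in Metric.ball c (3 * r) ∩ {z : ℂ | 1 / 2 < z.re},
      ENNReal.ofReal (-Real.log ‖f z‖) ≤
      ∫⁻ z in Metric.ball c 1 ∩ {z : ℂ | 1 / 2 < z.re}, ENNReal.ofReal |Real.log ‖f z‖| := by
    refine le_trans (lintegral_mono fun z => ?_) hA
    exact ENNReal.ofReal_le_ofReal (neg_le_abs _)
  have hpre : (fun z : ℂ => 1 - conj z) ⁻¹' (Metric.ball c (3 * r) ∩ {z : ℂ | 1 / 2 ≤ z.re}) =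
      Metric.ball c (3 * r) ∩ {z : ℂ | z.re ≤ 1 / 2} := by
    ext z
    have h1 : dist (1 - conj z) c = dist z c := by
      rw [dist_eq_norm, dist_eq_norm]
      have h2 : 1 - conj z - c = -conj (z - c) := by
        rw [hc]
        apply Complex.ext <;> simp <;> ring
      rw [h2, norm_neg, RCLike.norm_conj]
    simp only [Set.mem_preimage, Set.mem_inter_iff, Metric.mem_ball, Set.mem_ofPred_eq, h1]
    constructor
    · rintro ⟨h3, h4⟩
      refine ⟨h3, ?_⟩
      simp only [Complex.sub_re, Complex.one_re, Complex.conj_re] at h4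
      linarith
    · rintro ⟨h3, h4⟩
      refine ⟨h3, ?_⟩
      simp only [Complex.sub_re, Complex.one_re, Complex.conj_re]
      linarith
  have hB2 : ∫⁻ z in Metric.ball c (3 * r) ∩ {z : ℂ | z.re ≤ 1 / 2},
      ENNReal.ofReal |Real.log ‖f (1 - conj z)‖| ≤
      ∫⁻ z in Metric.ball c 1 ∩ {z : ℂ | 1 / 2 < z.re}, ENNReal.ofReal |Real.log ‖f z‖| := by
    have h1 := Ref_mp.setLIntegral_comp_preimage (hmb.inter hmge) hmG
    rw [hpre] at h1
    rw [h1]
    refine le_trans ?_ hA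
    have h2 : Metric.ball c (3 * r) ∩ {z : ℂ | 1 / 2 ≤ z.re} ⊆
        (Metric.ball c (3 * r) ∩ {z : ℂ | 1 / 2 < z.re}) ∪ {z : ℂ | z.re = 1 / 2} := by
      rintro z ⟨hz, hz2⟩
      rcases eq_or_lt_of_le (show 1 / 2 ≤ z.re from hz2) with h3 | h3
      · exact Or.inr h3.symm
      · exact Or.inl ⟨hz, h3⟩
    refine (lintegral_mono_set h2).trans ((lintegral_union_le _ _ _).trans ?_)
    rw [setLIntegral_measure_zero _ _ Ref_line, add_zero]
  have hB1 : ∫⁻ z in Metric.ball c (3 * r) ∩ {z : ℂ | z.re ≤ 1 / 2},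
      ENNReal.ofReal (-Real.log ‖f z‖) ≤
      ∫⁻ z in Metric.ball c (3 * r) ∩ {z : ℂ | z.re ≤ 1 / 2},
        (ENNReal.ofReal E + ENNReal.ofReal |Real.log ‖f (1 - conj z)‖|) := by
    apply lintegral_mono_ae
    refine (ae_restrict_iff' (hmb.inter hmle)).2 ?_
    have h1 : ∀ᵐ z : ℂ, f (1 - conj z) ≠ 0 := by
      have h2 : ∀ᵐ z : ℂ, f z ≠ 0 := by
        rw [ae_iff]
        simpa using Ref_null hf hne
      exact Ref_mp.quasiMeasurePreserving.ae h2
    filter_upwards [h1] with z hz hzB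
    have h3 := h z hzB.1 hzB.2
    have h4 : 0 < ‖f (1 - conj z)‖ := norm_pos_iff.2 hz
    have h5 : Real.log (Real.exp (-E) * ‖f (1 - conj z)‖) ≤ Real.log ‖f z‖ :=
      Real.log_le_log (by positivity) h3
    rw [Real.log_mul (Real.exp_pos _).ne' h4.ne', Real.log_exp] at h5
    rw [← ENNReal.ofReal_add hE (abs_nonneg _)]
    apply ENNReal.ofReal_le_ofReal
    have h6 := neg_abs_le (Real.log ‖f (1 - conj z)‖)
    linarith
  have hB3 : ∫⁻ z in Metric.ball c (3 * r) ∩ {z : ℂ | z.re ≤ 1 / 2},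
        (ENNReal.ofReal E + ENNReal.ofReal |Real.log ‖f (1 - conj z)‖|) ≤
      ENNReal.ofReal (9 * Real.pi * r ^ 2 * E) +
      ∫⁻ z in Metric.ball c 1 ∩ {z : ℂ | 1 / 2 < z.re}, ENNReal.ofReal |Real.log ‖f z‖| := by
    rw [lintegral_add_left measurable_const]
    refine add_le_add ?_ hB2
    rw [setLIntegral_const]
    calc ENNReal.ofReal E * volume (Metric.ball c (3 * r) ∩ {z : ℂ | z.re ≤ 1 / 2})
        ≤ ENNReal.ofReal E * volume (Metric.ball c (3 * r)) := by
          gcongr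
          exact Set.inter_subset_left
      _ = ENNReal.ofReal (9 * Real.pi * r ^ 2 * E) := by
          rw [Complex.volume_ball]
          have h1 : ((NNReal.pi : NNReal) : ENNReal) = ENNReal.ofReal Real.pi := by
            rw [← NNReal.coe_real_pi, ENNReal.ofReal_coe_nnreal]
          rw [h1, ← ENNReal.ofReal_pow (by positivity), ← ENNReal.ofReal_mul (by positivity),
            ← ENNReal.ofReal_mul hE]
          congr 1
          ring
  calc ∫⁻ z in Metric.ball c (3 * r), ENNReal.ofReal (-Real.log ‖f z‖)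
      ≤ ∫⁻ z in (Metric.ball c (3 * r) ∩ {z : ℂ | 1 / 2 < z.re}) ∪
          (Metric.ball c (3 * r) ∩ {z : ℂ | z.re ≤ 1 / 2}), ENNReal.ofReal (-Real.log ‖f z‖) :=
        lintegral_mono_set hcover
    _ ≤ _ := lintegral_union_le _ _ _
    _ ≤ (∫⁻ z in Metric.ball c 1 ∩ {z : ℂ | 1 / 2 < z.re}, ENNReal.ofReal |Real.log ‖f z‖|) +
        (ENNReal.ofReal (9 * Real.pi * r ^ 2 * E) +
        ∫⁻ z in Metric.ball c 1 ∩ {z : ℂ | 1 / 2 < z.re}, ENNReal.ofReal |Real.log ‖f z‖|) :=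
        add_le_add hA1 (hB1.trans hB3)
    _ = _ := by
        rw [two_mul]
        ring

end Pool.Agent.EM
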