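import Pool.Agent.Lib.MP_848d44_nt_EM.Defs

/-!
# Project EM (MP_848d44_nt), module Typ: a typical pair
-/

set_option autoImplicit false

namespace Pool.Agent.EM

open Finset Complex MeasureTheory
open scoped ArithmeticFunction ENNReal ContDiff ComplexConjugate

/-- Iterated integral over a rectangle. -/
private theorem Typ_rect (f : ℂ → ℝ≥0∞) (hf : Measurable f) (A B : Set ℝ) :
    ∫⁻ z in {z : ℂ | z.re ∈ A ∧ z.im ∈ B}, f z =
      ∫⁻ σ in A, ∫⁻ t in B, f ((σ : ℂ) + (t : ℂ) * I) := by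
  have h1 := (MeasurePreserving.symm _
    Complex.volume_preserving_equiv_real_prod).setLIntegral_comp_preimage_emb
      Complex.measurableEquivRealProd.symm.measurableEmbedding f {z : ℂ | z.re ∈ A ∧ z.im ∈ B}
  have h2 : (Complex.measurableEquivRealProd.symm : ℝ × ℝ → ℂ) ⁻¹' {z : ℂ | z.re ∈ A ∧ z.im ∈ B}
      = A ×ˢ B := by
    ext p
    simp [Complex.measurableEquivRealProd_symm_apply]
  have h3 : ∀ p : ℝ × ℝ, Complex.measurableEquivRealProd.symm p = (p.1 : ℂ) + (p.2 : ℂ) * I := by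
    intro p
    rw [Complex.measurableEquivRealProd_symm_apply]
    apply Complex.ext <;> simp
  rw [h2] at h1
  simp only [h3] at h1
  rw [← h1, Measure.volume_eq_prod, setLIntegral_prod]
  have : Measurable fun p : ℝ × ℝ => f ((p.1 : ℂ) + (p.2 : ℂ) * I) := by fun_prop
  exact this.aemeasurable

private theorem Typ_ball {r : ℝ} (hr : 0 < r) (c : ℂ) :
    volume (Metric.ball c (3 * r)) = ENNReal.ofReal (9 * Real.pi * r ^ 2) := by
  rw [Complex.volume_ball]
  have h : (NNReal.pi : ℝ≥0∞) = ENNReal.ofReal Real.pi := by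
    rw [← NNReal.coe_real_pi, ENNReal.ofReal_coe_nnreal]
  rw [h, ← ENNReal.ofReal_pow (by positivity), ← ENNReal.ofReal_mul (by positivity)]
  congr 1
  ring

private theorem Typ_mem {r t₀ : ℝ} {z : ℂ} (hz : z ∈ Metric.ball (1 / 2 + (t₀ : ℂ) * I) r) :
    |z.re - 1 / 2| ≤ r ∧ |z.im - t₀| ≤ r ∧ |z.im - t₀| < r ∧ |z.re - 1 / 2| < r := by
  rw [Metric.mem_ball, dist_eq_norm] at hz
  have h1 := (abs_re_le_norm (z - (1 / 2 + (t₀ : ℂ) * I)))
  have h2 := (abs_im_le_norm (z - (1 / 2 + (t₀ : ℂ) * I)))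
  have e1 : (z - (1 / 2 + (t₀ : ℂ) * I)).re = z.re - 1 / 2 := by simp
  have e2 : (z - (1 / 2 + (t₀ : ℂ) * I)).im = z.im - t₀ := by simp
  rw [e1] at h1
  rw [e2] at h2
  exact ⟨h1.trans hz.le, h2.trans hz.le, h2.trans_lt hz, h1.trans_lt hz⟩

/-- The second average, for one function. -/
private theorem Typ_snd (f : ℂ → ℝ≥0∞) (hf : Measurable f) (T : ℝ) :
    ∫⁻ t₀ in Set.Icc (T + 1) (2 * T - 1),
      ∫⁻ z in Metric.ball (1 / 2 + (t₀ : ℂ) * I) 1 ∩ {z : ℂ | 1 / 2 < z.re}, f z ≤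
      2 * ∫⁻ σ in Set.Ioo (1 / 2 : ℝ) (7 / 2), ∫⁻ t in Set.Icc T (2 * T),
        f ((σ : ℂ) + (t : ℂ) * I) := by
  rw [← Typ_rect f hf]
  set D : Set (ℝ × ℂ) := {p | dist p.2 (1 / 2 + (p.1 : ℂ) * I) < 1 ∧ 1 / 2 < p.2.re} with hD
  have hDm : MeasurableSet D := by
    have h1 : Measurable fun p : ℝ × ℂ => dist p.2 (1 / 2 + (p.1 : ℂ) * I) := by fun_prop
    have h2 : Measurable fun p : ℝ × ℂ => p.2.re := by fun_prop
    exact (measurableSet_lt h1 measurable_const).inter (measurableSet_lt measurable_const h2)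
  have hk : Measurable (Function.uncurry fun (t₀ : ℝ) (z : ℂ) =>
      D.indicator (fun p => f p.2) (t₀, z)) := by
    have : Measurable (D.indicator (fun p : ℝ × ℂ => f p.2)) :=
      (hf.comp measurable_snd).indicator hDm
    exact this
  have e1 : ∀ t₀ : ℝ,
      ∫⁻ z in Metric.ball (1 / 2 + (t₀ : ℂ) * I) 1 ∩ {z : ℂ | 1 / 2 < z.re}, f z =
        ∫⁻ z, D.indicator (fun p => f p.2) (t₀, z) := by
    intro t₀
    rw [← lintegral_indicator]
    · rfl
    · exact Metric.isOpen_ball.measurableSet.inter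
        (measurableSet_lt measurable_const Complex.measurable_re)
  simp only [e1]
  rw [lintegral_lintegral_swap hk.aemeasurable]
  set R : Set ℂ := {z : ℂ | z.re ∈ Set.Ioo (1 / 2 : ℝ) (7 / 2) ∧ z.im ∈ Set.Icc T (2 * T)}
    with hRdef
  have hR : MeasurableSet R :=
    (Complex.measurable_re measurableSet_Ioo).inter (Complex.measurable_im measurableSet_Icc)
  rw [← lintegral_const_mul _ hf, ← lintegral_indicator hR]
  refine lintegral_mono fun z => ?_
  by_cases hz : z ∈ R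
  · rw [Set.indicator_of_mem hz]
    have h1 : ∀ t₀ : ℝ, D.indicator (fun p => f p.2) (t₀, z) ≤
        (Set.Ioo (z.im - 1) (z.im + 1)).indicator (fun _ => f z) t₀ := by
      intro t₀
      by_cases ht : (t₀, z) ∈ D
      · rw [Set.indicator_of_mem ht]
        have h2 := abs_lt.1 (Typ_mem (r := 1) (t₀ := t₀) (z := z) ht.1).2.2.1
        rw [Set.indicator_of_mem]
        constructor <;> linarith [h2.1, h2.2]
      · rw [Set.indicator_of_notMem ht]
        exact zero_le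
    calc ∫⁻ t₀ in Set.Icc (T + 1) (2 * T - 1), D.indicator (fun p => f p.2) (t₀, z)
        ≤ ∫⁻ t₀ : ℝ, D.indicator (fun p => f p.2) (t₀, z) := setLIntegral_le_lintegral _ _
      _ ≤ ∫⁻ t₀ : ℝ, (Set.Ioo (z.im - 1) (z.im + 1)).indicator (fun _ => f z) t₀ :=
          lintegral_mono h1
      _ = 2 * f z := by
          rw [lintegral_indicator measurableSet_Ioo, setLIntegral_const, Real.volume_Ioo]
          have : z.im + 1 - (z.im - 1) = 2 := by ring
          rw [this, mul_comm]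
          norm_num
  · rw [Set.indicator_of_notMem hz]
    refine le_of_eq ?_
    refine setLIntegral_eq_zero measurableSet_Icc ?_
    intro t₀ ht₀
    refine Set.indicator_of_notMem ?_ _
    intro hmem
    have h2 := Typ_mem (r := 1) (t₀ := t₀) (z := z) hmem.1
    have h3 := abs_le.1 h2.2.1
    have h4 := abs_le.1 h2.1
    have h5 : 1 / 2 < z.re := hmem.2
    refine hz ⟨⟨h5, by linarith [h4.2]⟩, ?_, ?_⟩
    · linarith [h3.1, ht₀.1]
    · linarith [h3.2, ht₀.2]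

/-- Text, section 7: the choice of a typical pair. -/
theorem typical {ι : Type*} (S : Finset ι) (hS : S.Nonempty) (Φ Ψ : ι → ℂ → ℝ≥0∞)
    (hΦ : ∀ i ∈ S, Measurable (Φ i)) (hΨ : ∀ i ∈ S, Measurable (Ψ i)) (T r a b α β : ℝ)
    (hT : 4 ≤ T) (hr : 0 < r) (hr' : 3 * r ≤ 1) (ha : 0 ≤ a) (hb : 0 ≤ b) (hα0 : 0 < α)
    (hβ0 : 0 < β)
    (h1 : ∀ z : ℂ, |z.re - 1 / 2| ≤ 3 * r → T ≤ z.im → z.im ≤ 2 * T →
      ∑ i ∈ S, Φ i z ≤ ENNReal.ofReal a)
    (h2 : ∑ i ∈ S, ∫⁻ σ in Set.Ioo (1 / 2 : ℝ) (7 / 2), ∫⁻ t in Set.Icc T (2 * T),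
      Ψ i ((σ : ℂ) + (t : ℂ) * I) ≤ ENNReal.ofReal b)
    (hα : 36 * Real.pi * r ^ 2 * a ≤ α * S.card) (hβ : 8 * b ≤ β * (S.card * (T - 2))) :
    ∃ i ∈ S, ∃ t₀ : ℝ, T + 1 ≤ t₀ ∧ t₀ ≤ 2 * T - 1 ∧
      ∫⁻ z in Metric.ball (1 / 2 + (t₀ : ℂ) * I) (3 * r), Φ i z ≤ ENNReal.ofReal α ∧
      ∫⁻ z in Metric.ball (1 / 2 + (t₀ : ℂ) * I) 1 ∩ {z : ℂ | 1 / 2 < z.re}, Ψ i z ≤
        ENNReal.ofReal β := by
  by_contra hcon
  push Not at hcon
  set F : ι → ℝ → ℝ≥0∞ := fun i t₀ => ∫⁻ z in Metric.ball (1 / 2 + (t₀ : ℂ) * I) (3 * r), Φ i z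
    with hF
  set H : ι → ℝ → ℝ≥0∞ := fun i t₀ =>
    ∫⁻ z in Metric.ball (1 / 2 + (t₀ : ℂ) * I) 1 ∩ {z : ℂ | 1 / 2 < z.re}, Ψ i z with hH
  have hα' : ENNReal.ofReal α ≠ 0 := by simp [hα0]
  have hβ' : ENNReal.ofReal β ≠ 0 := by simp [hβ0]
  have hαt : ENNReal.ofReal α ≠ ⊤ := ENNReal.ofReal_ne_top
  have hβt : ENNReal.ofReal β ≠ ⊤ := ENNReal.ofReal_ne_top
  set J : Set ℝ := Set.Icc (T + 1) (2 * T - 1) with hJ
  have hJvol : volume J = ENNReal.ofReal (T - 2) := by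
    rw [hJ, Real.volume_Icc]
    congr 1
    ring
  have hpt : ∀ t₀ ∈ J, (S.card : ℝ≥0∞) ≤
      (ENNReal.ofReal α)⁻¹ * ∑ i ∈ S, F i t₀ + (ENNReal.ofReal β)⁻¹ * ∑ i ∈ S, H i t₀ := by
    intro t₀ ht₀
    rw [mul_sum, mul_sum, ← sum_add_distrib, card_eq_sum_ones, Nat.cast_sum, Nat.cast_one]
    refine sum_le_sum fun i hi => ?_
    by_cases hc : F i t₀ ≤ ENNReal.ofReal α
    · have h3 := hcon i hi t₀ ht₀.1 ht₀.2 hc
      refine le_trans ?_ le_add_self
      rw [← ENNReal.inv_mul_cancel hβ' hβt]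
      exact mul_le_mul_right h3.le _
    · refine le_trans ?_ le_self_add
      rw [← ENNReal.inv_mul_cancel hα' hαt]
      exact mul_le_mul_right (not_le.1 hc).le _
  -- measurability of the first part
  have hFm : ∀ i ∈ S, Measurable (F i) := by
    intro i hi
    set D : Set (ℝ × ℂ) := {p | dist p.2 (1 / 2 + (p.1 : ℂ) * I) < 3 * r} with hD
    have hDm : MeasurableSet D := by
      have h1 : Measurable fun p : ℝ × ℂ => dist p.2 (1 / 2 + (p.1 : ℂ) * I) := by fun_prop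
      exact measurableSet_lt h1 measurable_const
    have hk : Measurable (D.indicator (fun p : ℝ × ℂ => Φ i p.2)) :=
      ((hΦ i hi).comp measurable_snd).indicator hDm
    have e1 : F i = fun t₀ : ℝ => ∫⁻ z, D.indicator (fun p : ℝ × ℂ => Φ i p.2) (t₀, z) := by
      funext t₀
      simp only [hF]
      rw [← lintegral_indicator Metric.isOpen_ball.measurableSet]
      rfl
    rw [e1]
    exact hk.lintegral_prod_right'
  have hsum1 : ∫⁻ t₀ in J, ∑ i ∈ S, F i t₀ ≤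
      ENNReal.ofReal (T - 2) * (ENNReal.ofReal (9 * Real.pi * r ^ 2) * ENNReal.ofReal a) := by
    have h3 : ∀ t₀ ∈ J, ∑ i ∈ S, F i t₀ ≤
        ENNReal.ofReal (9 * Real.pi * r ^ 2) * ENNReal.ofReal a := by
      intro t₀ ht₀
      simp only [hF]
      rw [← lintegral_finset_sum' _ fun i hi => (hΦ i hi).aemeasurable]
      calc ∫⁻ z in Metric.ball (1 / 2 + (t₀ : ℂ) * I) (3 * r), ∑ i ∈ S, Φ i z
          ≤ ∫⁻ z in Metric.ball (1 / 2 + (t₀ : ℂ) * I) (3 * r), ENNReal.ofReal a := by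
            refine setLIntegral_mono' Metric.isOpen_ball.measurableSet fun z hz => ?_
            have h4 := Typ_mem hz
            have h5 := abs_le.1 h4.2.1
            exact h1 z h4.1 (by linarith [h5.1, ht₀.1]) (by linarith [h5.2, ht₀.2])
        _ = ENNReal.ofReal (9 * Real.pi * r ^ 2) * ENNReal.ofReal a := by
            rw [setLIntegral_const, Typ_ball hr, mul_comm]
    calc ∫⁻ t₀ in J, ∑ i ∈ S, F i t₀
        ≤ ∫⁻ t₀ in J, ENNReal.ofReal (9 * Real.pi * r ^ 2) * ENNReal.ofReal a :=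
          setLIntegral_mono' measurableSet_Icc h3
      _ = _ := by rw [setLIntegral_const, hJvol, mul_comm]
  have hsum2 : ∫⁻ t₀ in J, ∑ i ∈ S, H i t₀ ≤ 2 * ENNReal.ofReal b := by
    have hHm : ∀ i ∈ S, Measurable (H i) := by
      intro i hi
      set D : Set (ℝ × ℂ) := {p | dist p.2 (1 / 2 + (p.1 : ℂ) * I) < 1 ∧ 1 / 2 < p.2.re} with hD
      have hDm : MeasurableSet D := by
        have h1 : Measurable fun p : ℝ × ℂ => dist p.2 (1 / 2 + (p.1 : ℂ) * I) := by fun_prop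
        have h2 : Measurable fun p : ℝ × ℂ => p.2.re := by fun_prop
        exact (measurableSet_lt h1 measurable_const).inter (measurableSet_lt measurable_const h2)
      have hk : Measurable (D.indicator (fun p : ℝ × ℂ => Ψ i p.2)) :=
        ((hΨ i hi).comp measurable_snd).indicator hDm
      have e1 : H i = fun t₀ : ℝ => ∫⁻ z, D.indicator (fun p : ℝ × ℂ => Ψ i p.2) (t₀, z) := by
        funext t₀
        simp only [hH]
        rw [← lintegral_indicator (Metric.isOpen_ball.measurableSet.inter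
          (measurableSet_lt measurable_const Complex.measurable_re))]
        rfl
      rw [e1]
      exact hk.lintegral_prod_right'
    rw [lintegral_finset_sum' _ fun i hi => (hHm i hi).aemeasurable]
    refine (sum_le_sum fun i hi => Typ_snd (Ψ i) (hΨ i hi) T).trans ?_
    rw [← mul_sum]
    exact mul_le_mul_right h2 _
  have htot : (S.card : ℝ≥0∞) * ENNReal.ofReal (T - 2) ≤
      (ENNReal.ofReal α)⁻¹ *
        (ENNReal.ofReal (T - 2) * (ENNReal.ofReal (9 * Real.pi * r ^ 2) * ENNReal.ofReal a)) +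
      (ENNReal.ofReal β)⁻¹ * (2 * ENNReal.ofReal b) := by
    calc (S.card : ℝ≥0∞) * ENNReal.ofReal (T - 2) = ∫⁻ t₀ in J, (S.card : ℝ≥0∞) := by
          rw [setLIntegral_const, hJvol]
      _ ≤ ∫⁻ t₀ in J, ((ENNReal.ofReal α)⁻¹ * ∑ i ∈ S, F i t₀ +
            (ENNReal.ofReal β)⁻¹ * ∑ i ∈ S, H i t₀) := setLIntegral_mono' measurableSet_Icc hpt
      _ = (ENNReal.ofReal α)⁻¹ * (∫⁻ t₀ in J, ∑ i ∈ S, F i t₀) +
            (ENNReal.ofReal β)⁻¹ * (∫⁻ t₀ in J, ∑ i ∈ S, H i t₀) := by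
          rw [lintegral_add_left, lintegral_const_mul', lintegral_const_mul']
          · simp [hβ0]
          · simp [hα0]
          · exact (Finset.measurable_fun_sum S hFm).const_mul _
      _ ≤ _ := add_le_add (mul_le_mul_right hsum1 _) (mul_le_mul_right hsum2 _)
  have hn : (1 : ℝ) ≤ S.card := by exact_mod_cast hS.card_pos
  rw [← ENNReal.ofReal_natCast, ← ENNReal.ofReal_mul (by positivity),
    ← ENNReal.ofReal_mul (by positivity), ← ENNReal.ofReal_mul (by linarith),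
    ← ENNReal.ofReal_inv_of_pos hα0, ← ENNReal.ofReal_inv_of_pos hβ0,
    ← ENNReal.ofReal_mul (by positivity),
    show (2 : ℝ≥0∞) = ENNReal.ofReal 2 by norm_num, ← ENNReal.ofReal_mul (by norm_num),
    ← ENNReal.ofReal_mul (by positivity), ← ENNReal.ofReal_add ?_ (by positivity),
    ENNReal.ofReal_le_ofReal_iff ?_] at htot
  · have hT2 : 0 < T - 2 := by linarith
    have e1 : α⁻¹ * ((T - 2) * (9 * Real.pi * r ^ 2 * a)) ≤ S.card * (T - 2) / 4 := by
      rw [inv_mul_le_iff₀ hα0]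
      nlinarith
    have e2 : β⁻¹ * (2 * b) ≤ S.card * (T - 2) / 4 := by
      rw [inv_mul_le_iff₀ hβ0]
      nlinarith
    nlinarith
  · have hT2 : 0 < T - 2 := by linarith
    positivity
  · have hT2 : 0 < T - 2 := by linarith
    positivity

end Pool.Agent.EM
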