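import Pool.Agent.Lib.MP_848d44_nt_EM.Defs

/-!
# Project EM (MP_848d44_nt), module Zct: the number of zeros near the critical line
-/

set_option autoImplicit false

namespace Pool.Agent.EM

open Finset Complex MeasureTheory
open scoped ArithmeticFunction ENNReal ContDiff ComplexConjugate

private theorem Zct_log : (3 : ℝ) / 35 ≤ Real.log ((7 / 4) / (8 / 5)) := by
  have h := Real.one_sub_inv_le_log_of_pos (x := (7 / 4) / (8 / 5)) (by norm_num)
  norm_num at h ⊢
  linarith

private theorem Zct_log4 : Real.log 4 ≤ 7 / 5 := by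
  have h : Real.log 4 = 2 * Real.log 2 := by
    rw [show (4 : ℝ) = 2 ^ 2 by norm_num, Real.log_pow]
    norm_num
  rw [h]
  have := Real.log_two_lt_d9
  linarith

open MeromorphicOn in
/-- Text, section 8: Jensen in the disc with centre `2 + i t₀` and radius `7/4`. -/
theorem zero_count {f : ℂ → ℂ} (hf : Differentiable ℂ f) (t₀ N r : ℝ)
    (h2 : 1 / 4 ≤ ‖f (2 + (t₀ : ℂ) * I)‖) (hN : 4 ≤ N) (hr : 0 < r) (hr' : r ≤ 1 / 64)
    (hM : ∀ z ∈ Metric.closedBall (2 + (t₀ : ℂ) * I) (7 / 4), ‖f z‖ ≤ Real.exp (3 * N)) :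
    ∑ᶠ u, (divisor f (Metric.closedBall (1 / 2 + (t₀ : ℂ) * I) (3 * r)) u : ℝ) ≤ 40 * N := by
  have hfa : ∀ U : Set ℂ, AnalyticOnNhd ℂ f U := fun U z _ => hf.analyticAt z
  set c : ℂ := 2 + (t₀ : ℂ) * I with hc
  set c' : ℂ := 1 / 2 + (t₀ : ℂ) * I with hc'
  have hfc : f c ≠ 0 := by
    intro h0
    rw [h0, norm_zero] at h2
    norm_num at h2
  have a85 : |(8 / 5 : ℝ)| = 8 / 5 := abs_of_pos (by norm_num)
  have a74 : |(7 / 4 : ℝ)| = 7 / 4 := abs_of_pos (by norm_num)
  have hJ := AnalyticOnNhd.sum_divisor_le (c := c) (r := 8 / 5) (R := 7 / 4)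
    (M := Real.exp (3 * N)) (f := f) (by rw [a85]; norm_num) (by rw [a85, a74]; norm_num)
    (Real.one_le_exp (by linarith)) (hfa _) hfc
    (fun z hz => hM z (by rw [a74] at hz; exact Metric.sphere_subset_closedBall hz))
  rw [a85] at hJ
  -- the inclusion of the discs
  have hsub : Metric.closedBall c' (3 * r) ⊆ Metric.closedBall c (8 / 5) := by
    refine Metric.closedBall_subset_closedBall' ?_
    have h3 : dist c' c = 3 / 2 := by
      rw [dist_eq_norm, hc, hc']
      have : (1 / 2 + (t₀ : ℂ) * I - (2 + (t₀ : ℂ) * I)) = ((-(3 / 2) : ℝ) : ℂ) := by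
        push_cast
        ring
      rw [this, Complex.norm_real, Real.norm_eq_abs, abs_neg, abs_of_pos (by norm_num)]
    rw [h3]
    linarith
  have hfin : (Function.support fun u =>
      (divisor f (Metric.closedBall c (8 / 5)) u : ℝ)).Finite := by
    refine ((divisor f (Metric.closedBall c (8 / 5))).finiteSupport
      (isCompact_closedBall _ _)).subset ?_
    intro u hu
    rw [Function.mem_support] at hu ⊢
    exact fun h => hu (by rw [h]; simp)
  have hle : ∀ u, (divisor f (Metric.closedBall c' (3 * r)) u : ℝ) ≤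
      (divisor f (Metric.closedBall c (8 / 5)) u : ℝ) := by
    intro u
    by_cases hu : u ∈ Metric.closedBall c' (3 * r)
    · rw [divisor_apply (hfa _).meromorphicOn hu, divisor_apply (hfa _).meromorphicOn (hsub hu)]
    · rw [Function.locallyFinsuppWithin.apply_eq_zero_of_notMem _ hu]
      have h4 := (AnalyticOnNhd.divisor_nonneg (hfa (Metric.closedBall c (8 / 5)))) u
      exact_mod_cast h4
  have hfin' : (Function.support fun u =>
      (divisor f (Metric.closedBall c' (3 * r)) u : ℝ)).Finite := by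
    refine ((divisor f (Metric.closedBall c' (3 * r))).finiteSupport
      (isCompact_closedBall _ _)).subset ?_
    intro u hu
    rw [Function.mem_support] at hu ⊢
    exact fun h => hu (by rw [h]; simp)
  have h5 : ∑ᶠ u, (divisor f (Metric.closedBall c' (3 * r)) u : ℝ) ≤
      ∑ᶠ u, (divisor f (Metric.closedBall c (8 / 5)) u : ℝ) := by
    classical
    rw [finsum_eq_sum_of_support_subset (s := (hfin'.union hfin).toFinset) _
        (by rw [Set.Finite.coe_toFinset]; exact Set.subset_union_left),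
      finsum_eq_sum_of_support_subset (s := (hfin'.union hfin).toFinset) _
        (by rw [Set.Finite.coe_toFinset]; exact Set.subset_union_right)]
    exact Finset.sum_le_sum fun u _ => hle u
  have h6 : ∑ᶠ u, (divisor f (Metric.closedBall c (8 / 5)) u : ℝ) =
      ((∑ᶠ u, divisor f (Metric.closedBall c (8 / 5)) u : ℤ) : ℝ) :=
    (map_finsum (Int.castRingHom ℝ)
      ((divisor f (Metric.closedBall c (8 / 5))).finiteSupport (isCompact_closedBall _ _))).symm
  rw [h6] at h5
  refine h5.trans (hJ.trans ?_)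
  have hl := Zct_log
  rw [div_le_iff₀ (by linarith), Real.log_div (Real.exp_pos _).ne' (norm_ne_zero_iff.2 hfc),
    Real.log_exp]
  have h7 : -Real.log 4 ≤ Real.log ‖f c‖ := by
    rw [← Real.log_inv]
    exact Real.log_le_log (by norm_num) (by norm_num at h2 ⊢; exact h2)
  have h8 := Zct_log4
  have h9 : 40 * N * (3 / 35) ≤ 40 * N * Real.log ((7 / 4) / (8 / 5)) :=
    mul_le_mul_of_nonneg_left hl (by linarith)
  linarith

end Pool.Agent.EM
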