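import Pool.Agent.Lib.MP_848d44_nt_EM.Defs
import Pool.Agent.Lib.MP_848d44_nt_EM.App
import Pool.Agent.Lib.MP_848d44_nt_EM.Orth
import Pool.Agent.Lib.MP_848d44_nt_EM.Dbd
import Pool.Agent.Lib.MP_848d44_nt_EM.Pol
import Pool.Agent.Lib.MP_848d44_nt_EM.Jen
import Pool.Agent.Lib.MP_848d44_nt_EM.Two
import Pool.Agent.Lib.MP_848d44_nt_EM.Lar
import Pool.Agent.Lib.MP_848d44_nt_EM.Fei
import Pool.Agent.Lib.MP_848d44_nt_EM.Gdc
import Pool.Agent.Lib.MP_848d44_nt_EM.Zct
import Pool.Agent.Lib.MP_848d44_nt_EM.Gro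
import Pool.Agent.Lib.MP_848d44_nt_EM.Fin
import Pool.Agent.Lib.MP_848d44_nt_EM.Ref
import Pool.Agent.Lib.MP_848d44_nt_EM.Typ

/-!
# Project EM (MP_848d44_nt), module Main: assembly
-/

set_option autoImplicit false

namespace Pool.Agent.EM

open Finset Complex MeasureTheory
open scoped ArithmeticFunction ENNReal ContDiff ComplexConjugate

theorem PX_diff {q : ℕ} (χ : DirichletCharacter ℂ q) (X : ℝ) : Differentiable ℂ (PX χ X) := by
  unfold PX
  apply Differentiable.fun_sum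
  intro n hn
  have hn1 : 1 ≤ n := (Finset.mem_Icc.1 hn).1
  have hn0 : (n : ℂ) ≠ 0 := by exact_mod_cast (by omega : n ≠ 0)
  intro s
  apply DifferentiableAt.const_mul
  exact (differentiableAt_id.neg).const_cpow (Or.inl hn0)

theorem L_diff {q : ℕ} [NeZero q] {χ : DirichletCharacter ℂ q} (hχ : χ ≠ 1) :
    Differentiable ℂ (DirichletCharacter.LFunction χ) :=
  DirichletCharacter.differentiable_LFunction hχ

theorem DD_diff {q : ℕ} [NeZero q] {χ : DirichletCharacter ℂ q} (hχ : χ ≠ 1) (X : ℝ) :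
    Differentiable ℂ (DD χ X) := by
  unfold DD
  intro s
  have h1 : DifferentiableAt ℂ (deriv (DirichletCharacter.LFunction χ)) s :=
    ((L_diff hχ).analyticAt s).deriv.differentiableAt
  exact h1.add (((PX_diff χ X) s).mul ((L_diff hχ) s))

theorem main_core (ε : ℝ) (hε : 0 < ε) (hε1 : ε ≤ 1) :
    ∃ X₀ : ℝ, 1 ≤ X₀ ∧ ∀ X : ℝ, X₀ ≤ X → ∀ (q : ℕ) [NeZero q], 3 ≤ q → (q : ℝ) ≤ X →
    ¬ (∀ x : ℝ, X ≤ x → x ≤ q * X ^ (1 + ε) →
      ∑ χ ∈ ncs q, ‖psi χ x‖ ^ 2 ≤ (q.totient : ℝ) * x ^ (1 - ε)) := by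
  set r : ℝ := ε / 256 with hr
  set e₁ : ℝ := ε / 16 with he₁
  set ρ₀ : ℝ := r * ε / 5120 with hρ₀
  set κ₁ : ℝ := min (ε * ρ₀ ^ 2 / 64) (r ^ 3 * e₁ / 10 ^ 5) with hκ₁
  have hr0 : 0 < r := by positivity
  have hr1 : r ≤ 1 / 256 := by rw [hr]; linarith
  have he0 : 0 < e₁ := by positivity
  have he1 : e₁ ≤ 1 / 2 := by rw [he₁]; linarith
  have hρ0 : 0 < ρ₀ := by positivity
  have hρr : ρ₀ ≤ r := by
    rw [hρ₀]
    have : r * ε ≤ r * 1 := by gcongr
    linarith
  have hκ0 : 0 < κ₁ := by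
    rw [hκ₁]
    apply lt_min <;> positivity
  have hκa : κ₁ ≤ ε * ρ₀ ^ 2 / 64 := min_le_left _ _
  have hκb : κ₁ ≤ r ^ 3 * e₁ / 10 ^ 5 := min_le_right _ _
  obtain ⟨X₁, hX₁1, hX₁⟩ := DD_avg ε hε hε1
  obtain ⟨X₂, hX₂1, hX₂⟩ := log_area e₁ (κ₁ / 1600) he0 he1 (by positivity)
  obtain ⟨X₃, hX₃1, hX₃⟩ := L_le e₁ he0 he1
  obtain ⟨c₀, hc₀, hfe₀⟩ := fe_ratio κ₁ hκ0
  set c : ℝ := min c₀ 1 with hc
  have hcpos : 0 < c := lt_min hc₀ one_pos
  have hc1 : c ≤ 1 := min_le_right _ _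
  have hlogc : Real.log c ≤ 0 := Real.log_nonpos hcpos.le hc1
  have hev : ∀ᶠ X : ℝ in Filter.atTop, X₁ ≤ X ∧ X₂ ≤ X ∧ X₃ ≤ X ∧ 4 ≤ Real.log X ∧
      10 ≤ X ^ e₁ ∧ 9 * Real.pi * r ^ 2 * (-Real.log c) ≤ κ₁ / 2 * Real.log X ∧
      (-Real.log c) ≤ r / 32 * e₁ * Real.log X ∧ 16 / r ≤ X ^ (27 / 160 * ε) := by
    have hlog := Real.tendsto_log_atTop
    refine (Filter.eventually_ge_atTop X₁).and ((Filter.eventually_ge_atTop X₂).and
      ((Filter.eventually_ge_atTop X₃).and ((hlog.eventually_ge_atTop 4).and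
      (((tendsto_rpow_atTop he0).eventually_ge_atTop 10).and
      ((((hlog.const_mul_atTop (by positivity : 0 < κ₁ / 2)).eventually_ge_atTop
        (9 * Real.pi * r ^ 2 * (-Real.log c)))).and
      (((hlog.const_mul_atTop (by positivity : 0 < r / 32 * e₁)).eventually_ge_atTop
        (-Real.log c)).and
      ((tendsto_rpow_atTop (by positivity : 0 < 27 / 160 * ε)).eventually_ge_atTop (16 / r))))))))
  obtain ⟨X₀, hX₀⟩ := Filter.eventually_atTop.1 hev
  refine ⟨max X₀ 1, le_max_right _ _, fun X hX q _ hq3 hqX H => ?_⟩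
  obtain ⟨h1, h2, h3, hN4, hT10, hcA, hcB, hXr⟩ := hX₀ X ((le_max_left _ _).trans hX)
  have hX1 : 1 ≤ X := (le_max_right _ _).trans hX
  have hX0 : 0 < X := by linarith
  set N : ℝ := Real.log X with hN
  set T : ℝ := X ^ e₁ with hT
  have hlogT : Real.log T = e₁ * N := by rw [hT, Real.log_rpow hX0]
  have hφ : (0 : ℝ) < q.totient := by exact_mod_cast Nat.totient_pos.2 (by omega)
  obtain ⟨hcard1, hcard2⟩ := card_ncs q hq3
  have hne : (ncs q).Nonempty := by
    rw [← Finset.card_pos]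
    have : (0 : ℝ) < ((ncs q).card : ℝ) := lt_of_lt_of_le (by positivity) hcard1
    exact_mod_cast this
  -- the typical pair
  obtain ⟨χ, hχS, t₀, ht1, ht2, hDA, hLA⟩ := typical (ncs q) hne
    (fun χ z => ENNReal.ofReal ‖DD χ X z‖)
    (fun χ z => ENNReal.ofReal |Real.log ‖DirichletCharacter.LFunction χ z‖|)
    (fun χ hχ => by
      have := (DD_diff (mem_ncs.1 hχ) X).continuous.measurable
      exact this.norm.ennreal_ofReal)
    (fun χ hχ => by
      have := (L_diff (mem_ncs.1 hχ)).continuous.measurable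
      have h2 : Measurable fun z => Real.log ‖DirichletCharacter.LFunction χ z‖ :=
        Real.measurable_log.comp this.norm
      exact (continuous_abs.measurable.comp h2).ennreal_ofReal)
    T r (q.totient * X ^ (-(ε / 4))) (50 * q.totient * T * (κ₁ / 1600 * N)) (X ^ (-(ε / 5)))
    (κ₁ * N) (by linarith) hr0 (by linarith) (by positivity) (by positivity)
    (Real.rpow_pos_of_pos hX0 _) (by positivity)
    (by
      intro z hz1 hz2 hz3
      rw [abs_le] at hz1
      rw [← ENNReal.ofReal_sum_of_nonneg (fun _ _ => norm_nonneg _)]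
      apply ENNReal.ofReal_le_ofReal
      refine hX₁ X h1 q hq3 hqX H z ?_ ?_ ?_
      · rw [hr] at hz1; linarith [hz1.1]
      · rw [hr] at hz1; linarith [hz1.2]
      · have h5 := Complex.norm_le_abs_re_add_abs_im z
        have h6 : |z.re| ≤ 1 := by
          rw [abs_le]
          rw [hr] at hz1
          constructor <;> linarith [hz1.1, hz1.2]
        have h7 : |z.im| ≤ 2 * T := by
          rw [abs_le]
          constructor <;> linarith
        show ‖z‖ ≤ 4 * T
        linarith)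
    (hX₂ X h2 q hq3 hqX)
    (by
      have h5 : X ^ (-(ε / 4)) ≤ X ^ (-(ε / 5)) :=
        Real.rpow_le_rpow_of_exponent_le hX1 (by linarith)
      have h6 : (0 : ℝ) < X ^ (-(ε / 5)) := Real.rpow_pos_of_pos hX0 _
      have h7 : 36 * Real.pi * r ^ 2 ≤ 1 / 2 := by
        have := Real.pi_lt_four
        have h8 : r ^ 2 ≤ (1 / 256) ^ 2 := by gcongr
        have h9 : Real.pi * r ^ 2 ≤ 4 * (1 / 256) ^ 2 := by gcongr
        norm_num at h9
        linarith
      calc 36 * Real.pi * r ^ 2 * (q.totient * X ^ (-(ε / 4)))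
          ≤ 1 / 2 * (q.totient * X ^ (-(ε / 5))) := by gcongr
        _ = X ^ (-(ε / 5)) * (q.totient / 2) := by ring
        _ ≤ X ^ (-(ε / 5)) * (ncs q).card := by gcongr)
    (by
      have hN0 : 0 < N := by linarith
      have h8 : (q.totient : ℝ) / 2 * (T / 2) ≤ (ncs q).card * (T - 2) := by
        have : T / 2 ≤ T - 2 := by linarith
        gcongr
      calc 8 * (50 * q.totient * T * (κ₁ / 1600 * N))
          = κ₁ * N * ((q.totient : ℝ) / 2 * (T / 2)) := by ring
        _ ≤ κ₁ * N * ((ncs q).card * (T - 2)) := by gcongr)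
  have hχ : χ ≠ 1 := mem_ncs.1 hχS
  set f : ℂ → ℂ := DirichletCharacter.LFunction χ with hf
  set cc : ℂ := 1 / 2 + (t₀ : ℂ) * I with hcc
  have hfd : Differentiable ℂ f := L_diff hχ
  have hN0 : 0 < N := by linarith
  have htwo : 1 / 4 ≤ ‖f (2 + (t₀ : ℂ) * I)‖ := L_two χ t₀
  have hfne : ∃ z, f z ≠ 0 := ⟨2 + (t₀ : ℂ) * I, by
    intro h
    rw [h, norm_zero] at htwo
    norm_num at htwo⟩
  have hccre : cc.re = 1 / 2 := by
    rw [hcc]
    simp
  have hccim : cc.im = t₀ := by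
    rw [hcc]
    simp
  have hreim : ∀ z : ℂ, |z.re - 1 / 2| ≤ ‖z - cc‖ ∧ |z.im - t₀| ≤ ‖z - cc‖ := by
    intro z
    have ha := Complex.abs_re_le_norm (z - cc)
    have hb := Complex.abs_im_le_norm (z - cc)
    rw [Complex.sub_re, hccre] at ha
    rw [Complex.sub_im, hccim] at hb
    exact ⟨ha, hb⟩
  -- functional equation at points of the left half
  have hfe : ∀ z : ℂ, z.re ≤ 1 / 2 → 1 / 2 - 1 / 16 ≤ z.re → 1 ≤ z.im →
      c * (q : ℝ) ^ (-κ₁) * z.im ^ (1 / 2 - z.re) * ‖f (1 - conj z)‖ ≤ ‖f z‖ := by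
    intro z hz1 hz2 hz3
    have h5 := hfe₀ q χ hχ (1 / 2 - z.re) z.im (by linarith) (by linarith) hz3
    have h6 : (1 / 2 + ((1 / 2 - z.re : ℝ) : ℂ) + (z.im : ℂ) * I) = 1 - conj z := by
      apply Complex.ext
      · simp; ring
      · simp
    have h7 : (1 / 2 - ((1 / 2 - z.re : ℝ) : ℂ) + (z.im : ℂ) * I) = z := by
      apply Complex.ext
      · simp
      · simp
    rw [h6, h7] at h5
    refine le_trans ?_ h5
    have : c ≤ c₀ := min_le_left _ _
    have h8 : 0 ≤ (q : ℝ) ^ (-κ₁) := by positivity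
    have h9 : 0 ≤ z.im ^ (1 / 2 - z.re) := Real.rpow_nonneg (by linarith) _
    gcongr
  have hqk : Real.exp (-(κ₁ * N)) ≤ (q : ℝ) ^ (-κ₁) := by
    have h5 : X ^ (-κ₁) ≤ (q : ℝ) ^ (-κ₁) :=
      Real.rpow_le_rpow_of_nonpos (by exact_mod_cast (by omega : 0 < q)) hqX (by linarith)
    refine le_trans (le_of_eq ?_) h5
    rw [Real.rpow_def_of_pos hX0]
    congr 1
    ring
  -- the integral of log- on the ball of radius 3r
  have hB : ∫⁻ z in Metric.ball cc (3 * r), ENNReal.ofReal (-Real.log ‖f z‖) ≤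
      ENNReal.ofReal (3 * (κ₁ * N)) := by
    have h5 := reflect hfd hfne t₀ r (κ₁ * N - Real.log c) hr0 (by linarith)
      (by nlinarith [mul_pos hκ0 hN0]) (by
        intro z hz hz1
        rw [← hcc, Metric.mem_ball, dist_eq_norm] at hz
        obtain ⟨ha, hb⟩ := hreim z
        rw [abs_le] at ha hb
        have hz3 : 1 ≤ z.im := by linarith
        have h6 := hfe z hz1 (by linarith) hz3
        refine le_trans ?_ h6
        have h7 : 1 ≤ z.im ^ (1 / 2 - z.re) := Real.one_le_rpow hz3 (by linarith)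
        have h8 : Real.exp (-(κ₁ * N - Real.log c)) = c * Real.exp (-(κ₁ * N)) := by
          rw [neg_sub, sub_eq_add_neg, Real.exp_add, Real.exp_log hcpos]
        rw [h8]
        have h9 : c * Real.exp (-(κ₁ * N)) ≤ c * (q : ℝ) ^ (-κ₁) * z.im ^ (1 / 2 - z.re) := by
          calc c * Real.exp (-(κ₁ * N)) ≤ c * (q : ℝ) ^ (-κ₁) := by gcongr
            _ = c * (q : ℝ) ^ (-κ₁) * 1 := (mul_one _).symm
            _ ≤ _ := by gcongr
        gcongr)
    refine h5.trans ?_
    rw [← hcc]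
    calc 2 * (∫⁻ z in Metric.ball cc 1 ∩ {z : ℂ | 1 / 2 < z.re},
          ENNReal.ofReal |Real.log ‖f z‖|) +
          ENNReal.ofReal (9 * Real.pi * r ^ 2 * (κ₁ * N - Real.log c))
        ≤ 2 * ENNReal.ofReal (κ₁ * N) +
          ENNReal.ofReal (9 * Real.pi * r ^ 2 * (κ₁ * N - Real.log c)) := by gcongr
      _ = ENNReal.ofReal (2 * (κ₁ * N) + 9 * Real.pi * r ^ 2 * (κ₁ * N - Real.log c)) := by
          have h6 : 0 ≤ κ₁ * N - Real.log c := by nlinarith [mul_pos hκ0 hN0]
          have h7 : 0 ≤ 2 * (κ₁ * N) := by positivity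
          have h8 : 0 ≤ 9 * Real.pi * r ^ 2 * (κ₁ * N - Real.log c) := by positivity
          rw [ENNReal.ofReal_add h7 h8, ENNReal.ofReal_mul (p := 2) (by norm_num)]
          simp
      _ ≤ _ := by
          apply ENNReal.ofReal_le_ofReal
          have h7 : 9 * Real.pi * r ^ 2 ≤ 1 / 2 := by
            have := Real.pi_lt_four
            have h8 : r ^ 2 ≤ (1 / 256) ^ 2 := by gcongr
            have h9 : Real.pi * r ^ 2 ≤ 4 * (1 / 256) ^ 2 := by gcongr
            norm_num at h9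
            linarith
          have h8 : 9 * Real.pi * r ^ 2 * (κ₁ * N) ≤ 1 / 2 * (κ₁ * N) := by gcongr
          nlinarith
  -- the sup of DD
  have hDsup : ∀ z : ℂ, ‖z - cc‖ ≤ 2 * r → ‖DD χ X z‖ ≤ X ^ (-(ε / 5)) / (Real.pi * r ^ 2) := by
    intro z hz
    refine norm_le_area (DD_diff hχ X) z r _ hr0 (by positivity) (le_trans ?_ hDA)
    apply lintegral_mono_set
    intro y hy
    rw [Metric.mem_ball, dist_eq_norm] at hy ⊢
    calc ‖y - cc‖ ≤ ‖y - z‖ + ‖z - cc‖ := norm_sub_le_norm_sub_add_norm_sub _ _ _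
      _ < 3 * r := by linarith
  -- zeros
  have hcount := zero_count hfd t₀ N r htwo hN4 hr0 (by linarith) (by
    intro z hz
    rw [Metric.mem_closedBall, dist_eq_norm] at hz
    have ha := Complex.abs_re_le_norm (z - (2 + (t₀ : ℂ) * I))
    have h6 : (z - (2 + (t₀ : ℂ) * I)).re = z.re - 2 := by simp
    rw [h6, abs_le] at ha
    have h7 := hX₃ X h3 q hqX χ hχ z (by linarith) (by
      have h8 : ‖z‖ ≤ ‖z - (2 + (t₀ : ℂ) * I)‖ + ‖(2 + (t₀ : ℂ) * I)‖ := by
        calc ‖z‖ = ‖(z - (2 + (t₀ : ℂ) * I)) + (2 + (t₀ : ℂ) * I)‖ := by congr 1; ring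
          _ ≤ _ := norm_add_le _ _
      have h9 : ‖(2 + (t₀ : ℂ) * I)‖ ≤ 2 + |t₀| := by
        refine (norm_add_le _ _).trans ?_
        simp
      rw [abs_of_nonneg (by linarith)] at h9
      linarith)
    refine h7.trans (le_of_eq ?_)
    rw [Real.rpow_def_of_pos hX0]
    congr 1
    ring)
  obtain ⟨R, hR1, hR2, hRc⟩ := good_circle hfd hfne cc r ρ₀ (40 * N) (3 * (κ₁ * N)) hr0 hρ0 hρr
    hcount (by positivity) hB
  have hlow : ∀ z ∈ Metric.sphere cc R, f z ≠ 0 ∧ X ^ (-(ε / 32)) ≤ ‖f z‖ := by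
    intro z hz
    obtain ⟨h5, h6⟩ := hRc z hz
    refine ⟨h5, ?_⟩
    have h7 : 3 * (κ₁ * N) / (Real.pi * ρ₀ ^ 2) + 2 * ρ₀ * (40 * N) / r ≤ ε / 32 * N := by
      have h8 : 3 * (κ₁ * N) / (Real.pi * ρ₀ ^ 2) ≤ ε / 64 * N := by
        rw [div_le_iff₀ (by positivity)]
        have hpi := Real.pi_gt_three
        have h9 : 3 * (κ₁ * N) ≤ Real.pi * (ε * ρ₀ ^ 2 / 64 * N) := by gcongr
        linarith
      have h9 : 2 * ρ₀ * (40 * N) / r = ε / 64 * N := by
        rw [hρ₀]
        field_simp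
        ring
      linarith
    have h8 : -(ε / 32 * N) ≤ Real.log ‖f z‖ := by linarith
    rw [Real.rpow_def_of_pos hX0]
    rw [← Real.log_le_log_iff (Real.exp_pos _) (norm_pos_iff.2 h5), Real.log_exp]
    linarith
  -- no zeros
  have hR0 : 0 < R := by linarith
  obtain ⟨Q, hQd, hQ⟩ := PX_primitive χ X
  have hnz : ∀ z ∈ Metric.closedBall cc R, f z ≠ 0 := by
    set δ : ℝ := X ^ (-(27 / 160 * ε)) / (Real.pi * r ^ 2) with hδ
    have hδ0 : 0 ≤ δ := by positivity
    refine zero_free hfd hQd cc R δ hR0 hδ0 ?_ (fun z hz => (hlow z hz).1) ?_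
    · have h5 : X ^ (-(27 / 160 * ε)) ≤ r / 16 := by
        rw [Real.rpow_neg hX0.le]
        rw [inv_le_comm₀ (Real.rpow_pos_of_pos hX0 _) (by positivity)]
        rw [inv_div]
        exact hXr
      have h6 : 0 < X ^ (-(27 / 160 * ε)) := Real.rpow_pos_of_pos hX0 _
      calc 2 * Real.pi * R * δ ≤ 2 * Real.pi * (2 * r) * δ := by gcongr
        _ = 4 * X ^ (-(27 / 160 * ε)) / r := by
            rw [hδ]
            field_simp
            ring
        _ ≤ 4 * (r / 16) / r := by gcongr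
        _ = 1 / 4 := by field_simp; norm_num
    · intro z hz
      have h5 : ‖z - cc‖ ≤ 2 * r := by
        rw [mem_sphere_iff_norm] at hz
        linarith
      have h6 := hDsup z h5
      have h7 : deriv f z + deriv Q z * f z = DD χ X z := by
        rw [hQ]
        rfl
      rw [h7]
      refine h6.trans ?_
      have h8 := (hlow z hz).2
      have h9 : X ^ (-(27 / 160 * ε)) * X ^ (-(ε / 32)) = X ^ (-(ε / 5)) := by
        rw [← Real.rpow_add hX0]
        congr 1
        ring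
      calc X ^ (-(ε / 5)) / (Real.pi * r ^ 2)
          = X ^ (-(27 / 160 * ε)) / (Real.pi * r ^ 2) * X ^ (-(ε / 32)) := by
            rw [← h9]; ring
        _ ≤ δ * ‖f z‖ := by gcongr
  -- contradiction
  have hfin := final_contra hfd t₀ r (κ₁ * N) (3 * (κ₁ * N)) (r / 16 * e₁ * N) hr0 (by linarith)
    (fun z hz => hnz z (Metric.closedBall_subset_closedBall hR1 hz)) (by positivity)
    (by positivity) (by positivity) hLA hB (by
      intro z hz
      rw [← hcc, Metric.mem_ball, dist_eq_norm] at hz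
      have hzz : ‖z - cc‖ ≤ r / 4 := by
        have h5 : z - cc = (z - (cc - 3 * (r : ℂ) / 16)) - 3 * (r : ℂ) / 16 := by ring
        have h6 : ‖3 * (r : ℂ) / 16‖ = 3 * r / 16 := by
          rw [norm_div, norm_mul, Complex.norm_real]
          simp [abs_of_pos hr0]
        rw [h5]
        refine (norm_sub_le _ _).trans ?_
        rw [h6]
        linarith
      have hre : |z.re - (1 / 2 - 3 * r / 16)| ≤ ‖z - (cc - 3 * (r : ℂ) / 16)‖ := by
        have h5 := Complex.abs_re_le_norm (z - (cc - 3 * (r : ℂ) / 16))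
        have h6 : (z - (cc - 3 * (r : ℂ) / 16)).re = z.re - (1 / 2 - 3 * r / 16) := by
          rw [Complex.sub_re, Complex.sub_re, hccre]
          congr 2
          have : (3 * (r : ℂ) / 16) = ((3 * r / 16 : ℝ) : ℂ) := by push_cast; ring
          rw [this, Complex.ofReal_re]
        rw [h6] at h5
        exact h5
      rw [abs_le] at hre
      have him := (hreim z).2
      rw [abs_le] at him
      have hz1 : r / 8 ≤ 1 / 2 - z.re := by linarith
      have hz2 : 1 / 2 - z.re ≤ r / 4 := by linarith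
      have hz3 : T ≤ z.im := by linarith
      have hz0 : f z ≠ 0 := hnz z (by
        rw [Metric.mem_closedBall, dist_eq_norm]
        linarith)
      have hz0' : f (1 - conj z) ≠ 0 := hnz _ (by
        rw [Metric.mem_closedBall, dist_eq_norm]
        have h5 : ‖(1 - conj z) - cc‖ = ‖z - cc‖ := by
          have h6 : (1 - conj z) - cc = - conj (z - cc) := by
            apply Complex.ext
            · simp only [Complex.sub_re, Complex.neg_re, Complex.conj_re, Complex.one_re, hccre]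
              ring
            · simp only [Complex.sub_im, Complex.neg_im, Complex.conj_im, Complex.one_im, hccim]
              ring
          rw [h6, norm_neg, Complex.norm_conj]
        rw [h5]
        linarith)
      have h5 := hfe z (by linarith) (by linarith) (by linarith)
      have h6 : Real.exp (Real.log c - κ₁ * N + r / 8 * (e₁ * N)) ≤
          c * (q : ℝ) ^ (-κ₁) * z.im ^ (1 / 2 - z.re) := by
        have h7 : Real.exp (r / 8 * (e₁ * N)) ≤ z.im ^ (1 / 2 - z.re) := by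
          have hT0 : 0 < T := by linarith
          calc Real.exp (r / 8 * (e₁ * N)) = T ^ (r / 8) := by
                rw [Real.rpow_def_of_pos hT0, hlogT]
                congr 1
                ring
            _ ≤ T ^ (1 / 2 - z.re) := Real.rpow_le_rpow_of_exponent_le (by linarith) hz1
            _ ≤ z.im ^ (1 / 2 - z.re) := by
                apply Real.rpow_le_rpow hT0.le hz3
                linarith
        calc Real.exp (Real.log c - κ₁ * N + r / 8 * (e₁ * N))
            = c * Real.exp (-(κ₁ * N)) * Real.exp (r / 8 * (e₁ * N)) := by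
              rw [Real.exp_add, sub_eq_add_neg, Real.exp_add, Real.exp_log hcpos]
          _ ≤ _ := by gcongr
      have h7 : Real.log ‖f (1 - conj z)‖ + (Real.log c - κ₁ * N + r / 8 * (e₁ * N)) ≤
          Real.log ‖f z‖ := by
        have h8 : Real.exp (Real.log c - κ₁ * N + r / 8 * (e₁ * N)) * ‖f (1 - conj z)‖ ≤
            ‖f z‖ := le_trans (by gcongr) h5
        have h9 := Real.log_le_log (by positivity) h8
        rw [Real.log_mul (Real.exp_pos _).ne' (norm_ne_zero_iff.2 hz0'), Real.log_exp] at h9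
        linarith
      have h8 : r / 16 * e₁ * N ≤ Real.log c - κ₁ * N + r / 8 * (e₁ * N) := by
        have h9 : κ₁ ≤ r / 32 * e₁ := by
          refine hκb.trans ?_
          have h10 : r ^ 3 * e₁ / 10 ^ 5 = (r ^ 2 / 10 ^ 5) * (r * e₁) := by ring
          rw [h10]
          have h11 : r ^ 2 / 10 ^ 5 ≤ 1 / 32 := by
            have : r ^ 2 ≤ 1 := by nlinarith
            linarith
          calc (r ^ 2 / 10 ^ 5) * (r * e₁) ≤ 1 / 32 * (r * e₁) := by gcongr
            _ = r / 32 * e₁ := by ring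
        have h10 : κ₁ * N ≤ r / 32 * e₁ * N := by gcongr
        nlinarith
      linarith)
  have hpi := Real.pi_gt_three
  have h5 : Real.pi * (r / 16) ^ 2 * (r / 16 * e₁ * N) ≤ 8 * (r ^ 3 * e₁ / 10 ^ 5) * N := by
    have h6 : 8 * (κ₁ * N) ≤ 8 * (r ^ 3 * e₁ / 10 ^ 5) * N := by
      have : κ₁ * N ≤ r ^ 3 * e₁ / 10 ^ 5 * N := by gcongr
      linarith
    linarith
  have h6 : 3 * (r / 16) ^ 2 * (r / 16 * e₁ * N) ≤
      Real.pi * (r / 16) ^ 2 * (r / 16 * e₁ * N) := by gcongr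
  have h7 : 0 < r ^ 3 * e₁ * N := by positivity
  nlinarith

/-- Theorem EM. -/
theorem em_main (ε : ℝ) (hε : 0 < ε) : ∃ X₀ : ℝ, ∀ q : ℕ, 3 ≤ q → ∀ X : ℝ, X₀ ≤ X →
    (q : ℝ) ≤ X → ∃ x : ℝ, X ≤ x ∧ x ≤ q * X ^ (1 + ε) ∧ ∀ Y : ℝ, x ^ (1 - ε) ≤ vari x q Y := by
  obtain ⟨X₀, hX₀1, hX₀⟩ := main_core (min ε 1) (lt_min hε one_pos) (min_le_right _ _)
  refine ⟨X₀, fun q hq X hX hqX => ?_⟩
  haveI : NeZero q := ⟨by omega⟩
  have hX1 : 1 ≤ X := hX₀1.trans hX
  by_contra hcon
  push Not at hcon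
  refine hX₀ X hX q hq hqX (fun x hx1 hx2 => ?_)
  have hx0 : 1 ≤ x := hX1.trans hx1
  obtain ⟨Y, hY⟩ := hcon x hx1 (hx2.trans (by
    have : X ^ (1 + min ε 1) ≤ X ^ (1 + ε) :=
      Real.rpow_le_rpow_of_exponent_le hX1 (by linarith [min_le_left ε 1])
    gcongr))
  refine (psi_l2 x Y).trans ?_
  have h1 : vari x q Y ≤ x ^ (1 - min ε 1) :=
    hY.le.trans (Real.rpow_le_rpow_of_exponent_le hx0 (by linarith [min_le_left ε 1]))
  gcongr

end Pool.Agent.EM
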